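import Pool.Agent.MP_1a6d78_lc.DD.Spec

/-! PROJECT DD: basic facts. -/

namespace Pool.Agent.MP_1a6d78_lc.DS.DD

open Classical ED PR

section
variable {n : ℕ} {P : ℕ → Prop} {c : ℕ → ℕ} {z : ℕ}

theorem mn_succ : mn (n + 1) P c z = if P n then min (mn n P c z) (c n) else mn n P c z := rfl

theorem mn_le_z : mn n P c z ≤ z := by
  induction n with
  | zero => exact le_rfl
  | succ n ih => rw [mn_succ]; split_ifs <;> omega

theorem mn_le {i : ℕ} (hi : i < n) (h : P i) : mn n P c z ≤ c i := by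
  induction n with
  | zero => omega
  | succ n ih =>
    rw [mn_succ]
    rcases Nat.lt_succ_iff_lt_or_eq.1 hi with k | rfl
    · have := ih k
      split_ifs <;> omega
    · rw [if_pos h]
      exact min_le_right _ _

theorem mn_eq (n : ℕ) (P : ℕ → Prop) (c : ℕ → ℕ) (z : ℕ) :
    mn n P c z = z ∨ ∃ i < n, P i ∧ mn n P c z = c i := by
  induction n with
  | zero => exact Or.inl rfl
  | succ n ih =>
    rw [mn_succ]
    split_ifs with h
    · rcases le_total (mn n P c z) (c n) with k | k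
      · rw [min_eq_left k]
        exact ih.imp id fun ⟨i, a, b⟩ => ⟨i, by omega, b⟩
      · exact Or.inr ⟨n, by omega, h, min_eq_right k⟩
    · exact ih.imp id fun ⟨i, a, b⟩ => ⟨i, by omega, b⟩

theorem le_mn {b : ℕ} (hz : b ≤ z) (h : ∀ i < n, P i → b ≤ c i) : b ≤ mn n P c z := by
  rcases mn_eq n P c z with e | ⟨i, a, p, e⟩ <;> rw [e]
  exacts [hz, h i a p]

end

section
variable {M : Mp} {w w' : ℕ → ℕ} {A : ℕ → Prop} {u v z c W : ℕ}

theorem rc_symm (hi : Iv M.n M.β) (h : Rc M w A u v) : Rc M w A v u :=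
  (h.wt fun _ => 0).elim fun _ k => Rc.wt w ⟨_, k.symm hi fun _ _ _ => rfl⟩

theorem rc_trans (h : Rc M w A u v) (k : Rc M w A v z) : Rc M w A u z :=
  h.elim fun _ a => k.elim fun _ b => ⟨_, a.trans b⟩

theorem ds_tri (h : Rc M w A u v) (k : Rc M w A v z) :
    ds M w A u z ≤ ds M w A u v + ds M w A v z := ds_le ((ds_spec h).trans (ds_spec k))

theorem csz_wt (w w' : ℕ → ℕ) : csz M w A u = csz M w' A u :=
  cnt_congr fun _ _ => and_congr_right fun _ => ⟨Rc.wt w', Rc.wt w⟩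

theorem csz_rc (hi : Iv M.n M.β) (h : Rc M w A u v) : csz M w A u = csz M w A v :=
  cnt_congr fun _ _ => and_congr_right fun _ => ⟨rc_trans (rc_symm hi h), rc_trans h⟩

theorem wk_alt {a b : ℕ} : Wk (alt M M.β a b) w A u v c ↔ Wk M w A u v c := by
  constructor <;> intro h
  · induction h with
    | nil k => exact .nil k
    | step _ a b e e' k ih => exact ih.step a b e e' k
  · induction h with
    | nil k => exact .nil k
    | step _ a b e e' k ih => exact ih.step a b e e' k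

theorem csz_alt {a b : ℕ} : csz (alt M M.β a b) w A u = csz M w A u :=
  cnt_congr fun _ _ => and_congr_right fun _ => exists_congr fun _ => wk_alt

theorem ok_alt (h : M.Ok) {a : ℕ} (ha : a < M.n) (b : ℕ) : (alt M M.β a b).Ok :=
  ⟨h.pm, h.iv, h.pl, ha⟩

theorem Wo.Wpos (h : Wo M w W) : 0 < W := (Nat.zero_le _).trans_lt (h.big _ h.ok.s)

theorem Wo.max (h : Wo M w W) : ∃ m, (∀ d < M.n, w d ≤ m) ∧ M.n * m < W := by
  obtain ⟨d, k1, k2⟩ := Finset.exists_max_image (Finset.range M.n) w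
    ⟨_, Finset.mem_range.2 h.ok.s⟩
  exact ⟨w d, fun e he => k2 e (Finset.mem_range.2 he), h.big d (Finset.mem_range.1 k1)⟩

theorem Wo.ds_lt (h : Wo M w W) (k : Rc M w A u v) (hu : u < M.n) : ds M w A u v < W := by
  obtain ⟨m, m1, m2⟩ := h.max
  refine (ds_bnd h.ok.iv (fun d a _ => m1 d a) k hu).trans_lt (lt_of_le_of_lt ?_ m2)
  rw [Nat.mul_comm]
  exact Nat.mul_le_mul_right _ (Nat.sub_le _ _)

/-- Live vertices are closed under the edges. -/
theorem Wo.clo (h : Wo M w W) {f : Fo} (hf : M.Fit f) {d : ℕ} (hd : d < M.n)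
    (hl : f.live (M.nd d)) : f.live (M.nd (M.β d)) :=
  hf.1.clo _ _ hl ⟨d, hd, h.dir d, rfl, rfl⟩

theorem Wo.live (h : Wo M w W) {f : Fo} (hf : M.Fit f) (k : Wk M w' A u v c) (hu : f.live u) :
    f.live v := (k.inv hu fun _ a _ _ _ b => h.clo hf a b).1

end

theorem nle (x : List Bool) (i : ℕ) : num x i ≤ x.length := RowKk.num_le x i

theorem le_Z (x : List Bool) : 3 * x.length + 3 ≤ Zx x := by
  unfold Zx
  nlinarith [Nat.zero_le (x.length ^ 4), Nat.zero_le (x.length ^ 3), Nat.zero_le (x.length ^ 2)]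

theorem w1_big (x : List Bool) (d : ℕ) : num x 0 * w1 x d < Zx x ∧ w1 x d ≤ Zx x := by
  have a := nle x 0
  have b : wt x d ≤ x.length := nle x _
  have c : w1 x d ≤ (2 * x.length + 2) * x.length + 1 :=
    Nat.succ_le_succ (Nat.mul_le_mul (by omega) b)
  have e := Nat.mul_le_mul a c
  unfold Zx
  constructor <;>
    nlinarith [Nat.zero_le (x.length ^ 4), Nat.zero_le (x.length ^ 3), Nat.zero_le (x.length ^ 2)]

theorem P0.wo {e : ℕ} {x : List Bool} (h : P0 e x) : Wo (inp x) (w1 x) (Zx x) :=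
  ⟨h.ok, fun _ => trivial, fun _ _ _ => Nat.le_add_left _ _, fun d _ => (w1_big x d).1⟩

theorem P0.Z {e : ℕ} {x : List Bool} (h : P0 e x) : Zx x ≤ Mx x ^ (4 * e) := by
  rw [Nat.mul_comm, pow_mul]
  exact Nat.pow_le_pow_left h.len 4

theorem Mx_le (x : List Bool) : Mx x ≤ Zx x := by
  have := le_Z x
  have : Mx x ≤ x.length := nle x _
  omega

section
variable {κ : List Bool → ℕ}

theorem mnC {n z : List Bool → Env → ℕ} {P : List Bool → Env → ℕ → Prop}
    {c : List Bool → Env → ℕ → ℕ} (hn : Cn κ n) (hP : P1 κ P) (hc : F1 κ c) (hz : Cn κ z) :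
    Cn κ fun x ρ => mn (n x ρ) (P x ρ) (c x ρ) (z x ρ) :=
  (kitOne κ).fold (fun x ρ i acc => if P x ρ i then min acc (c x ρ i) else acc) (fun _ _ _ => 0)
    hn hz (K.ite (K.appP (K.wP1 (K.wP1 hP)) (K.v 1))
      (K.min (K.v 0) (K.app (K.wF (K.wF hc)) (K.v 1))) (K.v 0)) (K.c 0)
    fun _ _ _ _ _ h _ => by split_ifs <;> omega

theorem dgC {T q l : List Bool → Env → ℕ} (hT : Cn κ T) (hq : Cn κ q) (hl : Cn κ l) :
    Cn κ fun x ρ => dg (T x ρ) (q x ρ) (l x ρ) :=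
  K.mod ((kitOne κ).fold (fun x ρ _ a => a / T x ρ) (fun _ _ _ => 0) hl hq
    (K.div (K.v 0) (K.w (K.w hT))) (K.c 0) fun _ _ _ _ _ h _ => (Nat.div_le_self _ _).trans h) hT

theorem nmC (i : PiK 1) (κ : List Bool → ℕ) (n : ℕ) : Cn κ fun x _ => num x n :=
  K.app (i.num κ) (K.c n)

theorem MxC (i : PiK 1) (κ : List Bool → ℕ) : Cn κ fun x _ => Mx x :=
  K.app (i.num κ) (K.add (K.add (K.add (K.c 4) (nmC i κ 0)) (nmC i κ 0)) (nmC i κ 0))

theorem w1C (i : PiK 1) (κ : List Bool → ℕ) : F1 κ fun x _ => w1 x :=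
  K.add (K.mul (K.add (K.mul (K.c 2) (nmC i κ 0)) (K.c 2)) (i.wt κ)) (K.c 1)

theorem th1C (i : PiK 1) (κ : List Bool → ℕ) : Cn κ fun x _ => th1 x :=
  K.add (K.mul (K.add (K.mul (K.c 2) (nmC i κ 0)) (K.c 2)) (nmC i κ 3)) (nmC i κ 0)

theorem sk1C (i : PiK 1) (κ : List Bool → ℕ) : SkC κ sk1 :=
  ⟨i.M κ, i.nd κ, w1C i κ, i.Z κ, ⟨K.v 0, K.c 0, i.Z κ, i.lv κ, i.lv κ⟩, i.lv κ,
    fun _ _ _ _ => K.c 0, i.Z κ⟩

end

end Pool.Agent.MP_1a6d78_lc.DS.DD
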