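import Pool.Agent.MP_1a6d78_lc.DD.Basic
import Pool.Agent.MP_1a6d78_lc.GM.Vin
import Pool.Agent.MP_1a6d78_lc.GM.RecC

/-! PROJECT PDD: the code, space and time accounting (rows packed). -/

section MrgPart1

namespace Pool.Agent.MP_1a6d78_lc.DS

open Classical ED PR

theorem roS : RoS := fun r n hr => by
  obtain ⟨k1, k2, k3, -⟩ := kkS r (List.replicate n true) hr
  have e : kk r (List.replicate n true) = ro r n := by
    unfold kk ro
    rw [List.length_replicate]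
  rw [e] at k1 k2 k3
  rw [List.length_replicate] at k2 k3
  have := (Nat.le_self_pow (by omega : r ≠ 0) (ro r n - 1)).trans k3
  exact ⟨k1, k2, k3, by omega⟩

end Pool.Agent.MP_1a6d78_lc.DS

end MrgPart1

section MrgPart2

/-! PROJECT DS, row COD: the map, the weights and the walks read from the code. -/

namespace Pool.Agent.MP_1a6d78_lc.DS

open Classical ED ED.Code PR

namespace Cod

section

variable {n : ℕ} (σ α : Equiv.Perm (Fin n)) (dir : Fin n → Bool) (w : Fin n → ℕ) (s t : Fin n)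
  (θ : ℕ)

theorem c_num (i : ℕ) : num (code σ α dir w s t θ) i =
    ([n, s.val, t.val, θ] ++ (List.ofFn (fun a => (σ a).val) ++ (List.ofFn (fun a => (α a).val) ++
      (List.ofFn w ++ List.ofFn fun a => if dir a then 1 else 0)))).getD i 0 := by
  rw [code, num_unary, List.append_assoc, List.append_assoc, List.append_assoc]

theorem c_n : num (code σ α dir w s t θ) 0 = n := by rw [c_num]; rfl

theorem c_rho (a : Fin n) : num (code σ α dir w s t θ) (4 + a) = σ a := by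
  rw [c_num, getD_right _ _ (n := 4) rfl,
    List.getD_append _ _ _ _ (by rw [List.length_ofFn]; exact a.2), getD_ofFn]

theorem c_beta (a : Fin n) : num (code σ α dir w s t θ) (4 + n + a) = α a := by
  rw [c_num, Nat.add_assoc, getD_right _ _ (n := 4) rfl, getD_right _ _ (n := n) List.length_ofFn,
    List.getD_append _ _ _ _ (by rw [List.length_ofFn]; exact a.2), getD_ofFn]

theorem c_wt (a : Fin n) : num (code σ α dir w s t θ) (4 + n + n + a) = w a := by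
  rw [c_num, Nat.add_assoc, Nat.add_assoc, getD_right _ _ (n := 4) rfl,
    getD_right _ _ (n := n) List.length_ofFn, getD_right _ _ (n := n) List.length_ofFn,
    List.getD_append _ _ _ _ (by rw [List.length_ofFn]; exact a.2), getD_ofFn]

theorem c_dir (a : Fin n) :
    num (code σ α dir w s t θ) (4 + n + n + n + a) = if dir a then 1 else 0 := by
  rw [c_num, Nat.add_assoc, Nat.add_assoc, Nat.add_assoc, getD_right _ _ (n := 4) rfl,
    getD_right _ _ (n := n) List.length_ofFn, getD_right _ _ (n := n) List.length_ofFn,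
    getD_right _ _ (n := n) List.length_ofFn, getD_ofFn]

theorem c_rep : Rep σ α (fun _ => true) s t (inp (code σ α dir w s t θ)) where
  hn := c_n σ α dir w s t θ
  ρ a := c_rho σ α dir w s t θ a
  β a := by
    show num _ (4 + num _ 0 + a) = _
    rw [c_n, c_beta]
  dir a := ⟨fun _ => rfl, fun _ => trivial⟩
  s := by
    show num _ 1 = _
    rw [c_num]; rfl
  t := by
    show num _ 2 = _
    rw [c_num]; rfl

theorem c_w (a : Fin n) : wt (code σ α dir w s t θ) a = w a := by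
  show num _ (4 + num _ 0 + num _ 0 + a) = _
  rw [c_n, c_wt]

theorem c_us (a : Fin n) : us (code σ α dir w s t θ) a ↔ dir a = true := by
  show num _ (4 + num _ 0 + num _ 0 + num _ 0 + a) = 1 ↔ _
  rw [c_n, c_dir]
  cases dir a <;> simp

variable {σ α dir w s} {M : Mp} {u : ℕ → Prop} {v : ℕ → ℕ}

theorem to_walk (hρ : ∀ a : Fin n, M.ρ a = σ a) (hβ : ∀ a : Fin n, M.β a = α a)
    (hw : ∀ a : Fin n, v a = w a) (hu : ∀ a : Fin n, u a ↔ dir a = true) {b c : ℕ}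
    (k : Dw M u v s b c) : ∃ a : Fin n, a.val = b ∧ Walk σ α dir w s a c := by
  induction k with
  | nil => exact ⟨s, rfl, Walk.nil⟩
  | rot _ ih =>
    obtain ⟨a, rfl, h⟩ := ih
    exact ⟨σ a, (hρ a).symm, h.rot⟩
  | edge _ e ih =>
    obtain ⟨a, rfl, h⟩ := ih
    rw [hw a]
    exact ⟨α a, (hβ a).symm, h.edge ((hu a).1 e)⟩

theorem of_walk (hρ : ∀ a : Fin n, M.ρ a = σ a) (hβ : ∀ a : Fin n, M.β a = α a)
    (hw : ∀ a : Fin n, v a = w a) (hu : ∀ a : Fin n, u a ↔ dir a = true) {a : Fin n} {c : ℕ}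
    (k : Walk σ α dir w s a c) : Dw M u v s a c := by
  induction k with
  | nil => exact Dw.nil
  | @rot a _ _ ih => rw [← hρ a]; exact ih.rot
  | @edge a _ _ e ih => rw [← hβ a, ← hw a]; exact ih.edge ((hu a).2 e)

end

end Cod

theorem codS : CodS := by
  intro n σ α dir w s t θ x hα hP hx
  subst hx
  have r := Cod.c_rep σ α dir w s t θ
  obtain ⟨e1, e2, e3⟩ := eulS σ α (fun _ => true) s t _ r hα hP
  refine ⟨⟨e1, e2, (genK swapK nclK).pl e1 e2 e3.le, by rw [r.s, r.hn]; exact s.2⟩, e3,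
    Cod.c_n σ α dir w s t θ, r.s, r.t, by rw [Cod.c_num]; rfl,
    fun a => ⟨r.ρ a, r.β a, Cod.c_w σ α dir w s t θ a, Cod.c_us σ α dir w s t θ a⟩,
    fun c => ⟨fun k => ?_, fun k => ?_⟩⟩
  · obtain ⟨a, e, h⟩ := Cod.to_walk r.ρ r.β (Cod.c_w σ α dir w s t θ) (Cod.c_us σ α dir w s t θ) k
    rw [← Fin.ext e]; exact h
  · exact Cod.of_walk r.ρ r.β (Cod.c_w σ α dir w s t θ) (Cod.c_us σ α dir w s t θ) k

end Pool.Agent.MP_1a6d78_lc.DS

end MrgPart2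

section MrgPart3

/-! PROJECT DS, rows FM and PI: the forest map and the input are computable. -/

namespace Pool.Agent.MP_1a6d78_lc.DS

open Classical ED PR

theorem fmC : FmC := by
  intro κ M f ⟨hn, hρ, hβ, _, _, _⟩ nd hf
  have n0 : Cn κ fun x ρ => (M x).nd (hd (ρ 0)) := nd
  have nb : Cn κ fun x ρ => (M x).nd ((M x).β (hd (ρ 0))) := K.app nd hβ
  have F : Fm.C κ fun x => (M x).F (f x) :=
    ⟨hn, hρ, K.ite (K.and (K.appP hf.2.2.2.1 n0) (K.appP hf.2.2.2.1 nb)) hβ (K.v 0), nd,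
      K.ite (K.and hf.2.2.2.1 (K.ne hf.1 (K.v 0)))
        (K.lst (P := fun x ρ d => (M x).nd d = hd (ρ 0) ∧
          (M x).nd ((M x).β d) = (f x).par (hd (ρ 0))) hn
          (K.and (K.eq n0 (K.v 1)) (K.eq nb (K.app hf.1 (K.v 1))))) hn, hf.2.1⟩
  obtain ⟨tau, -⟩ := (aFm κ).1 _ F
  refine ⟨F, (aFm κ).2 (fun x _ => (M x).n) (fun x _ d => (M x).ρ (((M x).F (f x)).tau d))
    (fun x _ => (M x).rt (f x)) hn (K.app hρ tau) (K.le hn (K.app F.2.2.2.2.1 n0)),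
    fun n P c h1 h2 h3 => ?_⟩
  exact K.app h3 (K.lst (P := fun x ρ q => P x ρ q ∧ ∀ q' < n x ρ, P x ρ q' → c x ρ q ≤ c x ρ q')
    h1 (K.and h2 (K.all
      (P := fun x ρ q' => P x (tl ρ) q' → c x (tl ρ) (hd (ρ 0)) ≤ c x (tl ρ) q') (K.w h1)
      (K.imp (K.appP (K.wP1 (K.wP1 h2)) (K.v 0))
        (K.le (K.app (K.wF (K.wF h3)) (K.v 1)) (K.app (K.wF (K.wF h3)) (K.v 0)))))))

namespace Fmx

/-- A computable number is bounded by a polynomial. -/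
theorem pol {b : List Bool → ℕ} (h : Cn (fun _ => 1) fun x _ => b x) :
    ∃ e, ∀ x, b x ≤ (x.length + 2) ^ e := by
  obtain ⟨c, h1, -⟩ := h
  refine ⟨2 * c, fun x => ?_⟩
  have h2 := h1 x (fun _ => []) (x.length + 1)
    ⟨le_rfl, Nat.le_add_left _ _, Nat.le_succ _, fun _ _ k => absurd k List.not_mem_nil⟩ (b x)
    (List.mem_singleton.2 rfl)
  rw [pow_mul]
  exact h2.trans (Nat.pow_le_pow_left (by nlinarith) c)

end Fmx

theorem piS : PiS := by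
  intro _ hF r _
  have num : ∀ {κ : List Bool → ℕ} {a : List Bool → Env → ℕ}, Cn κ a →
      Cn κ fun x ρ => num x (a x ρ) := fun h => AlgD.numC (kitOne _) (kitTwo _) h
  have hn : ∀ κ, Cn κ fun x _ => ED.num x 0 := fun _ => num (K.c 0)
  have hM : ∀ κ, Mp.C κ inp := fun κ =>
    ⟨hn κ, num (K.add (K.c 4) (K.v 0)), num (K.add (K.add (K.c 4) (hn κ)) (K.v 0)),
      K.cgP (K.eq (K.c 0) (K.c 0)) fun _ _ => ⟨fun _ => trivial, fun _ => rfl⟩, num (K.c 1),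
      num (K.c 2)⟩
  have nd : ∀ κ, F1 κ fun x _ => (inp x).nd := fun κ =>
    K.lst (P := fun x ρ => Sc (inp x).n (inp x).ρ (hd (ρ 0))) (hM κ).1
      (K.sc (hM κ).1 (hM κ).2.1 (K.v 1) (K.v 0))
  have hro : ∀ κ, Cn κ fun x _ => ro r (ED.num x 0) := fun κ =>
    (kitOne κ).fold (fun x _ m acc => if m ^ r ≤ ED.num x 0 then m + 1 else acc)
      (fun _ _ m => m + 1) (K.add (hn κ) (K.c 1)) (K.c 0)
      ((kitOne κ).ile (K.pow r (K.v 1)) (hn κ) (K.add (K.v 1) (K.c 1)) (K.v 0))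
      (K.add (K.v 0) (K.c 1)) fun _ _ _ _ _ h1 h2 => by split_ifs <;> assumption
  have hmu : ∀ κ, Cn κ fun x _ => mu r (Dx r x) := fun κ =>
    K.mul (K.c (4000 * (r + 1))) (K.pow 4 (K.mul (K.c 5000) (hro κ)))
  have hk : ∀ κ, Cn κ fun x _ => kx r x := fun κ =>
    K.pow 5 (K.add (K.add (K.add (K.mul (K.c 6) (K.mul (K.mul (hmu κ) (K.add (hmu κ) (K.c 1)))
      (K.c (r + 1)))) (hmu κ)) (K.c 1)) (K.c 2))
  have hb : ∀ κ, Cn κ fun x _ => bs r x := fun κ => K.pow 3 (K.add (hk κ) (K.c 2))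
  refine ⟨fun _ => num (K.v 0), hM, nd,
    fun κ => num (K.add (K.add (K.add (K.c 4) (hn κ)) (hn κ)) (K.v 0)),
    fun κ => K.pow 2 (K.add (kitOne κ).len (K.c 1)), fun κ => K.pow 4 (K.add (kitOne κ).len (K.c 2)),
    hro, hk, fun κ => ?_, ⟨fun _ => le_rfl, hb, Fmx.pol (hb _)⟩, fun x => ?_⟩
  · have v : P1 κ fun x _ v => v < (inp x).n ∧ (inp x).nd v = v :=
      K.and (K.lt (K.v 0) (hn κ)) (K.eq (nd κ) (K.v 0))
    obtain ⟨F, -⟩ := hF κ inp (fun x => (inp x).f0) (hM κ) (nd κ) ⟨K.v 0, K.c 0, K.c 1, v, v⟩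
    obtain ⟨tau, -⟩ := (aFm κ).1 _ F
    have p := (aFm κ).2 (fun x _ => (inp x).n)
      (fun x _ d => (inp x).ρ (((inp x).F (inp x).f0).tau d)) (fun _ _ _ => True) (hM κ).1
      (K.app (hM κ).2.1 tau) (hM κ).2.2.2.1
    exact K.and (K.lt (K.v 0) (hn κ)) (K.and (K.eq (nd κ) (K.v 0))
      (K.eq (K.div p (hn κ)) (K.div (K.app p (hM κ).2.2.2.2.1) (hn κ))))
  · have h1 : 5 * Dx r x ^ 4 ≤ mu r (Dx r x) := Nat.mul_le_mul_right _ (by omega)
    have h2 : bq (r + 1) (mu r (Dx r x)) + 2 ≤ kx r x := Nat.le_self_pow (by omega) _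
    have h3 : kx r x + 2 ≤ bs r x := Nat.le_self_pow (by omega) _
    unfold bq at h2
    omega

end Pool.Agent.MP_1a6d78_lc.DS

end MrgPart3

section MrgPart4

/-! PROJECT DD, row PO: a call on a virtual instance is computable. -/

namespace Pool.Agent.MP_1a6d78_lc.DS.DD

open Classical ED PR

namespace PoL

def pq (e : ℕ → ℕ) (i : ℕ) : ℕ := ∑ j ∈ Finset.range i, (e j + 1)

theorem un_succ (e : ℕ → ℕ) (M : ℕ) :
    unary (tab (M + 1) e) = unary (tab M e) ++ (List.replicate (e M) true ++ [false]) := by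
  simp [unary, tab, List.range_succ]

theorem un_len (e : ℕ → ℕ) : ∀ M, (unary (tab M e)).length = pq e M
  | 0 => rfl
  | M + 1 => by
    rw [un_succ, List.length_append, un_len e M, pq, pq, Finset.sum_range_succ]
    simp

theorem pq_mono (e : ℕ → ℕ) {i j : ℕ} (h : i ≤ j) : pq e i ≤ pq e j :=
  Finset.sum_le_sum_of_subset (Finset.range_mono h)

theorem un_bit (e : ℕ → ℕ) (p : ℕ) : ∀ M, bit (unary (tab M e)) p =
    if p < pq e M ∧ ∀ i < M, p + 1 ≠ pq e (i + 1) then 1 else 0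
  | 0 => by simp [bit, unary, tab, pq]
  | M + 1 => by
    have a : pq e (M + 1) = pq e M + (e M + 1) := Finset.sum_range_succ _ _
    have ih := un_bit e p M
    rw [bit] at ih ⊢
    rw [un_succ]
    rcases lt_or_ge p (pq e M) with h | h
    · rw [List.getElem?_append_left (by rwa [un_len]), ih]
      refine if_congr ⟨fun k => ⟨by omega, fun i hi => ?_⟩, fun k => ⟨h, fun i hi => k.2 i (by omega)⟩⟩
        rfl rfl
      rcases Nat.lt_succ_iff_lt_or_eq.1 hi with hi | rfl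
      · exact k.2 i hi
      · omega
    · rw [List.getElem?_append_right (by rwa [un_len]), un_len]
      refine if_congr ⟨fun k => ?_, fun k => ?_⟩ rfl rfl
      · have : p - pq e M < e M := by
          by_contra c
          rw [List.getElem?_append_right (by simpa using c)] at k
          rcases Nat.eq_zero_or_pos (p - pq e M - (List.replicate (e M) true).length) with z | z
          · rw [z] at k; simp at k
          · rw [List.getElem?_eq_none (by simp at z ⊢; omega)] at k; simp at k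
        refine ⟨by omega, fun i hi => ?_⟩
        rcases Nat.lt_succ_iff_lt_or_eq.1 hi with hi | rfl
        · have := pq_mono e (show i + 1 ≤ M from hi); omega
        · omega
      · have := k.2 M M.lt_succ_self
        have := k.1
        rw [List.getElem?_append_left (by simp; omega), List.getElem?_replicate, if_pos (by omega)]

theorem pq_le {e : ℕ → ℕ} {N : ℕ} (h : ∀ i, e i ≤ N) (M : ℕ) : pq e M ≤ M * (N + 1) := by
  refine (Finset.sum_le_card_nsmul _ _ (N + 1) fun i _ => Nat.succ_le_succ (h i)).trans ?_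
  simp

theorem pg {κ f : List Bool → ℕ} (h : Cn κ fun x _ => f x) : GM.Pg κ f := by
  obtain ⟨c, -, h⟩ := h
  obtain ⟨p, hp⟩ := h (fun _ => 0) 1 fun _ => Nat.one_pos
  exact ⟨p, 1, c, fun x B h1 h2 h3 => ⟨_, hp x (fun _ => []) B ⟨h1, h2, h3, by simp⟩
    (fun _ => Nat.zero_le _) fun _ _ => rfl, by simp [hd]⟩⟩

/-- A computable number is bounded by a polynomial. -/
theorem pol {b : List Bool → ℕ} (h : Cn (fun _ => 1) fun x _ => b x) :
    ∃ e, ∀ x, b x ≤ (x.length + 2) ^ e := by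
  obtain ⟨c, h1, -⟩ := h
  refine ⟨2 * c, fun x => ?_⟩
  have h2 := h1 x (fun _ => []) (x.length + 1)
    ⟨le_rfl, Nat.le_add_left _ _, Nat.le_succ _, fun _ _ k => absurd k List.not_mem_nil⟩ (b x)
    (List.mem_singleton.2 rfl)
  rw [pow_mul]
  exact h2.trans (Nat.pow_le_pow_left (by nlinarith) c)

theorem pw_le (x : List Bool) {a b : ℕ} (h : a ≤ b) : (x.length + 2) ^ a ≤ (x.length + 2) ^ b :=
  Nat.pow_le_pow_right (by omega) h

theorem lt_pw (x : List Bool) (a : ℕ) : a < (x.length + 2) ^ a := Nat.lt_pow_self (by omega)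

variable (x : List Bool) (β w : ℕ → ℕ) (u v θ m : ℕ)

theorem Mx_vz : Mx (vz x β w u v θ m) ≤ m := by
  have h : num (vz x β w u v θ m) 0 = num x 0 := by
    have := nle x 0
    have := le_Z x
    refine (ED.Code.num_unary _ _).trans ((gt_tb _ (by omega)).trans ?_)
    rw [en2, if_neg (by omega), ent, if_pos rfl]
    omega
  rw [Mx, h]
  refine ((ED.Code.num_unary _ _).trans (gt_tb _ (by omega))).trans_le ?_
  rw [en2, if_pos rfl]
  exact min_le_right _ _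

theorem en_le (i : ℕ) : en2 x β w u v θ m i ≤ Zx x := by
  unfold en2
  split_ifs <;> exact min_le_left _ _

theorem len_vz : (vz x β w u v θ m).length ≤ (x.length + 2) ^ 8 := by
  refine ((un_len _ _).trans_le (pq_le (N := Zx x) (en_le x β w u v θ m) _)).trans ?_
  have := nle x 0
  have h : 1 ≤ Zx x := Nat.one_le_pow _ _ (by omega)
  calc _ ≤ (x.length + 2) ^ 4 * Zx x := by
        refine (Nat.mul_le_mul (show _ ≤ 4 * (x.length + 2) by omega)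
          (show _ ≤ 2 * Zx x by omega)).trans ?_
        have : 2 ^ 3 ≤ (x.length + 2) ^ 3 := Nat.pow_le_pow_left (by omega) 3
        rw [pow_succ _ 3]
        nlinarith [Nat.mul_le_mul_right ((x.length + 2) * Zx x) this]
    _ = _ := by rw [Zx, ← pow_add]

theorem vz_min {q : ℕ} (h : Zx x ≤ q) :
    vz x β w (min q u) (min q v) (min q θ) m = vz x β w u v θ m := by
  unfold vz
  refine congrArg unary (tab_cg fun i _ => ?_)
  unfold en2 ent
  split_ifs <;> omega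

end PoL

open PoL

theorem poS2 : PoS := by
  rintro hi m φ hm ⟨A1, h1⟩ hφ β w ⟨A2, h2⟩
  have hbc : ∀ κ, Cn κ fun x _ => bm m x := fun κ =>
    K.pow 7 (K.add (K.mul (K.c 5000) (hm κ)) (K.c 2))
  obtain ⟨e, he⟩ := pol (hbc _)
  have b8 : ∀ (m : List Bool → ℕ) x, 8 ≤ bm m x := fun m x =>
    le_trans (by norm_num) (Nat.pow_le_pow_left (Nat.le_add_left 2 _) 7)
  have hle : ∀ x β w u v θ, bm Mx (vz x β w u v θ (m x)) ≤ bm m x := fun x β w u v θ =>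
    Nat.pow_le_pow_left (by have := Mx_vz x β w u v θ (m x); omega) 7
  generalize bm m = b at h2 hbc he hle ⊢
  have b9 : ∀ x, 8 ≤ b x := fun x => (b8 _ _).trans (hle x id id 0 0 0)
  obtain ⟨κ0, k0⟩ : ∃ κ0 : List Bool → ℕ, κ0 = fun x => (A1 + 1 + A2) * b x := ⟨_, rfl⟩
  obtain ⟨q, eq⟩ : ∃ q : List Bool → ℕ, q = fun x => (x.length + 2) ^ (A1 + 1 + e + 8) := ⟨_, rfl⟩
  have q8 : ∀ x, (x.length + 2) ^ 8 ≤ q x := fun x => eq ▸ pw_le x (by omega)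
  have k8 : ∀ x, 8 ≤ κ0 x := fun x => k0 ▸ (b9 x).trans (Nat.le_mul_of_pos_left _ (by omega))
  obtain ⟨cβ, cw⟩ := h2 κ0 fun x => k0 ▸ Nat.mul_le_mul_right _ (by omega)
  have cn : Cn κ0 fun x _ => num x 0 := K.app (hi.num κ0) (K.c 0)
  have cN : Cn κ0 fun x _ => 4 + num x 0 + num x 0 + num x 0 :=
    K.add (K.add (K.add (K.c 4) cn) cn) cn
  have cM : Cn κ0 fun x _ => 4 + num x 0 + num x 0 + num x 0 + 1 := K.add cN (K.c 1)
  have ce0 : F1 κ0 fun x ρ => ent x (β x) (w x) (gt (ρ 0) 0) (gt (ρ 0) 1) (gt (ρ 0) 2) :=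
    K.min (hi.Z κ0) (K.ite (K.eq (K.v 0) (K.c 0)) cn
      (K.ite (K.eq (K.v 0) (K.c 1)) (K.gt (K.vL 1) (K.c 0))
      (K.ite (K.eq (K.v 0) (K.c 2)) (K.gt (K.vL 1) (K.c 1))
      (K.ite (K.eq (K.v 0) (K.c 3)) (K.gt (K.vL 1) (K.c 2))
      (K.ite (K.lt (K.v 0) (K.add (K.c 4) cn)) (hi.num κ0)
      (K.ite (K.lt (K.v 0) (K.add (K.add (K.c 4) cn) cn))
        (K.app cβ (K.sub (K.v 0) (K.add (K.c 4) cn)))
        (K.app cw (K.sub (K.v 0) (K.add (K.add (K.c 4) cn) cn)))))))))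
  have ce : F1 κ0 fun x ρ => en2 x (β x) (w x) (gt (ρ 0) 0) (gt (ρ 0) 1) (gt (ρ 0) 2) (m x) :=
    K.ite (K.eq (K.v 0) cN) (K.min (hi.Z κ0) (hm κ0)) ce0
  have cp : F1 κ0 fun x ρ =>
      pq (en2 x (β x) (w x) (gt (ρ 0) 0) (gt (ρ 0) 1) (gt (ρ 0) 2) (m x)) :=
    (kitOne κ0).sum
      (fun x ρ j => en2 x (β x) (w x) (gt (ρ 1) 0) (gt (ρ 1) 1) (gt (ρ 1) 2) (m x) j + 1)
      (K.v 0) (K.add (K.wF ce) (K.c 1))
  have cF : SC.Nq κ0 q q fun x _ ρ =>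
      φ (vz x (β x) (w x) (gt (ρ 0) 0) (gt (ρ 0) 1) (gt (ρ 0) 2) (m x)) := by
    refine GM.vin (fun y => (A1 + 1) * bm Mx y) φ
      (pg (h1 _ fun y => Nat.mul_le_mul_right _ (by omega)))
      (fun y => Nat.mul_pos (by omega) (by have := b8 Mx y; omega)) hφ κ0 q q
      (fun x _ ρ => vz x (β x) (w x) (gt (ρ 0) 0) (gt (ρ 0) 1) (gt (ρ 0) 2) (m x))
      (fun x _ ρ => ?_)
      (SC.Q.lift (K.cg (K.app cp cM) fun x ρ => (un_len _ _).symm))
      (SC.Q.lift (K.cg (K.ite (i := fun _ _ => instDecidableAnd)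
        (K.and (K.lt (K.v 0) (K.w (K.app cp cM)))
          (K.all (P := fun x ρ i => hd (ρ 0) + 1 ≠
            pq (en2 x (β x) (w x) (gt (ρ 1) 0) (gt (ρ 1) 1) (gt (ρ 1) 2) (m x)) (i + 1)) cM
            (K.ne (K.add (K.v 1) (K.c 1)) (K.cg (K.app (K.wF (K.wF cp)) (K.add (K.v 0) (K.c 1)))
              fun _ _ => rfl)))) (K.c 1) (K.c 0)) fun x ρ => (un_bit _ _ _).symm))
    refine ⟨(len_vz ..).trans (q8 x), ?_, ?_⟩
    · exact k0 ▸ Nat.mul_le_mul (by omega) (hle ..)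
    · refine eq ▸ (Nat.mul_le_mul (lt_pw x _).le ((hle ..).trans (he x))).trans ?_
      rw [← pow_add]
      exact pw_le x (by omega)
  obtain ⟨E, hE⟩ := GM.recC κ0 q q (fun _ => 1)
    (fun x _ l => φ (vz x (β x) (w x) (gt l 0) (gt l 1) (gt l 2) (m x))) (A1 + 1 + e + 8 + 1) cF
    (fun x _ _ => (hφ _).trans ((Nat.one_le_pow _ _ (by omega)).trans (q8 x)))
    (fun x => by have := k8 x; omega) fun x => by
      have := (lt_pw x 8).le.trans (q8 x)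
      have e' : (x.length + 2) ^ (A1 + 1 + e + 8 + 1) = q x * (x.length + 2) := by rw [eq, pow_succ]
      rw [e', pow_one]
      refine ⟨?_, ?_, ?_⟩ <;> nlinarith
  refine ⟨E * (A1 + 1 + A2 + 1) * 2 + 1, fun κ hκ a1 a2 a3 c1 c2 c3 => ?_⟩
  have k3 : ∀ x, 3 ≤ κ x := fun x => by
    have := hκ x
    have := b9 x
    rw [Nat.add_mul] at *
    omega
  have cR := hE κ (fun x => le_trans (by
      have := b9 x
      rw [k0]
      nlinarith [Nat.mul_le_mul_left E (show 1 ≤ b x by omega)]) (hκ x)) (K.c 1)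
    (k0 ▸ K.mul (K.c _) (hbc κ)) (eq ▸ K.pow _ (K.add (kitOne κ).len (K.c 2)))
  refine K.cg ((kitA κ).bind _ _ ((kitOne κ).tab (n := fun _ => 3)
    (fun x ρ i => if i = 0 then a1 x ρ else if i = 1 then a2 x ρ else a3 x ρ) k3 (K.c 3)
    (K.ite (K.eq (K.v 0) (K.c 0)) (K.w c1) (K.ite (K.eq (K.v 0) (K.c 1)) (K.w c2) (K.w c3)))) cR)
    fun x ρ => ?_
  have := k8 x
  refine Eq.trans ?_ (congrArg φ (vz_min x _ _ _ _ _ _ ((pw_le x (by omega)).trans (q8 x))))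
  simp only [rc, GM.clip]
  rw [gt_tb _ (by omega), gt_tb _ (by omega), gt_tb _ (by omega)]
  rfl

end Pool.Agent.MP_1a6d78_lc.DS.DD

end MrgPart4

section MrgPart5

/-! PROJECT DD, row PN: one level is computable. -/

namespace Pool.Agent.MP_1a6d78_lc.DS.DD

open Classical ED PR

namespace PnL

variable {φ : List Bool → ℕ} {κ : List Bool → ℕ} {f : List Bool → Fo}

theorem orcC (hP : PoS) (pi : PiK 1) (hφ : Ev (bm Mx) fun κ => Cn κ fun x _ => φ x)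
    (h1 : ∀ y, φ y ≤ 1) (A : List Bool → ℕ → Prop)
    (h : Ev (bm Mx) fun κ => P1 κ fun x _ => A x) :
    Ev (bm Mx) fun κ => F2 κ fun x => or2 φ x (A x) :=
  (hP pi Mx φ (MxC pi) hφ h1 (fun x => sub (inp x) (A x)) w1 (h.imp fun κ _ k =>
    ⟨K.ite (K.and (K.not (K.appP k (pi.nd κ)))
      (K.not (K.appP k (K.app (pi.nd κ) (pi.M κ).2.2.1)))) (pi.M κ).2.2.1 (K.v 0), w1C pi κ⟩)).imp
    fun κ _ o a b ha hb => K.lst (P := fun x ρ θ => θ = Zx x ∨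
      φ (vz x (sub (inp x) (A x)) (w1 x) (b x ρ) (a x ρ) θ (Mx x)) = 1) (K.add (pi.Z κ) (K.c 1))
      (K.or (K.eq (K.v 0) (pi.Z κ)) (K.eq (o _ _ _ (K.w hb) (K.w ha) (K.v 0)) (K.c 1)))

theorem dz (x : List Bool) : 5 * Dz x ^ 4 + 1 ≤ bm Mx x := by
  have a : Dz x ^ 4 + 1 ≤ (Dz x + 2) ^ 4 :=
    Nat.pow_lt_pow_left (Nat.lt_add_of_pos_right (by norm_num)) (by norm_num)
  have b : 2 ^ 3 ≤ (Dz x + 2) ^ 3 := Nat.pow_le_pow_left (Nat.le_add_left _ _) 3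
  have c := Nat.mul_le_mul b a
  rw [← pow_add] at c
  exact le_trans (by omega) c

theorem plC (hF : FmC) (pi : PiK 1) {R : List Bool → ℕ} (hR : Cn κ fun x _ => R x)
    (hf : Fo.C κ f) : Fo.C κ fun x => pl (inp x) (f x) (R x) :=
  have pos := (hF κ inp f (pi.M κ) (pi.nd κ) hf).2.1
  ⟨hf.1, hf.2.1, hf.2.2.1, hf.2.2.2.1, K.or hf.2.2.2.2 (K.and hf.2.2.2.1 (K.eq (K.mod
    (K.cnt (P := fun x ρ u => (f x).live u ∧
      ((inp x).L (f x)).pos u < ((inp x).L (f x)).pos (hd (ρ 0))) (pi.M κ).1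
      (K.and hf.2.2.2.1 (K.lt pos (K.app pos (K.v 1))))) hR) (K.c 0)))⟩

theorem ldC (pi : PiK 1) (e : ∀ x, bm Mx x ≤ κ x) (hf : Fo.C κ f) :
    (P1 κ fun x _ => ((inp x).ld (Dz x) (f x)).K) ∧
      P1 κ fun x _ => (inp x).X (Dz x) (f x) :=
  have h := (aLd aFm aLn (aPt aFm aLn aBall) κ Dz inp (pi.M κ) (K.mul (K.c 5000) (MxC pi κ))
    fun x => (dz x).trans (e x)).2.2 f hf
  ⟨h.1.2.1, h.2⟩

theorem nxC (hF : FmC) (pi : PiK 1) {A X : List Bool → ℕ → Prop} {o : List Bool → ℕ → ℕ → ℕ}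
    (hf : Fo.C κ f) (hA : P1 κ fun x _ => A x) (hX : P1 κ fun x _ => X x) (ho : F2 κ o) :
    Fo.C κ fun x => nxF (inp x) (w1 x) (Zx x) (f x) (A x) (X x)
      (dK (inp x) (w1 x) (A x) (o x) (Zx x)) := by
  have hn := (pi.M κ).1
  have hβ := (pi.M κ).2.2.1
  have nd := pi.nd κ
  have n0 : Cn κ fun x ρ => (inp x).nd (hd (ρ 0)) := nd
  have nb : Cn κ fun x ρ => (inp x).nd ((inp x).β (hd (ρ 0))) := K.app nd hβ
  have o1 : Cn κ fun x ρ => o x (hd (ρ 1)) ((inp x).nd (hd (ρ 0))) := ho _ _ (K.v 1) n0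
  have δ : F1 κ fun x _ => dK (inp x) (w1 x) (A x) (o x) (Zx x) :=
    K.ite hA (K.c 0) ((hF κ inp f (pi.M κ) nd hf).2.2 (fun x _ => (inp x).n)
      (fun x ρ d => (inp x).β d ≠ d ∧ ¬A x ((inp x).nd d) ∧ A x ((inp x).nd ((inp x).β d)) ∧
        o x (hd (ρ 0)) ((inp x).nd d) < Zx x)
      (fun x ρ d => o x (hd (ρ 0)) ((inp x).nd d) + w1 x d) hn
      (K.and (K.ne hβ (K.v 0)) (K.and (K.not (K.appP hA n0))
        (K.and (K.appP hA nb) (K.lt o1 (pi.Z κ))))) (K.add o1 (w1C pi κ)))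
  exact ⟨K.ite hA hf.1 (K.app nd (K.app hβ (K.lst (P := fun x ρ d => (inp x).nd d = hd (ρ 0) ∧
      (inp x).β d ≠ d ∧ w1 x d + dK (inp x) (w1 x) (A x) (o x) (Zx x) ((inp x).nd ((inp x).β d)) =
        dK (inp x) (w1 x) (A x) (o x) (Zx x) (hd (ρ 0))) hn
      (K.and (K.eq n0 (K.v 1)) (K.and (K.ne hβ (K.v 0))
        (K.eq (K.add (w1C pi κ) (K.app δ nb)) (K.app δ (K.v 1)))))))),
    K.ite hA hf.2.1 (K.add hf.2.2.1 δ), K.add hf.2.2.1 (pi.Z κ), hf.2.2.2.1, hX⟩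

theorem xsC (pi : PiK 1) (e : ∀ x, bm Mx x ≤ κ x) (hf : Fo.C κ f) :
    (P1 κ fun x _ => xs2 x (Dz x) (f x)) ∧
      P1 κ fun x _ => anc (inp x).n (f x).par (xs2 x (Dz x) (f x)) :=
  have hn := (pi.M κ).1
  have X : P1 κ fun x _ => xs2 x (Dz x) (f x) :=
    K.or (ldC pi e hf).2
      (K.and (K.eq (K.v 0) (K.app (pi.nd κ) (pi.M κ).2.2.2.2.2)) hf.2.2.2.1)
  ⟨X, K.ex (P := fun x ρ y => xs2 x (Dz x) (f x) y ∧
    ∃ t < (inp x).n, it (inp x).n (f x).par t y = hd (ρ 0)) hn (K.and X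
      (K.ex (P := fun x ρ t => it (inp x).n (f x).par t (hd (ρ 0)) = hd (ρ 1)) hn
        (K.eq (K.it hn hf.1 (K.v 0) (K.v 1)) (K.v 2))))⟩

end PnL

open PnL in
theorem pnS2 : PnS := by
  intro hF pi hP φ R hφ h1 hR l
  have hf : Ev (bm Mx) fun κ => Fo.C κ fun x => le2 φ x (Dz x) (R x) l := by
    induction l with
    | zero =>
      exact Ev.all fun κ => plC (f := fun x => f1 (inp x) (Zx x)) hF pi (hR κ)
        ⟨K.v 0, K.c 0, pi.Z κ, pi.lv κ, pi.lv κ⟩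
    | succ l ih =>
      refine (ih.and (orcC hP pi hφ h1
        (fun x => ((inp x).ld (Dz x) (le2 φ x (Dz x) (R x) l)).K)
        (ih.imp fun κ e k => (ldC pi e k).1))).imp fun κ e k => ?_
      exact plC (f := fun x => nx2 φ x (Dz x) (le2 φ x (Dz x) (R x) l)) hF pi (hR κ)
        (nxC hF pi k.1 (ldC pi e k.1).1 (ldC pi e k.1).2 k.2)
  exact (hf.and (orcC hP pi hφ h1 (fun x => anc (inp x).n (le2 φ x (Dz x) (R x) l).par
    (xs2 x (Dz x) (le2 φ x (Dz x) (R x) l))) (hf.imp fun κ e k => (xsC pi e k).2))).imp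
    fun κ e k => ⟨pi.M κ, pi.nd κ, w1C pi κ, pi.Z κ, k.1, (xsC pi e k.1).1, k.2, pi.Z κ⟩

end Pool.Agent.MP_1a6d78_lc.DS.DD

end MrgPart5

section MrgPart6

/-! PROJECT DD, row PG: the table is computable. -/

namespace Pool.Agent.MP_1a6d78_lc.DS.DD

open Classical ED PR

namespace PgL

variable {κ : List Bool → ℕ} {A : List Bool → Ab} {L : ℕ} {δ τ v y : List Bool → Env → ℕ}

theorem bel (h : AbC κ A L) (hv : Cn κ v) (hy : Cn κ y) :
    Cp κ fun x ρ => (A x).bel (v x ρ) (y x ρ) :=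
  K.and (K.lt hy h.n) (K.and (K.appP h.X hy) (K.sc h.n h.par hy hv))

theorem lv (h : AbC κ A L) (hv : Cn κ v) : Cn κ fun x ρ => (A x).lv (v x ρ) :=
  K.div (K.app h.ht hv) h.W

theorem qn (h : AbC κ A L) : Cn κ fun x _ => (A x).Qn := K.add (K.mul (K.c 2) h.Q) (K.c 1)

theorem th (h : AbC κ A L) (hδ : Cn κ δ) (hτ : Cn κ τ) (hv : Cn κ v) (hy : Cn κ y) :
    Cn κ fun x ρ => (A x).th (δ x ρ) (τ x ρ) (v x ρ) (y x ρ) :=
  K.add (K.add (K.mod (K.app h.ht hv) h.W) (dgC (K.add (K.mul (K.c 2) h.W) (K.c 1)) hτ (lv h hv)))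
    (K.mul hy (K.add (K.div hδ h.Q) (K.c 1)))

theorem sz (h : AbC κ A L) : Cn κ fun x _ => (A x).sz L := K.mul (K.mul h.mu (K.c L)) (qn h)

theorem mkT (h : AbC κ A L) (hδ : Cn κ δ) (hτ : Cn κ τ) {nw : List Bool → Env → ℕ → ℕ}
    (hn : F1 κ nw) : Cm κ fun x ρ => (A x).mkT L (δ x ρ) (τ x ρ) (nw x ρ) :=
  (kitOne κ).tab (fun x ρ i => mn (A x).n (fun a =>
      (A x).bel a (sel (A x).n (A x).X (i / (A x).Qn / L)) ∧ (A x).lv a = i / (A x).Qn % L ∧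
        nw x ρ a ≤ (A x).th (δ x ρ) (τ x ρ) a (i % (A x).Qn)) (A x).ht (L * (A x).W)) h.sz (sz h)
    (mnC (P := fun x ρ a => (A x).bel a (sel (A x).n (A x).X (hd (ρ 0) / (A x).Qn / L)) ∧
        (A x).lv a = hd (ρ 0) / (A x).Qn % L ∧
          nw x (tl ρ) a ≤ (A x).th (δ x (tl ρ)) (τ x (tl ρ)) a (hd (ρ 0) % (A x).Qn)) h.n
      (K.and (bel h (K.v 0) (K.app (K.sel h.n h.X) (K.div (K.div (K.v 1) (qn h)) (K.c L))))
        (K.and (K.eq (lv h (K.v 0)) (K.mod (K.div (K.v 1) (qn h)) (K.c L)))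
          (K.le (K.wF hn) (th h (K.w (K.w hδ)) (K.w (K.w hτ)) (K.v 0) (K.mod (K.v 1) (qn h))))))
      h.ht (K.mul (K.c L) h.W))

end PgL

open PgL in
theorem pgS : PgS := fun κ A L h =>
  ⟨K.ex (P := fun x ρ a => (A x).X a ∧ Sc (A x).n (A x).par a (hd (ρ 0))) h.n
      (K.and h.X (K.sc h.n h.par (K.v 0) (K.v 1))),
    fun δ _ τ y T hδ h0 hτ hT hy => K.ite (K.eq hy h0) h.W
      (mnC (P := fun x ρ i => (A x).bel (y x ρ) (sel (A x).n (A x).X (i / (A x).Qn)) ∧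
          gt (T x ρ) ((i / (A x).Qn * L + (A x).lv (y x ρ)) * (A x).Qn + i % (A x).Qn) ≤
            (A x).ht (y x ρ))
        (c := fun x ρ i => (A x).th (δ x ρ) (τ x ρ) (y x ρ) (i % (A x).Qn)) (K.mul h.mu (qn h))
        (K.and (bel h (K.w hy) (K.app (K.sel h.n h.X) (K.div (K.v 0) (qn h))))
          (K.le (K.gt (K.wL hT) (K.add (K.mul (K.add (K.mul (K.div (K.v 0) (qn h)) (K.c L))
            (PgL.lv h (K.w hy))) (qn h)) (K.mod (K.v 0) (qn h)))) (K.app h.ht (K.w hy))))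
        (th h (K.w hδ) (K.w hτ) (K.w hy) (K.mod (K.v 0) (qn h))) (K.mul (K.c 2) h.W)),
    fun δ τ _ nw hδ hτ hm hn => (kitOne κ).foldL
      (fun x ρ _ T => (A x).mkT L (δ x ρ) (τ x ρ) (nw x ρ T)) (fun x _ _ => L * (A x).W) hm
      ((kitOne κ).tab (fun x _ _ => L * (A x).W) h.sz (sz h) (K.mul (K.c L) h.W))
      (mkT (nw := fun x ρ => nw x (tl (tl ρ)) (ρ 0)) h (K.w (K.w hδ)) (K.w (K.w hτ))
        ((kitA κ).ren _ (fun i => match i with
          | 0 => 0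
          | 1 => 1
          | i + 2 => i + 3) hn))
      (K.mul (K.c L) h.W) fun _ _ _ _ _ _ k a ha => by
        obtain ⟨i, -, rfl⟩ := List.mem_map.1 ha
        exact mn_le_z.trans k⟩

end Pool.Agent.MP_1a6d78_lc.DS.DD

end MrgPart6

section MrgPart7

/-! PROJECT DD, rows PW and PA: the window algorithm and the final stage are computable. -/

namespace Pool.Agent.MP_1a6d78_lc.DS.DD

open Classical ED PR

namespace PwL

variable {κ : List Bool → ℕ}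

theorem tr : P1 κ fun _ _ _ => True :=
  K.cgP (K.eq (K.c 0) (K.c 0)) fun _ _ => by simp

section
variable {A : List Bool → Ab} {L : ℕ} (h : AbC κ A L) (g : PgK κ A L)
  {δ δ' y0 τ z : List Bool → Env → ℕ} {T : List Bool → Env → List ℕ}
include h g

theorem n0C (hδ : Cn κ δ) (hy : Cn κ y0) (hτ : Cn κ τ) (hT : Cm κ T) (hz : Cn κ z) :
    Cn κ fun x ρ => (A x).n0 L (δ x ρ) (y0 x ρ) (τ x ρ) (T x ρ) (z x ρ) :=
  mnC (P := fun x _ => (A x).K)
    (c := fun x ρ y => (A x).lg (z x ρ) y + (A x).G L (δ x ρ) (y0 x ρ) (τ x ρ) (T x ρ) y) h.n g.K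
    (K.add (h.lg _ _ (K.w hz) (K.v 0))
      (g.G _ _ _ _ _ (K.w hδ) (K.w hy) (K.w hτ) (K.wL hT) (K.v 0)))
    (g.G _ _ _ _ _ hδ hy hτ hT hz)

theorem n1C {F : List Bool → ℕ → ℕ → ℕ → ℕ → ℕ}
    (hF : ∀ a b c d : List Bool → Env → ℕ, Cn κ a → Cn κ b → Cn κ c → Cn κ d →
      Cn κ fun x ρ => F x (a x ρ) (b x ρ) (c x ρ) (d x ρ))
    (hδ' : Cn κ δ') (hδ : Cn κ δ) (hy : Cn κ y0) (hτ : Cn κ τ) (hT : Cm κ T) (hz : Cn κ z) :
    Cn κ fun x ρ => (A x).n1 L (F x (δ' x ρ)) (δ x ρ) (y0 x ρ) (τ x ρ) (T x ρ) (z x ρ) :=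
  have w2 : Cn κ fun x _ => 2 * (A x).W := K.mul (K.c 2) h.W
  mnC (P := fun x _ => (A x).K)
    (c := fun x ρ y => mn ((A x).T ^ L) (fun _ => True)
      (fun τ' => (A x).G L (δ x ρ) (y0 x ρ) (τ x ρ) (T x ρ) y + F x (δ' x ρ) y τ' (z x ρ) - (A x).W)
      (2 * (A x).W)) h.n g.K
    (mnC (P := fun _ _ _ => True)
      (c := fun x ρ τ' => (A x).G L (δ x (tl ρ)) (y0 x (tl ρ)) (τ x (tl ρ)) (T x (tl ρ))
        (hd (ρ 0)) + F x (δ' x (tl ρ)) (hd (ρ 0)) τ' (z x (tl ρ)) - (A x).W)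
      (K.pow L (K.add w2 (K.c 1))) tr
      (K.sub (K.add
        (g.G _ _ _ _ _ (K.w (K.w hδ)) (K.w (K.w hy)) (K.w (K.w hτ)) (K.wL (K.wL hT)) (K.v 1))
        (hF _ _ _ _ (K.w (K.w hδ')) (K.v 1) (K.v 0) (K.w (K.w hz)))) h.W) w2) w2

end

theorem ap {f : List Bool → ℕ → ℕ} (h : F1 κ fun x _ => f x) {a : List Bool → Env → ℕ}
    (ha : Cn κ a) : Cn κ fun x ρ => f x (a x ρ) := K.app h ha

theorem aq {P : List Bool → ℕ → Prop} (h : P1 κ fun x _ => P x) {a : List Bool → Env → ℕ}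
    (ha : Cn κ a) : Cp κ fun x ρ => P x (a x ρ) := K.appP h ha

section
variable {S : List Bool → Sk} (h : SkC κ S)
include h

theorem bel : P2 κ fun x => (S x).bel := fun a b ha hb =>
  K.and (aq h.X hb) (K.ex (P := fun x ρ t => it (S x).M.n (S x).f.par t (b x ρ) = a x ρ) h.M.1
    (K.eq (K.it (f := fun x _ => (S x).f.par) h.M.1 h.f.1 (K.v 0) (K.w hb)) (K.w ha)))

theorem kk : P1 κ fun x _ => (S x).K :=
  K.ex (P := fun x ρ y => (S x).bel (hd (ρ 0)) y) h.M.1 (bel h _ _ (K.v 1) (K.v 0))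

theorem nb {a : List Bool → Env → ℕ} (ha : Cn κ a) :
    Cn κ fun x ρ => (S x).M.nd ((S x).M.β (a x ρ)) := ap h.nd (ap h.M.2.2.1 ha)

theorem lg : F2 κ fun x => lgv (S x) := fun z y hz hy =>
  mnC (P := fun x ρ a => (S x).M.nd a = z x ρ ∧ (S x).M.β a ≠ a)
    (c := fun x ρ a => if (S x).M.nd ((S x).M.β a) = y x ρ then (S x).w a else mn (S x).M.n
      (fun b => (S x).M.β b ≠ b ∧ (S x).M.nd ((S x).M.β b) = y x ρ ∧
        ¬(S x).K ((S x).M.nd ((S x).M.β a)) ∧ ¬(S x).K ((S x).M.nd b))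
      (fun b => (S x).w a + (S x).o ((S x).M.nd ((S x).M.β a)) ((S x).M.nd b) + (S x).w b)
      (S x).W) h.M.1
    (K.and (K.eq (ap h.nd (K.v 0)) (K.w hz)) (K.ne (ap h.M.2.2.1 (K.v 0)) (K.v 0)))
    (K.ite (K.eq (nb h (K.v 0)) (K.w hy)) (ap h.w (K.v 0))
      (mnC (P := fun x ρ b => (S x).M.β b ≠ b ∧ (S x).M.nd ((S x).M.β b) = y x (tl ρ) ∧
          ¬(S x).K ((S x).M.nd ((S x).M.β (hd (ρ 0)))) ∧ ¬(S x).K ((S x).M.nd b))
        (c := fun x ρ b => (S x).w (hd (ρ 0)) +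
          (S x).o ((S x).M.nd ((S x).M.β (hd (ρ 0)))) ((S x).M.nd b) + (S x).w b) h.M.1
        (K.and (K.ne (ap h.M.2.2.1 (K.v 0)) (K.v 0)) (K.and (K.eq (nb h (K.v 0)) (K.w (K.w hy)))
          (K.and (K.not (aq (kk h) (nb h (K.v 1)))) (K.not (aq (kk h) (ap h.nd (K.v 0)))))))
        (K.add (K.add (ap h.w (K.v 1)) (h.o _ _ (nb h (K.v 1)) (ap h.nd (K.v 0))))
          (ap h.w (K.v 0))) h.W)) h.W

theorem t0C (L : ℕ) : Cn κ fun x _ => t0 (S x).W L :=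
  have w : Cn κ fun x _ => 2 * (S x).W + 1 := K.add (K.mul (K.c 2) h.W) (K.c 1)
  K.lst (P := fun x _ q => ∀ l < L, dg (2 * (S x).W + 1) q l = (S x).W) (K.pow L w)
    (K.all (P := fun x ρ l => dg (2 * (S x).W + 1) (hd (ρ 0)) l = (S x).W) (K.c L)
      (K.eq (dgC w (K.v 1) (K.v 0)) h.W))

end

theorem sz_le (e c m : ℕ) : mu e (5000 * m) * (e + 1) * (2 * (c * m * (8 * m ^ 2)) + 1) ≤
    4000 * (e + 1) * (e + 1) * (16 * c + 1) * (5000 * m + 2) ^ 7 := by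
  have a : (5000 * m) ^ 4 ≤ (5000 * m + 2) ^ 4 := Nat.pow_le_pow_left (by omega) 4
  have b : m ^ 3 ≤ (5000 * m + 2) ^ 3 := Nat.pow_le_pow_left (by omega) 3
  have d : 1 ≤ (5000 * m + 2) ^ 3 := Nat.one_le_pow _ _ (by omega)
  have f : 2 * (c * m * (8 * m ^ 2)) + 1 ≤ (16 * c + 1) * (5000 * m + 2) ^ 3 := by
    calc _ = 16 * c * m ^ 3 + 1 := by ring
      _ ≤ 16 * c * (5000 * m + 2) ^ 3 + (5000 * m + 2) ^ 3 :=
        Nat.add_le_add (Nat.mul_le_mul_left _ b) d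
      _ = _ := by ring
  calc _ ≤ 4000 * (e + 1) * (5000 * m + 2) ^ 4 * (e + 1) * ((16 * c + 1) * (5000 * m + 2) ^ 3) :=
        Nat.mul_le_mul (Nat.mul_le_mul_right _ (Nat.mul_le_mul_left _ a)) f
    _ = _ := by ring

end PwL

open PwL

theorem pwS : PwS := by
  intro κ A L h g i
  induction i with
  | zero =>
    intro δ y0 τ z hδ hy hτ hz
    exact n0C h g hδ hy hτ (g.rd δ τ (fun x _ => (A x).W)
      (fun x ρ => (A x).n0 L (δ x ρ) (y0 x ρ) (τ x ρ)) hδ hτ h.W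
      (n0C h g (K.w (K.w hδ)) (K.w (K.w hy)) (K.w (K.w hτ)) (K.vL 1) (K.v 0))) hz
  | succ i ih =>
    intro δ y0 τ z hδ hy hτ hz
    have hd : Cn κ fun x ρ => δ x ρ / (A x).B + 1 := K.add (K.div hδ h.B) (K.c 1)
    exact n1C h g (F := fun x => (A x).win L i) ih hd hδ hy hτ
      (g.rd δ τ (fun x _ => L * (A x).B)
        (fun x ρ => (A x).n1 L ((A x).win L i (δ x ρ / (A x).B + 1)) (δ x ρ) (y0 x ρ) (τ x ρ))
        hδ hτ (K.mul (K.c L) h.B)
        (n1C h g (F := fun x => (A x).win L i) ih (K.w (K.w hd)) (K.w (K.w hδ)) (K.w (K.w hy))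
          (K.w (K.w hτ)) (K.vL 1) (K.v 0))) hz

theorem paS2 : PaS := by
  intro i pg pw e S hS
  obtain ⟨A, hA⟩ := hS
  refine ⟨A + 4000 * (e + 1) * (e + 1) * (16 * (3 * (e + 1) + 3) ^ (4 * e) + 1), fun κ hκ => ?_⟩
  have h : SkC κ S := hA κ fun x => le_trans (Nat.mul_le_mul_right _ (Nat.le_add_right _ _)) (hκ x)
  have hm := MxC i κ
  have h8 : Cn κ fun x _ => 8 * Mx x ^ 2 := K.mul (K.c 8) (K.pow 2 hm)
  have hab : AbC κ (fun x => ab (S x) (mu e (Dz x)) (Mx x)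
      ((3 * (e + 1) + 3) ^ (4 * e) * Mx x * (8 * Mx x ^ 2))) (e + 1) :=
    ⟨h.M.1, h.W, K.mul (K.c (4000 * (e + 1))) (K.pow 4 (K.mul (K.c 5000) hm)), hm,
      K.mul (K.mul (K.c _) hm) h8, h.X, h.f.1, h.f.2.1, lg h, fun x =>
        (sz_le e _ (Mx x)).trans
          (le_trans (Nat.mul_le_mul_right _ (Nat.le_add_left _ _)) (hκ x))⟩
  have ht := th1C i κ
  have hnt : Cn κ fun x _ => (S x).M.nd (S x).M.t := K.app h.nd h.M.2.2.2.2.2
  exact K.ite (K.and (K.appP h.f.2.2.2.1 hnt)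
    (K.le (pw κ _ _ hab (pg κ _ _ hab) (4 * e) _ _ _ _ (K.add ht (K.c 1))
      (K.app h.nd h.M.2.2.2.2.1) (t0C h (e + 1)) hnt)
      (K.add (K.add h.W ht) (K.div (K.add ht (K.c 1)) h8)))) (K.c 1) (K.c 0)

end Pool.Agent.MP_1a6d78_lc.DS.DD

end MrgPart7

section MrgPart8

/-! PROJECT DD, rows PS and PT: one step of the recursion on the threshold and the top are
computable. -/

namespace Pool.Agent.MP_1a6d78_lc.DS.DD

open Classical ED PR

namespace PsL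

variable {κ : List Bool → ℕ} {γ φ : List Bool → ℕ}

theorem dl (i : PiK 1) (κ : List Bool → ℕ) : Cn κ fun x _ => Dl x :=
  K.add (K.div (nmC i κ 3) (MxC i κ)) (K.c 1)

theorem geC (i : PiK 1)
    (o : F3 κ fun x => fun u v θ => γ (vz x (inp x).β (wt x) u v θ (Mx x))) :
    F1 κ fun x _ => ge γ x :=
  K.lst (P := fun x ρ θ => θ = Mx x * Dl x + 1 ∨
    γ (vz x (inp x).β (wt x) (inp x).s (hd (ρ 0)) θ (Mx x)) = 1)
    (K.add (K.mul (MxC i κ) (dl i κ)) (K.c 2))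
    (K.or (K.eq (K.v 0) (K.add (K.mul (MxC i κ) (dl i κ)) (K.c 1)))
      (K.eq (o _ _ _ (i.M κ).2.2.2.2.1 (K.v 1) (K.v 0)) (K.c 1)))

theorem deC (i : PiK 1)
    (o : F3 κ fun x => fun u v θ => φ (vz x (inp x).β (wt x) u v θ (Mx x))) :
    F2 κ fun x => de φ x := fun a b ha hb =>
  K.lst (P := fun x ρ θ => θ = Dl x ∨
    φ (vz x (inp x).β (wt x) (b x ρ) (a x ρ) θ (Mx x)) = 1) (K.add (dl i κ) (K.c 1))
    (K.or (K.eq (K.v 0) (dl i κ)) (K.eq (o _ _ _ (K.w hb) (K.w ha) (K.v 0)) (K.c 1)))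

theorem pxC (i : PiK 1) (g : F1 κ fun x _ => ge γ x) (d : F2 κ fun x => de φ x) :
    F1 κ fun x _ => px γ φ x :=
  K.ite (i.lv κ) ((kitOne κ).sum (fun x ρ j => psi (num x 0) (lv (inp x)) (ge γ x) (de φ x) (Dl x)
    (Dl x / Mx x) j (hd (ρ 0))) (MxC i κ)
    (mnC (P := fun x _ => lv (inp x))
      (c := fun x ρ u => (ge γ x u - hd (ρ 0) * Dl x) + de φ x (hd (ρ 1)) u) (nmC i κ 0) (i.lv κ)
      (K.add (K.sub g (K.mul (K.v 1) (dl i κ))) (d _ _ (K.v 2) (K.v 0)))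
      (K.sub (dl i κ) (K.div (dl i κ) (MxC i κ))))) (K.c 0)

theorem wrC (i : PiK 1) (p : F1 κ fun x _ => px γ φ x) : F1 κ fun x _ => wr γ φ x :=
  K.sub (K.add (i.wt κ) (K.app p (K.app (i.nd κ) (i.M κ).2.2.1))) (K.app p (i.nd κ))

theorem mt (r : ℕ) (κ : List Bool → ℕ) : Cn κ fun x _ => Mt r x :=
  have hn : Cn κ fun x _ => x.length + 2 := K.add (kitOne κ).len (K.c 2)
  (kitOne κ).fold (fun x _ m acc => if m ^ r ≤ x.length + 2 then m + 1 else acc)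
    (fun _ _ m => m + 1) (K.add hn (K.c 1)) (K.c 0)
    ((kitOne κ).ile (K.pow r (K.v 1)) hn (K.add (K.v 1) (K.c 1)) (K.v 0))
    (K.add (K.v 0) (K.c 1)) fun _ _ _ _ _ h1 h2 => by split_ifs <;> assumption

end PsL

open PsL in
theorem psS2 : PsS := by
  intro i po γ φ hγ hφ g1 f1
  have e : Ev (bm Mx) fun κ => (F1 κ fun x _ => (inp x).β) ∧ F1 κ fun x _ => wt x :=
    Ev.all fun κ => ⟨(i.M κ).2.2.1, i.wt κ⟩
  have p : Ev (bm Mx) fun κ => F1 κ fun x _ => px γ φ x :=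
    ((po i Mx γ (MxC i) hγ g1 _ _ e).and (po i Mx φ (MxC i) hφ f1 _ _ e)).imp fun κ _ k =>
      pxC i (geC i k.1) (deC i k.2)
  refine ((po i Mx φ (MxC i) hφ f1 (fun x => (inp x).β) (wr γ φ)
    (p.imp fun κ _ k => ⟨(i.M κ).2.2.1, wrC i k⟩)).and p).imp fun κ _ k => ?_
  have t := K.app (i.nd κ) (i.M κ).2.2.2.2.2
  have q := K.app k.2 t
  exact K.ite (K.and (K.appP (i.lv κ) t) (K.le q (nmC i κ 3)))
    (k.1 _ _ _ (i.M κ).2.2.2.2.1 (i.M κ).2.2.2.2.2 (K.min (K.sub (nmC i κ 3) q) (dl i κ))) (K.c 0)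

open PsL in
theorem ptS2 : PtS := by
  intro i po r φ hφ f1
  exact (po i (Mt r) φ (mt r) hφ f1 (fun x => (inp x).β)
    (fun x d => if us x d then wt x d else num x 3 + 1) (Ev.all fun κ => ⟨(i.M κ).2.2.1,
      K.ite (K.eq (K.app (i.num κ) (K.add (K.add (K.add (K.add (K.c 4) (nmC i κ 0)) (nmC i κ 0))
        (nmC i κ 0)) (K.v 0))) (K.c 1)) (i.wt κ) (K.add (nmC i κ 3) (K.c 1))⟩)).imp fun κ _ k =>
    k _ _ _ (nmC i κ 2) (nmC i κ 1) (nmC i κ 3)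

end Pool.Agent.MP_1a6d78_lc.DS.DD

end MrgPart8

section MrgPart9

/-! PROJECT DD, row MCH: the machine. -/

namespace Pool.Agent.MP_1a6d78_lc.DS.DD

open Classical ED PR

namespace MchL

theorem two_pow {n k r : ℕ} (h : n < k ^ r) : n + 1 ≤ 2 ^ (k * r) := by
  rw [pow_mul]
  exact h.trans_le (Nat.pow_le_pow_left Nat.lt_two_pow_self.le r)

theorem log_le {n e : ℕ} (h : n ≤ 2 ^ e) : Nat.log 2 n ≤ e :=
  (Nat.log_mono_right h).trans (Nat.log_pow (by norm_num) e).le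

theorem time (n m : ℕ) : (n + 2) ^ (m + 1) + 2 ≤ (n + 2) ^ (m + 2) := by
  have a : 2 ≤ (n + 2) ^ (m + 1) := (Nat.le_add_left 2 n).trans (Nat.le_self_pow (by omega) _)
  rw [pow_succ _ (m + 1), Nat.mul_add]
  omega

theorem lgB {n k r : ℕ} (m : ℕ) (h : n + 2 < k ^ r) :
    Nat.log 2 ((n + 2) ^ (m + 1) + 2) ≤ r * (m + 2) * k := by
  have a : n + 2 ≤ 2 ^ (k * r) := (Nat.le_succ _).trans (two_pow h)
  refine log_le ((time n m).trans ((Nat.pow_le_pow_left a _).trans (le_of_eq ?_)))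
  rw [← pow_mul]
  congr 1
  ring

theorem root {n k r : ℕ} {ε : ℝ} (hε : 0 < ε) (hr : 1 ≤ r) (h4 : 4 / (ε / 2) ≤ r)
    (h : (k - 1) ^ r ≤ n + 2) : ((k ^ 8 : ℕ) : ℝ) ≤ 6561 * 3 ^ ε * ((n : ℝ) + 1) ^ ε := by
  have a := Fn.root (by positivity) hr h4 h
  have n0 : (0 : ℝ) ≤ n := Nat.cast_nonneg n
  have e : ((((n + 2 : ℕ) : ℝ) + 1) ^ (ε / 2)) ^ 2 = (((n + 2 : ℕ) : ℝ) + 1) ^ ε := by
    rw [← Real.rpow_natCast, ← Real.rpow_mul (by positivity)]
    congr 1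
    push_cast
    ring
  have b : ((k ^ 8 : ℕ) : ℝ) ≤ ((((k + 1) ^ 4) ^ 2 : ℕ) : ℝ) := by
    rw [← pow_mul]
    exact Nat.cast_le.2 (Nat.pow_le_pow_left (Nat.le_succ k) _)
  have c : (((n + 2 : ℕ) : ℝ) + 1) ^ ε ≤ 3 ^ ε * ((n : ℝ) + 1) ^ ε := by
    rw [← Real.mul_rpow (by norm_num) (by positivity)]
    refine Real.rpow_le_rpow (by positivity) ?_ hε.le
    push_cast
    linarith
  refine b.trans ?_
  rw [Nat.cast_pow]
  refine (pow_le_pow_left₀ (Nat.cast_nonneg _) a 2).trans ?_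
  rw [mul_pow, e, mul_assoc]
  exact mul_le_mul (by norm_num) c (by positivity) (by norm_num)

theorem bm_le {k : ℕ} (k1 : 1 ≤ k) : (5000 * k + 2) ^ 7 ≤ 5002 ^ 7 * k ^ 7 := by
  rw [← mul_pow]
  exact Nat.pow_le_pow_left (by omega) 7

theorem bm_pol {n k : ℕ} (h : k ≤ n + 2 + 1) : (5000 * k + 2) ^ 7 ≤ (n + 2) ^ 98 := by
  have a : 2 ^ 13 ≤ (n + 2) ^ 13 := Nat.pow_le_pow_left (by omega) 13
  have b : 5000 * k + 2 ≤ (n + 2) ^ 14 := by
    refine le_trans ?_ ((Nat.mul_le_mul_right (n + 2) a).trans (pow_succ _ 13).ge)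
    omega
  exact (Nat.pow_le_pow_left b 7).trans (pow_mul _ 14 7).ge

theorem space {κ l c C L k : ℕ} (k1 : 1 ≤ k) (h1 : κ ≤ C * k ^ 7) (h2 : l ≤ L * k) :
    (κ + 1) * (c * l + c) ≤ (C + 1) * (c * L + c) * k ^ 8 := by
  have a : 1 ≤ k ^ 7 := Nat.pow_pos k1
  have a1 : κ + 1 ≤ (C + 1) * k ^ 7 := by
    rw [add_mul, one_mul]
    omega
  have a3 : c * l + c ≤ (c * L + c) * k := by
    have b1 : c * l ≤ c * (L * k) := Nat.mul_le_mul_left _ h2
    have b2 : c ≤ c * k := Nat.le_mul_of_pos_right _ k1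
    rw [add_mul, mul_assoc]
    omega
  refine (Nat.mul_le_mul a1 a3).trans (le_of_eq ?_)
  rw [pow_succ k 7]
  exact mul_mul_mul_comm _ _ _ _

end MchL

open MchL in
theorem mchS2 : MchS := by
  intro hR ε hε
  obtain ⟨r, hr, h4⟩ : ∃ r : ℕ, 1 ≤ r ∧ 4 / (ε / 2) ≤ r :=
    ⟨⌈4 / (ε / 2)⌉₊, Nat.ceil_pos.2 (by positivity), Nat.le_ceil _⟩
  refine ⟨r, hr, ?_⟩
  rintro f ⟨A, hA⟩
  obtain ⟨M, c, H⟩ := mach (fun x => (A + 1) * bm (Mt r) x) f
    (hA _ fun x => Nat.mul_le_mul_right _ (Nat.le_succ A))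
  obtain ⟨Q, hQ⟩ : ∃ Q : ℕ, 6561 * (3 : ℝ) ^ ε ≤ Q := ⟨_, Nat.le_ceil _⟩
  obtain ⟨C, hC⟩ : ∃ C : ℕ, C = 5002 ^ 7 := ⟨_, rfl⟩
  obtain ⟨e, he⟩ : ∃ e : ℕ, e = 98 := ⟨_, rfl⟩
  refine ⟨M, (A + e + 2) * c + ((A + 1) * C + 1) * (c * (r * (A + e + 2)) + c) * Q,
    fun x => ?_⟩
  obtain ⟨k1, k2, k3, k4⟩ := hR r (x.length + 2) hr
  have b1 : 1 ≤ bm (Mt r) x := Nat.pow_pos (by omega)
  have b2 : (A + 1) * bm (Mt r) x ≤ (x.length + 2) ^ (A + e + 1) := by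
    have : A + 1 ≤ (x.length + 2) ^ (A + 1) :=
      Nat.lt_two_pow_self.le.trans (Nat.pow_le_pow_left (by omega) _)
    rw [show A + e + 1 = A + 1 + e by omega, pow_add]
    exact Nat.mul_le_mul this (he ▸ bm_pol k4)
  obtain ⟨H1, H2⟩ := H x ((x.length + 2) ^ (A + e + 1)) (Nat.mul_pos (by omega) b1) b2
    ((Nat.le_add_right _ 2).trans (Nat.le_self_pow (by omega) _))
  refine ⟨?_, fun t i => ?_⟩
  · rw [Fn.halt M x H1, H1]
    refine (Nat.pow_le_pow_left (time _ _) c).trans ?_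
    rw [← pow_mul]
    exact Nat.pow_le_pow_right (by omega) (Nat.le_add_right _ _)
  · have a0 : (A + 1) * bm (Mt r) x ≤ (A + 1) * C * ro r (x.length + 2) ^ 7 := by
      rw [mul_assoc]
      exact Nat.mul_le_mul_left _ (hC ▸ bm_le k1)
    have a : ((M.run x t).head i : ℝ) ≤ ((((A + 1) * C + 1) *
        (c * (r * (A + e + 2)) + c) * ro r (x.length + 2) ^ 8 : ℕ) : ℝ) :=
      Nat.cast_le.2 ((H2 t i).trans (space k1 a0 (lgB _ k2)))
    have p : (0 : ℝ) ≤ ((x.length : ℝ) + 1) ^ ε := by positivity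
    have b := (root hε hr h4 k3).trans (mul_le_mul_of_nonneg_right hQ p)
    rw [Nat.cast_mul] at a
    refine (a.trans (mul_le_mul_of_nonneg_left b (Nat.cast_nonneg _))).trans ?_
    rw [← mul_assoc, ← Nat.cast_mul]
    exact mul_le_mul_of_nonneg_right (Nat.cast_le.2 (Nat.le_add_left _ _)) p

end Pool.Agent.MP_1a6d78_lc.DS.DD

end MrgPart9
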