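import Pool.Agent.MP_1a6d78_lc.DD.PackA
import Pool.Agent.MP_1a6d78_lc.DD.PackB
import Pool.Agent.MP_1a6d78_lc.DD.Basic

/-! PROJECT PDD: the assembly. -/

section MrgPart1

/-! PROJECT DD: the assembly of the rows. -/

namespace Pool.Agent.MP_1a6d78_lc.DS.DD

open Classical ED PR

theorem winS (dig : DigS) (base : BaseS) (ph : PhS) (er : ErS) : WinS := by
  intro A L D ok tb i
  induction i with
  | zero => exact fun δ h _ => base A L D δ ok tb (by simpa using h)
  | succ i ih =>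
    intro δ h hq
    have b := ok.B
    have q := ok.Q
    have k1 : (3 * L + 3) ^ i * A.B ≤ A.Q :=
      (Nat.mul_le_mul_right _ (Nat.pow_le_pow_right (by omega) (by omega))).trans hq
    have k2 : δ / A.B + 1 ≤ A.B ^ i + 1 := by
      refine Nat.succ_le_succ (Nat.lt_succ_iff.1 ((Nat.div_lt_iff_lt_mul (by omega)).2 ?_))
      rw [pow_succ] at h
      rw [Nat.succ_mul]
      omega
    have k3 : A.er L (i + 1) δ ≤ δ :=
      Nat.le_of_mul_le_mul_left ((er A L b q (i + 1) δ).trans (Nat.mul_le_mul_right _ hq))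
        (by omega)
    have k4 : δ < A.Q * (δ / A.Q + 1) := Nat.lt_mul_div_succ _ (by omega)
    refine ph dig A L D _ δ _ ok tb (ih _ k2 k1) ?_
    change δ + A.er L (i + 1) δ ≤ _
    rw [Nat.mul_assoc]
    omega

theorem ceE (vz' : VzS) (comp : CompS) (sum : SumS) (pot' : PotS) (est : EstS) (st : StpS)
    {m : ℕ → ℕ} {G : ℕ → List Bool → ℕ} (h : ∀ e, Gap m e (G e)) (a : ℕ) :
    ∀ e, Ce m e a (alE G a e) := by
  induction a with
  | zero =>
    intro e y p k
    obtain ⟨h1, h2⟩ := h e y p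
    have := p.p.M
    have z : 2 * (num y 3 + 1) / (8 * Mx y ^ 2) = 0 :=
      Nat.div_eq_of_lt (by rw [pow_zero] at k; nlinarith)
    rw [z] at h2
    exact ⟨h2, h1⟩
  | succ a ih => exact fun e => st vz' comp sum pot' est m e a _ _ (h _) (ih _)

theorem an2_le (S : Sk) (e : ℕ) (x : List Bool) : an2 S e x ≤ 1 := by
  unfold an2 an1
  split_ifs <;> omega

theorem alG_le (j e : ℕ) (x : List Bool) : alG j e x ≤ 1 := by
  cases j <;> exact an2_le _ _ _

theorem alE_le {G : ℕ → List Bool → ℕ} (h : ∀ e x, G e x ≤ 1) (a : ℕ) :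
    ∀ e x, alE G a e x ≤ 1 := by
  induction a with
  | zero => exact h
  | succ a ih =>
    intro e x
    simp only [alE, stp]
    split_ifs
    exacts [ih _ _, Nat.zero_le _]

theorem alEC (i : PiK 1) (po : PoS) (ps : PsS) {G : ℕ → List Bool → ℕ} (h : ∀ e x, G e x ≤ 1)
    (hc : ∀ e, Ev (bm Mx) fun κ => Cn κ fun x _ => G e x) (a : ℕ) :
    ∀ e, Ev (bm Mx) fun κ => Cn κ fun x _ => alE G a e x := by
  induction a with
  | zero => exact hc
  | succ a ih => exact fun e => ps i po _ _ (hc _) (ih _) (h _) (alE_le h a _)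

theorem mainS (fin : FinS) (comp : CompS) (dk : DkS) (nx : NxS) (size : SizeS) (vz' : VzS)
    (sub' : SubS) (sc : ScS) (lev' : LevS) (g0 : G0S) (g1' : G1S) (sum : SumS) (pot' : PotS)
    (est : EstS) (st : StpS) (top : TopS) (ro' : RoS) (cod : CodS) (fm : FmC) (pi : PiS)
    (po : PoS) (pn : PnS) (pg : PgS) (pw : PwS) (pa : PaS) (ps : PsS) (pt : PtS) (mch : MchS) :
    MainS := by
  intro ε hε
  obtain ⟨r, hr, h⟩ := mch ro' ε hε
  have i := pi ro' fm 1 le_rfl
  have gap : ∀ j e, Gap (mm j) e (alG j e) := by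
    intro j
    induction j with
    | zero => exact g0 fin comp sc
    | succ j ih =>
      exact fun e => g1' fin sc comp dk nx size sub' vz' lev' j e _
        (ceE vz' comp sum pot' est st ih _ _)
  have cg : ∀ j e, Ev (bm Mx) fun κ => Cn κ fun x _ => alG j e x := by
    intro j
    induction j with
    | zero => exact fun e => pa i pg pw e sk1 (Ev.all (sk1C i))
    | succ j ih =>
      exact fun e => pa i pg pw e _ (pn fm i po _ (fun x => Mx x ^ (j + 1))
        (alEC i po ps (alG_le j) ih _ _) (alE_le (alG_le j) _ _)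
        (fun κ => K.pow _ (MxC i κ)) e)
  obtain ⟨M, c, hM⟩ := h _ (pt i po r (alE (alG r) (9 * r) (9 * r))
    (alEC i po ps (alG_le r) (cg r) _ _) (alE_le (alG_le r) _ _))
  refine ⟨M, c, fun x => ⟨_, (hM x).1, (hM x).2, fun n σ α dir w s t θ hα hp hx => ?_⟩⟩
  obtain ⟨c1, _, c3, c4, c5, c6, _, c8⟩ := cod σ α dir w s t θ x hα hp hx
  have q := top vz' ro' r _ x hr (ceE vz' comp sum pot' est st (gap r) (9 * r) (9 * r)) c1
    (by rw [c5, c3]; exact t.2)
  have u : tp2 r (alE (alG r) (9 * r) (9 * r)) x ≤ 1 := alE_le (alG_le r) _ _ _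
  rw [c4, c5, c6] at q
  simp only [c8] at q
  rw [← q, bne_iff_ne]
  omega

end Pool.Agent.MP_1a6d78_lc.DS.DD

end MrgPart1

namespace Pool.Agent.MP_1a6d78_lc.DS.DD

theorem main : MainS :=
  mainS (fin1S digS tabS sndS erS (winS digS baseS phS erS) kkS2 sldS lgS abS legS) compS2 dkS2 nxS2
    sizeS2 vzS subS2 scS levS2 g0S g1S sumS potS estS stpS topS2 roS codS fmC piS poS2 pnS2 pgS pwS
    paS2 psS2 ptS2 mchS2

end Pool.Agent.MP_1a6d78_lc.DS.DD
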