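import Pool.Agent.MP_1a6d78_lc.DD.Basic

/-! PROJECT DD: the assembly of the rows. -/

namespace Pool.Agent.MP_1a6d78_lc.DS.DD

open Classical ED PR

theorem winS (dig : DigS) (base : BaseS) (ph : PhS) (er : ErS) : WinS := by
  intro A L D ok tb i
  induction i with
  | zero => exact fun δ h _ => base A L D δ ok tb (by simpa using h)
  | succ i ih =>
    intro δ h hq
    have b := ok.B
    have q := ok.Q
    have k1 : (3 * L + 3) ^ i * A.B ≤ A.Q :=
      (Nat.mul_le_mul_right _ (Nat.pow_le_pow_right (by omega) (by omega))).trans hq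
    have k2 : δ / A.B + 1 ≤ A.B ^ i + 1 := by
      refine Nat.succ_le_succ (Nat.lt_succ_iff.1 ((Nat.div_lt_iff_lt_mul (by omega)).2 ?_))
      rw [pow_succ] at h
      rw [Nat.succ_mul]
      omega
    have k3 : A.er L (i + 1) δ ≤ δ :=
      Nat.le_of_mul_le_mul_left ((er A L b q (i + 1) δ).trans (Nat.mul_le_mul_right _ hq))
        (by omega)
    have k4 : δ < A.Q * (δ / A.Q + 1) := Nat.lt_mul_div_succ _ (by omega)
    refine ph dig A L D _ δ _ ok tb (ih _ k2 k1) ?_
    change δ + A.er L (i + 1) δ ≤ _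
    rw [Nat.mul_assoc]
    omega

theorem ceE (vz' : VzS) (comp : CompS) (sum : SumS) (pot' : PotS) (est : EstS) (st : StpS)
    {m : ℕ → ℕ} {G : ℕ → List Bool → ℕ} (h : ∀ e, Gap m e (G e)) (a : ℕ) :
    ∀ e, Ce m e a (alE G a e) := by
  induction a with
  | zero =>
    intro e y p k
    obtain ⟨h1, h2⟩ := h e y p
    have := p.p.M
    have z : 2 * (num y 3 + 1) / (8 * Mx y ^ 2) = 0 :=
      Nat.div_eq_of_lt (by rw [pow_zero] at k; nlinarith)
    rw [z] at h2
    exact ⟨h2, h1⟩
  | succ a ih => exact fun e => st vz' comp sum pot' est m e a _ _ (h _) (ih _)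

theorem an2_le (S : Sk) (e : ℕ) (x : List Bool) : an2 S e x ≤ 1 := by
  unfold an2 an1
  split_ifs <;> omega

theorem alG_le (j e : ℕ) (x : List Bool) : alG j e x ≤ 1 := by
  cases j <;> exact an2_le _ _ _

theorem alE_le {G : ℕ → List Bool → ℕ} (h : ∀ e x, G e x ≤ 1) (a : ℕ) :
    ∀ e x, alE G a e x ≤ 1 := by
  induction a with
  | zero => exact h
  | succ a ih =>
    intro e x
    simp only [alE, stp]
    split_ifs
    exacts [ih _ _, Nat.zero_le _]

theorem alEC (i : PiK 1) (po : PoS) (ps : PsS) {G : ℕ → List Bool → ℕ} (h : ∀ e x, G e x ≤ 1)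
    (hc : ∀ e, Ev (bm Mx) fun κ => Cn κ fun x _ => G e x) (a : ℕ) :
    ∀ e, Ev (bm Mx) fun κ => Cn κ fun x _ => alE G a e x := by
  induction a with
  | zero => exact hc
  | succ a ih => exact fun e => ps i po _ _ (hc _) (ih _) (h _) (alE_le h a _)

theorem mainS (fin : FinS) (comp : CompS) (dk : DkS) (nx : NxS) (size : SizeS) (vz' : VzS)
    (sub' : SubS) (sc : ScS) (lev' : LevS) (g0 : G0S) (g1' : G1S) (sum : SumS) (pot' : PotS)
    (est : EstS) (st : StpS) (top : TopS) (ro' : RoS) (cod : CodS) (fm : FmC) (pi : PiS)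
    (po : PoS) (pn : PnS) (pg : PgS) (pw : PwS) (pa : PaS) (ps : PsS) (pt : PtS) (mch : MchS) :
    MainS := by
  intro ε hε
  obtain ⟨r, hr, h⟩ := mch ro' ε hε
  have i := pi ro' fm 1 le_rfl
  have gap : ∀ j e, Gap (mm j) e (alG j e) := by
    intro j
    induction j with
    | zero => exact g0 fin comp sc
    | succ j ih =>
      exact fun e => g1' fin sc comp dk nx size sub' vz' lev' j e _
        (ceE vz' comp sum pot' est st ih _ _)
  have cg : ∀ j e, Ev (bm Mx) fun κ => Cn κ fun x _ => alG j e x := by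
    intro j
    induction j with
    | zero => exact fun e => pa i pg pw e sk1 (Ev.all (sk1C i))
    | succ j ih =>
      exact fun e => pa i pg pw e _ (pn fm i po _ (fun x => Mx x ^ (j + 1))
        (alEC i po ps (alG_le j) ih _ _) (alE_le (alG_le j) _ _)
        (fun κ => K.pow _ (MxC i κ)) e)
  obtain ⟨M, c, hM⟩ := h _ (pt i po r (alE (alG r) (9 * r) (9 * r))
    (alEC i po ps (alG_le r) (cg r) _ _) (alE_le (alG_le r) _ _))
  refine ⟨M, c, fun x => ⟨_, (hM x).1, (hM x).2, fun n σ α dir w s t θ hα hp hx => ?_⟩⟩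
  obtain ⟨c1, _, c3, c4, c5, c6, _, c8⟩ := cod σ α dir w s t θ x hα hp hx
  have q := top vz' ro' r _ x hr (ceE vz' comp sum pot' est st (gap r) (9 * r) (9 * r)) c1
    (by rw [c5, c3]; exact t.2)
  have u : tp2 r (alE (alG r) (9 * r) (9 * r)) x ≤ 1 := alE_le (alG_le r) _ _ _
  rw [c4, c5, c6] at q
  simp only [c8] at q
  rw [← q, bne_iff_ne]
  omega

end Pool.Agent.MP_1a6d78_lc.DS.DD
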