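import Pool.Agent.MP_1a6d78_lc.DD.Basic

/-! PROJECT DD, rows COMP and DK: the component of the root, the first forest and the distance to
the skeleton. -/

namespace Pool.Agent.MP_1a6d78_lc.DS.DD

open Classical ED PR

namespace CompL

variable {M : Mp} {w : ℕ → ℕ}

theorem key (hM : M.Ok) {a b : ℕ} (ha : a < M.n) (hb : b < M.n) :
    ps M.n (fun d => M.ρ ((M.F M.f0).tau d)) (fun _ => True) a / M.n =
      ps M.n (fun d => M.ρ ((M.F M.f0).tau d)) (fun _ => True) b / M.n ↔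
      Rc M w U (M.nd a) (M.nd b) := by
  have m := msfS nclK _ (GSet.fok hM (Lev.inv_zero hM 0 0).fit.1)
  have iv : Iv M.n (M.F M.f0).tau := m.iv
  have hβ : ∀ d < M.n, (M.F M.f0).β d = M.β d := fun d hd =>
    if_pos ⟨⟨(Mp.nd_spec hd).1, Mp.nd_nd hM.pm hd⟩,
      (Mp.nd_spec (hM.iv d hd).1).1, Mp.nd_nd hM.pm (hM.iv d hd).1⟩
  have hf := hM.pm.comp iv.pm
  have hr : ∀ d < M.n, ∃ e < M.n, Sc M.n (fun d => M.ρ ((M.F M.f0).tau d)) d e ∧
      (fun _ => True) e := fun d hd => ⟨d, hd, Sc.refl _ hd, trivial⟩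
  have dv : ∀ d < M.n, ps M.n (fun d => M.ρ ((M.F M.f0).tau d)) (fun _ => True) d / M.n =
      st M.n (fun d => M.ρ ((M.F M.f0).tau d)) (fun _ => True) d := fun d hd => by
    rw [Cont.ps_eq, Nat.add_comm, Nat.add_mul_div_right _ _ (by omega),
      Nat.div_eq_of_lt (Cont.tm_spec hf hr hd).1, Nat.zero_add]
  rw [dv a ha, dv b hb]
  constructor
  · intro e
    have c : Conn M.n M.ρ (M.F M.f0).tau a b :=
      ((Cont.st_spec hr ha).2.1.conn hM.pm iv ha).trans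
        (e ▸ ((Cont.st_spec hr hb).2.1.conn hM.pm iv hb).symm)
    refine Conn.ind (r := fun a b => Rc M w U (M.nd a) (M.nd b))
      ⟨fun _ => ⟨0, .nil trivial⟩, rc_symm hM.iv,
        fun ⟨_, k⟩ ⟨_, k'⟩ => ⟨_, k.trans k'⟩⟩ (fun d hd => ?_) (fun d hd => ?_) c
    · rw [← (Mp.nd_iff hM.pm hd (hM.pm.1 d hd)).2 (Sc.step hM.pm.1 hd)]
      exact ⟨0, .nil trivial⟩
    · rcases m.sb d hd with k | k
      · rw [k]; exact ⟨0, .nil trivial⟩
      · rw [k, hβ d hd]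
        by_cases q : M.β d = d
        · rw [q]; exact ⟨0, .nil trivial⟩
        · exact ⟨_, Wk.one hd q trivial trivial⟩
  · rintro ⟨c, k⟩
    have sc : ∀ x < M.n, ∀ y < M.n, M.nd y = M.nd x → Conn M.n M.ρ (M.F M.f0).tau x y :=
      fun x hx y hy e => Sc.conn' _ hM.pm hx ((Mp.nd_iff hM.pm hx hy).1 e.symm)
    have := (k.inv (P := fun v => ∀ y < M.n, M.nd y = v → Conn M.n M.ρ (M.F M.f0).tau a y)
      (sc a ha) fun d hd _ _ _ p y hy e => ?_).1 b hb rfl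
    · exact Cont.st_eq hf ha (Cont.conn_sc swapK hM.pm iv m.br ha this)
    · have s : Conn M.n M.ρ (M.F M.f0).tau d ((M.F M.f0).β d) := (m.span d hd).mono fun e _ => by
        split_ifs
        exacts [Or.inr rfl, Or.inl rfl]
      rw [hβ d hd] at s
      exact ((p d hd rfl).trans s).trans (sc _ (hM.iv d hd).1 y hy e)

end CompL

theorem compS2 : CompS := by
  have e0 : ∀ (M : Mp) (w : ℕ → ℕ), M.Ok → ∀ v,
      lv M v ↔ v < M.n ∧ M.nd v = v ∧ Rc M w U (M.nd M.s) v := fun M w hM v =>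
    and_congr_right fun hv => and_congr_right fun q => by
      rw [eq_comm, CompL.key (w := w) hM hM.s hv, q]
  refine ⟨e0, fun M w W h => ?_⟩
  have hM := h.ok
  have e := e0 M w hM
  have s : lv M (M.nd M.s) :=
    (e _).2 ⟨(Mp.nd_spec hM.s).1, Mp.nd_nd hM.pm hM.s, 0, .nil trivial⟩
  refine ⟨⟨⟨fun v k => k.1, fun u v k a => ?_, fun v _ k => absurd rfl k, fun _ _ => h.Wpos,
    fun _ k => k⟩, fun v k _ => ⟨v, k, 0, rfl⟩, s, rfl, fun _ k => k.2.1⟩,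
    fun v k => ((e v).1 k).2.2, ⟨fun _ _ _ _ _ _ _ => Nat.zero_le _,
      fun _ _ k => absurd rfl k, fun _ _ _ _ => (Nat.zero_mod W).trans_le (Nat.zero_le _)⟩,
    (Nat.one_mul W).symm⟩
  obtain ⟨d, hd, _, rfl, rfl⟩ := a
  obtain ⟨c, p⟩ := ((e _).1 k).2.2
  refine (e _).2 ⟨(Mp.nd_spec (hM.iv d hd).1).1, Mp.nd_nd hM.pm (hM.iv d hd).1, ?_⟩
  by_cases q : M.β d = d
  · rw [q]; exact ⟨c, p⟩
  · exact ⟨_, p.trans (Wk.one hd q trivial trivial)⟩

namespace CompL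

variable {M : Mp} {w : ℕ → ℕ} {K : ℕ → Prop} {v z c : ℕ}

/-- The first entry of a walk into `K`. -/
theorem first (h : Wk M w U v z c) (hv : ¬K v) : Rc M w (fun x => ¬K x) v z ∨
    ∃ d < M.n, M.β d ≠ d ∧ K (M.nd (M.β d)) ∧ Rc M w (fun x => ¬K x) v (M.nd d) := by
  induction h with
  | nil _ => exact Or.inl ⟨0, .nil hv⟩
  | @step u u' c d _ a b e e' _ ih =>
    subst e e'
    rcases ih with ⟨c0, k⟩ | k
    · by_cases q : K (M.nd (M.β d))
      · exact Or.inr ⟨d, a, b, q, c0, k⟩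
      · exact Or.inl ⟨_, k.step a b rfl rfl q⟩
    · exact Or.inr k

theorem spec {W l Z : ℕ} {f : Fo} {o : ℕ → ℕ → ℕ} (hw : Wo M w W) (hl : Lo M w W l f)
    (hs : K (M.nd M.s)) (hK : ∀ v, K v → f.live v) (hZ : W ≤ Z) (ho : OrK M w f.live K o Z)
    (h1 : f.live v) (h2 : ¬K v) :
    (∃ d < M.n, M.β d ≠ d ∧ K (M.nd (M.β d)) ∧ ∃ c, Wk M w (fun x => ¬K x) v (M.nd d) c ∧
      dK M w K o Z v = c + w d ∧ c + w d < W) ∧
    ∀ d < M.n, M.β d ≠ d → K (M.nd (M.β d)) → ∀ c, Wk M w (fun x => ¬K x) v (M.nd d) c →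
      dK M w K o Z v ≤ c + w d := by
  obtain ⟨m, m1, m2⟩ := hw.max
  have val : ∀ d < M.n, Rc M w (fun x => ¬K x) v (M.nd d) → ¬K (M.nd d) ∧
      o v (M.nd d) = ds M w (fun x => ¬K x) v (M.nd d) ∧ o v (M.nd d) + w d < W := by
    intro d a k
    have k1 := ds_spec k
    have k2 := ho _ _ h1 h2 (hw.live hl.fit k1 h1) k1.mem.2
    rw [if_pos k] at k2
    have k3 := ds_bnd hw.ok.iv (fun e p _ => m1 e p) k (hl.fit.1.lt v h1)
    have k4 := m1 d a
    have k5 : m * (M.n - 1) + m = M.n * m := by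
      rw [← Nat.mul_succ, Nat.mul_comm]
      congr 1
      omega
    exact ⟨k1.mem.2, k2, by omega⟩
  obtain ⟨c0, p⟩ := rc_symm hw.ok.iv (hl.comp v h1)
  obtain ⟨d, a, b, e, k⟩ := (first (K := K) p h2).resolve_left fun ⟨_, k⟩ => k.mem.2 hs
  obtain ⟨v1, v2, v3⟩ := val d a k
  obtain ⟨⟨q, q1, ⟨q2, q3, q4, q5⟩, q6⟩, mn⟩ := mnv_spec
    (P := fun d => M.β d ≠ d ∧ ¬K (M.nd d) ∧ K (M.nd (M.β d)) ∧ o v (M.nd d) < Z)
    (fun d => o v (M.nd d) + w d) ⟨d, a, b, v1, e, by omega⟩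
  rw [dK, if_neg h2]
  refine ⟨?_, fun d a b e c k => ?_⟩
  · have l1 := hw.clo hl.fit (hw.ok.iv q q1).1 (hK _ q4)
    rw [(hw.ok.iv q q1).2] at l1
    have r : Rc M w (fun x => ¬K x) v (M.nd q) := by
      by_contra r
      rw [ho _ _ h1 h2 l1 q3, if_neg r] at q5
      exact lt_irrefl _ q5
    obtain ⟨-, u2, u3⟩ := val q q1 r
    exact ⟨q, q1, q2, q4, _, ds_spec r, u2 ▸ q6, u2 ▸ u3⟩
  · obtain ⟨u1, u2, u3⟩ := val d a ⟨c, k⟩
    have := ds_le k
    exact (mn d a ⟨b, u1, e, by omega⟩).trans (by omega)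

end CompL

theorem dkS2 : DkS := by
  intro M w W l f K o Z hw hl hs hK hZ ho
  have sp := fun v => CompL.spec (v := v) hw hl hs hK hZ ho
  have zero : ∀ v, K v → dK M w K o Z v = 0 := fun v k => if_pos k
  have lip : ∀ d < M.n, M.β d ≠ d → f.live (M.nd d) →
      dK M w K o Z (M.nd d) ≤ dK M w K o Z (M.nd (M.β d)) + w d := by
    intro d a b h
    by_cases k : K (M.nd d)
    · rw [zero _ k]
      exact Nat.zero_le _
    by_cases k' : K (M.nd (M.β d))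
    · have := (sp _ h k).2 d a b k' 0 (.nil k)
      omega
    · obtain ⟨e, e1, e2, e3, c, e4, e5, -⟩ := (sp _ (hw.clo hl.fit a h) k').1
      have := (sp _ h k).2 e e1 e2 e3 _ ((Wk.one (A := fun x => ¬K x) a b k k').trans e4)
      omega
  refine ⟨zero, fun v h => ?_, lip, fun v h k => ?_⟩
  · by_cases k : K v
    · rw [zero _ k]
      exact hw.Wpos
    · obtain ⟨e, -, -, -, c, -, e5, e6⟩ := (sp v h k).1
      omega
  · obtain ⟨e, e1, e2, e3, c, e4, e5, -⟩ := (sp v h k).1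
    rcases e4.exit with rfl | ⟨d, c', a, b, rfl, p, q⟩
    · have h1 := (sp _ h k).2 e e1 e2 e3 0 (.nil k)
      have h2 := zero _ e3
      exact ⟨e, e1, rfl, e2, by omega⟩
    · have h1 := (sp _ (hw.clo hl.fit a h) p.mem.1.1).2 e e1 e2 e3 _ (p.mono fun _ k => k.1)
      have h2 := lip d a b h
      exact ⟨d, a, rfl, b, by omega⟩

end Pool.Agent.MP_1a6d78_lc.DS.DD
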