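import Pool.Agent.MP_1a6d78_lc.DD.Basic

/-! PROJECT DD: rows ER and DIG. -/

namespace Pool.Agent.MP_1a6d78_lc.DS.DD

open Classical ED PR

namespace ErL

theorem itr_div (T q l : ℕ) :
    itr (fun _ a => a / T) q (l + 1) = itr (fun _ a => a / T) (q / T) l := by
  induction l with
  | zero => rfl
  | succ l ih =>
    show itr (fun _ a => a / T) q (l + 1) / T = itr (fun _ a => a / T) (q / T) l / T
    rw [ih]

theorem dg_succ (T q l : ℕ) : dg T q (l + 1) = dg T (q / T) l := by
  unfold dg
  rw [itr_div]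

theorem er_zero (A : Ab) (L : ℕ) (hB : 2 ≤ A.B) (hQ : 3 ≤ A.Q) (i : ℕ) :
    ∀ δ, δ < A.Q → A.er L i δ = 0 := by
  induction i with
  | zero => intro δ _; rfl
  | succ i ih =>
    intro δ h
    have h1 : δ / A.B ≤ δ / 2 := Nat.div_le_div_left hB (by norm_num)
    show L * A.B * (A.er L i (δ / A.B + 1) + δ / A.Q) + A.er L i (δ / A.B + 1) = 0
    rw [ih _ (by omega), Nat.div_eq_of_lt h]
    simp

end ErL

open ErL

theorem digS : DigS := by
  intro T L
  induction L with
  | zero => intro f _; exact ⟨0, by simp, fun l h => absurd h (Nat.not_lt_zero l)⟩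
  | succ L ih =>
    intro f hf
    obtain ⟨q, hq, h⟩ := ih (fun l => f (l + 1)) fun l hl => hf _ (by omega)
    have h0 := hf 0 (by omega)
    have hT : 0 < T := by omega
    refine ⟨f 0 + T * q, ?_, fun l hl => ?_⟩
    · have : T * (q + 1) ≤ T * T ^ L := Nat.mul_le_mul_left _ hq
      rw [pow_succ, mul_comm (T ^ L) T]
      rw [mul_add, mul_one] at this
      omega
    · cases l with
      | zero =>
        show (f 0 + T * q) % T = f 0
        rw [Nat.add_mul_mod_self_left, Nat.mod_eq_of_lt h0]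
      | succ l =>
        rw [dg_succ, Nat.add_mul_div_left _ _ hT, Nat.div_eq_of_lt h0, zero_add]
        exact h l (by omega)

theorem erS : ErS := by
  intro A L hB hQ i
  induction i with
  | zero => intro δ; exact Nat.zero_le _
  | succ i ih =>
    intro δ
    show A.Q * (L * A.B * (A.er L i (δ / A.B + 1) + δ / A.Q) + A.er L i (δ / A.B + 1)) ≤ _
    have hP : 1 ≤ (3 * L + 3) ^ i := Nat.one_le_pow _ _ (by omega)
    have hd : A.Q * (δ / A.Q) ≤ δ := Nat.mul_div_le _ _
    have hb : A.B * (δ / A.B) ≤ δ := Nat.mul_div_le _ _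
    have ih' := ih (δ / A.B + 1)
    have key : A.Q * A.er L i (δ / A.B + 1) ≤ (3 * L + 3) ^ i * (2 * δ) := by
      by_cases h : δ / A.B + 1 < A.Q
      · rw [er_zero A L hB hQ i _ h]
        exact Nat.zero_le _
      · refine ih'.trans ?_
        rw [mul_assoc]
        refine Nat.mul_le_mul_left _ ?_
        have h2 : A.B * 2 ≤ A.B * (δ / A.B) := Nat.mul_le_mul_left _ (by omega)
        rw [mul_add, mul_one]
        omega
    rw [pow_succ]
    generalize (3 * L + 3) ^ i = P at *
    generalize A.er L i (δ / A.B + 1) = e at *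
    generalize δ / A.Q = d at *
    have e1 : A.Q * (L * A.B * (e + d) + e) =
        (L * A.B + 1) * (A.Q * e) + L * A.B * (A.Q * d) := by ring
    have e2 : (L * A.B + 1) * (A.Q * e) ≤ ((L + 1) * A.B) * (P * (2 * δ)) :=
      Nat.mul_le_mul (by rw [add_mul, one_mul]; omega) key
    have e3 : L * A.B * (A.Q * d) ≤ L * A.B * (P * δ) :=
      Nat.mul_le_mul_left _ (hd.trans (Nat.le_mul_of_pos_left _ hP))
    have e4 : P * (3 * L + 3) * A.B * δ =
        ((L + 1) * A.B) * (P * (2 * δ)) + L * A.B * (P * δ) + P * A.B * δ := by ring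
    rw [e1, e4]
    omega

end Pool.Agent.MP_1a6d78_lc.DS.DD
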