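import Pool.Agent.MP_1a6d78_lc.DD.Basic

/-! PROJECT DD, row EST: the estimates read from the two oracles. -/

namespace Pool.Agent.MP_1a6d78_lc.DS.DD

open Classical ED PR

namespace EstL

theorem key (hV : VzS) {m : ℕ → ℕ} {e : ℕ} {x : List Bool} (hP : Pr m e x) {u v θ : ℕ}
    (hu : u < (inp x).n) (ru : Rc (inp x) (wt x) U ((inp x).nd (inp x).s) ((inp x).nd u))
    (hv : v < (inp x).n) (nv : (inp x).nd v = v)
    (rv : Rc (inp x) (wt x) U ((inp x).nd (inp x).s) v) (hθ : θ ≤ Zx x) :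
    Pr m (9 * e) (vz x (inp x).β (wt x) u v θ (Mx x)) ∧
      Mx (vz x (inp x).β (wt x) u v θ (Mx x)) = Mx x ∧
      num (vz x (inp x).β (wt x) u v θ (Mx x)) 3 = θ ∧
      ∀ θ', Rw (vz x (inp x).β (wt x) u v θ (Mx x)) θ' ↔
        ds (inp x) (wt x) U v ((inp x).nd u) ≤ θ' := by
  have hw : ∀ d < num x 0, wt x d ≤ Zx x := fun d _ => by
    have a := le_Z x
    have b : wt x d ≤ x.length := nle x _
    omega
  obtain ⟨a, b, c, d⟩ := hV m e x (inp x).β (wt x) u v θ (Mx x) (ok_alt hP.p.ok hu v) hv hθ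
    (Mx_le x) hw hP.p.M hP.p.len (by rw [csz_alt, ← csz_rc hP.p.ok.iv ru]; exact hP.sz)
  refine ⟨a, b, c, fun θ' => (d θ').trans ?_⟩
  rw [nv]
  constructor
  · rintro ⟨c, k1, k2⟩
    exact (ds_le (wk_alt.1 k2)).trans k1
  · intro k
    exact ⟨_, k, wk_alt.2 (ds_spec (rc_trans (rc_symm hP.p.ok.iv rv) ru))⟩

theorem gap {M D g : ℕ} (hM : 2 ≤ M) (hD : 1 ≤ D) (h : g ≤ M * D) :
    2 * (g + 1) / (8 * M ^ 2) ≤ D / M := by
  have p : 1 ≤ M * D := Nat.mul_pos (by omega) hD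
  have q : 2 * (g + 1) ≤ 8 * M * D := by rw [Nat.mul_assoc]; omega
  refine (Nat.div_le_div_right q).trans (le_of_eq ?_)
  rw [show 8 * M ^ 2 = 8 * M * M by ring]
  exact Nat.mul_div_mul_left _ _ (by omega)

end EstL

open EstL in
theorem estS : EstS := by
  intro hV hK m e a γ φ x hG hC hP h3
  have hM := hP.p.M
  have ok := hP.p.ok
  have d1 : Dl x ≤ Mx x ^ a + 1 := by
    have : num x 3 / Mx x < Mx x ^ a + 1 := by
      rw [Nat.div_lt_iff_lt_mul (by omega), Nat.add_mul, ← pow_succ]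
      omega
    unfold Dl
    omega
  have d2 : num x 3 ≤ Mx x * Dl x := (Nat.lt_mul_div_succ _ (by omega)).le
  have d3 : x.length + Mx x * Dl x + 3 ≤ Zx x := by
    have a := le_Z x
    have b : Mx x ≤ x.length := nle x _
    have c := nle x 3
    have d := Nat.mul_div_le (num x 3) (Mx x)
    unfold Dl
    rw [Nat.mul_succ]
    omega
  have d0 : 1 ≤ Dl x := Nat.le_add_left _ _
  have d4 : Dl x ≤ Mx x * Dl x := Nat.le_mul_of_pos_left _ (by omega)
  have rs : Rc (inp x) (wt x) U ((inp x).nd (inp x).s) ((inp x).nd (inp x).s) := ⟨0, .nil trivial⟩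
  refine ⟨d1, d2, by omega, fun u hu => ?_, fun v u hv hu => ?_⟩
  · obtain ⟨u1, u2, u3⟩ := (hK.1 _ (wt x) ok u).1 hu
    have k := fun θ (h : θ ≤ Zx x) => key hV hP ok.s rs u1 u2 u3 h
    have s : ge γ x u < Mx x * Dl x + 2 ∧ (ge γ x u = Mx x * Dl x + 1 ∨
        γ (vz x (inp x).β (wt x) (inp x).s u (ge γ x u) (Mx x)) = 1) :=
      lst_spec (P := fun θ => θ = Mx x * Dl x + 1 ∨
        γ (vz x (inp x).β (wt x) (inp x).s u θ (Mx x)) = 1) ⟨_, Nat.lt_succ_self _, Or.inl rfl⟩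
    constructor
    · by_cases q : ds (inp x) (wt x) U u ((inp x).nd (inp x).s) ≤ Mx x * Dl x
      · obtain ⟨k1, _, k3, k4⟩ := k (ds (inp x) (wt x) U u ((inp x).nd (inp x).s)) (by omega)
        exact lst_le (by omega) (Or.inr ((hG _ k1).1 ((k4 _).2 k3.ge)))
      · omega
    · by_cases q : ge γ x u = Mx x * Dl x + 1
      · exact Or.inr q
      · obtain ⟨k1, k2, k3, k4⟩ := k (ge γ x u) (by omega)
        have t := (k4 _).1 ((hG _ k1).2 (s.2.resolve_left q))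
        rw [k2, k3] at t
        exact Or.inl (t.trans (Nat.add_le_add_left (gap hM d0 (by omega)) _))
  · obtain ⟨u1, u2, u3⟩ := (hK.1 _ (wt x) ok u).1 hu
    obtain ⟨v1, v2, v3⟩ := (hK.1 _ (wt x) ok v).1 hv
    have k : ∀ θ ≤ Dl x, (φ (vz x (inp x).β (wt x) u v θ (Mx x)) = 1 ↔
        ds (inp x) (wt x) U v u ≤ θ) := fun θ h => by
      obtain ⟨k1, k2, k3, k4⟩ := key hV hP u1 (by rw [u2]; exact u3) v1 v2 v3
        (θ := θ) (by omega)
      have t := hC _ k1 (by rw [k2, k3]; omega)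
      rw [t, k4, k3, u2]
    have s : de φ x v u < Dl x + 1 ∧ (de φ x v u = Dl x ∨
        φ (vz x (inp x).β (wt x) u v (de φ x v u) (Mx x)) = 1) :=
      lst_spec (P := fun θ => θ = Dl x ∨ φ (vz x (inp x).β (wt x) u v θ (Mx x)) = 1)
        ⟨_, Nat.lt_succ_self _, Or.inl rfl⟩
    have t : ds (inp x) (wt x) U v u ≤ Dl x → de φ x v u ≤ ds (inp x) (wt x) U v u := fun q =>
      lst_le (by omega) (Or.inr ((k _ q).2 le_rfl))
    have r := s.2.imp_right (k _ (by omega)).1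
    omega

end Pool.Agent.MP_1a6d78_lc.DS.DD
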