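import Pool.Agent.MP_1a6d78_lc.DD.Basic

/-! PROJECT DD: the final stage is right. -/

namespace Pool.Agent.MP_1a6d78_lc.DS.DD

open Classical ED PR

namespace FinL

theorem dig (h : DigS) (W L : ℕ) : ∀ l < L, dg (2 * W + 1) (t0 W L) l = W :=
  (lst_spec (P := fun q => ∀ l < L, dg (2 * W + 1) q l = W)
    (h (2 * W + 1) L (fun _ => W) fun _ _ => by omega)).2

theorem canc {P e δ N : ℕ} (hP : 0 < P) (hN : 0 < N) (h : P * N * e ≤ P * δ) : e ≤ δ / N := by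
  rw [Nat.le_div_iff_mul_le hN, Nat.mul_comm]
  rw [Nat.mul_assoc] at h
  exact Nat.le_of_mul_le_mul_left h hP

end FinL

theorem fin1S : Fin1S := by
  intro dS tS sS eS wS kS lS gS aS legS S L μ I m θ so hm hθ hx
  have kk := kS S L μ so
  have lg := gS S L μ so kk
  have hP : 0 < (3 * L + 3) ^ I * m := Nat.mul_pos (Nat.pow_pos (by omega)) (by omega)
  have hN : 3 ≤ 8 * m ^ 2 := by nlinarith
  have hPQ : (3 * L + 3) ^ I * m ≤ (3 * L + 3) ^ I * m * (8 * m ^ 2) :=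
    Nat.le_mul_of_pos_right _ (by omega)
  have hQ : 3 ≤ (3 * L + 3) ^ I * m * (8 * m ^ 2) :=
    hN.trans (Nat.le_mul_of_pos_left _ hP)
  have ok := aS S L μ m _ so kk (lS S L μ so) lg hm hQ
  have tb := tS _ L _ ok
  have ks : S.K (S.M.nd S.M.s) := kk.x _ so.xs
  have ls : S.f.live (S.M.nd S.M.s) := so.xl _ so.xs
  obtain ⟨l, -, lo⟩ := so.lo
  constructor
  · rintro ⟨c, hc, wk⟩
    have rc : Rc S.M S.w U (S.M.nd S.M.t) (S.M.nd S.M.s) := ⟨c, wk⟩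
    obtain ⟨c0, w0⟩ := rc_symm so.wo.ok.iv rc
    have lt : S.f.live (S.M.nd S.M.t) := so.wo.live lo.fit w0 ls
    have kt : S.K (S.M.nd S.M.t) := kk.x _ (hx lt)
    have d1 := ds_le wk
    have d2 := (kk.rc _ _ lt ls).2
    obtain ⟨c', h1, ch⟩ := legS S L μ m _ so kk lg ok (θ + 1) (t0 S.W L) _ _
      (FinL.dig dS S.W L) kt (ds_spec rc) (by omega)
    have w1 := wS _ L _ ok tb I (θ + 1) (Nat.succ_le_succ hθ) hPQ _ _ _ c' ks ch
      (show c' ≤ S.W by omega)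
    have e1 := FinL.canc hP (by omega) (eS (ab S μ m ((3 * L + 3) ^ I * m * (8 * m ^ 2))) L
      hm hQ I (θ + 1))
    refine if_pos ⟨lt, w1.trans ?_⟩
    show S.W + c' + _ ≤ _
    omega
  · intro h
    have h' : S.f.live (S.M.nd S.M.t) ∧
        res S L μ I m θ ≤ S.W + θ + (θ + 1) / (8 * m ^ 2) := by
      by_contra k
      rw [an1, if_neg k] at h
      omega
    have s1 : S.W + ds S.M S.w U (S.M.nd S.M.t) (S.M.nd S.M.s) ≤ res S L μ I m θ :=
      sS _ L _ ok tb I (θ + 1) _ (t0 S.W L) ks _ (kk.x _ (hx h'.1))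
    exact ⟨_, by omega, ds_spec (kk.rc _ _ h'.1 ls).1⟩

end Pool.Agent.MP_1a6d78_lc.DS.DD
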