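import Pool.Agent.MP_1a6d78_lc.DD.Basic

/-! PROJECT DD: the rows KK and SLD. -/

namespace Pool.Agent.MP_1a6d78_lc.DS.DD

open Classical ED PR

namespace KkL

variable {N : ℕ} {arc : ℕ → ℕ → Prop} {f : Fo}

theorem lp (h : f.Ok N arc) (a : ℕ) (ha : f.live a) : f.live (f.par a) := by
  by_cases e : f.par a = a
  · rwa [e]
  · exact (h.par a ha e).2.1

theorem dec (h : f.Ok N arc) (k : ℕ) {a : ℕ} (ha : f.live a) :
    f.par^[k] a = a ∨ f.ht (f.par^[k] a) < f.ht a := by
  induction k generalizing a with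
  | zero => exact Or.inl rfl
  | succ k ih =>
    rw [Function.iterate_succ_apply]
    by_cases e : f.par a = a
    · rw [e]
      exact ih ha
    · have := (h.par a ha e).2.2
      rcases ih (lp h a ha) with q | q
      · exact Or.inr (by rwa [q])
      · exact Or.inr (q.trans this)

theorem le (h : f.Ok N arc) (k : ℕ) {a : ℕ} (ha : f.live a) : f.ht (f.par^[k] a) ≤ f.ht a := by
  rcases dec h k ha with q | q
  · rw [q]
  · exact q.le

theorem walk {M : Mp} {w : ℕ → ℕ} {W : ℕ} (h : f.Ok N arc) (g : Ge M w W f) (k : ℕ) {y : ℕ}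
    (hy : f.live y) (e : f.ht (f.par^[k] y) / W = f.ht y / W) :
    ∃ c, Wk M w U y (f.par^[k] y) c ∧ c + f.ht (f.par^[k] y) = f.ht y := by
  induction k generalizing y with
  | zero => exact ⟨0, .nil trivial, Nat.zero_add _⟩
  | succ k ih =>
    rw [Function.iterate_succ_apply] at e ⊢
    by_cases p : f.par y = y
    · rw [p] at e ⊢
      exact ih hy e
    · have a1 : f.ht (f.par^[k] (f.par y)) / W ≤ f.ht (f.par y) / W :=
        Nat.div_le_div_right (le h k (lp h y hy))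
      have a2 : f.ht (f.par y) / W ≤ f.ht y / W := Nat.div_le_div_right (h.par y hy p).2.2.le
      obtain ⟨c, k1, k2⟩ := ih (lp h y hy) (by omega)
      obtain ⟨d, d1, d2, d3, d4, d5⟩ := g.par y hy p (by omega)
      have k3 : Wk M w U (M.nd d) (M.nd (M.β d)) (w d) := Wk.one d1 d2 trivial trivial
      rw [d3, d4] at k3
      exact ⟨_, k3.trans k1, by omega⟩

end KkL

theorem kkS2 : KkS := by
  intro S L μ h
  obtain ⟨l, -, k⟩ := h.lo
  have o := k.fit.1
  refine ⟨fun x v hx => ⟨fun ⟨t, _, e⟩ => ⟨t, ?_⟩, fun ⟨t, e⟩ => ?_⟩, ?_, fun v hv => ?_,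
    fun u v hu hv => ?_⟩
  · rwa [it_eq' (KkL.lp o) o.lt hx] at e
  · obtain ⟨s, s1, s2⟩ := iter_bnd' (KkL.lp o) o.lt hx e
    exact ⟨s, s1, by rwa [it_eq' (KkL.lp o) o.lt hx]⟩
  · rintro v ⟨x, -, hx, t, -, e⟩
    rw [it_eq' (KkL.lp o) o.lt (h.xl x hx)] at e
    exact e ▸ iter_inv (KkL.lp o) (h.xl x hx) t
  · have := o.lt v (h.xl v hv)
    exact ⟨v, this, hv, 0, by omega, rfl⟩
  · have r := rc_trans (rc_symm h.wo.ok.iv (k.comp u hu)) (k.comp v hv)
    exact ⟨r, h.wo.ds_lt r (o.lt u hu)⟩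

theorem sldS : SldS := by
  intro S L μ h x a y s t hx ea ey lv le
  obtain ⟨l, -, k⟩ := h.lo
  have o := k.fit.1
  rcases le_total t s with q | q
  · obtain ⟨j, rfl⟩ := Nat.exists_eq_add_of_le' q
    rw [Function.iterate_add_apply, ey] at ea
    subst ea
    exact KkL.walk o k.geo j (ey ▸ iter_inv (KkL.lp o) hx t) lv
  · obtain ⟨j, rfl⟩ := Nat.exists_eq_add_of_le' q
    rw [Function.iterate_add_apply, ea] at ey
    rcases KkL.dec o j (ea ▸ iter_inv (KkL.lp o) hx s : S.f.live a) with p | p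
    · rw [p] at ey
      subst ey
      exact ⟨0, .nil trivial, Nat.zero_add _⟩
    · rw [ey] at p
      omega

end Pool.Agent.MP_1a6d78_lc.DS.DD
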