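import Pool.Agent.MP_1a6d78_lc.DD.Basic

/-! PROJECT DD: a walk to the root gives a chain of legs. -/

namespace Pool.Agent.MP_1a6d78_lc.DS.DD

open Classical ED PR

namespace LegL

/-- The first entry of a walk into `K`. -/
theorem entry {M : Mp} {w : ℕ → ℕ} {A : ℕ → Prop} (K : ℕ → Prop) {u v c : ℕ}
    (h : Wk M w A u v c) (hu : ¬K u) : Wk M w (fun z => ¬K z) u v c ∨
      ∃ b c1 c2, b < M.n ∧ M.β b ≠ b ∧ Wk M w (fun z => ¬K z) u (M.nd b) c1 ∧
        K (M.nd (M.β b)) ∧ Wk M w U (M.nd (M.β b)) v c2 ∧ c1 + w b + c2 = c := by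
  induction h with
  | nil _ => exact Or.inl (.nil hu)
  | @step v v' c d _ a b e e' _ ih =>
    subst e e'
    rcases ih with i | ⟨b', c1, c2, p1, p2, p3, p4, p5, p6⟩
    · by_cases q : K (M.nd (M.β d))
      · exact Or.inr ⟨d, c, 0, a, b, i, q, .nil trivial, rfl⟩
      · exact Or.inl (i.step a b rfl rfl q)
    · exact Or.inr ⟨b', c1, c2 + w d, p1, p2, p3, p4, p5.step a b rfl rfl trivial, by omega⟩

theorem chain {A : Ab} {L : ℕ} {D : ℕ → ℕ → ℕ} (h : A.Ok L D) {y0 δ τ y c : ℕ} (k : A.K y0)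
    (ch : A.Ch y0 δ τ y c) : A.K y ∧ D y y0 ≤ c := by
  induction ch with
  | nil => exact ⟨k, (h.refl _ k).le⟩
  | step _ kz _ _ ih =>
    have a := h.tri _ _ _ kz ih.1 k
    have b := (h.lg _ _ kz ih.1).1
    exact ⟨kz, by omega⟩

end LegL

open LegL in
theorem legS : LegS := by
  intro S L μ B Q so kk lg ok δ τ z c hτ
  have ks : S.K (S.M.nd S.M.s) := kk.x _ so.xs
  obtain ⟨l, -, lo⟩ := so.lo
  have st : ∀ y z c c', S.K z → (ab S μ B Q).Ch (S.M.nd S.M.s) δ τ y c' → c' ≤ c → c < δ →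
      (ab S μ B Q).Ch (S.M.nd S.M.s) δ τ z (c' + lgv S z y) := fun y z c c' kz ch a b => by
    obtain ⟨ky, le⟩ := chain ok ks ch
    have e : (ab S μ B Q).lo τ y = S.f.ht y % S.W + S.W :=
      congrArg (S.f.ht y % S.W + ·) (hτ _ (ok.lev y ky))
    have r := lo.geo.rt y _ (kk.live y ky) (ds_spec (kk.rc _ _ (kk.live y ky) (kk.live _ ks)).1)
    have eW : (ab S μ B Q).W = S.W := rfl
    exact ch.step kz (by omega) (by omega)
  induction c using Nat.strong_induction_on generalizing z with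
  | _ c ih =>
    intro kz wk cd
    rcases wk.exit with rfl | ⟨a, c', a1, a2, rfl, a4, a5⟩
    · exact ⟨0, Nat.zero_le _, .nil⟩
    have p := so.wo.pos a a1 a2
    by_cases q : S.K (S.M.nd (S.M.β a))
    · obtain ⟨c'', i1, i2⟩ := ih c' (by omega) _ q a4.toU (by omega)
      have := lg.one a a1 a2
      exact ⟨_, by omega, st _ _ c' _ kz i2 i1 (by omega)⟩
    · rcases entry S.K a4 q with i | ⟨b, c1, c2, p1, p2, p3, p4, p5, p6⟩
      · exact (i.mem.2 ks).elim
      · obtain ⟨c'', i1, i2⟩ := ih c2 (by omega) _ p4 p5 (by omega)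
        have := lg.two a a1 b p1 a2 p2 kz p4 c1 p3
        exact ⟨_, by omega, st _ _ c2 _ kz i2 i1 (by omega)⟩

end Pool.Agent.MP_1a6d78_lc.DS.DD
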