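import Pool.Agent.MP_1a6d78_lc.DD.Basic

/-! PROJECT DD, rows LEV, G0 and G1: the invariants of the levels and the gap algorithm. -/

namespace Pool.Agent.MP_1a6d78_lc.DS.DD

open Classical ED PR

namespace LevL

theorem ar {E X a b Q : ℕ} (hE : 1 ≤ E)
    (h : 5000 * E * X ≤ 5000 * (a + b) + 1000 * (Q * (5000 * E))) : X ≤ a / E + b + 1000 * Q := by
  have h1 : X * E ≤ a + (b + 1000 * Q) * E := by nlinarith [Nat.mul_le_mul_left b hE]
  have h2 := (Nat.le_div_iff_mul_le hE).2 h1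
  rw [Nat.add_mul_div_right _ _ hE] at h2
  omega

theorem one (n a : ℕ) (P : ℕ → Prop) : cnt n (fun v => v = a ∧ P v) ≤ 1 :=
  (cnt_inj (m := 1) (Q := fun _ => True) (fun _ => 0) (fun _ _ _ => ⟨one_pos, trivial⟩)
    fun _ _ _ _ h k _ => h.1.trans k.1.symm).trans (cnt_le _ _)

theorem nums {r D c a : ℕ} (hD : 5000 ≤ D) (hc : c ≤ r * (1001 * D ^ 4) + D ^ 3)
    (ha : D * a ≤ 5000 * c + 1000 * D ^ 5) : a + 1 ≤ mu r D := by
  have h1 : a ≤ c + 1000 * D ^ 4 := by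
    refine Nat.le_of_mul_le_mul_left (ha.trans ?_) (by omega : 0 < D)
    have := Nat.mul_le_mul_right c hD
    rw [Nat.mul_add, show D * (1000 * D ^ 4) = 1000 * D ^ 5 by ring]
    omega
  have h2 : D ^ 3 ≤ D ^ 4 := Nat.pow_le_pow_right (by omega) (by omega)
  have h3 : 1 ≤ D ^ 4 := Nat.one_le_pow _ _ (by omega)
  have h4 : mu r D = 4000 * (r * D ^ 4) + 4000 * D ^ 4 := by unfold mu; ring
  rw [show r * (1001 * D ^ 4) = 1001 * (r * D ^ 4) by ring] at hc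
  omega

theorem mu_ge (r D : ℕ) (hD : 1 ≤ D) : D ^ 3 ≤ mu r D := by
  have a : D ^ 3 ≤ D ^ 4 := Nat.pow_le_pow_right hD (by omega)
  have c : 4000 * D ^ 4 ≤ 4000 * (r + 1) * D ^ 4 :=
    Nat.mul_le_mul_right _ (Nat.le_mul_of_pos_right _ (by omega))
  unfold mu
  omega

theorem gap (hF : FinS) (hS : ScS) {e : ℕ} {y : List Bool} {f : Fo} {X : ℕ → Prop}
    {o : ℕ → ℕ → ℕ} (hp : P0 e y) (ht : (inp y).t < (inp y).n)
    (h : So ⟨inp y, w1 y, Zx y, f, X, o, Zx y⟩ (e + 1) (mu e (Dz y)))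
    (hx : f.live ((inp y).nd (inp y).t) → X ((inp y).nd (inp y).t)) :
    (Rw y (num y 3) → an2 ⟨inp y, w1 y, Zx y, f, X, o, Zx y⟩ e y = 1) ∧
      (an2 ⟨inp y, w1 y, Zx y, f, X, o, Zx y⟩ e y = 1 →
        Rw y (num y 3 + 2 * (num y 3 + 1) / (8 * Mx y ^ 2))) := by
  obtain ⟨s1, s2, s3⟩ := hS e y hp ht
  obtain ⟨a, b⟩ := hF _ _ _ (4 * e) (Mx y) (th1 y) h hp.M s1 hx
  exact ⟨fun k => a (s2 k), fun k => s3 (b k)⟩

end LevL

theorem levS2 : LevS := by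
  intro comp dk nx size sub vz m e φ x R hc hp hR hs hm l
  have hE : 1 ≤ Mx x := le_trans (by omega) hp.M
  have hD : 1 ≤ Dz x := by unfold Dz; omega
  have hw := hp.wo
  have c1 := comp.1 (inp x) (wt x) hp.ok
  have c2 := comp.2 _ _ _ hw
  have hl : cnt (inp x).n (lv (inp x)) ≤ Dz x ^ 3 * R :=
    (cnt_congr fun a ha => (c1 a).trans ⟨fun k => k.2, fun k => ⟨ha, k⟩⟩).le.trans hs
  induction l with
  | zero =>
    obtain ⟨s1, s2, s3⟩ := size _ _ _ _ _ _ _ _ hw c2 hD hR hl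
    refine ⟨s1, rfl, s2.trans ?_, fun K w' hK u hu k => (s3 K w' hK u hu k).trans hm⟩
    have : cnt (inp x).n (f1 (inp x) (Zx x)).mk' ≤ num x 0 := cnt_le _ _
    simpa using this
  | succ l ih =>
    obtain ⟨i1, i2, i3, i4⟩ := ih
    set g := le2 φ x (Dz x) R l with hg
    have ck := (glev _ _ g hD hw.ok i1.fit).2
    have xs : (inp x).X (Dz x) g ((inp x).nd (inp x).s) := Or.inl rfl
    have o := sub vz m e φ x g.live ((inp x).ld (Dz x) g).K hc hp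
      (fun v hv => ⟨i1.fit.1.lt v hv, i1.fit.2.vx v hv⟩)
      fun u hu k => i4 _ _ (fun _ k => k) u (i2 ▸ hu) k
    have d := dk _ _ _ _ g _ _ _ hw i1 ((ck.K _).2 ⟨_, xs, 0, rfl⟩) ck.klive le_rfl o
    have n1 : Lo (inp x) (w1 x) (Zx x) (l + 1 + 1) (nx2 φ x (Dz x) g) :=
      nx _ _ _ _ g _ _ _ hw i1 xs (fun v hv => hv.elim (fun k => k ▸ i1.fit.2.ls) fun k => k.1)
        ck.K d
    have n2 : (nx2 φ x (Dz x) g).live = lv (inp x) := i2
    obtain ⟨s1, s2, s3⟩ := size _ _ _ _ _ _ _ _ hw n1 hD hR (n2 ▸ hl)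
    refine ⟨s1, i2, s2.trans ?_, fun K w' hK u hu k => (s3 K w' hK u (n2 ▸ hu) k).trans hm⟩
    have f1 : cnt (inp x).n ((inp x).X (Dz x) g) ≤ num x 0 / Mx x ^ l / Mx x +
        (l * (1001 * Dz x ^ 4) + Dz x ^ 3) + 1000 * Dz x ^ 4 := by
      refine LevL.ar hE (ck.few.trans ?_)
      rw [show 5000 * Mx x = Dz x from rfl, ← pow_succ, ← add_assoc]
      exact Nat.add_le_add_right (Nat.mul_le_mul_left _ i3) _
    have f2 : Dz x ^ 3 ≤ Dz x ^ 4 := Nat.pow_le_pow_right hD (by omega)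
    have f3 : cnt (inp x).n (nx2 φ x (Dz x) g).mk' = cnt (inp x).n ((inp x).X (Dz x) g) := rfl
    rw [Nat.div_div_eq_div_mul, ← pow_succ] at f1
    rw [f3, Nat.add_mul l 1, Nat.one_mul]
    omega

theorem g0S : G0S := by
  intro hF hC hS e y h
  have hp := h.p
  have hE := hp.M
  have c1 := hC.1 (inp y) (wt y) hp.ok
  have c2 := hC.2 _ _ _ hp.wo
  have a : cnt (inp y).n (lv (inp y)) ≤ Dz y ^ 3 :=
    (cnt_mono fun v _ k => ((c1 v).1 k).2).trans (h.sz.trans (by simp [mm, Dz]))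
  refine LevL.gap hF hS hp h.t ⟨hp.wo, ⟨1, by omega, c2⟩, fun _ k => k, c2.fit.2.ls,
    a.trans (LevL.mu_ge _ _ (by unfold Dz; omega)), fun u v l k _ _ => ?_⟩ fun k => k
  have hu : u < (inp y).n := c2.fit.1.lt u l
  exact absurd ⟨u, hu, l, 0, (Nat.zero_le _).trans_lt hu, rfl⟩ k

theorem g1S : G1S := by
  intro hF hS hC hD hN hZ hU hV hL j e φ hc y h
  have hp := h.p
  have hE := hp.M
  have k2 : num y 0 < Mx y ^ e := by
    have := nle y 0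
    have := hp.len
    omega
  have q : 4 * Dz y ^ 2 * Mx y ^ (j + 1) ≤ mm j (Mx y) := by
    unfold mm Dz
    generalize Mx y = E
    have : (5000 * E) ^ 3 * E ^ j = 5000 * ((5000 * E) ^ 2 * E ^ (j + 1)) := by ring
    rw [this, Nat.mul_assoc]
    exact Nat.mul_le_mul_right _ (by omega)
  obtain ⟨l1, l2, l3, l4⟩ := hL hC hD hN hZ hU hV (mm j) e φ y (Mx y ^ (j + 1)) hc hp
    (Nat.one_le_pow _ _ (by omega)) h.sz q e
  rw [Nat.div_eq_of_lt k2, Nat.zero_add] at l3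
  set f := le2 φ y (Dz y) (Mx y ^ (j + 1)) e with hf
  have d5 : 5000 ≤ Dz y := by unfold Dz; omega
  have g := (glev (inp y) (Dz y) f (by omega) hp.ok l1.fit).2
  have n := LevL.nums d5 l3 g.few
  refine LevL.gap hF hS hp h.t ⟨hp.wo, ⟨e + 1, le_rfl, l1⟩, ?_, Or.inl (Or.inl rfl), ?_, ?_⟩
    fun k => Or.inr ⟨rfl, k⟩
  · rintro v ((rfl | k) | k)
    · exact l1.fit.2.ls
    · exact k.1
    · exact k.2
  · exact (cnt_or _ _ _).trans ((Nat.add_le_add_left (LevL.one _ _ _) _).trans n)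
  · exact hU hV (mm j) e φ y f.live (anc (inp y).n f.par (xs2 y (Dz y) f)) hc hp
      (fun v k => ⟨l1.fit.1.lt v k, l1.fit.2.vx v k⟩)
      fun u b => l4 _ _ (fun v ⟨z, h1, h2, h3⟩ => ⟨z, h1, Or.inl h2, h3⟩) u (l2 ▸ b)

end Pool.Agent.MP_1a6d78_lc.DS.DD
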