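import Pool.Agent.MP_1a6d78_lc.DD.Basic

/-! PROJECT DD: the legs, and the abstract setting of a skeleton. -/

namespace Pool.Agent.MP_1a6d78_lc.DS.DD

open Classical ED PR

theorem lgS : LgS := by
  intro S L μ h k
  obtain ⟨l, -, hl⟩ := h.lo
  have iv := h.wo.ok.iv
  refine ⟨fun u v hu hv => ?_, fun a ha hb => ?_, fun a ha b hb ea eb ka kb c hc => ?_⟩
  · have lu := k.live u hu
    have lv := k.live v hv
    have dW := (k.rc u v lu lv).2
    have hW : max (ds S.M S.w U u v) 1 ≤ S.W := max_le dW.le h.wo.Wpos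
    refine max_le_iff.1 (le_mn hW ?_)
    rintro a ha ⟨rfl, eb⟩
    have p := h.wo.pos a ha eb
    have oa : Wk S.M S.w U (S.M.nd a) (S.M.nd (S.M.β a)) (S.w a) := Wk.one ha eb trivial trivial
    split_ifs with c
    · subst c
      exact max_le (ds_le oa) p
    · refine le_mn hW ?_
      rintro b hb ⟨e1, rfl, n1, n2⟩
      have ob : Wk S.M S.w U (S.M.nd b) (S.M.nd (S.M.β b)) (S.w b) := Wk.one hb e1 trivial trivial
      have l2 : S.f.live (S.M.nd b) := by
        have := h.wo.clo hl.fit (iv b hb).1 lv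
        rwa [(iv b hb).2] at this
      rw [h.o _ _ (h.wo.clo hl.fit ha lu) n1 l2 n2]
      split_ifs with r
      · exact max_le (ds_le ((oa.trans (ds_spec r).toU).trans ob)) (by omega)
      · exact max_le (by omega) (by omega)
  · exact (mn_le ha ⟨rfl, hb⟩).trans (if_pos rfl).le
  · refine (mn_le ha ⟨rfl, ea⟩).trans ?_
    split_ifs with e
    · omega
    · refine (mn_le hb ⟨eb, rfl, hc.mem.1, hc.mem.2⟩).trans ?_
      have l1 := h.wo.clo hl.fit ha (k.live _ ka)
      rw [h.o _ _ l1 hc.mem.1 (h.wo.live hl.fit hc l1) hc.mem.2, if_pos ⟨c, hc⟩]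
      have := ds_le hc
      omega

theorem abS : AbS := by
  intro S L μ B Q h k s g hB hQ
  obtain ⟨l, hL, hl⟩ := h.lo
  have hW := h.wo.Wpos
  refine ⟨hW, hB, hQ, h.xn, fun v hv => hl.fit.1.lt v (k.live v hv), fun v hv => ?_,
    fun v _ => ds_self trivial, fun u v z hu hv hz => ds_tri (k.rc u v (k.live u hu) (k.live v hv)).1
      (k.rc v z (k.live v hv) (k.live z hz)).1,
    fun u v hu hv => (k.rc u v (k.live u hu) (k.live v hv)).2.le, g.snd, fun u v hu hv e => ?_,
    fun x a y ha hy e le => ?_⟩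
  · have := hl.fit.1.ht v (k.live v hv)
    rw [hl.hH] at this
    exact ((Nat.div_lt_iff_lt_mul hW).2 this).trans_le hL
  · have e' : S.f.ht u / S.W = S.f.ht v / S.W := e
    have a := hl.geo.lip u v _ (k.live u hu) (k.live v hv) e'
      (ds_spec (k.rc u v (k.live u hu) (k.live v hv)).1)
    have b := Nat.div_add_mod (S.f.ht u) S.W
    have c := Nat.div_add_mod (S.f.ht v) S.W
    rw [e'] at b
    show S.f.ht u % S.W ≤ S.f.ht v % S.W + _
    omega
  · have e' : S.f.ht a / S.W = S.f.ht y / S.W := e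
    have lx := h.xl x ha.2.1
    obtain ⟨i, hi⟩ := (k.it x a lx).1 ha.2.2
    obtain ⟨j, hj⟩ := (k.it x y lx).1 hy.2.2
    obtain ⟨c, c1, c2⟩ := s x a y i j lx hi hj e' le
    have d := ds_le c1
    have b := Nat.div_add_mod (S.f.ht a) S.W
    have c := Nat.div_add_mod (S.f.ht y) S.W
    rw [e'] at b
    show _ + S.f.ht a % S.W ≤ S.f.ht y % S.W
    omega

end Pool.Agent.MP_1a6d78_lc.DS.DD
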