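import Pool.Agent.MP_1a6d78_lc.DD.Basic

/-! PROJECT DD, row MCH: the machine. -/

namespace Pool.Agent.MP_1a6d78_lc.DS.DD

open Classical ED PR

namespace MchL

theorem two_pow {n k r : ℕ} (h : n < k ^ r) : n + 1 ≤ 2 ^ (k * r) := by
  rw [pow_mul]
  exact h.trans_le (Nat.pow_le_pow_left Nat.lt_two_pow_self.le r)

theorem log_le {n e : ℕ} (h : n ≤ 2 ^ e) : Nat.log 2 n ≤ e :=
  (Nat.log_mono_right h).trans (Nat.log_pow (by norm_num) e).le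

theorem time (n m : ℕ) : (n + 2) ^ (m + 1) + 2 ≤ (n + 2) ^ (m + 2) := by
  have a : 2 ≤ (n + 2) ^ (m + 1) := (Nat.le_add_left 2 n).trans (Nat.le_self_pow (by omega) _)
  rw [pow_succ _ (m + 1), Nat.mul_add]
  omega

theorem lgB {n k r : ℕ} (m : ℕ) (h : n + 2 < k ^ r) :
    Nat.log 2 ((n + 2) ^ (m + 1) + 2) ≤ r * (m + 2) * k := by
  have a : n + 2 ≤ 2 ^ (k * r) := (Nat.le_succ _).trans (two_pow h)
  refine log_le ((time n m).trans ((Nat.pow_le_pow_left a _).trans (le_of_eq ?_)))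
  rw [← pow_mul]
  congr 1
  ring

theorem root {n k r : ℕ} {ε : ℝ} (hε : 0 < ε) (hr : 1 ≤ r) (h4 : 4 / (ε / 2) ≤ r)
    (h : (k - 1) ^ r ≤ n + 2) : ((k ^ 8 : ℕ) : ℝ) ≤ 6561 * 3 ^ ε * ((n : ℝ) + 1) ^ ε := by
  have a := Fn.root (by positivity) hr h4 h
  have n0 : (0 : ℝ) ≤ n := Nat.cast_nonneg n
  have e : ((((n + 2 : ℕ) : ℝ) + 1) ^ (ε / 2)) ^ 2 = (((n + 2 : ℕ) : ℝ) + 1) ^ ε := by
    rw [← Real.rpow_natCast, ← Real.rpow_mul (by positivity)]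
    congr 1
    push_cast
    ring
  have b : ((k ^ 8 : ℕ) : ℝ) ≤ ((((k + 1) ^ 4) ^ 2 : ℕ) : ℝ) := by
    rw [← pow_mul]
    exact Nat.cast_le.2 (Nat.pow_le_pow_left (Nat.le_succ k) _)
  have c : (((n + 2 : ℕ) : ℝ) + 1) ^ ε ≤ 3 ^ ε * ((n : ℝ) + 1) ^ ε := by
    rw [← Real.mul_rpow (by norm_num) (by positivity)]
    refine Real.rpow_le_rpow (by positivity) ?_ hε.le
    push_cast
    linarith
  refine b.trans ?_
  rw [Nat.cast_pow]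
  refine (pow_le_pow_left₀ (Nat.cast_nonneg _) a 2).trans ?_
  rw [mul_pow, e, mul_assoc]
  exact mul_le_mul (by norm_num) c (by positivity) (by norm_num)

theorem bm_le {k : ℕ} (k1 : 1 ≤ k) : (5000 * k + 2) ^ 7 ≤ 5002 ^ 7 * k ^ 7 := by
  rw [← mul_pow]
  exact Nat.pow_le_pow_left (by omega) 7

theorem bm_pol {n k : ℕ} (h : k ≤ n + 2 + 1) : (5000 * k + 2) ^ 7 ≤ (n + 2) ^ 98 := by
  have a : 2 ^ 13 ≤ (n + 2) ^ 13 := Nat.pow_le_pow_left (by omega) 13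
  have b : 5000 * k + 2 ≤ (n + 2) ^ 14 := by
    refine le_trans ?_ ((Nat.mul_le_mul_right (n + 2) a).trans (pow_succ _ 13).ge)
    omega
  exact (Nat.pow_le_pow_left b 7).trans (pow_mul _ 14 7).ge

theorem space {κ l c C L k : ℕ} (k1 : 1 ≤ k) (h1 : κ ≤ C * k ^ 7) (h2 : l ≤ L * k) :
    (κ + 1) * (c * l + c) ≤ (C + 1) * (c * L + c) * k ^ 8 := by
  have a : 1 ≤ k ^ 7 := Nat.pow_pos k1
  have a1 : κ + 1 ≤ (C + 1) * k ^ 7 := by
    rw [add_mul, one_mul]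
    omega
  have a3 : c * l + c ≤ (c * L + c) * k := by
    have b1 : c * l ≤ c * (L * k) := Nat.mul_le_mul_left _ h2
    have b2 : c ≤ c * k := Nat.le_mul_of_pos_right _ k1
    rw [add_mul, mul_assoc]
    omega
  refine (Nat.mul_le_mul a1 a3).trans (le_of_eq ?_)
  rw [pow_succ k 7]
  exact mul_mul_mul_comm _ _ _ _

end MchL

open MchL in
theorem mchS2 : MchS := by
  intro hR ε hε
  obtain ⟨r, hr, h4⟩ : ∃ r : ℕ, 1 ≤ r ∧ 4 / (ε / 2) ≤ r :=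
    ⟨⌈4 / (ε / 2)⌉₊, Nat.ceil_pos.2 (by positivity), Nat.le_ceil _⟩
  refine ⟨r, hr, ?_⟩
  rintro f ⟨A, hA⟩
  obtain ⟨M, c, H⟩ := mach (fun x => (A + 1) * bm (Mt r) x) f
    (hA _ fun x => Nat.mul_le_mul_right _ (Nat.le_succ A))
  obtain ⟨Q, hQ⟩ : ∃ Q : ℕ, 6561 * (3 : ℝ) ^ ε ≤ Q := ⟨_, Nat.le_ceil _⟩
  obtain ⟨C, hC⟩ : ∃ C : ℕ, C = 5002 ^ 7 := ⟨_, rfl⟩
  obtain ⟨e, he⟩ : ∃ e : ℕ, e = 98 := ⟨_, rfl⟩
  refine ⟨M, (A + e + 2) * c + ((A + 1) * C + 1) * (c * (r * (A + e + 2)) + c) * Q,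
    fun x => ?_⟩
  obtain ⟨k1, k2, k3, k4⟩ := hR r (x.length + 2) hr
  have b1 : 1 ≤ bm (Mt r) x := Nat.pow_pos (by omega)
  have b2 : (A + 1) * bm (Mt r) x ≤ (x.length + 2) ^ (A + e + 1) := by
    have : A + 1 ≤ (x.length + 2) ^ (A + 1) :=
      Nat.lt_two_pow_self.le.trans (Nat.pow_le_pow_left (by omega) _)
    rw [show A + e + 1 = A + 1 + e by omega, pow_add]
    exact Nat.mul_le_mul this (he ▸ bm_pol k4)
  obtain ⟨H1, H2⟩ := H x ((x.length + 2) ^ (A + e + 1)) (Nat.mul_pos (by omega) b1) b2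
    ((Nat.le_add_right _ 2).trans (Nat.le_self_pow (by omega) _))
  refine ⟨?_, fun t i => ?_⟩
  · rw [Fn.halt M x H1, H1]
    refine (Nat.pow_le_pow_left (time _ _) c).trans ?_
    rw [← pow_mul]
    exact Nat.pow_le_pow_right (by omega) (Nat.le_add_right _ _)
  · have a0 : (A + 1) * bm (Mt r) x ≤ (A + 1) * C * ro r (x.length + 2) ^ 7 := by
      rw [mul_assoc]
      exact Nat.mul_le_mul_left _ (hC ▸ bm_le k1)
    have a : ((M.run x t).head i : ℝ) ≤ ((((A + 1) * C + 1) *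
        (c * (r * (A + e + 2)) + c) * ro r (x.length + 2) ^ 8 : ℕ) : ℝ) :=
      Nat.cast_le.2 ((H2 t i).trans (space k1 a0 (lgB _ k2)))
    have p : (0 : ℝ) ≤ ((x.length : ℝ) + 1) ^ ε := by positivity
    have b := (root hε hr h4 k3).trans (mul_le_mul_of_nonneg_right hQ p)
    rw [Nat.cast_mul] at a
    refine (a.trans (mul_le_mul_of_nonneg_left b (Nat.cast_nonneg _))).trans ?_
    rw [← mul_assoc, ← Nat.cast_mul]
    exact mul_le_mul_of_nonneg_right (Nat.cast_le.2 (Nat.le_add_left _ _)) p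

end Pool.Agent.MP_1a6d78_lc.DS.DD
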