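import Pool.Agent.MP_1a6d78_lc.DD.Basic

/-! PROJECT DD, row NEXT: the next forest satisfies the invariant. -/

namespace Pool.Agent.MP_1a6d78_lc.DS.DD

open Classical ED PR

theorem nxS2 : NxS := by
  intro M w W l f K X δ hw hl xs xl hK hδ
  obtain ⟨⟨fo, rt⟩, comp, geo, hH⟩ := hl
  have Wp := hw.Wpos
  have kl : ∀ v, K v → f.live v := fun v hv => by
    obtain ⟨x, hx, t, rfl⟩ := (hK v).1 hv
    refine iter_inv (fun a ha => ?_) (xl x hx) t
    by_cases e : f.par a = a
    · rwa [e]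
    · exact (fo.par a ha e).2.1
  have kp : ∀ v, K v → K (f.par v) := fun v hv => by
    obtain ⟨x, hx, t, rfl⟩ := (hK v).1 hv
    exact (hK _).2 ⟨x, hx, t + 1, Function.iterate_succ_apply' _ _ _⟩
  have kx : ∀ x, X x → K x := fun x hx => (hK x).2 ⟨x, hx, 0, rfl⟩
  generalize hg : nxF M w W f K X δ = g
  have gl : g.live = f.live := hg ▸ rfl
  have gm : g.mk' = X := hg ▸ rfl
  have gH : g.H = f.H + W := hg ▸ rfl
  have p1 : ∀ v, K v → g.par v = f.par v := fun v hv => hg ▸ if_pos hv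
  have h1 : ∀ v, K v → g.ht v = f.ht v := fun v hv => hg ▸ if_pos hv
  have h2 : ∀ v, ¬K v → g.ht v = f.H + δ v := fun v hv => hg ▸ if_neg hv
  have p2 : ∀ v, f.live v → ¬K v → ∃ d < M.n, M.nd d = v ∧ M.β d ≠ d ∧
      w d + δ (M.nd (M.β d)) = δ v ∧ g.par v = M.nd (M.β d) := fun v hv k =>
    have s := lst_spec (hδ.ex v hv k)
    ⟨_, s.1, s.2.1, s.2.2.1, s.2.2.2, hg ▸ if_neg k⟩
  have c1 : ∀ v, K v → g.ht v / W < l := fun v hv => by
    rw [h1 v hv, Nat.div_lt_iff_lt_mul Wp, ← hH]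
    exact fo.ht v (kl v hv)
  have c2 : ∀ v, ¬K v → l ≤ g.ht v / W := fun v hv => by
    rw [h2 v hv, Nat.le_div_iff_mul_le Wp, hH]
    omega
  have lip : ∀ u v c, f.live u → Wk M w U u v c → δ u ≤ δ v + c := by
    intro u v c hu k
    induction k with
    | nil _ => exact le_rfl
    | step p a b e e' _ ih =>
      subst e e'
      have := hδ.lip _ a b (hw.live ⟨fo, rt⟩ p hu)
      omega
  refine ⟨⟨⟨gl ▸ fo.lt, gl ▸ fo.clo, fun v hv e => ?_, fun v hv => ?_, gl ▸ gm ▸ xl⟩,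
    ⟨fun v hv e => ?_, gl ▸ rt.ls, (p1 _ (kx _ xs)).trans rt.ps, gl ▸ rt.vx⟩⟩, gl ▸ comp,
    ⟨fun u v c hu hv e k => ?_, fun v hv e1 e3 => ?_, fun v c hv p => ?_⟩,
    by rw [gH, hH, Nat.succ_mul]⟩
  · rw [gl] at hv ⊢
    by_cases k : K v
    · rw [p1 v k] at e ⊢
      rw [h1 v k, h1 _ (kp v k)]
      exact fo.par v hv e
    · obtain ⟨d, d1, rfl, d3, d4, d5⟩ := p2 v hv k
      have lv := hw.clo ⟨fo, rt⟩ d1 hv
      have := hw.pos d d1 d3
      rw [d5]
      refine ⟨⟨M.β d, (hw.ok.iv d d1).1, hw.dir _, rfl, by rw [(hw.ok.iv d d1).2]⟩, lv, ?_⟩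
      rw [h2 _ k]
      by_cases k' : K (M.nd (M.β d))
      · have := fo.ht _ lv
        rw [h1 _ k']
        omega
      · rw [h2 _ k']
        omega
  · rw [gl] at hv
    have := fo.ht v hv
    have := hδ.lt v hv
    by_cases k : K v
    · rw [h1 v k]
      omega
    · rw [h2 v k]
      omega
  · rw [gl] at hv
    by_cases k : K v
    · obtain ⟨x, hx, t, rfl⟩ := (hK v).1 k
      refine ⟨x, gm ▸ hx, t, ?_⟩
      clear hv e k
      induction t with
      | zero => rfl
      | succ t ih =>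
        rw [Function.iterate_succ_apply', Function.iterate_succ_apply', ih,
          p1 _ (iter_inv kp (kx x hx) t)]
    · obtain ⟨d, d1, -, d3, d4, d5⟩ := p2 v hv k
      have := hw.pos d d1 d3
      rw [← d5, e] at d4
      omega
  · rw [gl] at hu hv
    by_cases k : K u <;> by_cases k' : K v
    · rw [h1 u k, h1 v k'] at e ⊢
      exact geo.lip u v c hu hv e ‹_›
    · have := c1 u k
      have := c2 v k'
      omega
    · have := c2 u k
      have := c1 v k'
      omega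
    · have := lip u v c hu ‹_›
      rw [h2 u k, h2 v k']
      omega
  · rw [gl] at hv
    by_cases k : K v
    · rw [p1 _ k] at e1 e3 ⊢
      rw [h1 _ k, h1 _ (kp _ k)] at e3 ⊢
      exact geo.par v hv e1 e3
    · obtain ⟨d, d1, d2, d3, d4, d5⟩ := p2 _ hv k
      have k' : ¬K (g.par v) := fun t => by
        have := c1 _ t
        have := c2 _ k
        omega
      refine ⟨d, d1, d3, d2, d5.symm, ?_⟩
      rw [h2 _ k, h2 _ k', d5]
      omega
  · rw [gl] at hv
    by_cases k : K v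
    · rw [h1 v k]
      exact geo.rt v c hv p
    · have a := lip v _ c hv p
      rw [hδ.zero _ (kx _ xs), Nat.zero_add] at a
      rw [h2 v k, hH, Nat.mul_add_mod']
      exact (Nat.mod_le _ _).trans a

end Pool.Agent.MP_1a6d78_lc.DS.DD
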