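import Pool.Agent.MP_1a6d78_lc.DD.Basic

/-! PROJECT PDD: correctness (rows packed). -/

section MrgPart1

/-! PROJECT DD: rows ER and DIG. -/

namespace Pool.Agent.MP_1a6d78_lc.DS.DD

open Classical ED PR

namespace ErL

theorem itr_div (T q l : ℕ) :
    itr (fun _ a => a / T) q (l + 1) = itr (fun _ a => a / T) (q / T) l := by
  induction l with
  | zero => rfl
  | succ l ih =>
    show itr (fun _ a => a / T) q (l + 1) / T = itr (fun _ a => a / T) (q / T) l / T
    rw [ih]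

theorem dg_succ (T q l : ℕ) : dg T q (l + 1) = dg T (q / T) l := by
  unfold dg
  rw [itr_div]

theorem er_zero (A : Ab) (L : ℕ) (hB : 2 ≤ A.B) (hQ : 3 ≤ A.Q) (i : ℕ) :
    ∀ δ, δ < A.Q → A.er L i δ = 0 := by
  induction i with
  | zero => intro δ _; rfl
  | succ i ih =>
    intro δ h
    have h1 : δ / A.B ≤ δ / 2 := Nat.div_le_div_left hB (by norm_num)
    show L * A.B * (A.er L i (δ / A.B + 1) + δ / A.Q) + A.er L i (δ / A.B + 1) = 0
    rw [ih _ (by omega), Nat.div_eq_of_lt h]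
    simp

end ErL

open ErL

theorem digS : DigS := by
  intro T L
  induction L with
  | zero => intro f _; exact ⟨0, by simp, fun l h => absurd h (Nat.not_lt_zero l)⟩
  | succ L ih =>
    intro f hf
    obtain ⟨q, hq, h⟩ := ih (fun l => f (l + 1)) fun l hl => hf _ (by omega)
    have h0 := hf 0 (by omega)
    have hT : 0 < T := by omega
    refine ⟨f 0 + T * q, ?_, fun l hl => ?_⟩
    · have : T * (q + 1) ≤ T * T ^ L := Nat.mul_le_mul_left _ hq
      rw [pow_succ, mul_comm (T ^ L) T]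
      rw [mul_add, mul_one] at this
      omega
    · cases l with
      | zero =>
        show (f 0 + T * q) % T = f 0
        rw [Nat.add_mul_mod_self_left, Nat.mod_eq_of_lt h0]
      | succ l =>
        rw [dg_succ, Nat.add_mul_div_left _ _ hT, Nat.div_eq_of_lt h0, zero_add]
        exact h l (by omega)

theorem erS : ErS := by
  intro A L hB hQ i
  induction i with
  | zero => intro δ; exact Nat.zero_le _
  | succ i ih =>
    intro δ
    show A.Q * (L * A.B * (A.er L i (δ / A.B + 1) + δ / A.Q) + A.er L i (δ / A.B + 1)) ≤ _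
    have hP : 1 ≤ (3 * L + 3) ^ i := Nat.one_le_pow _ _ (by omega)
    have hd : A.Q * (δ / A.Q) ≤ δ := Nat.mul_div_le _ _
    have hb : A.B * (δ / A.B) ≤ δ := Nat.mul_div_le _ _
    have ih' := ih (δ / A.B + 1)
    have key : A.Q * A.er L i (δ / A.B + 1) ≤ (3 * L + 3) ^ i * (2 * δ) := by
      by_cases h : δ / A.B + 1 < A.Q
      · rw [er_zero A L hB hQ i _ h]
        exact Nat.zero_le _
      · refine ih'.trans ?_
        rw [mul_assoc]
        refine Nat.mul_le_mul_left _ ?_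
        have h2 : A.B * 2 ≤ A.B * (δ / A.B) := Nat.mul_le_mul_left _ (by omega)
        rw [mul_add, mul_one]
        omega
    rw [pow_succ]
    generalize (3 * L + 3) ^ i = P at *
    generalize A.er L i (δ / A.B + 1) = e at *
    generalize δ / A.Q = d at *
    have e1 : A.Q * (L * A.B * (e + d) + e) =
        (L * A.B + 1) * (A.Q * e) + L * A.B * (A.Q * d) := by ring
    have e2 : (L * A.B + 1) * (A.Q * e) ≤ ((L + 1) * A.B) * (P * (2 * δ)) :=
      Nat.mul_le_mul (by rw [add_mul, one_mul]; omega) key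
    have e3 : L * A.B * (A.Q * d) ≤ L * A.B * (P * δ) :=
      Nat.mul_le_mul_left _ (hd.trans (Nat.le_mul_of_pos_left _ hP))
    have e4 : P * (3 * L + 3) * A.B * δ =
        ((L + 1) * A.B) * (P * (2 * δ)) + L * A.B * (P * δ) + P * A.B * δ := by ring
    rw [e1, e4]
    omega

end Pool.Agent.MP_1a6d78_lc.DS.DD

end MrgPart1

section MrgPart2

/-! PROJECT DD: the tables. -/

namespace Pool.Agent.MP_1a6d78_lc.DS.DD

open Classical ED PR

namespace TabL

theorem pair {a b m n : ℕ} (ha : a < m) (hb : b < n) :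
    a * n + b < m * n ∧ (a * n + b) / n = a ∧ (a * n + b) % n = b := by
  refine ⟨?_, ?_, ?_⟩
  · have := Nat.mul_le_mul_right n (Nat.succ_le_of_lt ha)
    rw [Nat.succ_mul] at this
    omega
  · rw [Nat.add_comm, Nat.add_mul_div_right _ _ (by omega), Nat.div_eq_of_lt hb, Nat.zero_add]
  · rw [Nat.add_comm, Nat.add_mul_mod_self_right, Nat.mod_eq_of_lt hb]

variable {A : Ab} {L : ℕ} {D : ℕ → ℕ → ℕ}

theorem qpos (A : Ab) : 0 < A.Qn := Nat.succ_pos _

theorem htlt (h : A.Ok L D) {y : ℕ} (hy : A.K y) : A.ht y < L * A.W :=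
  (Nat.div_lt_iff_lt_mul h.W).1 (h.lev y hy)

theorem idx {a l q : ℕ} (ha : a < A.mu) (hl : l < L) (hq : q < A.Qn) :
    (a * L + l) * A.Qn + q < A.sz L := (pair (pair ha hl).1 hq).1

theorem entry {a l q : ℕ} (ha : a < A.mu) (hl : l < L) (hq : q < A.Qn) (δ τ : ℕ) (nw : ℕ → ℕ) :
    gt (A.mkT L δ τ nw) ((a * L + l) * A.Qn + q) = mn A.n
      (fun b => A.bel b (sel A.n A.X a) ∧ A.lv b = l ∧ nw b ≤ A.th δ τ b q) A.ht (L * A.W) := by
  rw [Ab.mkT, gt_tb _ (idx ha hl hq), (pair (pair ha hl).1 hq).2.1, (pair (pair ha hl).1 hq).2.2,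
    (pair ha hl).2.1, (pair ha hl).2.2]

theorem sound (h : A.Ok L D) {δ y0 τ : ℕ} {T : List ℕ} (h0 : A.K y0)
    (k : ∀ z a q, A.K z → a < A.mu → q < A.Qn → A.bel z (sel A.n A.X a) →
      gt T ((a * L + A.lv z) * A.Qn + q) ≤ A.ht z → A.W + D z y0 ≤ A.th δ τ z q) :
    A.Sd D y0 (A.G L δ y0 τ T) := by
  intro z hz
  unfold Ab.G
  split_ifs with e
  · rw [e, h.refl y0 h0]
    exact le_rfl
  · refine le_mn (by have := h.big z y0 hz h0; omega) fun i hi p => ?_
    exact k z _ _ hz ((Nat.div_lt_iff_lt_mul (qpos A)).2 hi) (Nat.mod_lt _ (qpos A)) p.1 p.2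

end TabL

open TabL in
theorem tabS : TabS := by
  intro A L D h
  refine ⟨fun δ y0 τ h0 => sound h h0 fun z a q hz ha hq _ p => ?_,
    fun δ y0 τ nw h0 hn => sound h h0 fun z a q hz ha hq b p => ?_,
    fun δ y0 τ nw y v hy h1 h2 h3 h4 => ?_⟩
  · rw [gt_tb _ (idx ha (h.lev z hz) hq)] at p
    exact absurd (htlt h hz) (not_lt.2 p)
  · rw [entry ha (h.lev z hz) hq] at p
    have k := htlt h hz
    rcases mn_eq A.n (fun b => A.bel b (sel A.n A.X a) ∧ A.lv b = A.lv z ∧ nw b ≤ A.th δ τ b q)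
      A.ht (L * A.W) with e | ⟨u, -, ⟨u1, u2, u3⟩, e⟩
    · omega
    · rw [e] at p
      have ku : A.K u := ⟨_, u1⟩
      have s1 := h.sld _ u z u1 b u2 p
      have s2 := h.tri z u y0 hz ku h0
      have s3 := hn u ku
      simp only [Ab.th, Ab.lo, u2] at u3 ⊢
      omega
  · unfold Ab.G
    split_ifs with e
    · exact h2.trans (Nat.le_add_right _ _)
    obtain ⟨x, hx⟩ := id hy
    have hb : A.bel y x := hx
    obtain ⟨c1, c2⟩ := sel_cnt hb.1 hb.2.1
    have ha : cnt x A.X < A.mu := c2.trans_le h.mu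
    obtain ⟨q, q1, q2, q3⟩ : ∃ q, q < A.Qn ∧ v ≤ A.th δ τ y q ∧ A.th δ τ y q ≤ v + δ / A.Q := by
      unfold Ab.th Ab.Qn
      generalize δ / A.Q = r at h4 ⊢
      generalize A.lo τ y = l at h3 h4 ⊢
      have d1 := Nat.div_add_mod (v - l + r) (r + 1)
      have r0 : 0 < r + 1 := Nat.succ_pos r
      have d2 := Nat.mod_lt (v - l + r) r0
      rw [Nat.mul_comm] at d1
      refine ⟨(v - l + r) / (r + 1), (Nat.div_lt_iff_lt_mul r0).2 ?_, by omega, by omega⟩
      rw [Nat.add_mul (2 * A.Q)]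
      omega
    obtain ⟨p1, p2, p3⟩ := pair ha q1
    refine (mn_le p1 ?_).trans ?_
    · rw [p2, p3, c1, entry ha (h.lev y hy) q1, c1]
      exact ⟨hb, mn_le (h.lt y hy) ⟨hb, rfl, h1.trans q2⟩⟩
    · rw [p3]
      exact q3

end Pool.Agent.MP_1a6d78_lc.DS.DD

end MrgPart2

section MrgPart3

/-! PROJECT DD: the window algorithm is sound; the base case is complete. -/

namespace Pool.Agent.MP_1a6d78_lc.DS.DD

open Classical ED PR

namespace SndL

variable {A : Ab} {L : ℕ} {D : ℕ → ℕ → ℕ} {δ y0 τ : ℕ}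

theorem rd_succ (nw : List ℕ → ℕ → ℕ) (m : ℕ) :
    A.rd L δ τ nw (m + 1) = A.mkT L δ τ (nw (A.rd L δ τ nw m)) := rfl

theorem rd_sd (k : A.TabK L D) (h0 : A.K y0) {nw : List ℕ → ℕ → ℕ}
    (h : ∀ T, A.Sd D y0 (A.G L δ y0 τ T) → A.Sd D y0 (nw T)) (m : ℕ) :
    A.Sd D y0 (nw (A.rd L δ τ nw m)) := by
  induction m with
  | zero => exact h _ (k.s0 δ y0 τ h0)
  | succ m ih => exact h _ (k.s1 δ y0 τ _ h0 ih)

theorem n0_sd (o : A.Ok L D) (h0 : A.K y0) (T : List ℕ) (h : A.Sd D y0 (A.G L δ y0 τ T)) :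
    A.Sd D y0 (A.n0 L δ y0 τ T) := fun z hz => le_mn (h z hz) fun y _ hy => by
  have a := h y hy
  have b := o.tri z y y0 hz hy h0
  have c := (o.lg z y hz hy).1
  omega

theorem n1_sd (o : A.Ok L D) (h0 : A.K y0) {f : ℕ → ℕ → ℕ → ℕ}
    (hf : ∀ y τ', A.K y → A.Sd D y (f y τ')) (T : List ℕ) (h : A.Sd D y0 (A.G L δ y0 τ T)) :
    A.Sd D y0 (A.n1 L f δ y0 τ T) := fun z hz => by
  have e := o.big z y0 hz h0
  refine le_mn (by omega) fun y _ hy => le_mn (by omega) fun τ' _ _ => ?_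
  have a := h y hy
  have b := o.tri z y y0 hz hy h0
  have c := hf y τ' hy z hz
  omega

theorem base (o : A.Ok L D) (k : A.TabK L D) (hδ : δ ≤ 2) (h0 : A.K y0) {z c : ℕ}
    (h : A.Ch y0 δ τ z c) : A.K z ∧ ∀ m, c ≤ m →
      A.n0 L δ y0 τ (A.rd L δ τ (A.n0 L δ y0 τ) m) z ≤ A.W + c := by
  induction h with
  | nil => exact ⟨h0, fun m _ => mn_le_z.trans (by simp [Ab.G])⟩
  | @step y z c _ hz h1 h2 ih =>
    refine ⟨hz, fun m hm => ?_⟩
    have a := (o.lg z y hz ih.1).2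
    have b := o.Q
    have e : δ / A.Q = 0 := Nat.div_eq_of_lt (by omega)
    obtain ⟨m, rfl⟩ : ∃ m', m = m' + 1 := ⟨m - 1, by omega⟩
    have d := k.cp δ y0 τ _ y (A.W + c) ih.1 (ih.2 m (by omega)) (by omega) h1 (by rw [e]; omega)
    refine (mn_le (o.lt y ih.1) ih.1).trans ?_
    rw [rd_succ]
    omega

end SndL

open SndL

theorem sndS : SndS := by
  intro A L D o k i
  induction i with
  | zero => exact fun δ y0 τ h0 => rd_sd k h0 (n0_sd o h0) _
  | succ i ih => exact fun δ y0 τ h0 => rd_sd k h0 (n1_sd o h0 fun y τ' hy => ih _ y τ' hy) _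

theorem baseS : BaseS := fun _ _ _ _ o k hδ _ _ _ _ h0 h hc => (base o k hδ h0 h).2 _ hc

end Pool.Agent.MP_1a6d78_lc.DS.DD

end MrgPart3

section MrgPart4

/-! PROJECT DD, row PHASE: a chain splits into few phases. -/

namespace Pool.Agent.MP_1a6d78_lc.DS.DD

open Classical ED PR

namespace PhL

variable {A : Ab} {L : ℕ} {D : ℕ → ℕ → ℕ}

theorem n1_le (ok : A.Ok L D) {f : ℕ → ℕ → ℕ → ℕ} {δ y0 τ y τ' z : ℕ} {T : List ℕ} (hy : A.K y)
    (ht : τ' < A.T ^ L) : A.n1 L f δ y0 τ T z ≤ A.G L δ y0 τ T y + f y τ' z - A.W :=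
  (mn_le (c := fun y => mn (A.T ^ L) (fun _ => True)
    (fun τ' => A.G L δ y0 τ T y + f y τ' z - A.W) (2 * A.W)) (ok.lt y hy) hy).trans
    (mn_le (P := fun _ => True) (c := fun τ' => A.G L δ y0 τ T y + f y τ' z - A.W) ht trivial)

theorem win {W h t a c c1 d u : ℕ} (hh : h < W) (hc : c ≤ W) (h1 : c1 ≤ c)
    (lo : h + t + a ≤ W + c) (hi : W + c < h + t + a + d) (e : u = min (2 * W) (t + a - c1)) :
    h + u ≤ W + (c - c1) ∧ W + (c - c1) < h + u + d := by
  omega

theorem sum_le {B : ℕ} {idx : ℕ → ℕ} (h : ∀ l, idx l < B) :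
    ∑ l ∈ Finset.range L, idx l ≤ L * B :=
  (Finset.sum_le_card_nsmul _ _ B fun l _ => (h l).le).trans (by simp)

theorem sum_up {idx : ℕ → ℕ} {l i : ℕ} (hl : l < L) (h : idx l < i) :
    ∑ j ∈ Finset.range L, idx j < ∑ j ∈ Finset.range L, Function.update idx l i j := by
  refine Finset.sum_lt_sum (fun j _ => ?_) ⟨l, Finset.mem_range.2 hl, by simpa using h⟩
  by_cases e : j = l
  · subst e
    simpa using h.le
  · rw [Function.update_of_ne e]

/-- The invariant of the chain. -/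
def Inv (A : Ab) (L : ℕ) (D : ℕ → ℕ → ℕ) (g : ℕ → ℕ → ℕ) (τ d err z c : ℕ) : Prop :=
  ∃ (idx : ℕ → ℕ) (y1 c1 τ1 : ℕ), A.K y1 ∧ c1 ≤ c ∧ τ1 < A.T ^ L ∧
    (∀ l < L, dg A.T τ1 l = min (2 * A.W) (dg A.T τ l + idx l * d - c1)) ∧
    A.Ch y1 d τ1 z (c - c1) ∧
    (∀ m, ∑ l ∈ Finset.range L, idx l ≤ m →
      g m y1 ≤ A.W + c1 + (∑ l ∈ Finset.range L, idx l) * err) ∧
    (∀ z1, A.K z1 → idx (A.lv z1) = 0 ∨ A.lo τ z1 + idx (A.lv z1) * d ≤ A.W + c + D z1 z) ∧
    ∀ l, idx l < A.B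

end PhL

open PhL in
theorem phS : PhS := by
  intro dig A L D f δ η ok tb cf hr y0 τ z c k0 ch hc
  have hB := ok.B
  have hW := ok.W
  obtain ⟨d, hd⟩ : ∃ d, d = δ / A.B + 1 := ⟨_, rfl⟩
  obtain ⟨err, he⟩ : ∃ err, err = η + δ / A.Q := ⟨_, rfl⟩
  rw [← hd] at cf
  rw [← he] at hr ⊢
  have d1 : 0 < d := hd ▸ Nat.succ_pos _
  have d2 : δ < A.B * d := hd ▸ Nat.lt_mul_div_succ _ (by omega)
  have dg' : ∀ (idx : ℕ → ℕ) (c1 : ℕ), ∃ q < A.T ^ L, ∀ l < L,
      dg A.T q l = min (2 * A.W) (dg A.T τ l + idx l * d - c1) := fun idx c1 =>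
    dig _ _ _ fun l _ => Nat.lt_succ_of_le (min_le_left _ _)
  have key : A.K z ∧ Inv A L D (fun m => A.G L δ y0 τ (A.rd L δ τ (A.n1 L f δ y0 τ) m))
      τ d err z c := by
    induction ch with
    | nil =>
      obtain ⟨q, q1, q2⟩ := dg' (fun _ => 0) 0
      refine ⟨k0, fun _ => 0, y0, 0, q, k0, le_rfl, q1, q2, .nil, fun m _ => ?_,
        fun _ _ => Or.inl rfl, fun _ => Nat.lt_of_lt_of_le Nat.two_pos hB⟩
      simp [Ab.G]
    | @step y z c _ kz lo hi ih =>
      obtain ⟨ky, idx, y1, c1, τ1, k1, i1, i2, i3, i4, i5, i6, i7⟩ := ih (by omega)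
      have hl := ok.lev y ky
      have hh : A.h y < A.W := Nat.mod_lt _ hW
      have lg := (ok.lg z y kz ky).1
      have tr : ∀ z1, A.K z1 → D z1 y ≤ D z1 z + A.lg z y := fun z1 k =>
        (ok.tri z1 z y k kz ky).trans (by omega)
      obtain ⟨i, hi'⟩ : ∃ i, i = (A.W + c - A.lo τ y) / d := ⟨_, rfl⟩
      have a1 : i * d ≤ A.W + c - A.lo τ y := hi' ▸ Nat.div_mul_le_self _ _
      have a2 : A.W + c - A.lo τ y < i * d + d := by
        have := Nat.lt_mul_div_succ (A.W + c - A.lo τ y) d1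
        rw [← hi', Nat.mul_succ, Nat.mul_comm] at this
        exact this
      have a3 : idx (A.lv y) ≤ i := by
        rcases i6 y ky with e | e
        · omega
        · rw [ok.refl y ky] at e
          exact hi' ▸ (Nat.le_div_iff_mul_le d1).2 (by omega)
      have lo' : A.lo τ y = A.h y + dg A.T τ (A.lv y) := rfl
      refine ⟨kz, ?_⟩
      rcases a3.eq_or_lt with e | e
      · obtain ⟨w1, w2⟩ := win (d := d) hh (by omega) i1 (t := dg A.T τ (A.lv y))
          (a := idx (A.lv y) * d) (by rw [e]; omega) (by rw [e]; omega) (i3 _ hl)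
        refine ⟨idx, y1, c1, τ1, k1, by omega, i2, i3, ?_, i5, fun z1 k => (i6 z1 k).imp id
          fun p => ?_, i7⟩
        · rw [show c + A.lg z y - c1 = c - c1 + A.lg z y by omega]
          exact i4.step kz w1 w2
        · have := tr z1 k
          omega
      · obtain ⟨q, q1, q2⟩ := dg' (Function.update idx (A.lv y) i) c
        have q3 := q2 _ hl
        rw [Function.update_self] at q3
        obtain ⟨w1, w2⟩ := win (d := d) hh (by omega) le_rfl (t := dg A.T τ (A.lv y))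
          (a := i * d) (by omega) (by omega) q3
        have s1 := sum_up hl e
        have s2 : ∑ l ∈ Finset.range L, idx l ≤ L * A.B := sum_le i7
        refine ⟨Function.update idx (A.lv y) i, y, c, q, ky, by omega, q1, q2, ?_,
          fun m hm => ?_, fun z1 k => ?_, fun l => ?_⟩
        · rw [show c + A.lg z y - c = c - c + A.lg z y by omega]
          refine Ab.Ch.step ?_ kz w1 w2
          rw [Nat.sub_self]
          exact .nil
        · obtain ⟨m, rfl⟩ : ∃ m', m = m' + 1 := ⟨m - 1, by omega⟩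
          have b1 := i5 m (by omega)
          have b2 := cf y1 τ1 y _ k1 i4 (by omega)
          have b3 := n1_le ok (f := f) (δ := δ) (y0 := y0) (τ := τ) (z := y)
            (T := A.rd L δ τ (A.n1 L f δ y0 τ) m) k1 i2
          have b4 := Nat.mul_le_mul_right err s2
          have b5 := Nat.mul_le_mul_right err (Nat.succ_le_of_lt s1)
          rw [Nat.succ_mul] at b5
          have b6 := tb.cp δ y0 τ (A.n1 L f δ y0 τ (A.rd L δ τ (A.n1 L f δ y0 τ) m)) y
            (A.W + c + (∑ l ∈ Finset.range L, idx l) * err + η) ky (by dsimp only at b1; omega)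
            (by omega) (by omega) (by omega)
          exact b6.trans (by omega)
        · have := tr z1 k
          by_cases p : A.lv z1 = A.lv y
          · have g := ok.geo z1 y k ky p
            have : A.lo τ z1 = A.h z1 + dg A.T τ (A.lv y) := by rw [← p]; rfl
            rw [p, Function.update_self]
            right
            omega
          · rw [Function.update_of_ne p]
            exact (i6 z1 k).imp id fun p => by omega
        · by_cases p : l = A.lv y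
          · rw [p, Function.update_self]
            exact Nat.lt_of_mul_lt_mul_right (a := d) (by omega)
          · rw [Function.update_of_ne p]
            exact i7 l
  obtain ⟨-, idx, y1, c1, τ1, k1, i1, i2, -, i4, i5, -, i7⟩ := key
  have s2 : ∑ l ∈ Finset.range L, idx l ≤ L * A.B := sum_le i7
  have b1 := i5 _ s2
  have b2 := cf y1 τ1 z _ k1 i4 (by omega)
  have b3 := n1_le ok (f := f) (δ := δ) (y0 := y0) (τ := τ) (z := z)
    (T := A.rd L δ τ (A.n1 L f δ y0 τ) (L * A.B)) k1 i2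
  have b4 := Nat.mul_le_mul_right err s2
  dsimp only at b1
  unfold Ab.o1
  omega

end Pool.Agent.MP_1a6d78_lc.DS.DD

end MrgPart4

section MrgPart5

/-! PROJECT DD: the rows KK and SLD. -/

namespace Pool.Agent.MP_1a6d78_lc.DS.DD

open Classical ED PR

namespace KkL

variable {N : ℕ} {arc : ℕ → ℕ → Prop} {f : Fo}

theorem lp (h : f.Ok N arc) (a : ℕ) (ha : f.live a) : f.live (f.par a) := by
  by_cases e : f.par a = a
  · rwa [e]
  · exact (h.par a ha e).2.1

theorem dec (h : f.Ok N arc) (k : ℕ) {a : ℕ} (ha : f.live a) :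
    f.par^[k] a = a ∨ f.ht (f.par^[k] a) < f.ht a := by
  induction k generalizing a with
  | zero => exact Or.inl rfl
  | succ k ih =>
    rw [Function.iterate_succ_apply]
    by_cases e : f.par a = a
    · rw [e]
      exact ih ha
    · have := (h.par a ha e).2.2
      rcases ih (lp h a ha) with q | q
      · exact Or.inr (by rwa [q])
      · exact Or.inr (q.trans this)

theorem le (h : f.Ok N arc) (k : ℕ) {a : ℕ} (ha : f.live a) : f.ht (f.par^[k] a) ≤ f.ht a := by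
  rcases dec h k ha with q | q
  · rw [q]
  · exact q.le

theorem walk {M : Mp} {w : ℕ → ℕ} {W : ℕ} (h : f.Ok N arc) (g : Ge M w W f) (k : ℕ) {y : ℕ}
    (hy : f.live y) (e : f.ht (f.par^[k] y) / W = f.ht y / W) :
    ∃ c, Wk M w U y (f.par^[k] y) c ∧ c + f.ht (f.par^[k] y) = f.ht y := by
  induction k generalizing y with
  | zero => exact ⟨0, .nil trivial, Nat.zero_add _⟩
  | succ k ih =>
    rw [Function.iterate_succ_apply] at e ⊢
    by_cases p : f.par y = y
    · rw [p] at e ⊢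
      exact ih hy e
    · have a1 : f.ht (f.par^[k] (f.par y)) / W ≤ f.ht (f.par y) / W :=
        Nat.div_le_div_right (le h k (lp h y hy))
      have a2 : f.ht (f.par y) / W ≤ f.ht y / W := Nat.div_le_div_right (h.par y hy p).2.2.le
      obtain ⟨c, k1, k2⟩ := ih (lp h y hy) (by omega)
      obtain ⟨d, d1, d2, d3, d4, d5⟩ := g.par y hy p (by omega)
      have k3 : Wk M w U (M.nd d) (M.nd (M.β d)) (w d) := Wk.one d1 d2 trivial trivial
      rw [d3, d4] at k3
      exact ⟨_, k3.trans k1, by omega⟩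

end KkL

theorem kkS2 : KkS := by
  intro S L μ h
  obtain ⟨l, -, k⟩ := h.lo
  have o := k.fit.1
  refine ⟨fun x v hx => ⟨fun ⟨t, _, e⟩ => ⟨t, ?_⟩, fun ⟨t, e⟩ => ?_⟩, ?_, fun v hv => ?_,
    fun u v hu hv => ?_⟩
  · rwa [it_eq' (KkL.lp o) o.lt hx] at e
  · obtain ⟨s, s1, s2⟩ := iter_bnd' (KkL.lp o) o.lt hx e
    exact ⟨s, s1, by rwa [it_eq' (KkL.lp o) o.lt hx]⟩
  · rintro v ⟨x, -, hx, t, -, e⟩
    rw [it_eq' (KkL.lp o) o.lt (h.xl x hx)] at e
    exact e ▸ iter_inv (KkL.lp o) (h.xl x hx) t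
  · have := o.lt v (h.xl v hv)
    exact ⟨v, this, hv, 0, by omega, rfl⟩
  · have r := rc_trans (rc_symm h.wo.ok.iv (k.comp u hu)) (k.comp v hv)
    exact ⟨r, h.wo.ds_lt r (o.lt u hu)⟩

theorem sldS : SldS := by
  intro S L μ h x a y s t hx ea ey lv le
  obtain ⟨l, -, k⟩ := h.lo
  have o := k.fit.1
  rcases le_total t s with q | q
  · obtain ⟨j, rfl⟩ := Nat.exists_eq_add_of_le' q
    rw [Function.iterate_add_apply, ey] at ea
    subst ea
    exact KkL.walk o k.geo j (ey ▸ iter_inv (KkL.lp o) hx t) lv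
  · obtain ⟨j, rfl⟩ := Nat.exists_eq_add_of_le' q
    rw [Function.iterate_add_apply, ea] at ey
    rcases KkL.dec o j (ea ▸ iter_inv (KkL.lp o) hx s : S.f.live a) with p | p
    · rw [p] at ey
      subst ey
      exact ⟨0, .nil trivial, Nat.zero_add _⟩
    · rw [ey] at p
      omega

end Pool.Agent.MP_1a6d78_lc.DS.DD

end MrgPart5

section MrgPart6

/-! PROJECT DD: the legs, and the abstract setting of a skeleton. -/

namespace Pool.Agent.MP_1a6d78_lc.DS.DD

open Classical ED PR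

theorem lgS : LgS := by
  intro S L μ h k
  obtain ⟨l, -, hl⟩ := h.lo
  have iv := h.wo.ok.iv
  refine ⟨fun u v hu hv => ?_, fun a ha hb => ?_, fun a ha b hb ea eb ka kb c hc => ?_⟩
  · have lu := k.live u hu
    have lv := k.live v hv
    have dW := (k.rc u v lu lv).2
    have hW : max (ds S.M S.w U u v) 1 ≤ S.W := max_le dW.le h.wo.Wpos
    refine max_le_iff.1 (le_mn hW ?_)
    rintro a ha ⟨rfl, eb⟩
    have p := h.wo.pos a ha eb
    have oa : Wk S.M S.w U (S.M.nd a) (S.M.nd (S.M.β a)) (S.w a) := Wk.one ha eb trivial trivial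
    split_ifs with c
    · subst c
      exact max_le (ds_le oa) p
    · refine le_mn hW ?_
      rintro b hb ⟨e1, rfl, n1, n2⟩
      have ob : Wk S.M S.w U (S.M.nd b) (S.M.nd (S.M.β b)) (S.w b) := Wk.one hb e1 trivial trivial
      have l2 : S.f.live (S.M.nd b) := by
        have := h.wo.clo hl.fit (iv b hb).1 lv
        rwa [(iv b hb).2] at this
      rw [h.o _ _ (h.wo.clo hl.fit ha lu) n1 l2 n2]
      split_ifs with r
      · exact max_le (ds_le ((oa.trans (ds_spec r).toU).trans ob)) (by omega)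
      · exact max_le (by omega) (by omega)
  · exact (mn_le ha ⟨rfl, hb⟩).trans (if_pos rfl).le
  · refine (mn_le ha ⟨rfl, ea⟩).trans ?_
    split_ifs with e
    · omega
    · refine (mn_le hb ⟨eb, rfl, hc.mem.1, hc.mem.2⟩).trans ?_
      have l1 := h.wo.clo hl.fit ha (k.live _ ka)
      rw [h.o _ _ l1 hc.mem.1 (h.wo.live hl.fit hc l1) hc.mem.2, if_pos ⟨c, hc⟩]
      have := ds_le hc
      omega

theorem abS : AbS := by
  intro S L μ B Q h k s g hB hQ
  obtain ⟨l, hL, hl⟩ := h.lo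
  have hW := h.wo.Wpos
  refine ⟨hW, hB, hQ, h.xn, fun v hv => hl.fit.1.lt v (k.live v hv), fun v hv => ?_,
    fun v _ => ds_self trivial, fun u v z hu hv hz => ds_tri (k.rc u v (k.live u hu) (k.live v hv)).1
      (k.rc v z (k.live v hv) (k.live z hz)).1,
    fun u v hu hv => (k.rc u v (k.live u hu) (k.live v hv)).2.le, g.snd, fun u v hu hv e => ?_,
    fun x a y ha hy e le => ?_⟩
  · have := hl.fit.1.ht v (k.live v hv)
    rw [hl.hH] at this
    exact ((Nat.div_lt_iff_lt_mul hW).2 this).trans_le hL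
  · have e' : S.f.ht u / S.W = S.f.ht v / S.W := e
    have a := hl.geo.lip u v _ (k.live u hu) (k.live v hv) e'
      (ds_spec (k.rc u v (k.live u hu) (k.live v hv)).1)
    have b := Nat.div_add_mod (S.f.ht u) S.W
    have c := Nat.div_add_mod (S.f.ht v) S.W
    rw [e'] at b
    show S.f.ht u % S.W ≤ S.f.ht v % S.W + _
    omega
  · have e' : S.f.ht a / S.W = S.f.ht y / S.W := e
    have lx := h.xl x ha.2.1
    obtain ⟨i, hi⟩ := (k.it x a lx).1 ha.2.2
    obtain ⟨j, hj⟩ := (k.it x y lx).1 hy.2.2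
    obtain ⟨c, c1, c2⟩ := s x a y i j lx hi hj e' le
    have d := ds_le c1
    have b := Nat.div_add_mod (S.f.ht a) S.W
    have c := Nat.div_add_mod (S.f.ht y) S.W
    rw [e'] at b
    show _ + S.f.ht a % S.W ≤ S.f.ht y % S.W
    omega

end Pool.Agent.MP_1a6d78_lc.DS.DD

end MrgPart6

section MrgPart7

/-! PROJECT DD: a walk to the root gives a chain of legs. -/

namespace Pool.Agent.MP_1a6d78_lc.DS.DD

open Classical ED PR

namespace LegL

/-- The first entry of a walk into `K`. -/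
theorem entry {M : Mp} {w : ℕ → ℕ} {A : ℕ → Prop} (K : ℕ → Prop) {u v c : ℕ}
    (h : Wk M w A u v c) (hu : ¬K u) : Wk M w (fun z => ¬K z) u v c ∨
      ∃ b c1 c2, b < M.n ∧ M.β b ≠ b ∧ Wk M w (fun z => ¬K z) u (M.nd b) c1 ∧
        K (M.nd (M.β b)) ∧ Wk M w U (M.nd (M.β b)) v c2 ∧ c1 + w b + c2 = c := by
  induction h with
  | nil _ => exact Or.inl (.nil hu)
  | @step v v' c d _ a b e e' _ ih =>
    subst e e'
    rcases ih with i | ⟨b', c1, c2, p1, p2, p3, p4, p5, p6⟩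
    · by_cases q : K (M.nd (M.β d))
      · exact Or.inr ⟨d, c, 0, a, b, i, q, .nil trivial, rfl⟩
      · exact Or.inl (i.step a b rfl rfl q)
    · exact Or.inr ⟨b', c1, c2 + w d, p1, p2, p3, p4, p5.step a b rfl rfl trivial, by omega⟩

theorem chain {A : Ab} {L : ℕ} {D : ℕ → ℕ → ℕ} (h : A.Ok L D) {y0 δ τ y c : ℕ} (k : A.K y0)
    (ch : A.Ch y0 δ τ y c) : A.K y ∧ D y y0 ≤ c := by
  induction ch with
  | nil => exact ⟨k, (h.refl _ k).le⟩
  | step _ kz _ _ ih =>
    have a := h.tri _ _ _ kz ih.1 k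
    have b := (h.lg _ _ kz ih.1).1
    exact ⟨kz, by omega⟩

end LegL

open LegL in
theorem legS : LegS := by
  intro S L μ B Q so kk lg ok δ τ z c hτ
  have ks : S.K (S.M.nd S.M.s) := kk.x _ so.xs
  obtain ⟨l, -, lo⟩ := so.lo
  have st : ∀ y z c c', S.K z → (ab S μ B Q).Ch (S.M.nd S.M.s) δ τ y c' → c' ≤ c → c < δ →
      (ab S μ B Q).Ch (S.M.nd S.M.s) δ τ z (c' + lgv S z y) := fun y z c c' kz ch a b => by
    obtain ⟨ky, le⟩ := chain ok ks ch
    have e : (ab S μ B Q).lo τ y = S.f.ht y % S.W + S.W :=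
      congrArg (S.f.ht y % S.W + ·) (hτ _ (ok.lev y ky))
    have r := lo.geo.rt y _ (kk.live y ky) (ds_spec (kk.rc _ _ (kk.live y ky) (kk.live _ ks)).1)
    have eW : (ab S μ B Q).W = S.W := rfl
    exact ch.step kz (by omega) (by omega)
  induction c using Nat.strong_induction_on generalizing z with
  | _ c ih =>
    intro kz wk cd
    rcases wk.exit with rfl | ⟨a, c', a1, a2, rfl, a4, a5⟩
    · exact ⟨0, Nat.zero_le _, .nil⟩
    have p := so.wo.pos a a1 a2
    by_cases q : S.K (S.M.nd (S.M.β a))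
    · obtain ⟨c'', i1, i2⟩ := ih c' (by omega) _ q a4.toU (by omega)
      have := lg.one a a1 a2
      exact ⟨_, by omega, st _ _ c' _ kz i2 i1 (by omega)⟩
    · rcases entry S.K a4 q with i | ⟨b, c1, c2, p1, p2, p3, p4, p5, p6⟩
      · exact (i.mem.2 ks).elim
      · obtain ⟨c'', i1, i2⟩ := ih c2 (by omega) _ p4 p5 (by omega)
        have := lg.two a a1 b p1 a2 p2 kz p4 c1 p3
        exact ⟨_, by omega, st _ _ c2 _ kz i2 i1 (by omega)⟩

end Pool.Agent.MP_1a6d78_lc.DS.DD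

end MrgPart7

section MrgPart8

/-! PROJECT DD: the final stage is right. -/

namespace Pool.Agent.MP_1a6d78_lc.DS.DD

open Classical ED PR

namespace FinL

theorem dig (h : DigS) (W L : ℕ) : ∀ l < L, dg (2 * W + 1) (t0 W L) l = W :=
  (lst_spec (P := fun q => ∀ l < L, dg (2 * W + 1) q l = W)
    (h (2 * W + 1) L (fun _ => W) fun _ _ => by omega)).2

theorem canc {P e δ N : ℕ} (hP : 0 < P) (hN : 0 < N) (h : P * N * e ≤ P * δ) : e ≤ δ / N := by
  rw [Nat.le_div_iff_mul_le hN, Nat.mul_comm]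
  rw [Nat.mul_assoc] at h
  exact Nat.le_of_mul_le_mul_left h hP

end FinL

theorem fin1S : Fin1S := by
  intro dS tS sS eS wS kS lS gS aS legS S L μ I m θ so hm hθ hx
  have kk := kS S L μ so
  have lg := gS S L μ so kk
  have hP : 0 < (3 * L + 3) ^ I * m := Nat.mul_pos (Nat.pow_pos (by omega)) (by omega)
  have hN : 3 ≤ 8 * m ^ 2 := by nlinarith
  have hPQ : (3 * L + 3) ^ I * m ≤ (3 * L + 3) ^ I * m * (8 * m ^ 2) :=
    Nat.le_mul_of_pos_right _ (by omega)
  have hQ : 3 ≤ (3 * L + 3) ^ I * m * (8 * m ^ 2) :=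
    hN.trans (Nat.le_mul_of_pos_left _ hP)
  have ok := aS S L μ m _ so kk (lS S L μ so) lg hm hQ
  have tb := tS _ L _ ok
  have ks : S.K (S.M.nd S.M.s) := kk.x _ so.xs
  have ls : S.f.live (S.M.nd S.M.s) := so.xl _ so.xs
  obtain ⟨l, -, lo⟩ := so.lo
  constructor
  · rintro ⟨c, hc, wk⟩
    have rc : Rc S.M S.w U (S.M.nd S.M.t) (S.M.nd S.M.s) := ⟨c, wk⟩
    obtain ⟨c0, w0⟩ := rc_symm so.wo.ok.iv rc
    have lt : S.f.live (S.M.nd S.M.t) := so.wo.live lo.fit w0 ls
    have kt : S.K (S.M.nd S.M.t) := kk.x _ (hx lt)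
    have d1 := ds_le wk
    have d2 := (kk.rc _ _ lt ls).2
    obtain ⟨c', h1, ch⟩ := legS S L μ m _ so kk lg ok (θ + 1) (t0 S.W L) _ _
      (FinL.dig dS S.W L) kt (ds_spec rc) (by omega)
    have w1 := wS _ L _ ok tb I (θ + 1) (Nat.succ_le_succ hθ) hPQ _ _ _ c' ks ch
      (show c' ≤ S.W by omega)
    have e1 := FinL.canc hP (by omega) (eS (ab S μ m ((3 * L + 3) ^ I * m * (8 * m ^ 2))) L
      hm hQ I (θ + 1))
    refine if_pos ⟨lt, w1.trans ?_⟩
    show S.W + c' + _ ≤ _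
    omega
  · intro h
    have h' : S.f.live (S.M.nd S.M.t) ∧
        res S L μ I m θ ≤ S.W + θ + (θ + 1) / (8 * m ^ 2) := by
      by_contra k
      rw [an1, if_neg k] at h
      omega
    have s1 : S.W + ds S.M S.w U (S.M.nd S.M.t) (S.M.nd S.M.s) ≤ res S L μ I m θ :=
      sS _ L _ ok tb I (θ + 1) _ (t0 S.W L) ks _ (kk.x _ (hx h'.1))
    exact ⟨_, by omega, ds_spec (kk.rc _ _ h'.1 ls).1⟩

end Pool.Agent.MP_1a6d78_lc.DS.DD

end MrgPart8

section MrgPart9

/-! PROJECT DD: two inequalities between sums of layers. -/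

namespace Pool.Agent.MP_1a6d78_lc.DS.DD

open Classical ED PR

namespace SumL

theorem one {Δ η c fx fy : ℕ} {a b : ℕ → ℕ} (h : fx ≤ c + fy) (m : ℕ)
    (k : ∀ j < m, a j ≤ c + b j ∧ a j ≤ Δ - η ∧ a j ≤ fx - j * Δ ∧
      min (Δ - η) (fy - j * Δ - η) ≤ b j) :
    ∑ j ∈ Finset.range m, a j ≤ c + ∑ j ∈ Finset.range m, b j ∧
      (∑ j ∈ Finset.range m, a j + fy ≤ ∑ j ∈ Finset.range m, b j + m * Δ ∨
        ∑ j ∈ Finset.range m, a j ≤ ∑ j ∈ Finset.range m, b j) := by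
  induction m with
  | zero => simp
  | succ m ih =>
    have i := ih fun j hj => k j (Nat.lt_succ_of_lt hj)
    have l := k m (Nat.lt_succ_self m)
    rw [Finset.sum_range_succ, Finset.sum_range_succ, Nat.succ_mul]
    omega

theorem two {Δ η f : ℕ} {b : ℕ → ℕ} (m : ℕ)
    (k : ∀ j < m, min (Δ - η) (f - j * Δ - η) ≤ b j) :
    min f (m * Δ) ≤ ∑ j ∈ Finset.range m, b j + m * η := by
  induction m with
  | zero => simp
  | succ m ih =>
    have i := ih fun j hj => k j (Nat.lt_succ_of_lt hj)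
    have l := k m (Nat.lt_succ_self m)
    rw [Finset.sum_range_succ, Nat.succ_mul, Nat.succ_mul]
    omega

end SumL

theorem sumS : SumS :=
  ⟨fun m _ _ _ _ _ _ _ h k => (SumL.one h m k).1,
    fun m _ _ _ _ h k => (min_eq_left h).symm.trans_le (SumL.two m k)⟩

end Pool.Agent.MP_1a6d78_lc.DS.DD

end MrgPart9

section MrgPart10

/-! PROJECT DD, row POT: the potential. -/

namespace Pool.Agent.MP_1a6d78_lc.DS.DD

open Classical ED PR

theorem potS : PotS := by
  intro hS n live g d D Δ η m s hl hs tri hg hd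
  have a1 : ∀ j v, psi n live g d Δ η j v ≤ Δ - η := fun j v => mn_le_z
  have a0 : ∀ j v u, live u → psi n live g d Δ η j v ≤ (g u - j * Δ) + d v u := fun j v u hu =>
    mn_le (c := fun u => (g u - j * Δ) + d v u) (hl u hu).1 hu
  have a2 : ∀ j v, live v → psi n live g d Δ η j v ≤ D v s - j * Δ := fun j v hv => by
    have k := a0 j v v hv
    have e := hd v v hv hv
    have := (hl v hv).2
    have := (hg v hv).1
    omega
  have a3 : ∀ j < m, ∀ v, live v →
      min (Δ - η) (D v s - j * Δ - η) ≤ psi n live g d Δ η j v := fun j hj v hv => by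
    refine le_mn (min_le_left _ _) fun u _ hu => ?_
    have e := hd v u hv hu
    have t := tri v u s hv hu hs
    have k : (j + 1) * Δ ≤ m * Δ := Nat.mul_le_mul_right _ hj
    rw [Nat.succ_mul] at k
    rcases (hg u hu).2 with q | q <;> omega
  have a4 : ∀ j u v, live u → live v →
      psi n live g d Δ η j u ≤ D u v + psi n live g d Δ η j v := fun j u v hu hv => by
    rcases mn_eq n live (fun u => (g u - j * Δ) + d v u) (Δ - η) with e | ⟨z, _, hz, e⟩
    · have e' : psi n live g d Δ η j v = Δ - η := e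
      have := a1 j u
      omega
    · have e' : psi n live g d Δ η j v = (g z - j * Δ) + d v z := e
      have k := a0 j u z hz
      have := hd u z hu hz
      have := hd v z hv hz
      have := tri u v z hu hv hz
      omega
  refine ⟨?_, fun v => ?_, fun u v hu hv => ?_, fun v hv h => ?_⟩
  · rw [pot, if_pos hs]
    refine Finset.sum_eq_zero fun j _ => ?_
    have := a2 j s hs
    have := (hl s hs).2
    omega
  · rw [pot]
    split_ifs
    · refine (Finset.sum_le_card_nsmul _ _ Δ fun j _ => (a1 j v).trans (Nat.sub_le _ _)).trans ?_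
      rw [Finset.card_range, smul_eq_mul]
    · exact Nat.zero_le _
  · rw [pot, pot, if_pos hu, if_pos hv]
    exact hS.1 m Δ η (D u v) (D u s) (D v s) _ _ (tri u v s hu hv hs) fun j hj =>
      ⟨a4 j u v hu hv, a1 j u, a2 j u hu, a3 j hj v hv⟩
  · rw [pot, if_pos hv]
    exact hS.2 m Δ η (D v s) _ h fun j hj => a3 j hj v hv

end Pool.Agent.MP_1a6d78_lc.DS.DD

end MrgPart10

section MrgPart11

/-! PROJECT DD, rows COMP and DK: the component of the root, the first forest and the distance to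
the skeleton. -/

namespace Pool.Agent.MP_1a6d78_lc.DS.DD

open Classical ED PR

namespace CompL

variable {M : Mp} {w : ℕ → ℕ}

theorem key (hM : M.Ok) {a b : ℕ} (ha : a < M.n) (hb : b < M.n) :
    ps M.n (fun d => M.ρ ((M.F M.f0).tau d)) (fun _ => True) a / M.n =
      ps M.n (fun d => M.ρ ((M.F M.f0).tau d)) (fun _ => True) b / M.n ↔
      Rc M w U (M.nd a) (M.nd b) := by
  have m := msfS nclK _ (GSet.fok hM (Lev.inv_zero hM 0 0).fit.1)
  have iv : Iv M.n (M.F M.f0).tau := m.iv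
  have hβ : ∀ d < M.n, (M.F M.f0).β d = M.β d := fun d hd =>
    if_pos ⟨⟨(Mp.nd_spec hd).1, Mp.nd_nd hM.pm hd⟩,
      (Mp.nd_spec (hM.iv d hd).1).1, Mp.nd_nd hM.pm (hM.iv d hd).1⟩
  have hf := hM.pm.comp iv.pm
  have hr : ∀ d < M.n, ∃ e < M.n, Sc M.n (fun d => M.ρ ((M.F M.f0).tau d)) d e ∧
      (fun _ => True) e := fun d hd => ⟨d, hd, Sc.refl _ hd, trivial⟩
  have dv : ∀ d < M.n, ps M.n (fun d => M.ρ ((M.F M.f0).tau d)) (fun _ => True) d / M.n =
      st M.n (fun d => M.ρ ((M.F M.f0).tau d)) (fun _ => True) d := fun d hd => by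
    rw [Cont.ps_eq, Nat.add_comm, Nat.add_mul_div_right _ _ (by omega),
      Nat.div_eq_of_lt (Cont.tm_spec hf hr hd).1, Nat.zero_add]
  rw [dv a ha, dv b hb]
  constructor
  · intro e
    have c : Conn M.n M.ρ (M.F M.f0).tau a b :=
      ((Cont.st_spec hr ha).2.1.conn hM.pm iv ha).trans
        (e ▸ ((Cont.st_spec hr hb).2.1.conn hM.pm iv hb).symm)
    refine Conn.ind (r := fun a b => Rc M w U (M.nd a) (M.nd b))
      ⟨fun _ => ⟨0, .nil trivial⟩, rc_symm hM.iv,
        fun ⟨_, k⟩ ⟨_, k'⟩ => ⟨_, k.trans k'⟩⟩ (fun d hd => ?_) (fun d hd => ?_) c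
    · rw [← (Mp.nd_iff hM.pm hd (hM.pm.1 d hd)).2 (Sc.step hM.pm.1 hd)]
      exact ⟨0, .nil trivial⟩
    · rcases m.sb d hd with k | k
      · rw [k]; exact ⟨0, .nil trivial⟩
      · rw [k, hβ d hd]
        by_cases q : M.β d = d
        · rw [q]; exact ⟨0, .nil trivial⟩
        · exact ⟨_, Wk.one hd q trivial trivial⟩
  · rintro ⟨c, k⟩
    have sc : ∀ x < M.n, ∀ y < M.n, M.nd y = M.nd x → Conn M.n M.ρ (M.F M.f0).tau x y :=
      fun x hx y hy e => Sc.conn' _ hM.pm hx ((Mp.nd_iff hM.pm hx hy).1 e.symm)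
    have := (k.inv (P := fun v => ∀ y < M.n, M.nd y = v → Conn M.n M.ρ (M.F M.f0).tau a y)
      (sc a ha) fun d hd _ _ _ p y hy e => ?_).1 b hb rfl
    · exact Cont.st_eq hf ha (Cont.conn_sc swapK hM.pm iv m.br ha this)
    · have s : Conn M.n M.ρ (M.F M.f0).tau d ((M.F M.f0).β d) := (m.span d hd).mono fun e _ => by
        split_ifs
        exacts [Or.inr rfl, Or.inl rfl]
      rw [hβ d hd] at s
      exact ((p d hd rfl).trans s).trans (sc _ (hM.iv d hd).1 y hy e)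

end CompL

theorem compS2 : CompS := by
  have e0 : ∀ (M : Mp) (w : ℕ → ℕ), M.Ok → ∀ v,
      lv M v ↔ v < M.n ∧ M.nd v = v ∧ Rc M w U (M.nd M.s) v := fun M w hM v =>
    and_congr_right fun hv => and_congr_right fun q => by
      rw [eq_comm, CompL.key (w := w) hM hM.s hv, q]
  refine ⟨e0, fun M w W h => ?_⟩
  have hM := h.ok
  have e := e0 M w hM
  have s : lv M (M.nd M.s) :=
    (e _).2 ⟨(Mp.nd_spec hM.s).1, Mp.nd_nd hM.pm hM.s, 0, .nil trivial⟩
  refine ⟨⟨⟨fun v k => k.1, fun u v k a => ?_, fun v _ k => absurd rfl k, fun _ _ => h.Wpos,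
    fun _ k => k⟩, fun v k _ => ⟨v, k, 0, rfl⟩, s, rfl, fun _ k => k.2.1⟩,
    fun v k => ((e v).1 k).2.2, ⟨fun _ _ _ _ _ _ _ => Nat.zero_le _,
      fun _ _ k => absurd rfl k, fun _ _ _ _ => (Nat.zero_mod W).trans_le (Nat.zero_le _)⟩,
    (Nat.one_mul W).symm⟩
  obtain ⟨d, hd, _, rfl, rfl⟩ := a
  obtain ⟨c, p⟩ := ((e _).1 k).2.2
  refine (e _).2 ⟨(Mp.nd_spec (hM.iv d hd).1).1, Mp.nd_nd hM.pm (hM.iv d hd).1, ?_⟩
  by_cases q : M.β d = d
  · rw [q]; exact ⟨c, p⟩
  · exact ⟨_, p.trans (Wk.one hd q trivial trivial)⟩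

namespace CompL

variable {M : Mp} {w : ℕ → ℕ} {K : ℕ → Prop} {v z c : ℕ}

/-- The first entry of a walk into `K`. -/
theorem first (h : Wk M w U v z c) (hv : ¬K v) : Rc M w (fun x => ¬K x) v z ∨
    ∃ d < M.n, M.β d ≠ d ∧ K (M.nd (M.β d)) ∧ Rc M w (fun x => ¬K x) v (M.nd d) := by
  induction h with
  | nil _ => exact Or.inl ⟨0, .nil hv⟩
  | @step u u' c d _ a b e e' _ ih =>
    subst e e'
    rcases ih with ⟨c0, k⟩ | k
    · by_cases q : K (M.nd (M.β d))
      · exact Or.inr ⟨d, a, b, q, c0, k⟩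
      · exact Or.inl ⟨_, k.step a b rfl rfl q⟩
    · exact Or.inr k

theorem spec {W l Z : ℕ} {f : Fo} {o : ℕ → ℕ → ℕ} (hw : Wo M w W) (hl : Lo M w W l f)
    (hs : K (M.nd M.s)) (hK : ∀ v, K v → f.live v) (hZ : W ≤ Z) (ho : OrK M w f.live K o Z)
    (h1 : f.live v) (h2 : ¬K v) :
    (∃ d < M.n, M.β d ≠ d ∧ K (M.nd (M.β d)) ∧ ∃ c, Wk M w (fun x => ¬K x) v (M.nd d) c ∧
      dK M w K o Z v = c + w d ∧ c + w d < W) ∧
    ∀ d < M.n, M.β d ≠ d → K (M.nd (M.β d)) → ∀ c, Wk M w (fun x => ¬K x) v (M.nd d) c →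
      dK M w K o Z v ≤ c + w d := by
  obtain ⟨m, m1, m2⟩ := hw.max
  have val : ∀ d < M.n, Rc M w (fun x => ¬K x) v (M.nd d) → ¬K (M.nd d) ∧
      o v (M.nd d) = ds M w (fun x => ¬K x) v (M.nd d) ∧ o v (M.nd d) + w d < W := by
    intro d a k
    have k1 := ds_spec k
    have k2 := ho _ _ h1 h2 (hw.live hl.fit k1 h1) k1.mem.2
    rw [if_pos k] at k2
    have k3 := ds_bnd hw.ok.iv (fun e p _ => m1 e p) k (hl.fit.1.lt v h1)
    have k4 := m1 d a
    have k5 : m * (M.n - 1) + m = M.n * m := by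
      rw [← Nat.mul_succ, Nat.mul_comm]
      congr 1
      omega
    exact ⟨k1.mem.2, k2, by omega⟩
  obtain ⟨c0, p⟩ := rc_symm hw.ok.iv (hl.comp v h1)
  obtain ⟨d, a, b, e, k⟩ := (first (K := K) p h2).resolve_left fun ⟨_, k⟩ => k.mem.2 hs
  obtain ⟨v1, v2, v3⟩ := val d a k
  obtain ⟨⟨q, q1, ⟨q2, q3, q4, q5⟩, q6⟩, mn⟩ := mnv_spec
    (P := fun d => M.β d ≠ d ∧ ¬K (M.nd d) ∧ K (M.nd (M.β d)) ∧ o v (M.nd d) < Z)
    (fun d => o v (M.nd d) + w d) ⟨d, a, b, v1, e, by omega⟩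
  rw [dK, if_neg h2]
  refine ⟨?_, fun d a b e c k => ?_⟩
  · have l1 := hw.clo hl.fit (hw.ok.iv q q1).1 (hK _ q4)
    rw [(hw.ok.iv q q1).2] at l1
    have r : Rc M w (fun x => ¬K x) v (M.nd q) := by
      by_contra r
      rw [ho _ _ h1 h2 l1 q3, if_neg r] at q5
      exact lt_irrefl _ q5
    obtain ⟨-, u2, u3⟩ := val q q1 r
    exact ⟨q, q1, q2, q4, _, ds_spec r, u2 ▸ q6, u2 ▸ u3⟩
  · obtain ⟨u1, u2, u3⟩ := val d a ⟨c, k⟩
    have := ds_le k
    exact (mn d a ⟨b, u1, e, by omega⟩).trans (by omega)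

end CompL

theorem dkS2 : DkS := by
  intro M w W l f K o Z hw hl hs hK hZ ho
  have sp := fun v => CompL.spec (v := v) hw hl hs hK hZ ho
  have zero : ∀ v, K v → dK M w K o Z v = 0 := fun v k => if_pos k
  have lip : ∀ d < M.n, M.β d ≠ d → f.live (M.nd d) →
      dK M w K o Z (M.nd d) ≤ dK M w K o Z (M.nd (M.β d)) + w d := by
    intro d a b h
    by_cases k : K (M.nd d)
    · rw [zero _ k]
      exact Nat.zero_le _
    by_cases k' : K (M.nd (M.β d))
    · have := (sp _ h k).2 d a b k' 0 (.nil k)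
      omega
    · obtain ⟨e, e1, e2, e3, c, e4, e5, -⟩ := (sp _ (hw.clo hl.fit a h) k').1
      have := (sp _ h k).2 e e1 e2 e3 _ ((Wk.one (A := fun x => ¬K x) a b k k').trans e4)
      omega
  refine ⟨zero, fun v h => ?_, lip, fun v h k => ?_⟩
  · by_cases k : K v
    · rw [zero _ k]
      exact hw.Wpos
    · obtain ⟨e, -, -, -, c, -, e5, e6⟩ := (sp v h k).1
      omega
  · obtain ⟨e, e1, e2, e3, c, e4, e5, -⟩ := (sp v h k).1
    rcases e4.exit with rfl | ⟨d, c', a, b, rfl, p, q⟩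
    · have h1 := (sp _ h k).2 e e1 e2 e3 0 (.nil k)
      have h2 := zero _ e3
      exact ⟨e, e1, rfl, e2, by omega⟩
    · have h1 := (sp _ (hw.clo hl.fit a h) p.mem.1.1).2 e e1 e2 e3 _ (p.mono fun _ k => k.1)
      have h2 := lip d a b h
      exact ⟨d, a, rfl, b, by omega⟩

end Pool.Agent.MP_1a6d78_lc.DS.DD

end MrgPart11

section MrgPart12

/-! PROJECT DD, row NEXT: the next forest satisfies the invariant. -/

namespace Pool.Agent.MP_1a6d78_lc.DS.DD

open Classical ED PR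

theorem nxS2 : NxS := by
  intro M w W l f K X δ hw hl xs xl hK hδ
  obtain ⟨⟨fo, rt⟩, comp, geo, hH⟩ := hl
  have Wp := hw.Wpos
  have kl : ∀ v, K v → f.live v := fun v hv => by
    obtain ⟨x, hx, t, rfl⟩ := (hK v).1 hv
    refine iter_inv (fun a ha => ?_) (xl x hx) t
    by_cases e : f.par a = a
    · rwa [e]
    · exact (fo.par a ha e).2.1
  have kp : ∀ v, K v → K (f.par v) := fun v hv => by
    obtain ⟨x, hx, t, rfl⟩ := (hK v).1 hv
    exact (hK _).2 ⟨x, hx, t + 1, Function.iterate_succ_apply' _ _ _⟩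
  have kx : ∀ x, X x → K x := fun x hx => (hK x).2 ⟨x, hx, 0, rfl⟩
  generalize hg : nxF M w W f K X δ = g
  have gl : g.live = f.live := hg ▸ rfl
  have gm : g.mk' = X := hg ▸ rfl
  have gH : g.H = f.H + W := hg ▸ rfl
  have p1 : ∀ v, K v → g.par v = f.par v := fun v hv => hg ▸ if_pos hv
  have h1 : ∀ v, K v → g.ht v = f.ht v := fun v hv => hg ▸ if_pos hv
  have h2 : ∀ v, ¬K v → g.ht v = f.H + δ v := fun v hv => hg ▸ if_neg hv
  have p2 : ∀ v, f.live v → ¬K v → ∃ d < M.n, M.nd d = v ∧ M.β d ≠ d ∧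
      w d + δ (M.nd (M.β d)) = δ v ∧ g.par v = M.nd (M.β d) := fun v hv k =>
    have s := lst_spec (hδ.ex v hv k)
    ⟨_, s.1, s.2.1, s.2.2.1, s.2.2.2, hg ▸ if_neg k⟩
  have c1 : ∀ v, K v → g.ht v / W < l := fun v hv => by
    rw [h1 v hv, Nat.div_lt_iff_lt_mul Wp, ← hH]
    exact fo.ht v (kl v hv)
  have c2 : ∀ v, ¬K v → l ≤ g.ht v / W := fun v hv => by
    rw [h2 v hv, Nat.le_div_iff_mul_le Wp, hH]
    omega
  have lip : ∀ u v c, f.live u → Wk M w U u v c → δ u ≤ δ v + c := by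
    intro u v c hu k
    induction k with
    | nil _ => exact le_rfl
    | step p a b e e' _ ih =>
      subst e e'
      have := hδ.lip _ a b (hw.live ⟨fo, rt⟩ p hu)
      omega
  refine ⟨⟨⟨gl ▸ fo.lt, gl ▸ fo.clo, fun v hv e => ?_, fun v hv => ?_, gl ▸ gm ▸ xl⟩,
    ⟨fun v hv e => ?_, gl ▸ rt.ls, (p1 _ (kx _ xs)).trans rt.ps, gl ▸ rt.vx⟩⟩, gl ▸ comp,
    ⟨fun u v c hu hv e k => ?_, fun v hv e1 e3 => ?_, fun v c hv p => ?_⟩,
    by rw [gH, hH, Nat.succ_mul]⟩
  · rw [gl] at hv ⊢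
    by_cases k : K v
    · rw [p1 v k] at e ⊢
      rw [h1 v k, h1 _ (kp v k)]
      exact fo.par v hv e
    · obtain ⟨d, d1, rfl, d3, d4, d5⟩ := p2 v hv k
      have lv := hw.clo ⟨fo, rt⟩ d1 hv
      have := hw.pos d d1 d3
      rw [d5]
      refine ⟨⟨M.β d, (hw.ok.iv d d1).1, hw.dir _, rfl, by rw [(hw.ok.iv d d1).2]⟩, lv, ?_⟩
      rw [h2 _ k]
      by_cases k' : K (M.nd (M.β d))
      · have := fo.ht _ lv
        rw [h1 _ k']
        omega
      · rw [h2 _ k']
        omega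
  · rw [gl] at hv
    have := fo.ht v hv
    have := hδ.lt v hv
    by_cases k : K v
    · rw [h1 v k]
      omega
    · rw [h2 v k]
      omega
  · rw [gl] at hv
    by_cases k : K v
    · obtain ⟨x, hx, t, rfl⟩ := (hK v).1 k
      refine ⟨x, gm ▸ hx, t, ?_⟩
      clear hv e k
      induction t with
      | zero => rfl
      | succ t ih =>
        rw [Function.iterate_succ_apply', Function.iterate_succ_apply', ih,
          p1 _ (iter_inv kp (kx x hx) t)]
    · obtain ⟨d, d1, -, d3, d4, d5⟩ := p2 v hv k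
      have := hw.pos d d1 d3
      rw [← d5, e] at d4
      omega
  · rw [gl] at hu hv
    by_cases k : K u <;> by_cases k' : K v
    · rw [h1 u k, h1 v k'] at e ⊢
      exact geo.lip u v c hu hv e ‹_›
    · have := c1 u k
      have := c2 v k'
      omega
    · have := c2 u k
      have := c1 v k'
      omega
    · have := lip u v c hu ‹_›
      rw [h2 u k, h2 v k']
      omega
  · rw [gl] at hv
    by_cases k : K v
    · rw [p1 _ k] at e1 e3 ⊢
      rw [h1 _ k, h1 _ (kp _ k)] at e3 ⊢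
      exact geo.par v hv e1 e3
    · obtain ⟨d, d1, d2, d3, d4, d5⟩ := p2 _ hv k
      have k' : ¬K (g.par v) := fun t => by
        have := c1 _ t
        have := c2 _ k
        omega
      refine ⟨d, d1, d3, d2, d5.symm, ?_⟩
      rw [h2 _ k, h2 _ k', d5]
      omega
  · rw [gl] at hv
    by_cases k : K v
    · rw [h1 v k]
      exact geo.rt v c hv p
    · have a := lip v _ c hv p
      rw [hδ.zero _ (kx _ xs), Nat.zero_add] at a
      rw [h2 v k, hH, Nat.mul_add_mod']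
      exact (Nat.mod_le _ _).trans a

end Pool.Agent.MP_1a6d78_lc.DS.DD

end MrgPart12

section MrgPart13

/-! PROJECT DD, row SIZE: a mark on every `R`-th live vertex makes the pieces small. -/

namespace Pool.Agent.MP_1a6d78_lc.DS.DD

open Classical ED PR

namespace SizeL

/-- The rank of `v` among the numbers with `P`, ordered by `pos`. -/
noncomputable def rank (n : ℕ) (P : ℕ → Prop) (pos : ℕ → ℕ) (v : ℕ) : ℕ :=
  cnt n fun u => P u ∧ pos u < pos v

variable {n : ℕ} {P : ℕ → Prop} {pos : ℕ → ℕ} {u v : ℕ}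

theorem rank_lt (hu : u < n) (h : P u) (k : pos u < pos v) : rank n P pos u < rank n P pos v :=
  cnt_lt (fun _ _ a => ⟨a.1, a.2.trans k⟩) hu ⟨h, k⟩ fun a => lt_irrefl _ a.2

theorem rank_le (k : pos u ≤ pos v) : rank n P pos u ≤ rank n P pos v :=
  cnt_mono fun _ _ a => ⟨a.1, a.2.trans_le k⟩

theorem rank_top (hv : v < n) (h : P v) : rank n P pos v < cnt n P :=
  cnt_lt (fun _ _ a => a.1) hv h fun a => lt_irrefl _ a.2

theorem rank_inj (inj : ∀ a < n, ∀ b < n, pos a = pos b → a = b) (hu : u < n) (hv : v < n)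
    (h : P u) (h' : P v) (e : rank n P pos u = rank n P pos v) : u = v := by
  rcases lt_trichotomy (pos u) (pos v) with k | k | k
  · exact absurd e (rank_lt hu h k).ne
  · exact inj u hu v hv k
  · exact absurd e (rank_lt hv h' k).ne'

theorem rank_onto (inj : ∀ a < n, ∀ b < n, pos a = pos b → a = b) {j : ℕ} (hj : j < cnt n P) :
    ∃ c < n, P c ∧ rank n P pos c = j := by
  have := Finset.surjOn_of_injOn_of_card_le (s := (Finset.range n).filter P)
    (t := Finset.range (cnt n P)) (rank n P pos) (fun a ha => ?_) (fun a ha b hb e => ?_)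
    (by rw [Finset.card_range]; exact le_rfl)
  · obtain ⟨c, hc, e⟩ := this (Finset.mem_coe.2 (Finset.mem_range.2 hj))
    have hc := Finset.mem_filter.1 (Finset.mem_coe.1 hc)
    exact ⟨c, Finset.mem_range.1 hc.1, hc.2, e⟩
  · have ha := Finset.mem_filter.1 (Finset.mem_coe.1 ha)
    exact Finset.mem_coe.2 (Finset.mem_range.2 (rank_top (Finset.mem_range.1 ha.1) ha.2))
  · have ha := Finset.mem_filter.1 (Finset.mem_coe.1 ha)
    have hb := Finset.mem_filter.1 (Finset.mem_coe.1 hb)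
    exact rank_inj inj (Finset.mem_range.1 ha.1) (Finset.mem_range.1 hb.1) ha.2 hb.2 e

/-- Between two ranks with different quotients there is a multiple of `R`. -/
theorem between (inj : ∀ a < n, ∀ b < n, pos a = pos b → a = b) {R : ℕ} (hR : 1 ≤ R) (hv : v < n)
    (h' : P v) (k : rank n P pos u / R < rank n P pos v / R) :
    ∃ c < n, P c ∧ rank n P pos c % R = 0 ∧ pos u < pos c ∧ pos c ≤ pos v := by
  have h1 : rank n P pos v / R * R ≤ rank n P pos v := Nat.div_mul_le_self _ _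
  have h2 : rank n P pos u < rank n P pos v / R * R := (Nat.div_lt_iff_lt_mul hR).1 k
  obtain ⟨c, hc, p, e⟩ := rank_onto inj (h1.trans_lt (rank_top hv h'))
  refine ⟨c, hc, p, by rw [e, Nat.mul_mod_left], lt_of_not_ge fun a => ?_, le_of_not_gt fun a => ?_⟩
  · have := rank_le (n := n) (P := P) a
    omega
  · have := rank_lt hv h' a
    omega

end SizeL

open SizeL in
theorem sizeS2 : SizeS := by
  intro M w W l f D R m hw hl hD hR hm
  have fit : M.Fit (pl M f R) :=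
    ⟨⟨hl.fit.1.lt, hl.fit.1.clo, hl.fit.1.par, hl.fit.1.ht,
      fun v k => k.elim (hl.fit.1.mk' v) fun a => a.1⟩,
     ⟨fun v a b => (hl.fit.2.rt v a b).imp fun _ k => ⟨Or.inl k.1, k.2⟩, hl.fit.2.ls, hl.fit.2.ps,
      hl.fit.2.vx⟩⟩
  have s := gSetS (msfS nclK) (msfC nclK) (contS swapK) M _ hw.ok fit
  have p := gPtS sectS secUS secQS part M D _ hD hw.ok fit s
  have lab := (glev M D _ hD hw.ok fit).1
  have sec := sectS _ p.lok
  have inj : ∀ a < M.n, ∀ b < M.n, (M.L f).pos a = (M.L f).pos b → a = b := p.lok.inj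
  refine ⟨⟨fit, hl.comp, ⟨hl.geo.lip, hl.geo.par, hl.geo.rt⟩, hl.hH⟩, ?_, fun K w' hK u hu hKu => ?_⟩
  · refine (cnt_or _ _ _).trans (Nat.add_le_add_left (le_trans ?_ (cnt_le m fun _ => True)) _)
    refine cnt_inj (fun v => rank M.n f.live (M.L f).pos v / R) (fun a ha k => ⟨?_, trivial⟩)
      fun a ha b hb k k' e => rank_inj inj ha hb k.1 k'.1 ?_
    · exact (Nat.div_lt_iff_lt_mul hR).2 ((rank_top ha k.1).trans_le hm)
    · have h1 : rank M.n f.live (M.L f).pos a % R = 0 := k.2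
      have h2 : rank M.n f.live (M.L f).pos b % R = 0 := k'.2
      exact Nat.ext_div_mod e (h1.trans h2.symm)
  let Q : ℕ → Prop := fun i => M.l2 D (pl M f R) i = (M.ld D (pl M f R)).pc u
  have key : ∀ v, Rc M w' (fun z => ¬K z) u v → f.live v ∧ Q ((M.L (pl M f R)).rk v) := by
    rintro v ⟨c, k⟩
    refine (k.inv (P := fun x => f.live x ∧ Q ((M.L (pl M f R)).rk x)) ⟨hu, rfl⟩
      fun d hd _ a b h => ⟨hw.clo hl.fit hd h.1, ?_⟩).1
    exact (lab _ _ h.1 ⟨d, hd, hw.dir d, rfl, rfl⟩ (fun k => a (hK _ k)) fun k => b (hK _ k)).symm.trans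
      h.2
  have blk : ∀ a < M.n, ∀ b < M.n, f.live b → (M.L (pl M f R)).rk a = (M.L (pl M f R)).rk b →
      ¬rank M.n f.live (M.L f).pos a / R < rank M.n f.live (M.L f).pos b / R := by
    intro a ha b hb h e k
    obtain ⟨c, hc, c1, c2, c3, c4⟩ := between inj hR hb h k
    exact (sec.gap a ha b hb c hc (Or.inr (Or.inr ⟨c1, c2⟩)) c3 c4).ne ((sec.same a ha b hb).1 e).1
  refine le_trans ?_ (cnt_le (4 * D ^ 2 * R) fun _ => True)
  refine cnt_inj (fun v => cnt ((M.L (pl M f R)).rk v) Q * R + rank M.n f.live (M.L f).pos v % R)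
    (fun a ha k => ⟨?_, trivial⟩) fun a ha b hb k k' e => ?_
  · have h1 := (cnt_lt_of (sec.lt a ha) (key a k.2).2).trans_le (p.size _)
    have h2 := Nat.mod_lt (rank M.n f.live (M.L f).pos a) hR
    have h3 := Nat.mul_le_mul_right R (Nat.succ_le_of_lt h1)
    rw [Nat.succ_mul] at h3
    omega
  · have ka := key a k.2
    have kb := key b k'.2
    have e1 : rank M.n f.live (M.L f).pos a % R = rank M.n f.live (M.L f).pos b % R := by
      have := congrArg (· % R) e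
      simpa only [Nat.mul_add_mod', Nat.mod_mod] using this
    have e2 : cnt ((M.L (pl M f R)).rk a) Q = cnt ((M.L (pl M f R)).rk b) Q :=
      Nat.eq_of_mul_eq_mul_right hR (by omega)
    have e3 : (M.L (pl M f R)).rk a = (M.L (pl M f R)).rk b := by
      rcases lt_trichotomy ((M.L (pl M f R)).rk a) ((M.L (pl M f R)).rk b) with h | h | h
      · exact absurd e2 (cnt_lt_of h ka.2).ne
      · exact h
      · exact absurd e2 (cnt_lt_of h kb.2).ne'
    refine rank_inj inj ha hb ka.1 kb.1 (Nat.ext_div_mod ?_ e1)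
    exact le_antisymm (not_lt.1 (blk b hb a ha ka.1 e3.symm)) (not_lt.1 (blk a ha b hb kb.1 e3))

end Pool.Agent.MP_1a6d78_lc.DS.DD

end MrgPart13

section MrgPart14

/-! PROJECT DD, row VZ: the virtual instance. -/

namespace Pool.Agent.MP_1a6d78_lc.DS.DD

open Classical ED PR ED.RowKk ED.Code

namespace VzL

/-- Two maps that agree on the darts. -/
structure Ag (M M' : Mp) : Prop where
  n : M'.n = M.n
  ρ : ∀ d < M.n, M'.ρ d = M.ρ d
  β : ∀ d < M.n, M'.β d = M.β d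

variable {M M' : Mp} {w w' : ℕ → ℕ}

theorem Ag.symm (h : Ag M M') : Ag M' M :=
  ⟨h.n.symm, fun d k => (h.ρ d (h.n ▸ k)).symm, fun d k => (h.β d (h.n ▸ k)).symm⟩

theorem Ag.pm (h : Ag M M') (p : Pm M.n M.ρ) : Pm M'.n M'.ρ := by
  rw [h.n]
  exact ⟨fun d k => h.ρ d k ▸ p.1 d k, fun a ha b hb e =>
    p.2 a ha b hb (by rw [← h.ρ a ha, e, h.ρ b hb])⟩

theorem Ag.iv (h : Ag M M') (p : Iv M.n M.β) : Iv M'.n M'.β := by
  rw [h.n]
  intro d k
  rw [h.β d k, h.β _ (p d k).1]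
  exact p d k

theorem Ag.pl (h : Ag M M') (p : Pm M.n M.ρ) (q : Pl M.n M.ρ M.β) : Pl M'.n M'.ρ M'.β := by
  rw [h.n]
  intro γ h1 h2 a ha e k
  rw [h.β a ha] at k ⊢
  refine Sc.congr (p.comp h1.pm).1 (fun d hd => (h.ρ _ (h1 d hd).1).symm) ha
    (q γ h1 (fun d hd => h.β d hd ▸ h2 d hd) a ha e ?_)
  exact Conn.ind ⟨Conn.refl _ _ _, Conn.symm, Conn.trans⟩
    (fun d hd => by rw [h.ρ d hd]; exact Conn.rho _ _ hd) (fun d hd => Conn.gam _ _ hd) k

theorem Ag.nd (h : Ag M M') (p : Pm M.n M.ρ) {d : ℕ} (hd : d < M.n) : M'.nd d = M.nd d := by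
  unfold Mp.nd
  rw [h.n]
  exact lst_congr fun m _ => ⟨Sc.congr (fun a k => h.ρ a k ▸ p.1 a k) h.ρ hd,
    Sc.congr p.1 (fun a k => (h.ρ a k).symm) hd⟩

theorem Ag.wk (h : Ag M M') (p : Pm M.n M.ρ) (q : Iv M.n M.β) (hw : ∀ d < M.n, w' d = w d)
    {A : ℕ → Prop} {u v c : ℕ} (k : Wk M w A u v c) : Wk M' w' A u v c := by
  induction k with
  | nil k => exact .nil k
  | @step v v' c d _ a b e e' k ih =>
    rw [← hw d a]
    exact ih.step (h.n ▸ a) (by rw [h.β d a]; exact b) (by rw [h.nd p a, e])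
      (by rw [h.β d a, h.nd p (q d a).1, e']) k

theorem Ag.wk_iff (h : Ag M M') (p : Pm M.n M.ρ) (q : Iv M.n M.β) (hw : ∀ d < M.n, w' d = w d)
    {A : ℕ → Prop} {u v c : ℕ} : Wk M' w' A u v c ↔ Wk M w A u v c :=
  ⟨h.symm.wk (h.pm p) (h.iv q) fun d k => (hw d (h.n ▸ k)).symm, h.wk p q hw⟩

theorem Ag.csz (h : Ag M M') (p : Pm M.n M.ρ) (q : Iv M.n M.β) (hw : ∀ d < M.n, w' d = w d)
    (A : ℕ → Prop) (u : ℕ) : csz M' w' A u = csz M w A u := by
  unfold DS.csz
  rw [h.n]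
  exact cnt_congr fun a k => by
    rw [h.nd p k]
    exact and_congr_right fun _ => exists_congr fun c => h.wk_iff p q hw

theorem num_vz (x : List Bool) (β w : ℕ → ℕ) (u v θ m : ℕ) {i : ℕ}
    (h : i < 4 + num x 0 + num x 0 + num x 0) :
    num (vz x β w u v θ m) i = ent x β w u v θ i := by
  rw [vz, num_unary]
  exact (gt_tb _ (by omega)).trans (if_neg h.ne)

theorem le_Zx (x : List Bool) : x.length ≤ Zx x :=
  (Nat.le_add_right _ 2).trans (Nat.le_self_pow (by omega) _)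

theorem un_len {e : ℕ → ℕ} {N : ℕ} (h : ∀ i, e i ≤ N) :
    ∀ M, (unary (tab M e)).length ≤ M * (N + 1)
  | 0 => by simp [unary, tab]
  | M + 1 => by
    have k : unary (tab (M + 1) e) = unary (tab M e) ++ (List.replicate (e M) true ++ [false]) := by
      simp [unary, tab, List.range_succ]
    have a := un_len h M
    have b := h M
    rw [k, List.length_append, List.length_append, List.length_replicate, List.length_singleton,
      Nat.succ_mul]
    omega

theorem len_vz (x : List Bool) (β w : ℕ → ℕ) (u v θ m : ℕ) :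
    (vz x β w u v θ m).length + 2 ≤ (x.length + 2) ^ 9 := by
  have a : (vz x β w u v θ m).length ≤ _ := un_len (N := Zx x) (fun i => by
    unfold en2
    split_ifs <;> exact min_le_left _ _) _
  have b := num_le x 0
  have c : 2 ^ 4 ≤ Zx x := Nat.pow_le_pow_left (by omega) 4
  have d := a.trans (Nat.mul_le_mul (show _ ≤ 3 * (x.length + 2) by omega)
    (show _ ≤ 2 * Zx x by omega))
  have e : (x.length + 2) ^ 9 = Zx x * ((x.length + 2) * Zx x) := by rw [Zx]; ring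
  have f : 2 * 2 ^ 4 ≤ (x.length + 2) * Zx x := Nat.mul_le_mul (by omega) c
  rw [e]
  nlinarith [Nat.mul_le_mul_right ((x.length + 2) * Zx x) c]

end VzL

open VzL in
theorem vzS : VzS := by
  intro mf e x β w u v θ m ok hv hθ hm hz m2 hl hs
  have hu : u < num x 0 := ok.s
  have hn : ∀ i, num x i ≤ Zx x := fun i => (num_le x i).trans (le_Zx x)
  have h00 := hn 0
  have n0 : num (vz x β w u v θ m) 0 = num x 0 := by
    rw [num_vz _ _ _ _ _ _ _ (by omega), ent, if_pos rfl, min_eq_right h00]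
  have n1 : num (vz x β w u v θ m) 1 = u := by
    rw [num_vz _ _ _ _ _ _ _ (by omega), ent, if_neg (by omega), if_pos rfl,
      min_eq_right (by omega)]
  have n2 : num (vz x β w u v θ m) 2 = v := by
    rw [num_vz _ _ _ _ _ _ _ (by omega), ent, if_neg (by omega), if_neg (by omega), if_pos rfl,
      min_eq_right (by omega)]
  have n3 : num (vz x β w u v θ m) 3 = θ := by
    rw [num_vz _ _ _ _ _ _ _ (by omega), ent, if_neg (by omega), if_neg (by omega),
      if_neg (by omega), if_pos rfl, min_eq_right hθ]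
  have nm : Mx (vz x β w u v θ m) = m := by
    rw [Mx, n0, vz, num_unary]
    exact (gt_tb _ (by omega)).trans ((if_pos rfl).trans (min_eq_right hm))
  have ag : Ag (alt (inp x) β u v) (inp (vz x β w u v θ m)) := by
    refine ⟨n0, fun d k => ?_, fun d k => ?_⟩
    · change d < num x 0 at k
      change num _ (4 + d) = num x (4 + d)
      rw [num_vz _ _ _ _ _ _ _ (by omega), ent, if_neg (by omega), if_neg (by omega),
        if_neg (by omega), if_neg (by omega), if_pos (by omega), min_eq_right (hn _)]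
    · have b : β d < num x 0 := (ok.iv d k).1
      change d < num x 0 at k
      change num _ (4 + num _ 0 + d) = β d
      rw [n0, num_vz _ _ _ _ _ _ _ (by omega), ent, if_neg (by omega), if_neg (by omega),
        if_neg (by omega), if_neg (by omega), if_neg (by omega), if_pos (by omega),
        Nat.add_sub_cancel_left, min_eq_right (by omega)]
  have aw : ∀ d < (alt (inp x) β u v).n, wt (vz x β w u v θ m) d = w d := fun d k => by
    change d < num x 0 at k
    rw [wt, n0, num_vz _ _ _ _ _ _ _ (by omega), ent, if_neg (by omega), if_neg (by omega),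
      if_neg (by omega), if_neg (by omega), if_neg (by omega), if_neg (by omega),
      Nat.add_sub_cancel_left, min_eq_right (hz d k)]
  have e1 : (inp (vz x β w u v θ m)).nd (inp (vz x β w u v θ m)).s = (inp x).nd u := by
    change (inp _).nd (num _ 1) = _
    rw [n1]
    exact ag.nd ok.pm hu
  have e2 : (inp (vz x β w u v θ m)).nd (inp (vz x β w u v θ m)).t = (inp x).nd v := by
    change (inp _).nd (num _ 2) = _
    rw [n2]
    exact ag.nd ok.pm hv
  refine ⟨⟨⟨⟨ag.pm ok.pm, ag.iv ok.iv, ag.pl ok.pm ok.pl,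
    show num _ 1 < num _ 0 by rw [n0, n1]; exact hu⟩, nm.symm ▸ m2, ?_⟩,
    show num _ 2 < num _ 0 by rw [n0, n2]; exact hv, ?_⟩, nm, n3, fun θ' => ?_⟩
  · rw [nm, mul_comm, pow_mul]
    exact (len_vz ..).trans (Nat.pow_le_pow_left hl 9)
  · rw [e1, nm, ag.csz ok.pm ok.iv aw]
    exact hs
  · rw [Rw, e1, e2]
    exact exists_congr fun c => and_congr_right fun _ => ag.wk_iff ok.pm ok.iv aw

end Pool.Agent.MP_1a6d78_lc.DS.DD

end MrgPart14

section MrgPart15

/-! PROJECT DD, rows SUB and SC: calls on the map without `K`, and scaling of the weights. -/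

namespace Pool.Agent.MP_1a6d78_lc.DS.DD

open Classical ED PR

namespace SubL

variable {M : Mp} {K : ℕ → Prop} {w : ℕ → ℕ} {d u v a b c : ℕ}

theorem on (h1 : ¬K (M.nd d)) (h2 : ¬K (M.nd (M.β d))) : sub M K d = M.β d := if_pos ⟨h1, h2⟩

theorem ne (h : sub M K d ≠ d) : ¬K (M.nd d) ∧ ¬K (M.nd (M.β d)) ∧ sub M K d = M.β d := by
  by_cases k : ¬K (M.nd d) ∧ ¬K (M.nd (M.β d))
  · exact ⟨k.1, k.2, if_pos k⟩
  · exact absurd (if_neg k) h

theorem sb : Sb M.n (sub M K) M.β := fun _ _ => (Classical.em _).imp id fun h => (ne h).2.2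

theorem iv (h : Iv M.n M.β) : Iv M.n (sub M K) := fun d hd => by
  by_cases k : sub M K d = d
  · rw [k, k]
    exact ⟨hd, rfl⟩
  · obtain ⟨k1, k2, k3⟩ := ne k
    rw [k3, on k2 (by rw [(h d hd).2]; exact k1)]
    exact h d hd

theorem down (h : Wk (alt M (sub M K) u v) w U a b c) (ha : ¬K a) :
    Wk M w (fun z => ¬K z) a b c := by
  induction h with
  | nil _ => exact .nil ha
  | @step y y' c d _ k1 k2 k3 k4 _ ih =>
    obtain ⟨_, j2, j3⟩ := ne (M := M) (K := K) (d := d) k2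
    have k5 : M.nd (M.β d) = y' := j3 ▸ k4
    exact ih.step k1 (fun e => k2 (j3.trans e)) k3 k5 (k5 ▸ j2)

theorem up (h : Wk M w (fun z => ¬K z) a b c) : Wk (alt M (sub M K) u v) w U a b c := by
  induction h with
  | nil _ => exact .nil trivial
  | @step y y' c d p k1 k2 k3 k4 k5 ih =>
    have j : sub M K d = M.β d := on (k3 ▸ p.mem.2) (k4 ▸ k5)
    exact ih.step k1 (fun e => k2 (j.symm.trans e)) k3
      ((congrArg M.nd j).trans k4) trivial

theorem ok (h : M.Ok) (hu : u < M.n) : (alt M (sub M K) u v).Ok :=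
  ⟨h.pm, iv h.iv, h.pl.sub sb, hu⟩

theorem ar {n θ c Q : ℕ} (hQ : 0 < Q)
    (h : (2 * n + 2) * c ≤ (2 * n + 2) * θ + n + ((2 * n + 2) * θ + n + 1) / Q) :
    c ≤ θ + 2 * (θ + 1) / Q := by
  rcases le_or_gt c θ with k | k
  · exact k.trans (Nat.le_add_right _ _)
  obtain ⟨j, rfl⟩ := Nat.exists_eq_add_of_lt k
  have h1 := Nat.div_mul_le_self ((2 * n + 2) * θ + n + 1) Q
  generalize ((2 * n + 2) * θ + n + 1) / Q = r at h h1
  have h2 : (n + 1) * (j + 1) ≤ r := by nlinarith [Nat.zero_le (n * j)]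
  have h3 : (n + 1) * ((j + 1) * Q) ≤ (n + 1) * (2 * θ + 1) := by
    have := Nat.mul_le_mul_right Q h2
    nlinarith
  have h4 := Nat.le_of_mul_le_mul_left h3 (Nat.succ_pos n)
  have h5 : j + 1 ≤ 2 * (θ + 1) / Q := (Nat.le_div_iff_mul_le hQ).2 (by omega)
  exact Nat.add_le_add_left h5 θ

end SubL

theorem subS2 : SubS := by
  intro vz m e φ x live K hc hp hl hs u v lu ku lv kv
  have key : ∀ θ < Zx x + 1, (θ = Zx x ∨
      φ (DD.vz x (sub (inp x) K) (w1 x) v u θ (Mx x)) = 1) ↔ (θ = Zx x ∨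
      ∃ c ≤ θ, Wk (inp x) (w1 x) (fun z => ¬K z) u v c) := fun θ hθ => by
    obtain ⟨a1, a2, a3, a4⟩ := vz m e x (sub (inp x) K) (w1 x) v u θ (Mx x)
      (SubL.ok hp.ok (hl v lv).1) (hl u lu).1 (by omega) (Mx_le x) (fun d _ => (w1_big x d).2)
      hp.M hp.len (by
        rw [(hl v lv).2]
        exact le_trans (cnt_mono fun a _ k => ⟨k.1, k.2.imp fun c j => SubL.down j kv⟩)
          (hs v lv kv))
    have b : θ ≤ Mx x ^ (9 * e) + 1 := by
      have := hp.Z
      have := Nat.pow_le_pow_right (n := Mx x) (by have := hp.M; omega)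
        (show 4 * e ≤ 9 * e by omega)
      omega
    rw [hc _ a1 (by rw [a2, a3]; exact b), a3, a4, (hl u lu).2, (hl v lv).2]
    exact or_congr_right (exists_congr fun c => and_congr_right fun _ =>
      ⟨fun k => SubL.down k ku, SubL.up⟩)
  rw [or2, lst_congr key]
  obtain ⟨-, h2⟩ := lst_spec (n := Zx x + 1) (P := fun θ => θ = Zx x ∨
    ∃ c ≤ θ, Wk (inp x) (w1 x) (fun z => ¬K z) u v c) ⟨_, Nat.lt_succ_self _, Or.inl rfl⟩
  split_ifs with h
  · have h4 := (hp.wo.ds_lt h (hl u lu).1).le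
    refine le_antisymm (lst_le (by omega) (Or.inr ⟨_, le_rfl, ds_spec h⟩)) ?_
    rcases h2 with h2 | ⟨c, h5, h6⟩
    · exact h2.symm ▸ h4
    · exact (ds_le h6).trans h5
  · exact h2.resolve_right fun ⟨c, _, k⟩ => h ⟨c, k⟩

theorem scS : ScS := by
  intro e x hp ht
  refine ⟨le_trans ?_ hp.Z, ?_, ?_⟩
  · have a := nle x 0
    have b := nle x 3
    have c : th1 x ≤ (2 * x.length + 2) * x.length + x.length :=
      Nat.add_le_add (Nat.mul_le_mul (by omega) b) a
    unfold Zx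
    nlinarith [Nat.zero_le (x.length ^ 4), Nat.zero_le (x.length ^ 3), Nat.zero_le (x.length ^ 2)]
  · rintro ⟨c, h1, h2⟩
    obtain ⟨c', k1, k2⟩ := h2.hop hp.ok.iv (w' := w1 x) (a := 2 * num x 0 + 2) (b := 1)
      (fun _ _ _ => le_rfl) (Mp.nd_spec ht).1
    refine ⟨c', k2.trans ?_, k1⟩
    have := Nat.mul_le_mul_left (2 * num x 0 + 2) h1
    have e : (inp x).n = num x 0 := rfl
    unfold th1
    omega
  · rintro ⟨c', h1, h2⟩
    obtain ⟨c, k1, k2⟩ := h2.wle (w := wt x) (a := 2 * num x 0 + 2)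
      fun _ _ _ => Nat.le_succ _
    have := hp.M
    exact ⟨c, SubL.ar (n := num x 0) (by positivity) (k2.trans h1), k1⟩

end Pool.Agent.MP_1a6d78_lc.DS.DD

end MrgPart15

section MrgPart16

/-! PROJECT DD, rows LEV, G0 and G1: the invariants of the levels and the gap algorithm. -/

namespace Pool.Agent.MP_1a6d78_lc.DS.DD

open Classical ED PR

namespace LevL

theorem ar {E X a b Q : ℕ} (hE : 1 ≤ E)
    (h : 5000 * E * X ≤ 5000 * (a + b) + 1000 * (Q * (5000 * E))) : X ≤ a / E + b + 1000 * Q := by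
  have h1 : X * E ≤ a + (b + 1000 * Q) * E := by nlinarith [Nat.mul_le_mul_left b hE]
  have h2 := (Nat.le_div_iff_mul_le hE).2 h1
  rw [Nat.add_mul_div_right _ _ hE] at h2
  omega

theorem one (n a : ℕ) (P : ℕ → Prop) : cnt n (fun v => v = a ∧ P v) ≤ 1 :=
  (cnt_inj (m := 1) (Q := fun _ => True) (fun _ => 0) (fun _ _ _ => ⟨one_pos, trivial⟩)
    fun _ _ _ _ h k _ => h.1.trans k.1.symm).trans (cnt_le _ _)

theorem nums {r D c a : ℕ} (hD : 5000 ≤ D) (hc : c ≤ r * (1001 * D ^ 4) + D ^ 3)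
    (ha : D * a ≤ 5000 * c + 1000 * D ^ 5) : a + 1 ≤ mu r D := by
  have h1 : a ≤ c + 1000 * D ^ 4 := by
    refine Nat.le_of_mul_le_mul_left (ha.trans ?_) (by omega : 0 < D)
    have := Nat.mul_le_mul_right c hD
    rw [Nat.mul_add, show D * (1000 * D ^ 4) = 1000 * D ^ 5 by ring]
    omega
  have h2 : D ^ 3 ≤ D ^ 4 := Nat.pow_le_pow_right (by omega) (by omega)
  have h3 : 1 ≤ D ^ 4 := Nat.one_le_pow _ _ (by omega)
  have h4 : mu r D = 4000 * (r * D ^ 4) + 4000 * D ^ 4 := by unfold mu; ring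
  rw [show r * (1001 * D ^ 4) = 1001 * (r * D ^ 4) by ring] at hc
  omega

theorem mu_ge (r D : ℕ) (hD : 1 ≤ D) : D ^ 3 ≤ mu r D := by
  have a : D ^ 3 ≤ D ^ 4 := Nat.pow_le_pow_right hD (by omega)
  have c : 4000 * D ^ 4 ≤ 4000 * (r + 1) * D ^ 4 :=
    Nat.mul_le_mul_right _ (Nat.le_mul_of_pos_right _ (by omega))
  unfold mu
  omega

theorem gap (hF : FinS) (hS : ScS) {e : ℕ} {y : List Bool} {f : Fo} {X : ℕ → Prop}
    {o : ℕ → ℕ → ℕ} (hp : P0 e y) (ht : (inp y).t < (inp y).n)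
    (h : So ⟨inp y, w1 y, Zx y, f, X, o, Zx y⟩ (e + 1) (mu e (Dz y)))
    (hx : f.live ((inp y).nd (inp y).t) → X ((inp y).nd (inp y).t)) :
    (Rw y (num y 3) → an2 ⟨inp y, w1 y, Zx y, f, X, o, Zx y⟩ e y = 1) ∧
      (an2 ⟨inp y, w1 y, Zx y, f, X, o, Zx y⟩ e y = 1 →
        Rw y (num y 3 + 2 * (num y 3 + 1) / (8 * Mx y ^ 2))) := by
  obtain ⟨s1, s2, s3⟩ := hS e y hp ht
  obtain ⟨a, b⟩ := hF _ _ _ (4 * e) (Mx y) (th1 y) h hp.M s1 hx
  exact ⟨fun k => a (s2 k), fun k => s3 (b k)⟩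

end LevL

theorem levS2 : LevS := by
  intro comp dk nx size sub vz m e φ x R hc hp hR hs hm l
  have hE : 1 ≤ Mx x := le_trans (by omega) hp.M
  have hD : 1 ≤ Dz x := by unfold Dz; omega
  have hw := hp.wo
  have c1 := comp.1 (inp x) (wt x) hp.ok
  have c2 := comp.2 _ _ _ hw
  have hl : cnt (inp x).n (lv (inp x)) ≤ Dz x ^ 3 * R :=
    (cnt_congr fun a ha => (c1 a).trans ⟨fun k => k.2, fun k => ⟨ha, k⟩⟩).le.trans hs
  induction l with
  | zero =>
    obtain ⟨s1, s2, s3⟩ := size _ _ _ _ _ _ _ _ hw c2 hD hR hl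
    refine ⟨s1, rfl, s2.trans ?_, fun K w' hK u hu k => (s3 K w' hK u hu k).trans hm⟩
    have : cnt (inp x).n (f1 (inp x) (Zx x)).mk' ≤ num x 0 := cnt_le _ _
    simpa using this
  | succ l ih =>
    obtain ⟨i1, i2, i3, i4⟩ := ih
    set g := le2 φ x (Dz x) R l with hg
    have ck := (glev _ _ g hD hw.ok i1.fit).2
    have xs : (inp x).X (Dz x) g ((inp x).nd (inp x).s) := Or.inl rfl
    have o := sub vz m e φ x g.live ((inp x).ld (Dz x) g).K hc hp
      (fun v hv => ⟨i1.fit.1.lt v hv, i1.fit.2.vx v hv⟩)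
      fun u hu k => i4 _ _ (fun _ k => k) u (i2 ▸ hu) k
    have d := dk _ _ _ _ g _ _ _ hw i1 ((ck.K _).2 ⟨_, xs, 0, rfl⟩) ck.klive le_rfl o
    have n1 : Lo (inp x) (w1 x) (Zx x) (l + 1 + 1) (nx2 φ x (Dz x) g) :=
      nx _ _ _ _ g _ _ _ hw i1 xs (fun v hv => hv.elim (fun k => k ▸ i1.fit.2.ls) fun k => k.1)
        ck.K d
    have n2 : (nx2 φ x (Dz x) g).live = lv (inp x) := i2
    obtain ⟨s1, s2, s3⟩ := size _ _ _ _ _ _ _ _ hw n1 hD hR (n2 ▸ hl)
    refine ⟨s1, i2, s2.trans ?_, fun K w' hK u hu k => (s3 K w' hK u (n2 ▸ hu) k).trans hm⟩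
    have f1 : cnt (inp x).n ((inp x).X (Dz x) g) ≤ num x 0 / Mx x ^ l / Mx x +
        (l * (1001 * Dz x ^ 4) + Dz x ^ 3) + 1000 * Dz x ^ 4 := by
      refine LevL.ar hE (ck.few.trans ?_)
      rw [show 5000 * Mx x = Dz x from rfl, ← pow_succ, ← add_assoc]
      exact Nat.add_le_add_right (Nat.mul_le_mul_left _ i3) _
    have f2 : Dz x ^ 3 ≤ Dz x ^ 4 := Nat.pow_le_pow_right hD (by omega)
    have f3 : cnt (inp x).n (nx2 φ x (Dz x) g).mk' = cnt (inp x).n ((inp x).X (Dz x) g) := rfl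
    rw [Nat.div_div_eq_div_mul, ← pow_succ] at f1
    rw [f3, Nat.add_mul l 1, Nat.one_mul]
    omega

theorem g0S : G0S := by
  intro hF hC hS e y h
  have hp := h.p
  have hE := hp.M
  have c1 := hC.1 (inp y) (wt y) hp.ok
  have c2 := hC.2 _ _ _ hp.wo
  have a : cnt (inp y).n (lv (inp y)) ≤ Dz y ^ 3 :=
    (cnt_mono fun v _ k => ((c1 v).1 k).2).trans (h.sz.trans (by simp [mm, Dz]))
  refine LevL.gap hF hS hp h.t ⟨hp.wo, ⟨1, by omega, c2⟩, fun _ k => k, c2.fit.2.ls,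
    a.trans (LevL.mu_ge _ _ (by unfold Dz; omega)), fun u v l k _ _ => ?_⟩ fun k => k
  have hu : u < (inp y).n := c2.fit.1.lt u l
  exact absurd ⟨u, hu, l, 0, (Nat.zero_le _).trans_lt hu, rfl⟩ k

theorem g1S : G1S := by
  intro hF hS hC hD hN hZ hU hV hL j e φ hc y h
  have hp := h.p
  have hE := hp.M
  have k2 : num y 0 < Mx y ^ e := by
    have := nle y 0
    have := hp.len
    omega
  have q : 4 * Dz y ^ 2 * Mx y ^ (j + 1) ≤ mm j (Mx y) := by
    unfold mm Dz
    generalize Mx y = E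
    have : (5000 * E) ^ 3 * E ^ j = 5000 * ((5000 * E) ^ 2 * E ^ (j + 1)) := by ring
    rw [this, Nat.mul_assoc]
    exact Nat.mul_le_mul_right _ (by omega)
  obtain ⟨l1, l2, l3, l4⟩ := hL hC hD hN hZ hU hV (mm j) e φ y (Mx y ^ (j + 1)) hc hp
    (Nat.one_le_pow _ _ (by omega)) h.sz q e
  rw [Nat.div_eq_of_lt k2, Nat.zero_add] at l3
  set f := le2 φ y (Dz y) (Mx y ^ (j + 1)) e with hf
  have d5 : 5000 ≤ Dz y := by unfold Dz; omega
  have g := (glev (inp y) (Dz y) f (by omega) hp.ok l1.fit).2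
  have n := LevL.nums d5 l3 g.few
  refine LevL.gap hF hS hp h.t ⟨hp.wo, ⟨e + 1, le_rfl, l1⟩, ?_, Or.inl (Or.inl rfl), ?_, ?_⟩
    fun k => Or.inr ⟨rfl, k⟩
  · rintro v ((rfl | k) | k)
    · exact l1.fit.2.ls
    · exact k.1
    · exact k.2
  · exact (cnt_or _ _ _).trans ((Nat.add_le_add_left (LevL.one _ _ _) _).trans n)
  · exact hU hV (mm j) e φ y f.live (anc (inp y).n f.par (xs2 y (Dz y) f)) hc hp
      (fun v k => ⟨l1.fit.1.lt v k, l1.fit.2.vx v k⟩)
      fun u b => l4 _ _ (fun v ⟨z, h1, h2, h3⟩ => ⟨z, h1, Or.inl h2, h3⟩) u (l2 ▸ b)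

end Pool.Agent.MP_1a6d78_lc.DS.DD

end MrgPart16

section MrgPart17

/-! PROJECT DD, row EST: the estimates read from the two oracles. -/

namespace Pool.Agent.MP_1a6d78_lc.DS.DD

open Classical ED PR

namespace EstL

theorem key (hV : VzS) {m : ℕ → ℕ} {e : ℕ} {x : List Bool} (hP : Pr m e x) {u v θ : ℕ}
    (hu : u < (inp x).n) (ru : Rc (inp x) (wt x) U ((inp x).nd (inp x).s) ((inp x).nd u))
    (hv : v < (inp x).n) (nv : (inp x).nd v = v)
    (rv : Rc (inp x) (wt x) U ((inp x).nd (inp x).s) v) (hθ : θ ≤ Zx x) :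
    Pr m (9 * e) (vz x (inp x).β (wt x) u v θ (Mx x)) ∧
      Mx (vz x (inp x).β (wt x) u v θ (Mx x)) = Mx x ∧
      num (vz x (inp x).β (wt x) u v θ (Mx x)) 3 = θ ∧
      ∀ θ', Rw (vz x (inp x).β (wt x) u v θ (Mx x)) θ' ↔
        ds (inp x) (wt x) U v ((inp x).nd u) ≤ θ' := by
  have hw : ∀ d < num x 0, wt x d ≤ Zx x := fun d _ => by
    have a := le_Z x
    have b : wt x d ≤ x.length := nle x _
    omega
  obtain ⟨a, b, c, d⟩ := hV m e x (inp x).β (wt x) u v θ (Mx x) (ok_alt hP.p.ok hu v) hv hθ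
    (Mx_le x) hw hP.p.M hP.p.len (by rw [csz_alt, ← csz_rc hP.p.ok.iv ru]; exact hP.sz)
  refine ⟨a, b, c, fun θ' => (d θ').trans ?_⟩
  rw [nv]
  constructor
  · rintro ⟨c, k1, k2⟩
    exact (ds_le (wk_alt.1 k2)).trans k1
  · intro k
    exact ⟨_, k, wk_alt.2 (ds_spec (rc_trans (rc_symm hP.p.ok.iv rv) ru))⟩

theorem gap {M D g : ℕ} (hM : 2 ≤ M) (hD : 1 ≤ D) (h : g ≤ M * D) :
    2 * (g + 1) / (8 * M ^ 2) ≤ D / M := by
  have p : 1 ≤ M * D := Nat.mul_pos (by omega) hD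
  have q : 2 * (g + 1) ≤ 8 * M * D := by rw [Nat.mul_assoc]; omega
  refine (Nat.div_le_div_right q).trans (le_of_eq ?_)
  rw [show 8 * M ^ 2 = 8 * M * M by ring]
  exact Nat.mul_div_mul_left _ _ (by omega)

end EstL

open EstL in
theorem estS : EstS := by
  intro hV hK m e a γ φ x hG hC hP h3
  have hM := hP.p.M
  have ok := hP.p.ok
  have d1 : Dl x ≤ Mx x ^ a + 1 := by
    have : num x 3 / Mx x < Mx x ^ a + 1 := by
      rw [Nat.div_lt_iff_lt_mul (by omega), Nat.add_mul, ← pow_succ]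
      omega
    unfold Dl
    omega
  have d2 : num x 3 ≤ Mx x * Dl x := (Nat.lt_mul_div_succ _ (by omega)).le
  have d3 : x.length + Mx x * Dl x + 3 ≤ Zx x := by
    have a := le_Z x
    have b : Mx x ≤ x.length := nle x _
    have c := nle x 3
    have d := Nat.mul_div_le (num x 3) (Mx x)
    unfold Dl
    rw [Nat.mul_succ]
    omega
  have d0 : 1 ≤ Dl x := Nat.le_add_left _ _
  have d4 : Dl x ≤ Mx x * Dl x := Nat.le_mul_of_pos_left _ (by omega)
  have rs : Rc (inp x) (wt x) U ((inp x).nd (inp x).s) ((inp x).nd (inp x).s) := ⟨0, .nil trivial⟩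
  refine ⟨d1, d2, by omega, fun u hu => ?_, fun v u hv hu => ?_⟩
  · obtain ⟨u1, u2, u3⟩ := (hK.1 _ (wt x) ok u).1 hu
    have k := fun θ (h : θ ≤ Zx x) => key hV hP ok.s rs u1 u2 u3 h
    have s : ge γ x u < Mx x * Dl x + 2 ∧ (ge γ x u = Mx x * Dl x + 1 ∨
        γ (vz x (inp x).β (wt x) (inp x).s u (ge γ x u) (Mx x)) = 1) :=
      lst_spec (P := fun θ => θ = Mx x * Dl x + 1 ∨
        γ (vz x (inp x).β (wt x) (inp x).s u θ (Mx x)) = 1) ⟨_, Nat.lt_succ_self _, Or.inl rfl⟩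
    constructor
    · by_cases q : ds (inp x) (wt x) U u ((inp x).nd (inp x).s) ≤ Mx x * Dl x
      · obtain ⟨k1, _, k3, k4⟩ := k (ds (inp x) (wt x) U u ((inp x).nd (inp x).s)) (by omega)
        exact lst_le (by omega) (Or.inr ((hG _ k1).1 ((k4 _).2 k3.ge)))
      · omega
    · by_cases q : ge γ x u = Mx x * Dl x + 1
      · exact Or.inr q
      · obtain ⟨k1, k2, k3, k4⟩ := k (ge γ x u) (by omega)
        have t := (k4 _).1 ((hG _ k1).2 (s.2.resolve_left q))
        rw [k2, k3] at t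
        exact Or.inl (t.trans (Nat.add_le_add_left (gap hM d0 (by omega)) _))
  · obtain ⟨u1, u2, u3⟩ := (hK.1 _ (wt x) ok u).1 hu
    obtain ⟨v1, v2, v3⟩ := (hK.1 _ (wt x) ok v).1 hv
    have k : ∀ θ ≤ Dl x, (φ (vz x (inp x).β (wt x) u v θ (Mx x)) = 1 ↔
        ds (inp x) (wt x) U v u ≤ θ) := fun θ h => by
      obtain ⟨k1, k2, k3, k4⟩ := key hV hP u1 (by rw [u2]; exact u3) v1 v2 v3
        (θ := θ) (by omega)
      have t := hC _ k1 (by rw [k2, k3]; omega)
      rw [t, k4, k3, u2]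
    have s : de φ x v u < Dl x + 1 ∧ (de φ x v u = Dl x ∨
        φ (vz x (inp x).β (wt x) u v (de φ x v u) (Mx x)) = 1) :=
      lst_spec (P := fun θ => θ = Dl x ∨ φ (vz x (inp x).β (wt x) u v θ (Mx x)) = 1)
        ⟨_, Nat.lt_succ_self _, Or.inl rfl⟩
    have t : ds (inp x) (wt x) U v u ≤ Dl x → de φ x v u ≤ ds (inp x) (wt x) U v u := fun q =>
      lst_le (by omega) (Or.inr ((k _ q).2 le_rfl))
    have r := s.2.imp_right (k _ (by omega)).1
    omega

end Pool.Agent.MP_1a6d78_lc.DS.DD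

end MrgPart17

section MrgPart18

/-! PROJECT DD, row STP: from the gap to the exact answer, one step. -/

namespace Pool.Agent.MP_1a6d78_lc.DS.DD

open Classical ED PR

namespace StpL

variable {M : Mp} {w w' p : ℕ → ℕ} {u v c : ℕ}

theorem tel1 (h : ∀ d < M.n, M.β d ≠ d → w' d + p (M.nd d) = w d + p (M.nd (M.β d)))
    (k : Wk M w' U u v c) : ∃ c', Wk M w U u v c' ∧ c + p u = c' + p v := by
  induction k with
  | nil k => exact ⟨0, .nil k, rfl⟩
  | @step v v' c d _ a b e e' k ih =>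
    obtain ⟨c0, i1, i2⟩ := ih
    subst e e'
    exact ⟨c0 + w d, i1.step a b rfl rfl k, by have := h d a b; omega⟩

theorem tel2 (h : ∀ d < M.n, M.β d ≠ d → w' d + p (M.nd d) = w d + p (M.nd (M.β d)))
    (k : Wk M w U u v c) : ∃ c', Wk M w' U u v c' ∧ c' + p u = c + p v := by
  induction k with
  | nil k => exact ⟨0, .nil k, rfl⟩
  | @step v v' c d _ a b e e' k ih =>
    obtain ⟨c0, i1, i2⟩ := ih
    subst e e'
    exact ⟨c0 + w' d, i1.step a b rfl rfl k, by have := h d a b; omega⟩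

end StpL

theorem stpS : StpS := by
  intro hV hC hS hP hE m e a γ φ hγ hφ x hx hθ
  obtain ⟨h1, h2, h3, h4, h5⟩ := hE hV hC m e a γ φ x hγ hφ hx hθ
  have ok := hx.p.ok
  have hl := hC.1 (inp x) (wt x) ok
  have nd : ∀ d < (inp x).n, Rc (inp x) (wt x) U ((inp x).nd (inp x).s) ((inp x).nd d) →
      lv (inp x) ((inp x).nd d) := fun d hd k =>
    (hl _).2 ⟨(Mp.nd_spec hd).1, Mp.nd_nd ok.pm hd, k⟩
  have ls := nd _ ok.s ⟨0, .nil trivial⟩
  have rc : ∀ u v, lv (inp x) u → lv (inp x) v → Rc (inp x) (wt x) U u v := fun u v p q =>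
    rc_trans (rc_symm ok.iv ((hl u).1 p).2.2) ((hl v).1 q).2.2
  obtain ⟨p1, p2, p3, p4⟩ := hP hS (num x 0) (lv (inp x)) (ge γ x) (de φ x)
    (ds (inp x) (wt x) U) (Dl x) (Dl x / Mx x) (Mx x) _
    (fun v k => ⟨((hl v).1 k).1, ds_self trivial⟩) ls
    (fun u v z p q r => ds_tri (rc u v p q) (rc v z q r)) h4 h5
  change px γ φ x _ = 0 at p1
  change ∀ v, px γ φ x v ≤ _ at p2
  change ∀ u v, _ → _ → px γ φ x u ≤ _ + px γ φ x v at p3
  change ∀ v, _ → _ → _ ≤ px γ φ x v + _ at p4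
  have ed : ∀ d < (inp x).n, (inp x).β d ≠ d →
      wr γ φ x d + px γ φ x ((inp x).nd d) = wt x d + px γ φ x ((inp x).nd ((inp x).β d)) := by
    intro d hd hb
    have o : Wk (inp x) (wt x) U _ _ _ := Wk.one hd hb trivial trivial
    have : px γ φ x ((inp x).nd d) ≤ wt x d + px γ φ x ((inp x).nd ((inp x).β d)) := by
      by_cases k : lv (inp x) ((inp x).nd d)
      · exact (p3 _ _ k (nd _ (ok.iv d hd).1 (rc_trans ((hl _).1 k).2.2 ⟨_, o⟩))).trans
          (Nat.add_le_add_right (ds_le o) _)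
      · exact (if_neg k).trans_le (Nat.zero_le _)
    unfold wr
    omega
  have m2 := hx.p.M
  have z1 : Dl x ≤ Mx x * Dl x := Nat.le_mul_of_pos_left _ (by omega)
  obtain ⟨v1, v2, v3, v4⟩ := hV m e x (inp x).β (wr γ φ x) (inp x).s (inp x).t
    (min (num x 3 - px γ φ x ((inp x).nd (inp x).t)) (Dl x)) (Mx x) (ok_alt ok ok.s _) hx.t
    (by omega) (Mx_le x) (fun d _ => by
      have := p2 ((inp x).nd ((inp x).β d))
      have : wt x d ≤ x.length := nle x _
      unfold wr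
      omega) m2 hx.p.len (by rw [csz_alt, csz_wt _ (wt x)]; exact hx.sz)
  have key := hφ _ v1 (by rw [v2, v3]; omega)
  rw [v3, v4] at key
  unfold stp
  constructor
  · intro h
    split_ifs at h with k
    obtain ⟨c, c1, c2⟩ := key.1 h
    obtain ⟨c', d1, d2⟩ := StpL.tel1 ed (wk_alt.1 c2)
    exact ⟨c', by omega, d1⟩
  · rintro ⟨c, c1, c2⟩
    have lt := nd _ hx.t (rc_symm ok.iv ⟨_, c2⟩)
    have q1 := ds_le c2
    have q2 := p3 _ _ lt ls
    have q3 := p4 _ lt (by omega)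
    have q4 := Nat.mul_div_le (Dl x) (Mx x)
    obtain ⟨c', d1, d2⟩ := StpL.tel2 ed (ds_spec ⟨_, c2⟩)
    rw [if_pos ⟨lt, by omega⟩]
    exact key.2 ⟨c', by omega, wk_alt.2 d1⟩

end Pool.Agent.MP_1a6d78_lc.DS.DD

end MrgPart18

section MrgPart19

/-! PROJECT DD, row TOP: a directed instance is an instance with asymmetric weights. -/

namespace Pool.Agent.MP_1a6d78_lc.DS.DD

open Classical ED PR

namespace TopL

variable {x : List Bool}

noncomputable def wu (x : List Bool) (d : ℕ) : ℕ := if us x d then wt x d else num x 3 + 1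

theorem nd_rho (hO : (inp x).Ok) {a : ℕ} (ha : a < num x 0) :
    (inp x).nd ((inp x).ρ a) = (inp x).nd a :=
  ((Mp.nd_iff hO.pm ha (hO.pm.1 a ha)).2 (Sc.step hO.pm.1 ha)).symm

theorem fwd (hO : (inp x).Ok) {a c : ℕ} (h : Dw (inp x) (us x) (wt x) (num x 1) a c) :
    a < num x 0 ∧
      ∃ c' ≤ c, Wk (inp x) (wu x) U ((inp x).nd (num x 1)) ((inp x).nd a) c' := by
  induction h with
  | nil => exact ⟨hO.s, 0, le_rfl, .nil trivial⟩
  | @rot a c _ ih =>
    rw [nd_rho hO ih.1]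
    exact ⟨hO.pm.1 a ih.1, ih.2⟩
  | @edge a c _ k ih =>
    obtain ⟨i1, c', i2, i3⟩ := ih
    refine ⟨(hO.iv a i1).1, ?_⟩
    by_cases q : (inp x).β a = a
    · rw [q]; exact ⟨c', by omega, i3⟩
    · refine ⟨c' + wu x a, ?_, i3.step (d := a) i1 q rfl rfl trivial⟩
      rw [wu, if_pos k]
      omega

theorem rot_all (hO : (inp x).Ok) {a b c : ℕ} (ha : a < num x 0) (hb : b < num x 0)
    (e : (inp x).nd b = (inp x).nd a) (h : Dw (inp x) (us x) (wt x) (num x 1) a c) :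
    Dw (inp x) (us x) (wt x) (num x 1) b c :=
  Sc.ind hO.pm.1 (Q := fun d => Dw (inp x) (us x) (wt x) (num x 1) d c) ha h
    (fun _ _ k => k.rot) ((Mp.nd_iff hO.pm ha hb).1 e.symm)

theorem bwd (hO : (inp x).Ok) {v c : ℕ}
    (h : Wk (inp x) (wu x) U ((inp x).nd (num x 1)) v c) (hc : c ≤ num x 3) :
    ∀ a < num x 0, (inp x).nd a = v → Dw (inp x) (us x) (wt x) (num x 1) a c := by
  induction h with
  | nil _ => exact fun a ha e => rot_all hO hO.s ha e .nil
  | @step v v' c d _ hd hb e1 e2 _ ih =>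
    intro a ha ea
    unfold wu at hc ⊢
    by_cases k : us x d
    · rw [if_pos k] at hc ⊢
      exact rot_all hO (hO.iv d hd).1 ha (ea.trans e2.symm) ((ih (by omega) d hd e1).edge k)
    · rw [if_neg k] at hc
      omega

end TopL

open TopL in
theorem topS2 : TopS := by
  intro hV hR r φ x hr hC hO ht
  obtain ⟨-, r1, -, r2⟩ := hR r (x.length + 2) hr
  change _ < Mt r x ^ r at r1
  change Mt r x ≤ _ at r2
  have hZ := le_Z x
  have h0 := nle x 0
  have h3 := nle x 3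
  have hm : 2 ≤ Mt r x := by
    by_contra q
    have := Nat.pow_le_pow_left (show Mt r x ≤ 1 by omega) r
    rw [one_pow] at this
    omega
  have hs : csz (alt (inp x) (inp x).β (num x 2) (num x 1)) (wu x) U ((inp x).nd (num x 2)) ≤
      mm r (Mt r x) := by
    refine (cnt_le _ _).trans (le_trans ?_ (Nat.le_mul_of_pos_left _ (by positivity)))
    change num x 0 ≤ _
    omega
  obtain ⟨k1, k2, k3, k4⟩ := hV (mm r) r x (inp x).β (wu x) (num x 2) (num x 1) (num x 3) (Mt r x)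
    (ok_alt hO ht _) hO.s (by omega) (by omega) (fun d _ => by
      have : wt x d ≤ x.length := nle x _
      unfold wu
      split_ifs <;> omega) hm r1.le hs
  have key := hC _ k1 (by
    rw [k2, k3]
    have := Nat.pow_le_pow_right (show 0 < Mt r x by omega) (show r ≤ 9 * r by omega)
    omega)
  rw [k3, k4] at key
  refine Iff.trans key ⟨fun ⟨c, hc, hw⟩ => ⟨c, hc, bwd hO (wk_alt.1 hw) hc _ ht rfl⟩,
    fun ⟨c, hc, hw⟩ => ?_⟩
  obtain ⟨-, c', a, b⟩ := fwd hO hw
  exact ⟨c', a.trans hc, wk_alt.2 b⟩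

end Pool.Agent.MP_1a6d78_lc.DS.DD

end MrgPart19
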