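import Pool.Agent.MP_1a6d78_lc.DD.Basic

/-! PROJECT DD, row PG: the table is computable. -/

namespace Pool.Agent.MP_1a6d78_lc.DS.DD

open Classical ED PR

namespace PgL

variable {κ : List Bool → ℕ} {A : List Bool → Ab} {L : ℕ} {δ τ v y : List Bool → Env → ℕ}

theorem bel (h : AbC κ A L) (hv : Cn κ v) (hy : Cn κ y) :
    Cp κ fun x ρ => (A x).bel (v x ρ) (y x ρ) :=
  K.and (K.lt hy h.n) (K.and (K.appP h.X hy) (K.sc h.n h.par hy hv))

theorem lv (h : AbC κ A L) (hv : Cn κ v) : Cn κ fun x ρ => (A x).lv (v x ρ) :=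
  K.div (K.app h.ht hv) h.W

theorem qn (h : AbC κ A L) : Cn κ fun x _ => (A x).Qn := K.add (K.mul (K.c 2) h.Q) (K.c 1)

theorem th (h : AbC κ A L) (hδ : Cn κ δ) (hτ : Cn κ τ) (hv : Cn κ v) (hy : Cn κ y) :
    Cn κ fun x ρ => (A x).th (δ x ρ) (τ x ρ) (v x ρ) (y x ρ) :=
  K.add (K.add (K.mod (K.app h.ht hv) h.W) (dgC (K.add (K.mul (K.c 2) h.W) (K.c 1)) hτ (lv h hv)))
    (K.mul hy (K.add (K.div hδ h.Q) (K.c 1)))

theorem sz (h : AbC κ A L) : Cn κ fun x _ => (A x).sz L := K.mul (K.mul h.mu (K.c L)) (qn h)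

theorem mkT (h : AbC κ A L) (hδ : Cn κ δ) (hτ : Cn κ τ) {nw : List Bool → Env → ℕ → ℕ}
    (hn : F1 κ nw) : Cm κ fun x ρ => (A x).mkT L (δ x ρ) (τ x ρ) (nw x ρ) :=
  (kitOne κ).tab (fun x ρ i => mn (A x).n (fun a =>
      (A x).bel a (sel (A x).n (A x).X (i / (A x).Qn / L)) ∧ (A x).lv a = i / (A x).Qn % L ∧
        nw x ρ a ≤ (A x).th (δ x ρ) (τ x ρ) a (i % (A x).Qn)) (A x).ht (L * (A x).W)) h.sz (sz h)
    (mnC (P := fun x ρ a => (A x).bel a (sel (A x).n (A x).X (hd (ρ 0) / (A x).Qn / L)) ∧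
        (A x).lv a = hd (ρ 0) / (A x).Qn % L ∧
          nw x (tl ρ) a ≤ (A x).th (δ x (tl ρ)) (τ x (tl ρ)) a (hd (ρ 0) % (A x).Qn)) h.n
      (K.and (bel h (K.v 0) (K.app (K.sel h.n h.X) (K.div (K.div (K.v 1) (qn h)) (K.c L))))
        (K.and (K.eq (lv h (K.v 0)) (K.mod (K.div (K.v 1) (qn h)) (K.c L)))
          (K.le (K.wF hn) (th h (K.w (K.w hδ)) (K.w (K.w hτ)) (K.v 0) (K.mod (K.v 1) (qn h))))))
      h.ht (K.mul (K.c L) h.W))

end PgL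

open PgL in
theorem pgS : PgS := fun κ A L h =>
  ⟨K.ex (P := fun x ρ a => (A x).X a ∧ Sc (A x).n (A x).par a (hd (ρ 0))) h.n
      (K.and h.X (K.sc h.n h.par (K.v 0) (K.v 1))),
    fun δ _ τ y T hδ h0 hτ hT hy => K.ite (K.eq hy h0) h.W
      (mnC (P := fun x ρ i => (A x).bel (y x ρ) (sel (A x).n (A x).X (i / (A x).Qn)) ∧
          gt (T x ρ) ((i / (A x).Qn * L + (A x).lv (y x ρ)) * (A x).Qn + i % (A x).Qn) ≤
            (A x).ht (y x ρ))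
        (c := fun x ρ i => (A x).th (δ x ρ) (τ x ρ) (y x ρ) (i % (A x).Qn)) (K.mul h.mu (qn h))
        (K.and (bel h (K.w hy) (K.app (K.sel h.n h.X) (K.div (K.v 0) (qn h))))
          (K.le (K.gt (K.wL hT) (K.add (K.mul (K.add (K.mul (K.div (K.v 0) (qn h)) (K.c L))
            (PgL.lv h (K.w hy))) (qn h)) (K.mod (K.v 0) (qn h)))) (K.app h.ht (K.w hy))))
        (th h (K.w hδ) (K.w hτ) (K.w hy) (K.mod (K.v 0) (qn h))) (K.mul (K.c 2) h.W)),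
    fun δ τ _ nw hδ hτ hm hn => (kitOne κ).foldL
      (fun x ρ _ T => (A x).mkT L (δ x ρ) (τ x ρ) (nw x ρ T)) (fun x _ _ => L * (A x).W) hm
      ((kitOne κ).tab (fun x _ _ => L * (A x).W) h.sz (sz h) (K.mul (K.c L) h.W))
      (mkT (nw := fun x ρ => nw x (tl (tl ρ)) (ρ 0)) h (K.w (K.w hδ)) (K.w (K.w hτ))
        ((kitA κ).ren _ (fun i => match i with
          | 0 => 0
          | 1 => 1
          | i + 2 => i + 3) hn))
      (K.mul (K.c L) h.W) fun _ _ _ _ _ _ k a ha => by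
        obtain ⟨i, -, rfl⟩ := List.mem_map.1 ha
        exact mn_le_z.trans k⟩

end Pool.Agent.MP_1a6d78_lc.DS.DD
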