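import Pool.Agent.MP_1a6d78_lc.DD.Basic

/-! PROJECT DD, row PHASE: a chain splits into few phases. -/

namespace Pool.Agent.MP_1a6d78_lc.DS.DD

open Classical ED PR

namespace PhL

variable {A : Ab} {L : ℕ} {D : ℕ → ℕ → ℕ}

theorem n1_le (ok : A.Ok L D) {f : ℕ → ℕ → ℕ → ℕ} {δ y0 τ y τ' z : ℕ} {T : List ℕ} (hy : A.K y)
    (ht : τ' < A.T ^ L) : A.n1 L f δ y0 τ T z ≤ A.G L δ y0 τ T y + f y τ' z - A.W :=
  (mn_le (c := fun y => mn (A.T ^ L) (fun _ => True)
    (fun τ' => A.G L δ y0 τ T y + f y τ' z - A.W) (2 * A.W)) (ok.lt y hy) hy).trans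
    (mn_le (P := fun _ => True) (c := fun τ' => A.G L δ y0 τ T y + f y τ' z - A.W) ht trivial)

theorem win {W h t a c c1 d u : ℕ} (hh : h < W) (hc : c ≤ W) (h1 : c1 ≤ c)
    (lo : h + t + a ≤ W + c) (hi : W + c < h + t + a + d) (e : u = min (2 * W) (t + a - c1)) :
    h + u ≤ W + (c - c1) ∧ W + (c - c1) < h + u + d := by
  omega

theorem sum_le {B : ℕ} {idx : ℕ → ℕ} (h : ∀ l, idx l < B) :
    ∑ l ∈ Finset.range L, idx l ≤ L * B :=
  (Finset.sum_le_card_nsmul _ _ B fun l _ => (h l).le).trans (by simp)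

theorem sum_up {idx : ℕ → ℕ} {l i : ℕ} (hl : l < L) (h : idx l < i) :
    ∑ j ∈ Finset.range L, idx j < ∑ j ∈ Finset.range L, Function.update idx l i j := by
  refine Finset.sum_lt_sum (fun j _ => ?_) ⟨l, Finset.mem_range.2 hl, by simpa using h⟩
  by_cases e : j = l
  · subst e
    simpa using h.le
  · rw [Function.update_of_ne e]

/-- The invariant of the chain. -/
def Inv (A : Ab) (L : ℕ) (D : ℕ → ℕ → ℕ) (g : ℕ → ℕ → ℕ) (τ d err z c : ℕ) : Prop :=
  ∃ (idx : ℕ → ℕ) (y1 c1 τ1 : ℕ), A.K y1 ∧ c1 ≤ c ∧ τ1 < A.T ^ L ∧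
    (∀ l < L, dg A.T τ1 l = min (2 * A.W) (dg A.T τ l + idx l * d - c1)) ∧
    A.Ch y1 d τ1 z (c - c1) ∧
    (∀ m, ∑ l ∈ Finset.range L, idx l ≤ m →
      g m y1 ≤ A.W + c1 + (∑ l ∈ Finset.range L, idx l) * err) ∧
    (∀ z1, A.K z1 → idx (A.lv z1) = 0 ∨ A.lo τ z1 + idx (A.lv z1) * d ≤ A.W + c + D z1 z) ∧
    ∀ l, idx l < A.B

end PhL

open PhL in
theorem phS : PhS := by
  intro dig A L D f δ η ok tb cf hr y0 τ z c k0 ch hc
  have hB := ok.B
  have hW := ok.W
  obtain ⟨d, hd⟩ : ∃ d, d = δ / A.B + 1 := ⟨_, rfl⟩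
  obtain ⟨err, he⟩ : ∃ err, err = η + δ / A.Q := ⟨_, rfl⟩
  rw [← hd] at cf
  rw [← he] at hr ⊢
  have d1 : 0 < d := hd ▸ Nat.succ_pos _
  have d2 : δ < A.B * d := hd ▸ Nat.lt_mul_div_succ _ (by omega)
  have dg' : ∀ (idx : ℕ → ℕ) (c1 : ℕ), ∃ q < A.T ^ L, ∀ l < L,
      dg A.T q l = min (2 * A.W) (dg A.T τ l + idx l * d - c1) := fun idx c1 =>
    dig _ _ _ fun l _ => Nat.lt_succ_of_le (min_le_left _ _)
  have key : A.K z ∧ Inv A L D (fun m => A.G L δ y0 τ (A.rd L δ τ (A.n1 L f δ y0 τ) m))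
      τ d err z c := by
    induction ch with
    | nil =>
      obtain ⟨q, q1, q2⟩ := dg' (fun _ => 0) 0
      refine ⟨k0, fun _ => 0, y0, 0, q, k0, le_rfl, q1, q2, .nil, fun m _ => ?_,
        fun _ _ => Or.inl rfl, fun _ => Nat.lt_of_lt_of_le Nat.two_pos hB⟩
      simp [Ab.G]
    | @step y z c _ kz lo hi ih =>
      obtain ⟨ky, idx, y1, c1, τ1, k1, i1, i2, i3, i4, i5, i6, i7⟩ := ih (by omega)
      have hl := ok.lev y ky
      have hh : A.h y < A.W := Nat.mod_lt _ hW
      have lg := (ok.lg z y kz ky).1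
      have tr : ∀ z1, A.K z1 → D z1 y ≤ D z1 z + A.lg z y := fun z1 k =>
        (ok.tri z1 z y k kz ky).trans (by omega)
      obtain ⟨i, hi'⟩ : ∃ i, i = (A.W + c - A.lo τ y) / d := ⟨_, rfl⟩
      have a1 : i * d ≤ A.W + c - A.lo τ y := hi' ▸ Nat.div_mul_le_self _ _
      have a2 : A.W + c - A.lo τ y < i * d + d := by
        have := Nat.lt_mul_div_succ (A.W + c - A.lo τ y) d1
        rw [← hi', Nat.mul_succ, Nat.mul_comm] at this
        exact this
      have a3 : idx (A.lv y) ≤ i := by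
        rcases i6 y ky with e | e
        · omega
        · rw [ok.refl y ky] at e
          exact hi' ▸ (Nat.le_div_iff_mul_le d1).2 (by omega)
      have lo' : A.lo τ y = A.h y + dg A.T τ (A.lv y) := rfl
      refine ⟨kz, ?_⟩
      rcases a3.eq_or_lt with e | e
      · obtain ⟨w1, w2⟩ := win (d := d) hh (by omega) i1 (t := dg A.T τ (A.lv y))
          (a := idx (A.lv y) * d) (by rw [e]; omega) (by rw [e]; omega) (i3 _ hl)
        refine ⟨idx, y1, c1, τ1, k1, by omega, i2, i3, ?_, i5, fun z1 k => (i6 z1 k).imp id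
          fun p => ?_, i7⟩
        · rw [show c + A.lg z y - c1 = c - c1 + A.lg z y by omega]
          exact i4.step kz w1 w2
        · have := tr z1 k
          omega
      · obtain ⟨q, q1, q2⟩ := dg' (Function.update idx (A.lv y) i) c
        have q3 := q2 _ hl
        rw [Function.update_self] at q3
        obtain ⟨w1, w2⟩ := win (d := d) hh (by omega) le_rfl (t := dg A.T τ (A.lv y))
          (a := i * d) (by omega) (by omega) q3
        have s1 := sum_up hl e
        have s2 : ∑ l ∈ Finset.range L, idx l ≤ L * A.B := sum_le i7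
        refine ⟨Function.update idx (A.lv y) i, y, c, q, ky, by omega, q1, q2, ?_,
          fun m hm => ?_, fun z1 k => ?_, fun l => ?_⟩
        · rw [show c + A.lg z y - c = c - c + A.lg z y by omega]
          refine Ab.Ch.step ?_ kz w1 w2
          rw [Nat.sub_self]
          exact .nil
        · obtain ⟨m, rfl⟩ : ∃ m', m = m' + 1 := ⟨m - 1, by omega⟩
          have b1 := i5 m (by omega)
          have b2 := cf y1 τ1 y _ k1 i4 (by omega)
          have b3 := n1_le ok (f := f) (δ := δ) (y0 := y0) (τ := τ) (z := y)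
            (T := A.rd L δ τ (A.n1 L f δ y0 τ) m) k1 i2
          have b4 := Nat.mul_le_mul_right err s2
          have b5 := Nat.mul_le_mul_right err (Nat.succ_le_of_lt s1)
          rw [Nat.succ_mul] at b5
          have b6 := tb.cp δ y0 τ (A.n1 L f δ y0 τ (A.rd L δ τ (A.n1 L f δ y0 τ) m)) y
            (A.W + c + (∑ l ∈ Finset.range L, idx l) * err + η) ky (by dsimp only at b1; omega)
            (by omega) (by omega) (by omega)
          exact b6.trans (by omega)
        · have := tr z1 k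
          by_cases p : A.lv z1 = A.lv y
          · have g := ok.geo z1 y k ky p
            have : A.lo τ z1 = A.h z1 + dg A.T τ (A.lv y) := by rw [← p]; rfl
            rw [p, Function.update_self]
            right
            omega
          · rw [Function.update_of_ne p]
            exact (i6 z1 k).imp id fun p => by omega
        · by_cases p : l = A.lv y
          · rw [p, Function.update_self]
            exact Nat.lt_of_mul_lt_mul_right (a := d) (by omega)
          · rw [Function.update_of_ne p]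
            exact i7 l
  obtain ⟨-, idx, y1, c1, τ1, k1, i1, i2, -, i4, i5, -, i7⟩ := key
  have s2 : ∑ l ∈ Finset.range L, idx l ≤ L * A.B := sum_le i7
  have b1 := i5 _ s2
  have b2 := cf y1 τ1 z _ k1 i4 (by omega)
  have b3 := n1_le ok (f := f) (δ := δ) (y0 := y0) (τ := τ) (z := z)
    (T := A.rd L δ τ (A.n1 L f δ y0 τ) (L * A.B)) k1 i2
  have b4 := Nat.mul_le_mul_right err s2
  dsimp only at b1
  unfold Ab.o1
  omega

end Pool.Agent.MP_1a6d78_lc.DS.DD
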