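import Pool.Agent.MP_1a6d78_lc.DD.Basic

/-! PROJECT DD, row PN: one level is computable. -/

namespace Pool.Agent.MP_1a6d78_lc.DS.DD

open Classical ED PR

namespace PnL

variable {φ : List Bool → ℕ} {κ : List Bool → ℕ} {f : List Bool → Fo}

theorem orcC (hP : PoS) (pi : PiK 1) (hφ : Ev (bm Mx) fun κ => Cn κ fun x _ => φ x)
    (h1 : ∀ y, φ y ≤ 1) (A : List Bool → ℕ → Prop)
    (h : Ev (bm Mx) fun κ => P1 κ fun x _ => A x) :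
    Ev (bm Mx) fun κ => F2 κ fun x => or2 φ x (A x) :=
  (hP pi Mx φ (MxC pi) hφ h1 (fun x => sub (inp x) (A x)) w1 (h.imp fun κ _ k =>
    ⟨K.ite (K.and (K.not (K.appP k (pi.nd κ)))
      (K.not (K.appP k (K.app (pi.nd κ) (pi.M κ).2.2.1)))) (pi.M κ).2.2.1 (K.v 0), w1C pi κ⟩)).imp
    fun κ _ o a b ha hb => K.lst (P := fun x ρ θ => θ = Zx x ∨
      φ (vz x (sub (inp x) (A x)) (w1 x) (b x ρ) (a x ρ) θ (Mx x)) = 1) (K.add (pi.Z κ) (K.c 1))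
      (K.or (K.eq (K.v 0) (pi.Z κ)) (K.eq (o _ _ _ (K.w hb) (K.w ha) (K.v 0)) (K.c 1)))

theorem dz (x : List Bool) : 5 * Dz x ^ 4 + 1 ≤ bm Mx x := by
  have a : Dz x ^ 4 + 1 ≤ (Dz x + 2) ^ 4 :=
    Nat.pow_lt_pow_left (Nat.lt_add_of_pos_right (by norm_num)) (by norm_num)
  have b : 2 ^ 3 ≤ (Dz x + 2) ^ 3 := Nat.pow_le_pow_left (Nat.le_add_left _ _) 3
  have c := Nat.mul_le_mul b a
  rw [← pow_add] at c
  exact le_trans (by omega) c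

theorem plC (hF : FmC) (pi : PiK 1) {R : List Bool → ℕ} (hR : Cn κ fun x _ => R x)
    (hf : Fo.C κ f) : Fo.C κ fun x => pl (inp x) (f x) (R x) :=
  have pos := (hF κ inp f (pi.M κ) (pi.nd κ) hf).2.1
  ⟨hf.1, hf.2.1, hf.2.2.1, hf.2.2.2.1, K.or hf.2.2.2.2 (K.and hf.2.2.2.1 (K.eq (K.mod
    (K.cnt (P := fun x ρ u => (f x).live u ∧
      ((inp x).L (f x)).pos u < ((inp x).L (f x)).pos (hd (ρ 0))) (pi.M κ).1
      (K.and hf.2.2.2.1 (K.lt pos (K.app pos (K.v 1))))) hR) (K.c 0)))⟩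

theorem ldC (pi : PiK 1) (e : ∀ x, bm Mx x ≤ κ x) (hf : Fo.C κ f) :
    (P1 κ fun x _ => ((inp x).ld (Dz x) (f x)).K) ∧
      P1 κ fun x _ => (inp x).X (Dz x) (f x) :=
  have h := (aLd aFm aLn (aPt aFm aLn aBall) κ Dz inp (pi.M κ) (K.mul (K.c 5000) (MxC pi κ))
    fun x => (dz x).trans (e x)).2.2 f hf
  ⟨h.1.2.1, h.2⟩

theorem nxC (hF : FmC) (pi : PiK 1) {A X : List Bool → ℕ → Prop} {o : List Bool → ℕ → ℕ → ℕ}
    (hf : Fo.C κ f) (hA : P1 κ fun x _ => A x) (hX : P1 κ fun x _ => X x) (ho : F2 κ o) :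
    Fo.C κ fun x => nxF (inp x) (w1 x) (Zx x) (f x) (A x) (X x)
      (dK (inp x) (w1 x) (A x) (o x) (Zx x)) := by
  have hn := (pi.M κ).1
  have hβ := (pi.M κ).2.2.1
  have nd := pi.nd κ
  have n0 : Cn κ fun x ρ => (inp x).nd (hd (ρ 0)) := nd
  have nb : Cn κ fun x ρ => (inp x).nd ((inp x).β (hd (ρ 0))) := K.app nd hβ
  have o1 : Cn κ fun x ρ => o x (hd (ρ 1)) ((inp x).nd (hd (ρ 0))) := ho _ _ (K.v 1) n0
  have δ : F1 κ fun x _ => dK (inp x) (w1 x) (A x) (o x) (Zx x) :=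
    K.ite hA (K.c 0) ((hF κ inp f (pi.M κ) nd hf).2.2 (fun x _ => (inp x).n)
      (fun x ρ d => (inp x).β d ≠ d ∧ ¬A x ((inp x).nd d) ∧ A x ((inp x).nd ((inp x).β d)) ∧
        o x (hd (ρ 0)) ((inp x).nd d) < Zx x)
      (fun x ρ d => o x (hd (ρ 0)) ((inp x).nd d) + w1 x d) hn
      (K.and (K.ne hβ (K.v 0)) (K.and (K.not (K.appP hA n0))
        (K.and (K.appP hA nb) (K.lt o1 (pi.Z κ))))) (K.add o1 (w1C pi κ)))
  exact ⟨K.ite hA hf.1 (K.app nd (K.app hβ (K.lst (P := fun x ρ d => (inp x).nd d = hd (ρ 0) ∧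
      (inp x).β d ≠ d ∧ w1 x d + dK (inp x) (w1 x) (A x) (o x) (Zx x) ((inp x).nd ((inp x).β d)) =
        dK (inp x) (w1 x) (A x) (o x) (Zx x) (hd (ρ 0))) hn
      (K.and (K.eq n0 (K.v 1)) (K.and (K.ne hβ (K.v 0))
        (K.eq (K.add (w1C pi κ) (K.app δ nb)) (K.app δ (K.v 1)))))))),
    K.ite hA hf.2.1 (K.add hf.2.2.1 δ), K.add hf.2.2.1 (pi.Z κ), hf.2.2.2.1, hX⟩

theorem xsC (pi : PiK 1) (e : ∀ x, bm Mx x ≤ κ x) (hf : Fo.C κ f) :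
    (P1 κ fun x _ => xs2 x (Dz x) (f x)) ∧
      P1 κ fun x _ => anc (inp x).n (f x).par (xs2 x (Dz x) (f x)) :=
  have hn := (pi.M κ).1
  have X : P1 κ fun x _ => xs2 x (Dz x) (f x) :=
    K.or (ldC pi e hf).2
      (K.and (K.eq (K.v 0) (K.app (pi.nd κ) (pi.M κ).2.2.2.2.2)) hf.2.2.2.1)
  ⟨X, K.ex (P := fun x ρ y => xs2 x (Dz x) (f x) y ∧
    ∃ t < (inp x).n, it (inp x).n (f x).par t y = hd (ρ 0)) hn (K.and X
      (K.ex (P := fun x ρ t => it (inp x).n (f x).par t (hd (ρ 0)) = hd (ρ 1)) hn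
        (K.eq (K.it hn hf.1 (K.v 0) (K.v 1)) (K.v 2))))⟩

end PnL

open PnL in
theorem pnS2 : PnS := by
  intro hF pi hP φ R hφ h1 hR l
  have hf : Ev (bm Mx) fun κ => Fo.C κ fun x => le2 φ x (Dz x) (R x) l := by
    induction l with
    | zero =>
      exact Ev.all fun κ => plC (f := fun x => f1 (inp x) (Zx x)) hF pi (hR κ)
        ⟨K.v 0, K.c 0, pi.Z κ, pi.lv κ, pi.lv κ⟩
    | succ l ih =>
      refine (ih.and (orcC hP pi hφ h1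
        (fun x => ((inp x).ld (Dz x) (le2 φ x (Dz x) (R x) l)).K)
        (ih.imp fun κ e k => (ldC pi e k).1))).imp fun κ e k => ?_
      exact plC (f := fun x => nx2 φ x (Dz x) (le2 φ x (Dz x) (R x) l)) hF pi (hR κ)
        (nxC hF pi k.1 (ldC pi e k.1).1 (ldC pi e k.1).2 k.2)
  exact (hf.and (orcC hP pi hφ h1 (fun x => anc (inp x).n (le2 φ x (Dz x) (R x) l).par
    (xs2 x (Dz x) (le2 φ x (Dz x) (R x) l))) (hf.imp fun κ e k => (xsC pi e k).2))).imp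
    fun κ e k => ⟨pi.M κ, pi.nd κ, w1C pi κ, pi.Z κ, k.1, (xsC pi e k.1).1, k.2, pi.Z κ⟩

end Pool.Agent.MP_1a6d78_lc.DS.DD
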