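import Pool.Agent.MP_1a6d78_lc.DD.Basic
import Pool.Agent.MP_1a6d78_lc.GM.Vin
import Pool.Agent.MP_1a6d78_lc.GM.RecC

/-! PROJECT DD, row PO: a call on a virtual instance is computable. -/

namespace Pool.Agent.MP_1a6d78_lc.DS.DD

open Classical ED PR

namespace PoL

def pq (e : ℕ → ℕ) (i : ℕ) : ℕ := ∑ j ∈ Finset.range i, (e j + 1)

theorem un_succ (e : ℕ → ℕ) (M : ℕ) :
    unary (tab (M + 1) e) = unary (tab M e) ++ (List.replicate (e M) true ++ [false]) := by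
  simp [unary, tab, List.range_succ]

theorem un_len (e : ℕ → ℕ) : ∀ M, (unary (tab M e)).length = pq e M
  | 0 => rfl
  | M + 1 => by
    rw [un_succ, List.length_append, un_len e M, pq, pq, Finset.sum_range_succ]
    simp

theorem pq_mono (e : ℕ → ℕ) {i j : ℕ} (h : i ≤ j) : pq e i ≤ pq e j :=
  Finset.sum_le_sum_of_subset (Finset.range_mono h)

theorem un_bit (e : ℕ → ℕ) (p : ℕ) : ∀ M, bit (unary (tab M e)) p =
    if p < pq e M ∧ ∀ i < M, p + 1 ≠ pq e (i + 1) then 1 else 0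
  | 0 => by simp [bit, unary, tab, pq]
  | M + 1 => by
    have a : pq e (M + 1) = pq e M + (e M + 1) := Finset.sum_range_succ _ _
    have ih := un_bit e p M
    rw [bit] at ih ⊢
    rw [un_succ]
    rcases lt_or_ge p (pq e M) with h | h
    · rw [List.getElem?_append_left (by rwa [un_len]), ih]
      refine if_congr ⟨fun k => ⟨by omega, fun i hi => ?_⟩, fun k => ⟨h, fun i hi => k.2 i (by omega)⟩⟩
        rfl rfl
      rcases Nat.lt_succ_iff_lt_or_eq.1 hi with hi | rfl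
      · exact k.2 i hi
      · omega
    · rw [List.getElem?_append_right (by rwa [un_len]), un_len]
      refine if_congr ⟨fun k => ?_, fun k => ?_⟩ rfl rfl
      · have : p - pq e M < e M := by
          by_contra c
          rw [List.getElem?_append_right (by simpa using c)] at k
          rcases Nat.eq_zero_or_pos (p - pq e M - (List.replicate (e M) true).length) with z | z
          · rw [z] at k; simp at k
          · rw [List.getElem?_eq_none (by simp at z ⊢; omega)] at k; simp at k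
        refine ⟨by omega, fun i hi => ?_⟩
        rcases Nat.lt_succ_iff_lt_or_eq.1 hi with hi | rfl
        · have := pq_mono e (show i + 1 ≤ M from hi); omega
        · omega
      · have := k.2 M M.lt_succ_self
        have := k.1
        rw [List.getElem?_append_left (by simp; omega), List.getElem?_replicate, if_pos (by omega)]

theorem pq_le {e : ℕ → ℕ} {N : ℕ} (h : ∀ i, e i ≤ N) (M : ℕ) : pq e M ≤ M * (N + 1) := by
  refine (Finset.sum_le_card_nsmul _ _ (N + 1) fun i _ => Nat.succ_le_succ (h i)).trans ?_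
  simp

theorem pg {κ f : List Bool → ℕ} (h : Cn κ fun x _ => f x) : GM.Pg κ f := by
  obtain ⟨c, -, h⟩ := h
  obtain ⟨p, hp⟩ := h (fun _ => 0) 1 fun _ => Nat.one_pos
  exact ⟨p, 1, c, fun x B h1 h2 h3 => ⟨_, hp x (fun _ => []) B ⟨h1, h2, h3, by simp⟩
    (fun _ => Nat.zero_le _) fun _ _ => rfl, by simp [hd]⟩⟩

/-- A computable number is bounded by a polynomial. -/
theorem pol {b : List Bool → ℕ} (h : Cn (fun _ => 1) fun x _ => b x) :
    ∃ e, ∀ x, b x ≤ (x.length + 2) ^ e := by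
  obtain ⟨c, h1, -⟩ := h
  refine ⟨2 * c, fun x => ?_⟩
  have h2 := h1 x (fun _ => []) (x.length + 1)
    ⟨le_rfl, Nat.le_add_left _ _, Nat.le_succ _, fun _ _ k => absurd k List.not_mem_nil⟩ (b x)
    (List.mem_singleton.2 rfl)
  rw [pow_mul]
  exact h2.trans (Nat.pow_le_pow_left (by nlinarith) c)

theorem pw_le (x : List Bool) {a b : ℕ} (h : a ≤ b) : (x.length + 2) ^ a ≤ (x.length + 2) ^ b :=
  Nat.pow_le_pow_right (by omega) h

theorem lt_pw (x : List Bool) (a : ℕ) : a < (x.length + 2) ^ a := Nat.lt_pow_self (by omega)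

variable (x : List Bool) (β w : ℕ → ℕ) (u v θ m : ℕ)

theorem Mx_vz : Mx (vz x β w u v θ m) ≤ m := by
  have h : num (vz x β w u v θ m) 0 = num x 0 := by
    have := nle x 0
    have := le_Z x
    refine (ED.Code.num_unary _ _).trans ((gt_tb _ (by omega)).trans ?_)
    rw [en2, if_neg (by omega), ent, if_pos rfl]
    omega
  rw [Mx, h]
  refine ((ED.Code.num_unary _ _).trans (gt_tb _ (by omega))).trans_le ?_
  rw [en2, if_pos rfl]
  exact min_le_right _ _

theorem en_le (i : ℕ) : en2 x β w u v θ m i ≤ Zx x := by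
  unfold en2
  split_ifs <;> exact min_le_left _ _

theorem len_vz : (vz x β w u v θ m).length ≤ (x.length + 2) ^ 8 := by
  refine ((un_len _ _).trans_le (pq_le (N := Zx x) (en_le x β w u v θ m) _)).trans ?_
  have := nle x 0
  have h : 1 ≤ Zx x := Nat.one_le_pow _ _ (by omega)
  calc _ ≤ (x.length + 2) ^ 4 * Zx x := by
        refine (Nat.mul_le_mul (show _ ≤ 4 * (x.length + 2) by omega)
          (show _ ≤ 2 * Zx x by omega)).trans ?_
        have : 2 ^ 3 ≤ (x.length + 2) ^ 3 := Nat.pow_le_pow_left (by omega) 3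
        rw [pow_succ _ 3]
        nlinarith [Nat.mul_le_mul_right ((x.length + 2) * Zx x) this]
    _ = _ := by rw [Zx, ← pow_add]

theorem vz_min {q : ℕ} (h : Zx x ≤ q) :
    vz x β w (min q u) (min q v) (min q θ) m = vz x β w u v θ m := by
  unfold vz
  refine congrArg unary (tab_cg fun i _ => ?_)
  unfold en2 ent
  split_ifs <;> omega

end PoL

open PoL

theorem poS2 : PoS := by
  rintro hi m φ hm ⟨A1, h1⟩ hφ β w ⟨A2, h2⟩
  have hbc : ∀ κ, Cn κ fun x _ => bm m x := fun κ =>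
    K.pow 7 (K.add (K.mul (K.c 5000) (hm κ)) (K.c 2))
  obtain ⟨e, he⟩ := pol (hbc _)
  have b8 : ∀ (m : List Bool → ℕ) x, 8 ≤ bm m x := fun m x =>
    le_trans (by norm_num) (Nat.pow_le_pow_left (Nat.le_add_left 2 _) 7)
  have hle : ∀ x β w u v θ, bm Mx (vz x β w u v θ (m x)) ≤ bm m x := fun x β w u v θ =>
    Nat.pow_le_pow_left (by have := Mx_vz x β w u v θ (m x); omega) 7
  generalize bm m = b at h2 hbc he hle ⊢
  have b9 : ∀ x, 8 ≤ b x := fun x => (b8 _ _).trans (hle x id id 0 0 0)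
  obtain ⟨κ0, k0⟩ : ∃ κ0 : List Bool → ℕ, κ0 = fun x => (A1 + 1 + A2) * b x := ⟨_, rfl⟩
  obtain ⟨q, eq⟩ : ∃ q : List Bool → ℕ, q = fun x => (x.length + 2) ^ (A1 + 1 + e + 8) := ⟨_, rfl⟩
  have q8 : ∀ x, (x.length + 2) ^ 8 ≤ q x := fun x => eq ▸ pw_le x (by omega)
  have k8 : ∀ x, 8 ≤ κ0 x := fun x => k0 ▸ (b9 x).trans (Nat.le_mul_of_pos_left _ (by omega))
  obtain ⟨cβ, cw⟩ := h2 κ0 fun x => k0 ▸ Nat.mul_le_mul_right _ (by omega)
  have cn : Cn κ0 fun x _ => num x 0 := K.app (hi.num κ0) (K.c 0)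
  have cN : Cn κ0 fun x _ => 4 + num x 0 + num x 0 + num x 0 :=
    K.add (K.add (K.add (K.c 4) cn) cn) cn
  have cM : Cn κ0 fun x _ => 4 + num x 0 + num x 0 + num x 0 + 1 := K.add cN (K.c 1)
  have ce0 : F1 κ0 fun x ρ => ent x (β x) (w x) (gt (ρ 0) 0) (gt (ρ 0) 1) (gt (ρ 0) 2) :=
    K.min (hi.Z κ0) (K.ite (K.eq (K.v 0) (K.c 0)) cn
      (K.ite (K.eq (K.v 0) (K.c 1)) (K.gt (K.vL 1) (K.c 0))
      (K.ite (K.eq (K.v 0) (K.c 2)) (K.gt (K.vL 1) (K.c 1))
      (K.ite (K.eq (K.v 0) (K.c 3)) (K.gt (K.vL 1) (K.c 2))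
      (K.ite (K.lt (K.v 0) (K.add (K.c 4) cn)) (hi.num κ0)
      (K.ite (K.lt (K.v 0) (K.add (K.add (K.c 4) cn) cn))
        (K.app cβ (K.sub (K.v 0) (K.add (K.c 4) cn)))
        (K.app cw (K.sub (K.v 0) (K.add (K.add (K.c 4) cn) cn)))))))))
  have ce : F1 κ0 fun x ρ => en2 x (β x) (w x) (gt (ρ 0) 0) (gt (ρ 0) 1) (gt (ρ 0) 2) (m x) :=
    K.ite (K.eq (K.v 0) cN) (K.min (hi.Z κ0) (hm κ0)) ce0
  have cp : F1 κ0 fun x ρ =>
      pq (en2 x (β x) (w x) (gt (ρ 0) 0) (gt (ρ 0) 1) (gt (ρ 0) 2) (m x)) :=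
    (kitOne κ0).sum
      (fun x ρ j => en2 x (β x) (w x) (gt (ρ 1) 0) (gt (ρ 1) 1) (gt (ρ 1) 2) (m x) j + 1)
      (K.v 0) (K.add (K.wF ce) (K.c 1))
  have cF : SC.Nq κ0 q q fun x _ ρ =>
      φ (vz x (β x) (w x) (gt (ρ 0) 0) (gt (ρ 0) 1) (gt (ρ 0) 2) (m x)) := by
    refine GM.vin (fun y => (A1 + 1) * bm Mx y) φ
      (pg (h1 _ fun y => Nat.mul_le_mul_right _ (by omega)))
      (fun y => Nat.mul_pos (by omega) (by have := b8 Mx y; omega)) hφ κ0 q q
      (fun x _ ρ => vz x (β x) (w x) (gt (ρ 0) 0) (gt (ρ 0) 1) (gt (ρ 0) 2) (m x))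
      (fun x _ ρ => ?_)
      (SC.Q.lift (K.cg (K.app cp cM) fun x ρ => (un_len _ _).symm))
      (SC.Q.lift (K.cg (K.ite (i := fun _ _ => instDecidableAnd)
        (K.and (K.lt (K.v 0) (K.w (K.app cp cM)))
          (K.all (P := fun x ρ i => hd (ρ 0) + 1 ≠
            pq (en2 x (β x) (w x) (gt (ρ 1) 0) (gt (ρ 1) 1) (gt (ρ 1) 2) (m x)) (i + 1)) cM
            (K.ne (K.add (K.v 1) (K.c 1)) (K.cg (K.app (K.wF (K.wF cp)) (K.add (K.v 0) (K.c 1)))
              fun _ _ => rfl)))) (K.c 1) (K.c 0)) fun x ρ => (un_bit _ _ _).symm))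
    refine ⟨(len_vz ..).trans (q8 x), ?_, ?_⟩
    · exact k0 ▸ Nat.mul_le_mul (by omega) (hle ..)
    · refine eq ▸ (Nat.mul_le_mul (lt_pw x _).le ((hle ..).trans (he x))).trans ?_
      rw [← pow_add]
      exact pw_le x (by omega)
  obtain ⟨E, hE⟩ := GM.recC κ0 q q (fun _ => 1)
    (fun x _ l => φ (vz x (β x) (w x) (gt l 0) (gt l 1) (gt l 2) (m x))) (A1 + 1 + e + 8 + 1) cF
    (fun x _ _ => (hφ _).trans ((Nat.one_le_pow _ _ (by omega)).trans (q8 x)))
    (fun x => by have := k8 x; omega) fun x => by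
      have := (lt_pw x 8).le.trans (q8 x)
      have e' : (x.length + 2) ^ (A1 + 1 + e + 8 + 1) = q x * (x.length + 2) := by rw [eq, pow_succ]
      rw [e', pow_one]
      refine ⟨?_, ?_, ?_⟩ <;> nlinarith
  refine ⟨E * (A1 + 1 + A2 + 1) * 2 + 1, fun κ hκ a1 a2 a3 c1 c2 c3 => ?_⟩
  have k3 : ∀ x, 3 ≤ κ x := fun x => by
    have := hκ x
    have := b9 x
    rw [Nat.add_mul] at *
    omega
  have cR := hE κ (fun x => le_trans (by
      have := b9 x
      rw [k0]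
      nlinarith [Nat.mul_le_mul_left E (show 1 ≤ b x by omega)]) (hκ x)) (K.c 1)
    (k0 ▸ K.mul (K.c _) (hbc κ)) (eq ▸ K.pow _ (K.add (kitOne κ).len (K.c 2)))
  refine K.cg ((kitA κ).bind _ _ ((kitOne κ).tab (n := fun _ => 3)
    (fun x ρ i => if i = 0 then a1 x ρ else if i = 1 then a2 x ρ else a3 x ρ) k3 (K.c 3)
    (K.ite (K.eq (K.v 0) (K.c 0)) (K.w c1) (K.ite (K.eq (K.v 0) (K.c 1)) (K.w c2) (K.w c3)))) cR)
    fun x ρ => ?_
  have := k8 x
  refine Eq.trans ?_ (congrArg φ (vz_min x _ _ _ _ _ _ ((pw_le x (by omega)).trans (q8 x))))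
  simp only [rc, GM.clip]
  rw [gt_tb _ (by omega), gt_tb _ (by omega), gt_tb _ (by omega)]
  rfl

end Pool.Agent.MP_1a6d78_lc.DS.DD
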