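import Pool.Agent.MP_1a6d78_lc.DD.Basic

/-! PROJECT DD, row POT: the potential. -/

namespace Pool.Agent.MP_1a6d78_lc.DS.DD

open Classical ED PR

theorem potS : PotS := by
  intro hS n live g d D Δ η m s hl hs tri hg hd
  have a1 : ∀ j v, psi n live g d Δ η j v ≤ Δ - η := fun j v => mn_le_z
  have a0 : ∀ j v u, live u → psi n live g d Δ η j v ≤ (g u - j * Δ) + d v u := fun j v u hu =>
    mn_le (c := fun u => (g u - j * Δ) + d v u) (hl u hu).1 hu
  have a2 : ∀ j v, live v → psi n live g d Δ η j v ≤ D v s - j * Δ := fun j v hv => by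
    have k := a0 j v v hv
    have e := hd v v hv hv
    have := (hl v hv).2
    have := (hg v hv).1
    omega
  have a3 : ∀ j < m, ∀ v, live v →
      min (Δ - η) (D v s - j * Δ - η) ≤ psi n live g d Δ η j v := fun j hj v hv => by
    refine le_mn (min_le_left _ _) fun u _ hu => ?_
    have e := hd v u hv hu
    have t := tri v u s hv hu hs
    have k : (j + 1) * Δ ≤ m * Δ := Nat.mul_le_mul_right _ hj
    rw [Nat.succ_mul] at k
    rcases (hg u hu).2 with q | q <;> omega
  have a4 : ∀ j u v, live u → live v →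
      psi n live g d Δ η j u ≤ D u v + psi n live g d Δ η j v := fun j u v hu hv => by
    rcases mn_eq n live (fun u => (g u - j * Δ) + d v u) (Δ - η) with e | ⟨z, _, hz, e⟩
    · have e' : psi n live g d Δ η j v = Δ - η := e
      have := a1 j u
      omega
    · have e' : psi n live g d Δ η j v = (g z - j * Δ) + d v z := e
      have k := a0 j u z hz
      have := hd u z hu hz
      have := hd v z hv hz
      have := tri u v z hu hv hz
      omega
  refine ⟨?_, fun v => ?_, fun u v hu hv => ?_, fun v hv h => ?_⟩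
  · rw [pot, if_pos hs]
    refine Finset.sum_eq_zero fun j _ => ?_
    have := a2 j s hs
    have := (hl s hs).2
    omega
  · rw [pot]
    split_ifs
    · refine (Finset.sum_le_card_nsmul _ _ Δ fun j _ => (a1 j v).trans (Nat.sub_le _ _)).trans ?_
      rw [Finset.card_range, smul_eq_mul]
    · exact Nat.zero_le _
  · rw [pot, pot, if_pos hu, if_pos hv]
    exact hS.1 m Δ η (D u v) (D u s) (D v s) _ _ (tri u v s hu hv hs) fun j hj =>
      ⟨a4 j u v hu hv, a1 j u, a2 j u hu, a3 j hj v hv⟩
  · rw [pot, if_pos hv]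
    exact hS.2 m Δ η (D v s) _ h fun j hj => a3 j hj v hv

end Pool.Agent.MP_1a6d78_lc.DS.DD
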