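import Pool.Agent.MP_1a6d78_lc.DD.Basic

/-! PROJECT DD, rows PS and PT: one step of the recursion on the threshold and the top are
computable. -/

namespace Pool.Agent.MP_1a6d78_lc.DS.DD

open Classical ED PR

namespace PsL

variable {κ : List Bool → ℕ} {γ φ : List Bool → ℕ}

theorem dl (i : PiK 1) (κ : List Bool → ℕ) : Cn κ fun x _ => Dl x :=
  K.add (K.div (nmC i κ 3) (MxC i κ)) (K.c 1)

theorem geC (i : PiK 1)
    (o : F3 κ fun x => fun u v θ => γ (vz x (inp x).β (wt x) u v θ (Mx x))) :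
    F1 κ fun x _ => ge γ x :=
  K.lst (P := fun x ρ θ => θ = Mx x * Dl x + 1 ∨
    γ (vz x (inp x).β (wt x) (inp x).s (hd (ρ 0)) θ (Mx x)) = 1)
    (K.add (K.mul (MxC i κ) (dl i κ)) (K.c 2))
    (K.or (K.eq (K.v 0) (K.add (K.mul (MxC i κ) (dl i κ)) (K.c 1)))
      (K.eq (o _ _ _ (i.M κ).2.2.2.2.1 (K.v 1) (K.v 0)) (K.c 1)))

theorem deC (i : PiK 1)
    (o : F3 κ fun x => fun u v θ => φ (vz x (inp x).β (wt x) u v θ (Mx x))) :
    F2 κ fun x => de φ x := fun a b ha hb =>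
  K.lst (P := fun x ρ θ => θ = Dl x ∨
    φ (vz x (inp x).β (wt x) (b x ρ) (a x ρ) θ (Mx x)) = 1) (K.add (dl i κ) (K.c 1))
    (K.or (K.eq (K.v 0) (dl i κ)) (K.eq (o _ _ _ (K.w hb) (K.w ha) (K.v 0)) (K.c 1)))

theorem pxC (i : PiK 1) (g : F1 κ fun x _ => ge γ x) (d : F2 κ fun x => de φ x) :
    F1 κ fun x _ => px γ φ x :=
  K.ite (i.lv κ) ((kitOne κ).sum (fun x ρ j => psi (num x 0) (lv (inp x)) (ge γ x) (de φ x) (Dl x)
    (Dl x / Mx x) j (hd (ρ 0))) (MxC i κ)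
    (mnC (P := fun x _ => lv (inp x))
      (c := fun x ρ u => (ge γ x u - hd (ρ 0) * Dl x) + de φ x (hd (ρ 1)) u) (nmC i κ 0) (i.lv κ)
      (K.add (K.sub g (K.mul (K.v 1) (dl i κ))) (d _ _ (K.v 2) (K.v 0)))
      (K.sub (dl i κ) (K.div (dl i κ) (MxC i κ))))) (K.c 0)

theorem wrC (i : PiK 1) (p : F1 κ fun x _ => px γ φ x) : F1 κ fun x _ => wr γ φ x :=
  K.sub (K.add (i.wt κ) (K.app p (K.app (i.nd κ) (i.M κ).2.2.1))) (K.app p (i.nd κ))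

theorem mt (r : ℕ) (κ : List Bool → ℕ) : Cn κ fun x _ => Mt r x :=
  have hn : Cn κ fun x _ => x.length + 2 := K.add (kitOne κ).len (K.c 2)
  (kitOne κ).fold (fun x _ m acc => if m ^ r ≤ x.length + 2 then m + 1 else acc)
    (fun _ _ m => m + 1) (K.add hn (K.c 1)) (K.c 0)
    ((kitOne κ).ile (K.pow r (K.v 1)) hn (K.add (K.v 1) (K.c 1)) (K.v 0))
    (K.add (K.v 0) (K.c 1)) fun _ _ _ _ _ h1 h2 => by split_ifs <;> assumption

end PsL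

open PsL in
theorem psS2 : PsS := by
  intro i po γ φ hγ hφ g1 f1
  have e : Ev (bm Mx) fun κ => (F1 κ fun x _ => (inp x).β) ∧ F1 κ fun x _ => wt x :=
    Ev.all fun κ => ⟨(i.M κ).2.2.1, i.wt κ⟩
  have p : Ev (bm Mx) fun κ => F1 κ fun x _ => px γ φ x :=
    ((po i Mx γ (MxC i) hγ g1 _ _ e).and (po i Mx φ (MxC i) hφ f1 _ _ e)).imp fun κ _ k =>
      pxC i (geC i k.1) (deC i k.2)
  refine ((po i Mx φ (MxC i) hφ f1 (fun x => (inp x).β) (wr γ φ)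
    (p.imp fun κ _ k => ⟨(i.M κ).2.2.1, wrC i k⟩)).and p).imp fun κ _ k => ?_
  have t := K.app (i.nd κ) (i.M κ).2.2.2.2.2
  have q := K.app k.2 t
  exact K.ite (K.and (K.appP (i.lv κ) t) (K.le q (nmC i κ 3)))
    (k.1 _ _ _ (i.M κ).2.2.2.2.1 (i.M κ).2.2.2.2.2 (K.min (K.sub (nmC i κ 3) q) (dl i κ))) (K.c 0)

open PsL in
theorem ptS2 : PtS := by
  intro i po r φ hφ f1
  exact (po i (Mt r) φ (mt r) hφ f1 (fun x => (inp x).β)
    (fun x d => if us x d then wt x d else num x 3 + 1) (Ev.all fun κ => ⟨(i.M κ).2.2.1,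
      K.ite (K.eq (K.app (i.num κ) (K.add (K.add (K.add (K.add (K.c 4) (nmC i κ 0)) (nmC i κ 0))
        (nmC i κ 0)) (K.v 0))) (K.c 1)) (i.wt κ) (K.add (nmC i κ 3) (K.c 1))⟩)).imp fun κ _ k =>
    k _ _ _ (nmC i κ 2) (nmC i κ 1) (nmC i κ 3)

end Pool.Agent.MP_1a6d78_lc.DS.DD
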