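import Pool.Agent.MP_1a6d78_lc.DD.Basic

/-! PROJECT DD, rows PW and PA: the window algorithm and the final stage are computable. -/

namespace Pool.Agent.MP_1a6d78_lc.DS.DD

open Classical ED PR

namespace PwL

variable {κ : List Bool → ℕ}

theorem tr : P1 κ fun _ _ _ => True :=
  K.cgP (K.eq (K.c 0) (K.c 0)) fun _ _ => by simp

section
variable {A : List Bool → Ab} {L : ℕ} (h : AbC κ A L) (g : PgK κ A L)
  {δ δ' y0 τ z : List Bool → Env → ℕ} {T : List Bool → Env → List ℕ}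
include h g

theorem n0C (hδ : Cn κ δ) (hy : Cn κ y0) (hτ : Cn κ τ) (hT : Cm κ T) (hz : Cn κ z) :
    Cn κ fun x ρ => (A x).n0 L (δ x ρ) (y0 x ρ) (τ x ρ) (T x ρ) (z x ρ) :=
  mnC (P := fun x _ => (A x).K)
    (c := fun x ρ y => (A x).lg (z x ρ) y + (A x).G L (δ x ρ) (y0 x ρ) (τ x ρ) (T x ρ) y) h.n g.K
    (K.add (h.lg _ _ (K.w hz) (K.v 0))
      (g.G _ _ _ _ _ (K.w hδ) (K.w hy) (K.w hτ) (K.wL hT) (K.v 0)))
    (g.G _ _ _ _ _ hδ hy hτ hT hz)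

theorem n1C {F : List Bool → ℕ → ℕ → ℕ → ℕ → ℕ}
    (hF : ∀ a b c d : List Bool → Env → ℕ, Cn κ a → Cn κ b → Cn κ c → Cn κ d →
      Cn κ fun x ρ => F x (a x ρ) (b x ρ) (c x ρ) (d x ρ))
    (hδ' : Cn κ δ') (hδ : Cn κ δ) (hy : Cn κ y0) (hτ : Cn κ τ) (hT : Cm κ T) (hz : Cn κ z) :
    Cn κ fun x ρ => (A x).n1 L (F x (δ' x ρ)) (δ x ρ) (y0 x ρ) (τ x ρ) (T x ρ) (z x ρ) :=
  have w2 : Cn κ fun x _ => 2 * (A x).W := K.mul (K.c 2) h.W
  mnC (P := fun x _ => (A x).K)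
    (c := fun x ρ y => mn ((A x).T ^ L) (fun _ => True)
      (fun τ' => (A x).G L (δ x ρ) (y0 x ρ) (τ x ρ) (T x ρ) y + F x (δ' x ρ) y τ' (z x ρ) - (A x).W)
      (2 * (A x).W)) h.n g.K
    (mnC (P := fun _ _ _ => True)
      (c := fun x ρ τ' => (A x).G L (δ x (tl ρ)) (y0 x (tl ρ)) (τ x (tl ρ)) (T x (tl ρ))
        (hd (ρ 0)) + F x (δ' x (tl ρ)) (hd (ρ 0)) τ' (z x (tl ρ)) - (A x).W)
      (K.pow L (K.add w2 (K.c 1))) tr
      (K.sub (K.add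
        (g.G _ _ _ _ _ (K.w (K.w hδ)) (K.w (K.w hy)) (K.w (K.w hτ)) (K.wL (K.wL hT)) (K.v 1))
        (hF _ _ _ _ (K.w (K.w hδ')) (K.v 1) (K.v 0) (K.w (K.w hz)))) h.W) w2) w2

end

theorem ap {f : List Bool → ℕ → ℕ} (h : F1 κ fun x _ => f x) {a : List Bool → Env → ℕ}
    (ha : Cn κ a) : Cn κ fun x ρ => f x (a x ρ) := K.app h ha

theorem aq {P : List Bool → ℕ → Prop} (h : P1 κ fun x _ => P x) {a : List Bool → Env → ℕ}
    (ha : Cn κ a) : Cp κ fun x ρ => P x (a x ρ) := K.appP h ha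

section
variable {S : List Bool → Sk} (h : SkC κ S)
include h

theorem bel : P2 κ fun x => (S x).bel := fun a b ha hb =>
  K.and (aq h.X hb) (K.ex (P := fun x ρ t => it (S x).M.n (S x).f.par t (b x ρ) = a x ρ) h.M.1
    (K.eq (K.it (f := fun x _ => (S x).f.par) h.M.1 h.f.1 (K.v 0) (K.w hb)) (K.w ha)))

theorem kk : P1 κ fun x _ => (S x).K :=
  K.ex (P := fun x ρ y => (S x).bel (hd (ρ 0)) y) h.M.1 (bel h _ _ (K.v 1) (K.v 0))

theorem nb {a : List Bool → Env → ℕ} (ha : Cn κ a) :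
    Cn κ fun x ρ => (S x).M.nd ((S x).M.β (a x ρ)) := ap h.nd (ap h.M.2.2.1 ha)

theorem lg : F2 κ fun x => lgv (S x) := fun z y hz hy =>
  mnC (P := fun x ρ a => (S x).M.nd a = z x ρ ∧ (S x).M.β a ≠ a)
    (c := fun x ρ a => if (S x).M.nd ((S x).M.β a) = y x ρ then (S x).w a else mn (S x).M.n
      (fun b => (S x).M.β b ≠ b ∧ (S x).M.nd ((S x).M.β b) = y x ρ ∧
        ¬(S x).K ((S x).M.nd ((S x).M.β a)) ∧ ¬(S x).K ((S x).M.nd b))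
      (fun b => (S x).w a + (S x).o ((S x).M.nd ((S x).M.β a)) ((S x).M.nd b) + (S x).w b)
      (S x).W) h.M.1
    (K.and (K.eq (ap h.nd (K.v 0)) (K.w hz)) (K.ne (ap h.M.2.2.1 (K.v 0)) (K.v 0)))
    (K.ite (K.eq (nb h (K.v 0)) (K.w hy)) (ap h.w (K.v 0))
      (mnC (P := fun x ρ b => (S x).M.β b ≠ b ∧ (S x).M.nd ((S x).M.β b) = y x (tl ρ) ∧
          ¬(S x).K ((S x).M.nd ((S x).M.β (hd (ρ 0)))) ∧ ¬(S x).K ((S x).M.nd b))
        (c := fun x ρ b => (S x).w (hd (ρ 0)) +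
          (S x).o ((S x).M.nd ((S x).M.β (hd (ρ 0)))) ((S x).M.nd b) + (S x).w b) h.M.1
        (K.and (K.ne (ap h.M.2.2.1 (K.v 0)) (K.v 0)) (K.and (K.eq (nb h (K.v 0)) (K.w (K.w hy)))
          (K.and (K.not (aq (kk h) (nb h (K.v 1)))) (K.not (aq (kk h) (ap h.nd (K.v 0)))))))
        (K.add (K.add (ap h.w (K.v 1)) (h.o _ _ (nb h (K.v 1)) (ap h.nd (K.v 0))))
          (ap h.w (K.v 0))) h.W)) h.W

theorem t0C (L : ℕ) : Cn κ fun x _ => t0 (S x).W L :=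
  have w : Cn κ fun x _ => 2 * (S x).W + 1 := K.add (K.mul (K.c 2) h.W) (K.c 1)
  K.lst (P := fun x _ q => ∀ l < L, dg (2 * (S x).W + 1) q l = (S x).W) (K.pow L w)
    (K.all (P := fun x ρ l => dg (2 * (S x).W + 1) (hd (ρ 0)) l = (S x).W) (K.c L)
      (K.eq (dgC w (K.v 1) (K.v 0)) h.W))

end

theorem sz_le (e c m : ℕ) : mu e (5000 * m) * (e + 1) * (2 * (c * m * (8 * m ^ 2)) + 1) ≤
    4000 * (e + 1) * (e + 1) * (16 * c + 1) * (5000 * m + 2) ^ 7 := by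
  have a : (5000 * m) ^ 4 ≤ (5000 * m + 2) ^ 4 := Nat.pow_le_pow_left (by omega) 4
  have b : m ^ 3 ≤ (5000 * m + 2) ^ 3 := Nat.pow_le_pow_left (by omega) 3
  have d : 1 ≤ (5000 * m + 2) ^ 3 := Nat.one_le_pow _ _ (by omega)
  have f : 2 * (c * m * (8 * m ^ 2)) + 1 ≤ (16 * c + 1) * (5000 * m + 2) ^ 3 := by
    calc _ = 16 * c * m ^ 3 + 1 := by ring
      _ ≤ 16 * c * (5000 * m + 2) ^ 3 + (5000 * m + 2) ^ 3 :=
        Nat.add_le_add (Nat.mul_le_mul_left _ b) d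
      _ = _ := by ring
  calc _ ≤ 4000 * (e + 1) * (5000 * m + 2) ^ 4 * (e + 1) * ((16 * c + 1) * (5000 * m + 2) ^ 3) :=
        Nat.mul_le_mul (Nat.mul_le_mul_right _ (Nat.mul_le_mul_left _ a)) f
    _ = _ := by ring

end PwL

open PwL

theorem pwS : PwS := by
  intro κ A L h g i
  induction i with
  | zero =>
    intro δ y0 τ z hδ hy hτ hz
    exact n0C h g hδ hy hτ (g.rd δ τ (fun x _ => (A x).W)
      (fun x ρ => (A x).n0 L (δ x ρ) (y0 x ρ) (τ x ρ)) hδ hτ h.W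
      (n0C h g (K.w (K.w hδ)) (K.w (K.w hy)) (K.w (K.w hτ)) (K.vL 1) (K.v 0))) hz
  | succ i ih =>
    intro δ y0 τ z hδ hy hτ hz
    have hd : Cn κ fun x ρ => δ x ρ / (A x).B + 1 := K.add (K.div hδ h.B) (K.c 1)
    exact n1C h g (F := fun x => (A x).win L i) ih hd hδ hy hτ
      (g.rd δ τ (fun x _ => L * (A x).B)
        (fun x ρ => (A x).n1 L ((A x).win L i (δ x ρ / (A x).B + 1)) (δ x ρ) (y0 x ρ) (τ x ρ))
        hδ hτ (K.mul (K.c L) h.B)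
        (n1C h g (F := fun x => (A x).win L i) ih (K.w (K.w hd)) (K.w (K.w hδ)) (K.w (K.w hy))
          (K.w (K.w hτ)) (K.vL 1) (K.v 0))) hz

theorem paS2 : PaS := by
  intro i pg pw e S hS
  obtain ⟨A, hA⟩ := hS
  refine ⟨A + 4000 * (e + 1) * (e + 1) * (16 * (3 * (e + 1) + 3) ^ (4 * e) + 1), fun κ hκ => ?_⟩
  have h : SkC κ S := hA κ fun x => le_trans (Nat.mul_le_mul_right _ (Nat.le_add_right _ _)) (hκ x)
  have hm := MxC i κ
  have h8 : Cn κ fun x _ => 8 * Mx x ^ 2 := K.mul (K.c 8) (K.pow 2 hm)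
  have hab : AbC κ (fun x => ab (S x) (mu e (Dz x)) (Mx x)
      ((3 * (e + 1) + 3) ^ (4 * e) * Mx x * (8 * Mx x ^ 2))) (e + 1) :=
    ⟨h.M.1, h.W, K.mul (K.c (4000 * (e + 1))) (K.pow 4 (K.mul (K.c 5000) hm)), hm,
      K.mul (K.mul (K.c _) hm) h8, h.X, h.f.1, h.f.2.1, lg h, fun x =>
        (sz_le e _ (Mx x)).trans
          (le_trans (Nat.mul_le_mul_right _ (Nat.le_add_left _ _)) (hκ x))⟩
  have ht := th1C i κ
  have hnt : Cn κ fun x _ => (S x).M.nd (S x).M.t := K.app h.nd h.M.2.2.2.2.2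
  exact K.ite (K.and (K.appP h.f.2.2.2.1 hnt)
    (K.le (pw κ _ _ hab (pg κ _ _ hab) (4 * e) _ _ _ _ (K.add ht (K.c 1))
      (K.app h.nd h.M.2.2.2.2.1) (t0C h (e + 1)) hnt)
      (K.add (K.add h.W ht) (K.div (K.add ht (K.c 1)) h8)))) (K.c 1) (K.c 0)

end Pool.Agent.MP_1a6d78_lc.DS.DD
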