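import Pool.Agent.MP_1a6d78_lc.DD.Basic

/-! PROJECT DD: the window algorithm is sound; the base case is complete. -/

namespace Pool.Agent.MP_1a6d78_lc.DS.DD

open Classical ED PR

namespace SndL

variable {A : Ab} {L : ℕ} {D : ℕ → ℕ → ℕ} {δ y0 τ : ℕ}

theorem rd_succ (nw : List ℕ → ℕ → ℕ) (m : ℕ) :
    A.rd L δ τ nw (m + 1) = A.mkT L δ τ (nw (A.rd L δ τ nw m)) := rfl

theorem rd_sd (k : A.TabK L D) (h0 : A.K y0) {nw : List ℕ → ℕ → ℕ}
    (h : ∀ T, A.Sd D y0 (A.G L δ y0 τ T) → A.Sd D y0 (nw T)) (m : ℕ) :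
    A.Sd D y0 (nw (A.rd L δ τ nw m)) := by
  induction m with
  | zero => exact h _ (k.s0 δ y0 τ h0)
  | succ m ih => exact h _ (k.s1 δ y0 τ _ h0 ih)

theorem n0_sd (o : A.Ok L D) (h0 : A.K y0) (T : List ℕ) (h : A.Sd D y0 (A.G L δ y0 τ T)) :
    A.Sd D y0 (A.n0 L δ y0 τ T) := fun z hz => le_mn (h z hz) fun y _ hy => by
  have a := h y hy
  have b := o.tri z y y0 hz hy h0
  have c := (o.lg z y hz hy).1
  omega

theorem n1_sd (o : A.Ok L D) (h0 : A.K y0) {f : ℕ → ℕ → ℕ → ℕ}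
    (hf : ∀ y τ', A.K y → A.Sd D y (f y τ')) (T : List ℕ) (h : A.Sd D y0 (A.G L δ y0 τ T)) :
    A.Sd D y0 (A.n1 L f δ y0 τ T) := fun z hz => by
  have e := o.big z y0 hz h0
  refine le_mn (by omega) fun y _ hy => le_mn (by omega) fun τ' _ _ => ?_
  have a := h y hy
  have b := o.tri z y y0 hz hy h0
  have c := hf y τ' hy z hz
  omega

theorem base (o : A.Ok L D) (k : A.TabK L D) (hδ : δ ≤ 2) (h0 : A.K y0) {z c : ℕ}
    (h : A.Ch y0 δ τ z c) : A.K z ∧ ∀ m, c ≤ m →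
      A.n0 L δ y0 τ (A.rd L δ τ (A.n0 L δ y0 τ) m) z ≤ A.W + c := by
  induction h with
  | nil => exact ⟨h0, fun m _ => mn_le_z.trans (by simp [Ab.G])⟩
  | @step y z c _ hz h1 h2 ih =>
    refine ⟨hz, fun m hm => ?_⟩
    have a := (o.lg z y hz ih.1).2
    have b := o.Q
    have e : δ / A.Q = 0 := Nat.div_eq_of_lt (by omega)
    obtain ⟨m, rfl⟩ : ∃ m', m = m' + 1 := ⟨m - 1, by omega⟩
    have d := k.cp δ y0 τ _ y (A.W + c) ih.1 (ih.2 m (by omega)) (by omega) h1 (by rw [e]; omega)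
    refine (mn_le (o.lt y ih.1) ih.1).trans ?_
    rw [rd_succ]
    omega

end SndL

open SndL

theorem sndS : SndS := by
  intro A L D o k i
  induction i with
  | zero => exact fun δ y0 τ h0 => rd_sd k h0 (n0_sd o h0) _
  | succ i ih => exact fun δ y0 τ h0 => rd_sd k h0 (n1_sd o h0 fun y τ' hy => ih _ y τ' hy) _

theorem baseS : BaseS := fun _ _ _ _ o k hδ _ _ _ _ h0 h hc => (base o k hδ h0 h).2 _ hc

end Pool.Agent.MP_1a6d78_lc.DS.DD
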