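import Pool.Agent.MP_1a6d78_lc.DS.Basic

/-! PROJECT DD: distances in all plane digraphs in small space.  The algorithm and the statements
of the rows.  Note: PDD1a6d78_note_h24.md.  The root `M.s` is the TARGET of all walks. -/

namespace Pool.Agent.MP_1a6d78_lc.DS.DD

open Classical ED PR

noncomputable section

/-- The least of `z` and the values of `c` on the numbers below `n` with `P`. -/
def mn (n : ℕ) (P : ℕ → Prop) (c : ℕ → ℕ) (z : ℕ) : ℕ :=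
  itr (fun i acc => if P i then min acc (c i) else acc) z n

/-- The digit number `l` of `q` in base `T`. -/
def dg (T q l : ℕ) : ℕ := itr (fun _ a => a / T) q l % T

/-- DIG -/
def DigS : Prop :=
  ∀ (T L : ℕ) (f : ℕ → ℕ), (∀ l < L, f l < T) → ∃ q < T ^ L, ∀ l < L, dg T q l = f l

/-! ### Windows -/

structure Ab where
  n : ℕ
  W : ℕ
  mu : ℕ
  B : ℕ
  Q : ℕ
  X : ℕ → Prop
  par : ℕ → ℕ
  ht : ℕ → ℕ
  lg : ℕ → ℕ → ℕ

namespace Ab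

variable (A : Ab) (L : ℕ)

def K : ℕ → Prop := anc A.n A.par A.X

def bel (v x : ℕ) : Prop := x < A.n ∧ A.X x ∧ ∃ t < A.n, it A.n A.par t x = v

def lv (v : ℕ) : ℕ := A.ht v / A.W

def h (v : ℕ) : ℕ := A.ht v % A.W

def T : ℕ := 2 * A.W + 1

def Qn : ℕ := 2 * A.Q + 1

def sz : ℕ := A.mu * L * A.Qn

/-- The lower end of the window at `v`. -/
def lo (τ v : ℕ) : ℕ := A.h v + dg A.T τ (A.lv v)

def th (δ τ v q : ℕ) : ℕ := A.lo τ v + q * (δ / A.Q + 1)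

/-- The value of `y` read from the table `T`. -/
def G (δ y0 τ : ℕ) (T : List ℕ) (y : ℕ) : ℕ :=
  if y = y0 then A.W else mn (A.mu * A.Qn)
    (fun i => A.bel y (sel A.n A.X (i / A.Qn)) ∧
      gt T ((i / A.Qn * L + A.lv y) * A.Qn + i % A.Qn) ≤ A.ht y)
    (fun i => A.th δ τ y (i % A.Qn)) (2 * A.W)

/-- The table made from the values `nw`. -/
def mkT (δ τ : ℕ) (nw : ℕ → ℕ) : List ℕ :=
  tab (A.sz L) fun i => mn A.n
    (fun a => A.bel a (sel A.n A.X (i / A.Qn / L)) ∧ A.lv a = i / A.Qn % L ∧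
      nw a ≤ A.th δ τ a (i % A.Qn)) A.ht (L * A.W)

def rd (δ τ : ℕ) (nw : List ℕ → ℕ → ℕ) (m : ℕ) : List ℕ :=
  itr (fun _ T => A.mkT L δ τ (nw T)) (tab (A.sz L) fun _ => L * A.W) m

def n0 (δ y0 τ : ℕ) (T : List ℕ) (z : ℕ) : ℕ :=
  mn A.n A.K (fun y => A.lg z y + A.G L δ y0 τ T y) (A.G L δ y0 τ T z)

def n1 (f : ℕ → ℕ → ℕ → ℕ) (δ y0 τ : ℕ) (T : List ℕ) (z : ℕ) : ℕ :=
  mn A.n A.K (fun y => mn (A.T ^ L) (fun _ => True)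
    (fun τ' => A.G L δ y0 τ T y + f y τ' z - A.W) (2 * A.W)) (2 * A.W)

def o0 (δ y0 τ z : ℕ) : ℕ := A.n0 L δ y0 τ (A.rd L δ τ (A.n0 L δ y0 τ) A.W) z

def o1 (f : ℕ → ℕ → ℕ → ℕ) (δ y0 τ z : ℕ) : ℕ :=
  A.n1 L f δ y0 τ (A.rd L δ τ (A.n1 L f δ y0 τ) (L * A.B)) z

def win : ℕ → ℕ → ℕ → ℕ → ℕ → ℕ
  | 0 => A.o0 L
  | i + 1 => fun δ => A.o1 L (win i (δ / A.B + 1)) δ

def er : ℕ → ℕ → ℕ
  | 0 => fun _ => 0
  | i + 1 => fun δ => L * A.B * (er i (δ / A.B + 1) + δ / A.Q) + er i (δ / A.B + 1)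

structure Ok (D : ℕ → ℕ → ℕ) : Prop where
  W : 0 < A.W
  B : 2 ≤ A.B
  Q : 3 ≤ A.Q
  mu : cnt A.n A.X ≤ A.mu
  lt : ∀ v, A.K v → v < A.n
  lev : ∀ v, A.K v → A.lv v < L
  refl : ∀ v, A.K v → D v v = 0
  tri : ∀ u v z, A.K u → A.K v → A.K z → D u z ≤ D u v + D v z
  big : ∀ u v, A.K u → A.K v → D u v ≤ A.W
  lg : ∀ u v, A.K u → A.K v → D u v ≤ A.lg u v ∧ 1 ≤ A.lg u v
  geo : ∀ u v, A.K u → A.K v → A.lv u = A.lv v → A.h u ≤ A.h v + D u v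
  sld : ∀ x a y, A.bel a x → A.bel y x → A.lv a = A.lv y → A.ht a ≤ A.ht y →
    D y a + A.h a ≤ A.h y

/-- A chain of legs from `z` to `y0` of cost `c` inside the window. -/
inductive Ch (y0 δ τ : ℕ) : ℕ → ℕ → Prop
  | nil : Ch y0 δ τ y0 0
  | step {y z c : ℕ} : Ch y0 δ τ y c → A.K z → A.lo τ y ≤ A.W + c → A.W + c < A.lo τ y + δ →
      Ch y0 δ τ z (c + A.lg z y)

def Sd (D : ℕ → ℕ → ℕ) (y0 : ℕ) (g : ℕ → ℕ) : Prop := ∀ z, A.K z → A.W + D z y0 ≤ g z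

def Cpl (f : ℕ → ℕ → ℕ → ℕ) (δ η : ℕ) : Prop :=
  ∀ y0 τ z c, A.K y0 → A.Ch y0 δ τ z c → c ≤ A.W → f y0 τ z ≤ A.W + c + η

/-- TAB -/
structure TabK (D : ℕ → ℕ → ℕ) : Prop where
  s0 : ∀ δ y0 τ, A.K y0 → A.Sd D y0 (A.G L δ y0 τ (tab (A.sz L) fun _ => L * A.W))
  s1 : ∀ δ y0 τ nw, A.K y0 → A.Sd D y0 nw → A.Sd D y0 (A.G L δ y0 τ (A.mkT L δ τ nw))
  cp : ∀ δ y0 τ (nw : ℕ → ℕ) y v, A.K y → nw y ≤ v → A.W ≤ v → A.lo τ y ≤ v →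
    v ≤ A.lo τ y + 2 * A.Q * (δ / A.Q + 1) → A.G L δ y0 τ (A.mkT L δ τ nw) y ≤ v + δ / A.Q

end Ab

def TabS : Prop := ∀ (A : Ab) L D, A.Ok L D → A.TabK L D

/-- SND -/
def SndS : Prop :=
  ∀ (A : Ab) L D, A.Ok L D → A.TabK L D → ∀ i δ y0 τ, A.K y0 → A.Sd D y0 (A.win L i δ y0 τ)

/-- BASE -/
def BaseS : Prop := ∀ (A : Ab) L D δ, A.Ok L D → A.TabK L D → δ ≤ 2 → A.Cpl (A.o0 L δ) δ 0

/-- PHASE -/
def PhS : Prop :=
  DigS → ∀ (A : Ab) L D (f : ℕ → ℕ → ℕ → ℕ) δ η, A.Ok L D → A.TabK L D →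
    A.Cpl f (δ / A.B + 1) η →
    δ + (L * A.B * (η + δ / A.Q) + η) ≤ 2 * A.Q * (δ / A.Q + 1) →
      A.Cpl (A.o1 L f δ) δ (L * A.B * (η + δ / A.Q) + η)

/-- ER -/
def ErS : Prop :=
  ∀ (A : Ab) L, 2 ≤ A.B → 3 ≤ A.Q → ∀ i δ, A.Q * A.er L i δ ≤ (3 * L + 3) ^ i * A.B * δ

/-- The window algorithm is complete. -/
def WinS : Prop :=
  ∀ (A : Ab) L D, A.Ok L D → A.TabK L D → ∀ i δ, δ ≤ A.B ^ i + 1 →
    (3 * L + 3) ^ i * A.B ≤ A.Q → A.Cpl (A.win L i δ) δ (A.er L i δ)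

/-! ### The skeleton -/

/-- Positive weights. -/
structure Wo (M : Mp) (w : ℕ → ℕ) (W : ℕ) : Prop where
  ok : M.Ok
  dir : ∀ d, M.dir d
  pos : ∀ d < M.n, M.β d ≠ d → 1 ≤ w d
  big : ∀ d < M.n, M.n * w d < W

/-- Inside a level the heights are distances to a set that contains the root. -/
structure Ge (M : Mp) (w : ℕ → ℕ) (W : ℕ) (f : Fo) : Prop where
  lip : ∀ u v c, f.live u → f.live v → f.ht u / W = f.ht v / W → Wk M w U u v c →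
    f.ht u ≤ f.ht v + c
  par : ∀ v, f.live v → f.par v ≠ v → f.ht v / W = f.ht (f.par v) / W →
    ∃ d < M.n, M.β d ≠ d ∧ M.nd d = v ∧ M.nd (M.β d) = f.par v ∧ f.ht v = f.ht (f.par v) + w d
  rt : ∀ v c, f.live v → Wk M w U v (M.nd M.s) c → f.ht v % W ≤ c

structure Lo (M : Mp) (w : ℕ → ℕ) (W l : ℕ) (f : Fo) : Prop where
  fit : M.Fit f
  comp : ∀ v, f.live v → Rc M w U (M.nd M.s) v
  geo : Ge M w W f
  hH : f.H = l * W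

structure So (S : Sk) (L μ : ℕ) : Prop where
  wo : Wo S.M S.w S.W
  lo : ∃ l ≤ L, Lo S.M S.w S.W l S.f
  xl : ∀ x, S.X x → S.f.live x
  xs : S.X (S.M.nd S.M.s)
  xn : cnt S.M.n S.X ≤ μ
  o : OrK S.M S.w S.f.live S.K S.o S.W

/-- The cheapest leg from `z` to `y`. -/
def lgv (S : Sk) (z y : ℕ) : ℕ :=
  mn S.M.n (fun a => S.M.nd a = z ∧ S.M.β a ≠ a) (fun a =>
    if S.M.nd (S.M.β a) = y then S.w a else mn S.M.n
      (fun b => S.M.β b ≠ b ∧ S.M.nd (S.M.β b) = y ∧ ¬S.K (S.M.nd (S.M.β a)) ∧ ¬S.K (S.M.nd b))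
      (fun b => S.w a + S.o (S.M.nd (S.M.β a)) (S.M.nd b) + S.w b) S.W) S.W

def ab (S : Sk) (μ B Q : ℕ) : Ab := ⟨S.M.n, S.W, μ, B, Q, S.X, S.f.par, S.f.ht, lgv S⟩

/-- KK -/
structure KkK (S : Sk) : Prop where
  it : ∀ x v, S.f.live x → ((∃ t < S.M.n, it S.M.n S.f.par t x = v) ↔ ∃ t, S.f.par^[t] x = v)
  live : ∀ v, S.K v → S.f.live v
  x : ∀ v, S.X v → S.K v
  rc : ∀ u v, S.f.live u → S.f.live v → Rc S.M S.w U u v ∧ ds S.M S.w U u v < S.W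

def KkS : Prop := ∀ S L μ, So S L μ → KkK S

/-- SLD -/
def SldK (S : Sk) : Prop :=
  ∀ x a y s t, S.f.live x → S.f.par^[s] x = a → S.f.par^[t] x = y →
    S.f.ht a / S.W = S.f.ht y / S.W → S.f.ht a ≤ S.f.ht y →
      ∃ c, Wk S.M S.w U y a c ∧ c + S.f.ht a = S.f.ht y

def SldS : Prop := ∀ S L μ, So S L μ → SldK S

/-- LG -/
structure LgK (S : Sk) : Prop where
  snd : ∀ u v, S.K u → S.K v → ds S.M S.w U u v ≤ lgv S u v ∧ 1 ≤ lgv S u v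
  one : ∀ a < S.M.n, S.M.β a ≠ a → lgv S (S.M.nd a) (S.M.nd (S.M.β a)) ≤ S.w a
  two : ∀ a < S.M.n, ∀ b < S.M.n, S.M.β a ≠ a → S.M.β b ≠ b → S.K (S.M.nd a) →
    S.K (S.M.nd (S.M.β b)) → ∀ c, Wk S.M S.w (fun z => ¬S.K z) (S.M.nd (S.M.β a)) (S.M.nd b) c →
      lgv S (S.M.nd a) (S.M.nd (S.M.β b)) ≤ S.w a + c + S.w b

def LgS : Prop := ∀ S L μ, So S L μ → KkK S → LgK S

/-- ABK -/
def AbS : Prop :=
  ∀ S L μ B Q, So S L μ → KkK S → SldK S → LgK S → 2 ≤ B → 3 ≤ Q →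
    (ab S μ B Q).Ok L (ds S.M S.w U)

/-- LEG: a walk to the root gives a chain. -/
def LegS : Prop :=
  ∀ S L μ B Q, So S L μ → KkK S → LgK S → (ab S μ B Q).Ok L (ds S.M S.w U) →
    ∀ δ τ z c, (∀ l < L, dg (2 * S.W + 1) τ l = S.W) → S.K z → Wk S.M S.w U z (S.M.nd S.M.s) c →
      c < δ → ∃ c' ≤ c, (ab S μ B Q).Ch (S.M.nd S.M.s) δ τ z c'

def t0 (W L : ℕ) : ℕ := lst ((2 * W + 1) ^ L) fun q => ∀ l < L, dg (2 * W + 1) q l = W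

def res (S : Sk) (L μ I m θ : ℕ) : ℕ :=
  (ab S μ m ((3 * L + 3) ^ I * m * (8 * m ^ 2))).win L I (θ + 1) (S.M.nd S.M.s) (t0 S.W L)
    (S.M.nd S.M.t)

def an1 (S : Sk) (L μ I m θ : ℕ) : ℕ :=
  if S.f.live (S.M.nd S.M.t) ∧ res S L μ I m θ ≤ S.W + θ + (θ + 1) / (8 * m ^ 2) then 1 else 0

/-- The final stage is right. -/
def FinS : Prop :=
  ∀ S L μ I m θ, So S L μ → 2 ≤ m → θ ≤ m ^ I →
    (S.f.live (S.M.nd S.M.t) → S.X (S.M.nd S.M.t)) →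
    ((∃ c ≤ θ, Wk S.M S.w U (S.M.nd S.M.t) (S.M.nd S.M.s) c) → an1 S L μ I m θ = 1) ∧
      (an1 S L μ I m θ = 1 →
        ∃ c ≤ θ + (θ + 1) / (8 * m ^ 2), Wk S.M S.w U (S.M.nd S.M.t) (S.M.nd S.M.s) c)

/-- FIN -/
def Fin1S : Prop := DigS → TabS → SndS → ErS → WinS → KkS → SldS → LgS → AbS → LegS → FinS

/-! ### The levels -/

/-- COMP -/
def CompS : Prop :=
  (∀ M w, M.Ok → ∀ v, lv M v ↔ v < M.n ∧ M.nd v = v ∧ Rc M w U (M.nd M.s) v) ∧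
    ∀ M w W, Wo M w W → Lo M w W 1 (f1 M W)

/-- DK -/
def DkS : Prop :=
  ∀ M w W l f (K : ℕ → Prop) o Z, Wo M w W → Lo M w W l f → K (M.nd M.s) →
    (∀ v, K v → f.live v) → W ≤ Z → OrK M w f.live K o Z → DkK M w W f.live K (dK M w K o Z)

/-- NEXT -/
def NxS : Prop :=
  ∀ M w W l f (K X : ℕ → Prop) δ, Wo M w W → Lo M w W l f → X (M.nd M.s) →
    (∀ x, X x → f.live x) → (∀ v, K v ↔ ∃ x, X x ∧ ∃ t, f.par^[t] x = v) →
    DkK M w W f.live K δ → Lo M w W (l + 1) (nxF M w W f K X δ)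

/-- SIZE -/
def SizeS : Prop :=
  ∀ M w W l f D R m, Wo M w W → Lo M w W l f → 1 ≤ D → 1 ≤ R → cnt M.n f.live ≤ m * R →
    Lo M w W l (pl M f R) ∧ cnt M.n (pl M f R).mk' ≤ cnt M.n f.mk' + m ∧
      ∀ (K : ℕ → Prop) (w' : ℕ → ℕ), (∀ v, (M.ld D (pl M f R)).K v → K v) → ∀ u, f.live u → ¬K u →
        csz M w' (fun z => ¬K z) u ≤ 4 * D ^ 2 * R

/-- The scale parameter. -/
def Mx (x : List Bool) : ℕ := num x (4 + num x 0 + num x 0 + num x 0)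

def en2 (x : List Bool) (β w : ℕ → ℕ) (u v θ m i : ℕ) : ℕ :=
  if i = 4 + num x 0 + num x 0 + num x 0 then min (Zx x) m else ent x β w u v θ i

/-- The virtual instance. -/
def vz (x : List Bool) (β w : ℕ → ℕ) (u v θ m : ℕ) : List Bool :=
  unary (tab (4 + num x 0 + num x 0 + num x 0 + 1) (en2 x β w u v θ m))

structure P0 (e : ℕ) (y : List Bool) : Prop where
  ok : (inp y).Ok
  M : 2 ≤ Mx y
  len : y.length + 2 ≤ Mx y ^ e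

/-- The promise. -/
structure Pr (m : ℕ → ℕ) (e : ℕ) (y : List Bool) : Prop where
  p : P0 e y
  t : (inp y).t < (inp y).n
  sz : csz (inp y) (wt y) U ((inp y).nd (inp y).s) ≤ m (Mx y)

def Rw (y : List Bool) (θ : ℕ) : Prop :=
  ∃ c ≤ θ, Wk (inp y) (wt y) U ((inp y).nd (inp y).t) ((inp y).nd (inp y).s) c

/-- `φ` is exact for small thresholds. -/
def Ce (m : ℕ → ℕ) (e a : ℕ) (φ : List Bool → ℕ) : Prop :=
  ∀ y, Pr m e y → num y 3 ≤ Mx y ^ a + 1 → (φ y = 1 ↔ Rw y (num y 3))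

/-- `φ` is right up to a gap. -/
def Gap (m : ℕ → ℕ) (e : ℕ) (φ : List Bool → ℕ) : Prop :=
  ∀ y, Pr m e y → (Rw y (num y 3) → φ y = 1) ∧
    (φ y = 1 → Rw y (num y 3 + 2 * (num y 3 + 1) / (8 * Mx y ^ 2)))

/-- VZ: the virtual instance. -/
def VzS : Prop :=
  ∀ (mf : ℕ → ℕ) e x β w u v θ m, (alt (inp x) β u v).Ok → v < num x 0 → θ ≤ Zx x → m ≤ Zx x →
    (∀ d < num x 0, w d ≤ Zx x) → 2 ≤ m → x.length + 2 ≤ m ^ e →
    csz (alt (inp x) β u v) w U ((inp x).nd u) ≤ mf m →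
      Pr mf (9 * e) (vz x β w u v θ m) ∧ Mx (vz x β w u v θ m) = m ∧
        num (vz x β w u v θ m) 3 = θ ∧ ∀ θ', Rw (vz x β w u v θ m) θ' ↔
          ∃ c ≤ θ', Wk (alt (inp x) β u v) w U ((inp x).nd v) ((inp x).nd u) c

def w1 (x : List Bool) (d : ℕ) : ℕ := (2 * num x 0 + 2) * wt x d + 1

def th1 (x : List Bool) : ℕ := (2 * num x 0 + 2) * num x 3 + num x 0

def or2 (φ : List Bool → ℕ) (x : List Bool) (K : ℕ → Prop) (u v : ℕ) : ℕ :=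
  lst (Zx x + 1) fun θ => θ = Zx x ∨ φ (vz x (sub (inp x) K) (w1 x) v u θ (Mx x)) = 1

/-- SUB -/
def SubS : Prop :=
  VzS → ∀ m e φ x (live K : ℕ → Prop), Ce m (9 * e) (9 * e) φ → P0 e x →
    (∀ v, live v → v < num x 0 ∧ (inp x).nd v = v) →
    (∀ u, live u → ¬K u → csz (inp x) (w1 x) (fun z => ¬K z) u ≤ m (Mx x)) →
      OrK (inp x) (w1 x) live K (or2 φ x K) (Zx x)

/-- SC: scaling of the weights. -/
def ScS : Prop :=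
  ∀ e x, P0 e x → (inp x).t < (inp x).n → th1 x ≤ Mx x ^ (4 * e) ∧
    (Rw x (num x 3) → ∃ c ≤ th1 x,
      Wk (inp x) (w1 x) U ((inp x).nd (inp x).t) ((inp x).nd (inp x).s) c) ∧
    ((∃ c ≤ th1 x + (th1 x + 1) / (8 * Mx x ^ 2),
      Wk (inp x) (w1 x) U ((inp x).nd (inp x).t) ((inp x).nd (inp x).s) c) →
        Rw x (num x 3 + 2 * (num x 3 + 1) / (8 * Mx x ^ 2)))

def Dz (x : List Bool) : ℕ := 5000 * Mx x

section
variable (φ : List Bool → ℕ) (x : List Bool) (D R : ℕ)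

def nx2 (f : Fo) : Fo :=
  nxF (inp x) (w1 x) (Zx x) f ((inp x).ld D f).K ((inp x).X D f)
    (dK (inp x) (w1 x) ((inp x).ld D f).K (or2 φ x ((inp x).ld D f).K) (Zx x))

def le2 : ℕ → Fo
  | 0 => pl (inp x) (f1 (inp x) (Zx x)) R
  | l + 1 => pl (inp x) (nx2 φ x D (le2 l)) R

def xs2 (f : Fo) (v : ℕ) : Prop := (inp x).X D f v ∨ (v = (inp x).nd (inp x).t ∧ f.live v)

def sk2 (f : Fo) : Sk :=
  ⟨inp x, w1 x, Zx x, f, xs2 x D f, or2 φ x (anc (inp x).n f.par (xs2 x D f)), Zx x⟩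

def sk1 : Sk := ⟨inp x, w1 x, Zx x, f1 (inp x) (Zx x), lv (inp x), fun _ _ => 0, Zx x⟩

end

def an2 (S : Sk) (e : ℕ) (x : List Bool) : ℕ :=
  an1 S (e + 1) (mu e (Dz x)) (4 * e) (Mx x) (th1 x)

def mm (j m : ℕ) : ℕ := (5000 * m) ^ 3 * m ^ j

/-- LEV -/
def LevS : Prop :=
  CompS → DkS → NxS → SizeS → SubS → VzS → ∀ m e φ x R, Ce m (9 * e) (9 * e) φ → P0 e x →
    1 ≤ R → csz (inp x) (wt x) U ((inp x).nd (inp x).s) ≤ Dz x ^ 3 * R →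
    4 * Dz x ^ 2 * R ≤ m (Mx x) → ∀ l,
      Lo (inp x) (w1 x) (Zx x) (l + 1) (le2 φ x (Dz x) R l) ∧
      (le2 φ x (Dz x) R l).live = lv (inp x) ∧
      cnt (inp x).n (le2 φ x (Dz x) R l).mk' ≤
        num x 0 / Mx x ^ l + l * (1001 * Dz x ^ 4) + Dz x ^ 3 ∧
      ∀ (K : ℕ → Prop) (w' : ℕ → ℕ), (∀ v, ((inp x).ld (Dz x) (le2 φ x (Dz x) R l)).K v → K v) →
        ∀ u, lv (inp x) u → ¬K u → csz (inp x) w' (fun z => ¬K z) u ≤ m (Mx x)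

/-- G0 -/
def G0S : Prop := FinS → CompS → ScS → ∀ e, Gap (mm 0) e fun x => an2 (sk1 x) e x

def g1 (φ : List Bool → ℕ) (j e : ℕ) (x : List Bool) : ℕ :=
  an2 (sk2 φ x (Dz x) (le2 φ x (Dz x) (Mx x ^ (j + 1)) e)) e x

/-- G1 -/
def G1S : Prop :=
  FinS → ScS → CompS → DkS → NxS → SizeS → SubS → VzS → LevS →
    ∀ j e φ, Ce (mm j) (9 * e) (9 * e) φ → Gap (mm (j + 1)) e (g1 φ j e)

/-! ### From the gap to the exact answer -/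

def psi (n : ℕ) (live : ℕ → Prop) (g : ℕ → ℕ) (d : ℕ → ℕ → ℕ) (Δ η j v : ℕ) : ℕ :=
  mn n live (fun u => (g u - j * Δ) + d v u) (Δ - η)

def pot (n : ℕ) (live : ℕ → Prop) (g : ℕ → ℕ) (d : ℕ → ℕ → ℕ) (Δ η m v : ℕ) : ℕ :=
  if live v then ∑ j ∈ Finset.range m, psi n live g d Δ η j v else 0

/-- SUM -/
def SumS : Prop :=
  (∀ (m Δ η c fx fy : ℕ) (a b : ℕ → ℕ), fx ≤ c + fy → (∀ j < m, a j ≤ c + b j ∧ a j ≤ Δ - η ∧
    a j ≤ fx - j * Δ ∧ min (Δ - η) (fy - j * Δ - η) ≤ b j) →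
      ∑ j ∈ Finset.range m, a j ≤ c + ∑ j ∈ Finset.range m, b j) ∧
  ∀ (m Δ η f : ℕ) (b : ℕ → ℕ), f ≤ m * Δ → (∀ j < m, min (Δ - η) (f - j * Δ - η) ≤ b j) →
    f ≤ ∑ j ∈ Finset.range m, b j + m * η

/-- POT: the potential. -/
def PotS : Prop :=
  SumS → ∀ (n : ℕ) (live : ℕ → Prop) (g : ℕ → ℕ) (d D : ℕ → ℕ → ℕ) (Δ η m s : ℕ),
    (∀ v, live v → v < n ∧ D v v = 0) → live s →
    (∀ u v z, live u → live v → live z → D u z ≤ D u v + D v z) →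
    (∀ u, live u → g u ≤ D u s ∧ (D u s ≤ g u + η ∨ g u = m * Δ + 1)) →
    (∀ v u, live v → live u → d v u = min Δ (D v u)) →
      pot n live g d Δ η m s = 0 ∧ (∀ v, pot n live g d Δ η m v ≤ m * Δ) ∧
      (∀ u v, live u → live v → pot n live g d Δ η m u ≤ D u v + pot n live g d Δ η m v) ∧
      ∀ v, live v → D v s ≤ m * Δ → D v s ≤ pot n live g d Δ η m v + m * η

def Dl (x : List Bool) : ℕ := num x 3 / Mx x + 1

section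
variable (γ φ : List Bool → ℕ) (x : List Bool)

def ge (u : ℕ) : ℕ :=
  lst (Mx x * Dl x + 2) fun θ => θ = Mx x * Dl x + 1 ∨
    γ (vz x (inp x).β (wt x) (inp x).s u θ (Mx x)) = 1

def de (v u : ℕ) : ℕ :=
  lst (Dl x + 1) fun θ => θ = Dl x ∨ φ (vz x (inp x).β (wt x) u v θ (Mx x)) = 1

def px : ℕ → ℕ :=
  pot (num x 0) (lv (inp x)) (ge γ x) (de φ x) (Dl x) (Dl x / Mx x) (Mx x)

def wr (d : ℕ) : ℕ := wt x d + px γ φ x ((inp x).nd ((inp x).β d)) - px γ φ x ((inp x).nd d)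

def stp : ℕ :=
  if lv (inp x) ((inp x).nd (inp x).t) ∧ px γ φ x ((inp x).nd (inp x).t) ≤ num x 3 then
    φ (vz x (inp x).β (wr γ φ x) (inp x).s (inp x).t
      (min (num x 3 - px γ φ x ((inp x).nd (inp x).t)) (Dl x)) (Mx x))
  else 0

end

/-- EST: the estimates. -/
def EstS : Prop :=
  VzS → CompS → ∀ m e a γ φ x, Gap m (9 * e) γ → Ce m (9 * e) a φ → Pr m e x →
    num x 3 ≤ Mx x ^ (a + 1) + 1 →
      Dl x ≤ Mx x ^ a + 1 ∧ num x 3 ≤ Mx x * Dl x ∧ x.length + Mx x * Dl x ≤ Zx x ∧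
      (∀ u, lv (inp x) u → ge γ x u ≤ ds (inp x) (wt x) U u ((inp x).nd (inp x).s) ∧
        (ds (inp x) (wt x) U u ((inp x).nd (inp x).s) ≤ ge γ x u + Dl x / Mx x ∨
          ge γ x u = Mx x * Dl x + 1)) ∧
      ∀ v u, lv (inp x) v → lv (inp x) u → de φ x v u = min (Dl x) (ds (inp x) (wt x) U v u)

/-- STP -/
def StpS : Prop :=
  VzS → CompS → SumS → PotS → EstS → ∀ m e a γ φ, Gap m (9 * e) γ → Ce m (9 * e) a φ →
    Ce m e (a + 1) (stp γ φ)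

def alE (G : ℕ → List Bool → ℕ) : ℕ → ℕ → List Bool → ℕ
  | 0 => G
  | a + 1 => fun e => stp (G (9 * e)) (alE G a (9 * e))

def alG : ℕ → ℕ → List Bool → ℕ
  | 0 => fun e x => an2 (sk1 x) e x
  | j + 1 => fun e => g1 (alE (alG j) (9 * e) (9 * e)) j e

/-! ### The top -/

def Mt (r : ℕ) (x : List Bool) : ℕ := ro r (x.length + 2)

def tp2 (r : ℕ) (φ : List Bool → ℕ) (x : List Bool) : ℕ :=
  φ (vz x (inp x).β (fun d => if us x d then wt x d else num x 3 + 1) (num x 2) (num x 1) (num x 3)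
    (Mt r x))

/-- TOP -/
def TopS : Prop :=
  VzS → RoS → ∀ r φ x, 1 ≤ r → Ce (mm r) (9 * r) (9 * r) φ → (inp x).Ok → num x 2 < num x 0 →
    (tp2 r φ x = 1 ↔ ∃ c ≤ num x 3, Dw (inp x) (us x) (wt x) (num x 1) (num x 2) c)

/-! ### Computability -/

def bm (m : List Bool → ℕ) (x : List Bool) : ℕ := (5000 * m x + 2) ^ 7

/-- PO: a call on a virtual instance is computable. -/
def PoS : Prop :=
  PiK 1 → ∀ m φ : List Bool → ℕ, (∀ κ, Cn κ fun x _ => m x) →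
    (Ev (bm Mx) fun κ => Cn κ fun x _ => φ x) → (∀ y, φ y ≤ 1) →
    ∀ β w : List Bool → ℕ → ℕ, (Ev (bm m) fun κ => (F1 κ fun x _ => β x) ∧ F1 κ fun x _ => w x) →
      Ev (bm m) fun κ => F3 κ fun x => fun u v θ => φ (vz x (β x) (w x) u v θ (m x))

/-- PN: one level. -/
def PnS : Prop :=
  FmC → PiK 1 → PoS → ∀ φ R : List Bool → ℕ, (Ev (bm Mx) fun κ => Cn κ fun x _ => φ x) →
    (∀ y, φ y ≤ 1) → (∀ κ, Cn κ fun x _ => R x) → ∀ l,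
      Ev (bm Mx) fun κ => SkC κ fun x => sk2 φ x (Dz x) (le2 φ x (Dz x) (R x) l)

structure AbC (κ : List Bool → ℕ) (A : List Bool → Ab) (L : ℕ) : Prop where
  n : Cn κ fun x _ => (A x).n
  W : Cn κ fun x _ => (A x).W
  mu : Cn κ fun x _ => (A x).mu
  B : Cn κ fun x _ => (A x).B
  Q : Cn κ fun x _ => (A x).Q
  X : P1 κ fun x _ => (A x).X
  par : F1 κ fun x _ => (A x).par
  ht : F1 κ fun x _ => (A x).ht
  lg : F2 κ fun x => (A x).lg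
  sz : ∀ x, (A x).sz L ≤ κ x

/-- PG: the table is computable. -/
structure PgK (κ : List Bool → ℕ) (A : List Bool → Ab) (L : ℕ) : Prop where
  K : P1 κ fun x _ => (A x).K
  G : ∀ (δ y0 τ y : List Bool → Env → ℕ) (T : List Bool → Env → List ℕ), Cn κ δ → Cn κ y0 →
    Cn κ τ → Cm κ T → Cn κ y → Cn κ fun x ρ => (A x).G L (δ x ρ) (y0 x ρ) (τ x ρ) (T x ρ) (y x ρ)
  rd : ∀ (δ τ m : List Bool → Env → ℕ) (nw : List Bool → Env → List ℕ → ℕ → ℕ), Cn κ δ →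
    Cn κ τ → Cn κ m → (Cn κ fun x ρ => nw x (tl (tl ρ)) (ρ 1) (hd (ρ 0))) →
      Cm κ fun x ρ => (A x).rd L (δ x ρ) (τ x ρ) (nw x ρ) (m x ρ)

def PgS : Prop := ∀ κ A L, AbC κ A L → PgK κ A L

/-- PW: the window algorithm is computable. -/
def PwS : Prop :=
  ∀ κ A L, AbC κ A L → PgK κ A L → ∀ (i : ℕ) (δ y0 τ z : List Bool → Env → ℕ), Cn κ δ →
    Cn κ y0 → Cn κ τ → Cn κ z → Cn κ fun x ρ => (A x).win L i (δ x ρ) (y0 x ρ) (τ x ρ) (z x ρ)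

/-- PA: the final stage is computable. -/
def PaS : Prop :=
  PiK 1 → PgS → PwS → ∀ (e : ℕ) (S : List Bool → Sk), (Ev (bm Mx) fun κ => SkC κ S) →
    Ev (bm Mx) fun κ => Cn κ fun x _ => an2 (S x) e x

/-- PS: one step of the recursion on the threshold is computable. -/
def PsS : Prop :=
  PiK 1 → PoS → ∀ γ φ : List Bool → ℕ, (Ev (bm Mx) fun κ => Cn κ fun x _ => γ x) →
    (Ev (bm Mx) fun κ => Cn κ fun x _ => φ x) → (∀ y, γ y ≤ 1) → (∀ y, φ y ≤ 1) →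
      Ev (bm Mx) fun κ => Cn κ fun x _ => stp γ φ x

/-- PT -/
def PtS : Prop :=
  PiK 1 → PoS → ∀ (r : ℕ) (φ : List Bool → ℕ), (Ev (bm Mx) fun κ => Cn κ fun x _ => φ x) →
    (∀ y, φ y ≤ 1) → Ev (bm (Mt r)) fun κ => Cn κ fun x _ => tp2 r φ x

/-- MCH: the machine. -/
def MchS : Prop :=
  RoS → ∀ ε : ℝ, 0 < ε → ∃ r, 1 ≤ r ∧ ∀ f : List Bool → ℕ,
    (Ev (bm (Mt r)) fun κ => Cn κ fun x _ => f x) → ∃ (M : TM) (c : ℕ), ∀ x : List Bool,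
      M.out (M.run x ((x.length + 2) ^ c)).q = some (f x != 0) ∧
        ∀ t i, ((M.run x t).head i : ℝ) ≤ c * ((x.length : ℝ) + 1) ^ ε

/-- The theorem. -/
def MainS : Prop :=
  ∀ ε : ℝ, 0 < ε → ∃ (M : TM) (c : ℕ), ∀ x : List Bool, ∃ r : Bool,
    M.out (M.run x ((x.length + 2) ^ c)).q = some r ∧
    (∀ t i, ((M.run x t).head i : ℝ) ≤ c * ((x.length : ℝ) + 1) ^ ε) ∧
    ∀ (n : ℕ) (σ α : Equiv.Perm (Fin n)) (dir : Fin n → Bool) (w : Fin n → ℕ) (s t : Fin n)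
      (θ : ℕ), α * α = 1 → Planar σ α → x = code σ α dir w s t θ →
        (r = true ↔ ∃ c ≤ θ, Walk σ α dir w s t c)

end

end Pool.Agent.MP_1a6d78_lc.DS.DD
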