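import Pool.Agent.MP_1a6d78_lc.DD.Basic

/-! PROJECT DD, row STP: from the gap to the exact answer, one step. -/

namespace Pool.Agent.MP_1a6d78_lc.DS.DD

open Classical ED PR

namespace StpL

variable {M : Mp} {w w' p : ℕ → ℕ} {u v c : ℕ}

theorem tel1 (h : ∀ d < M.n, M.β d ≠ d → w' d + p (M.nd d) = w d + p (M.nd (M.β d)))
    (k : Wk M w' U u v c) : ∃ c', Wk M w U u v c' ∧ c + p u = c' + p v := by
  induction k with
  | nil k => exact ⟨0, .nil k, rfl⟩
  | @step v v' c d _ a b e e' k ih =>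
    obtain ⟨c0, i1, i2⟩ := ih
    subst e e'
    exact ⟨c0 + w d, i1.step a b rfl rfl k, by have := h d a b; omega⟩

theorem tel2 (h : ∀ d < M.n, M.β d ≠ d → w' d + p (M.nd d) = w d + p (M.nd (M.β d)))
    (k : Wk M w U u v c) : ∃ c', Wk M w' U u v c' ∧ c' + p u = c + p v := by
  induction k with
  | nil k => exact ⟨0, .nil k, rfl⟩
  | @step v v' c d _ a b e e' k ih =>
    obtain ⟨c0, i1, i2⟩ := ih
    subst e e'
    exact ⟨c0 + w' d, i1.step a b rfl rfl k, by have := h d a b; omega⟩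

end StpL

theorem stpS : StpS := by
  intro hV hC hS hP hE m e a γ φ hγ hφ x hx hθ
  obtain ⟨h1, h2, h3, h4, h5⟩ := hE hV hC m e a γ φ x hγ hφ hx hθ
  have ok := hx.p.ok
  have hl := hC.1 (inp x) (wt x) ok
  have nd : ∀ d < (inp x).n, Rc (inp x) (wt x) U ((inp x).nd (inp x).s) ((inp x).nd d) →
      lv (inp x) ((inp x).nd d) := fun d hd k =>
    (hl _).2 ⟨(Mp.nd_spec hd).1, Mp.nd_nd ok.pm hd, k⟩
  have ls := nd _ ok.s ⟨0, .nil trivial⟩
  have rc : ∀ u v, lv (inp x) u → lv (inp x) v → Rc (inp x) (wt x) U u v := fun u v p q =>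
    rc_trans (rc_symm ok.iv ((hl u).1 p).2.2) ((hl v).1 q).2.2
  obtain ⟨p1, p2, p3, p4⟩ := hP hS (num x 0) (lv (inp x)) (ge γ x) (de φ x)
    (ds (inp x) (wt x) U) (Dl x) (Dl x / Mx x) (Mx x) _
    (fun v k => ⟨((hl v).1 k).1, ds_self trivial⟩) ls
    (fun u v z p q r => ds_tri (rc u v p q) (rc v z q r)) h4 h5
  change px γ φ x _ = 0 at p1
  change ∀ v, px γ φ x v ≤ _ at p2
  change ∀ u v, _ → _ → px γ φ x u ≤ _ + px γ φ x v at p3
  change ∀ v, _ → _ → _ ≤ px γ φ x v + _ at p4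
  have ed : ∀ d < (inp x).n, (inp x).β d ≠ d →
      wr γ φ x d + px γ φ x ((inp x).nd d) = wt x d + px γ φ x ((inp x).nd ((inp x).β d)) := by
    intro d hd hb
    have o : Wk (inp x) (wt x) U _ _ _ := Wk.one hd hb trivial trivial
    have : px γ φ x ((inp x).nd d) ≤ wt x d + px γ φ x ((inp x).nd ((inp x).β d)) := by
      by_cases k : lv (inp x) ((inp x).nd d)
      · exact (p3 _ _ k (nd _ (ok.iv d hd).1 (rc_trans ((hl _).1 k).2.2 ⟨_, o⟩))).trans
          (Nat.add_le_add_right (ds_le o) _)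
      · exact (if_neg k).trans_le (Nat.zero_le _)
    unfold wr
    omega
  have m2 := hx.p.M
  have z1 : Dl x ≤ Mx x * Dl x := Nat.le_mul_of_pos_left _ (by omega)
  obtain ⟨v1, v2, v3, v4⟩ := hV m e x (inp x).β (wr γ φ x) (inp x).s (inp x).t
    (min (num x 3 - px γ φ x ((inp x).nd (inp x).t)) (Dl x)) (Mx x) (ok_alt ok ok.s _) hx.t
    (by omega) (Mx_le x) (fun d _ => by
      have := p2 ((inp x).nd ((inp x).β d))
      have : wt x d ≤ x.length := nle x _
      unfold wr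
      omega) m2 hx.p.len (by rw [csz_alt, csz_wt _ (wt x)]; exact hx.sz)
  have key := hφ _ v1 (by rw [v2, v3]; omega)
  rw [v3, v4] at key
  unfold stp
  constructor
  · intro h
    split_ifs at h with k
    obtain ⟨c, c1, c2⟩ := key.1 h
    obtain ⟨c', d1, d2⟩ := StpL.tel1 ed (wk_alt.1 c2)
    exact ⟨c', by omega, d1⟩
  · rintro ⟨c, c1, c2⟩
    have lt := nd _ hx.t (rc_symm ok.iv ⟨_, c2⟩)
    have q1 := ds_le c2
    have q2 := p3 _ _ lt ls
    have q3 := p4 _ lt (by omega)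
    have q4 := Nat.mul_div_le (Dl x) (Mx x)
    obtain ⟨c', d1, d2⟩ := StpL.tel2 ed (ds_spec ⟨_, c2⟩)
    rw [if_pos ⟨lt, by omega⟩]
    exact key.2 ⟨c', by omega, wk_alt.2 d1⟩

end Pool.Agent.MP_1a6d78_lc.DS.DD
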