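import Pool.Agent.MP_1a6d78_lc.DD.Basic

/-! PROJECT DD, rows SUB and SC: calls on the map without `K`, and scaling of the weights. -/

namespace Pool.Agent.MP_1a6d78_lc.DS.DD

open Classical ED PR

namespace SubL

variable {M : Mp} {K : ℕ → Prop} {w : ℕ → ℕ} {d u v a b c : ℕ}

theorem on (h1 : ¬K (M.nd d)) (h2 : ¬K (M.nd (M.β d))) : sub M K d = M.β d := if_pos ⟨h1, h2⟩

theorem ne (h : sub M K d ≠ d) : ¬K (M.nd d) ∧ ¬K (M.nd (M.β d)) ∧ sub M K d = M.β d := by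
  by_cases k : ¬K (M.nd d) ∧ ¬K (M.nd (M.β d))
  · exact ⟨k.1, k.2, if_pos k⟩
  · exact absurd (if_neg k) h

theorem sb : Sb M.n (sub M K) M.β := fun _ _ => (Classical.em _).imp id fun h => (ne h).2.2

theorem iv (h : Iv M.n M.β) : Iv M.n (sub M K) := fun d hd => by
  by_cases k : sub M K d = d
  · rw [k, k]
    exact ⟨hd, rfl⟩
  · obtain ⟨k1, k2, k3⟩ := ne k
    rw [k3, on k2 (by rw [(h d hd).2]; exact k1)]
    exact h d hd

theorem down (h : Wk (alt M (sub M K) u v) w U a b c) (ha : ¬K a) :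
    Wk M w (fun z => ¬K z) a b c := by
  induction h with
  | nil _ => exact .nil ha
  | @step y y' c d _ k1 k2 k3 k4 _ ih =>
    obtain ⟨_, j2, j3⟩ := ne (M := M) (K := K) (d := d) k2
    have k5 : M.nd (M.β d) = y' := j3 ▸ k4
    exact ih.step k1 (fun e => k2 (j3.trans e)) k3 k5 (k5 ▸ j2)

theorem up (h : Wk M w (fun z => ¬K z) a b c) : Wk (alt M (sub M K) u v) w U a b c := by
  induction h with
  | nil _ => exact .nil trivial
  | @step y y' c d p k1 k2 k3 k4 k5 ih =>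
    have j : sub M K d = M.β d := on (k3 ▸ p.mem.2) (k4 ▸ k5)
    exact ih.step k1 (fun e => k2 (j.symm.trans e)) k3
      ((congrArg M.nd j).trans k4) trivial

theorem ok (h : M.Ok) (hu : u < M.n) : (alt M (sub M K) u v).Ok :=
  ⟨h.pm, iv h.iv, h.pl.sub sb, hu⟩

theorem ar {n θ c Q : ℕ} (hQ : 0 < Q)
    (h : (2 * n + 2) * c ≤ (2 * n + 2) * θ + n + ((2 * n + 2) * θ + n + 1) / Q) :
    c ≤ θ + 2 * (θ + 1) / Q := by
  rcases le_or_gt c θ with k | k
  · exact k.trans (Nat.le_add_right _ _)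
  obtain ⟨j, rfl⟩ := Nat.exists_eq_add_of_lt k
  have h1 := Nat.div_mul_le_self ((2 * n + 2) * θ + n + 1) Q
  generalize ((2 * n + 2) * θ + n + 1) / Q = r at h h1
  have h2 : (n + 1) * (j + 1) ≤ r := by nlinarith [Nat.zero_le (n * j)]
  have h3 : (n + 1) * ((j + 1) * Q) ≤ (n + 1) * (2 * θ + 1) := by
    have := Nat.mul_le_mul_right Q h2
    nlinarith
  have h4 := Nat.le_of_mul_le_mul_left h3 (Nat.succ_pos n)
  have h5 : j + 1 ≤ 2 * (θ + 1) / Q := (Nat.le_div_iff_mul_le hQ).2 (by omega)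
  exact Nat.add_le_add_left h5 θ

end SubL

theorem subS2 : SubS := by
  intro vz m e φ x live K hc hp hl hs u v lu ku lv kv
  have key : ∀ θ < Zx x + 1, (θ = Zx x ∨
      φ (DD.vz x (sub (inp x) K) (w1 x) v u θ (Mx x)) = 1) ↔ (θ = Zx x ∨
      ∃ c ≤ θ, Wk (inp x) (w1 x) (fun z => ¬K z) u v c) := fun θ hθ => by
    obtain ⟨a1, a2, a3, a4⟩ := vz m e x (sub (inp x) K) (w1 x) v u θ (Mx x)
      (SubL.ok hp.ok (hl v lv).1) (hl u lu).1 (by omega) (Mx_le x) (fun d _ => (w1_big x d).2)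
      hp.M hp.len (by
        rw [(hl v lv).2]
        exact le_trans (cnt_mono fun a _ k => ⟨k.1, k.2.imp fun c j => SubL.down j kv⟩)
          (hs v lv kv))
    have b : θ ≤ Mx x ^ (9 * e) + 1 := by
      have := hp.Z
      have := Nat.pow_le_pow_right (n := Mx x) (by have := hp.M; omega)
        (show 4 * e ≤ 9 * e by omega)
      omega
    rw [hc _ a1 (by rw [a2, a3]; exact b), a3, a4, (hl u lu).2, (hl v lv).2]
    exact or_congr_right (exists_congr fun c => and_congr_right fun _ =>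
      ⟨fun k => SubL.down k ku, SubL.up⟩)
  rw [or2, lst_congr key]
  obtain ⟨-, h2⟩ := lst_spec (n := Zx x + 1) (P := fun θ => θ = Zx x ∨
    ∃ c ≤ θ, Wk (inp x) (w1 x) (fun z => ¬K z) u v c) ⟨_, Nat.lt_succ_self _, Or.inl rfl⟩
  split_ifs with h
  · have h4 := (hp.wo.ds_lt h (hl u lu).1).le
    refine le_antisymm (lst_le (by omega) (Or.inr ⟨_, le_rfl, ds_spec h⟩)) ?_
    rcases h2 with h2 | ⟨c, h5, h6⟩
    · exact h2.symm ▸ h4
    · exact (ds_le h6).trans h5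
  · exact h2.resolve_right fun ⟨c, _, k⟩ => h ⟨c, k⟩

theorem scS : ScS := by
  intro e x hp ht
  refine ⟨le_trans ?_ hp.Z, ?_, ?_⟩
  · have a := nle x 0
    have b := nle x 3
    have c : th1 x ≤ (2 * x.length + 2) * x.length + x.length :=
      Nat.add_le_add (Nat.mul_le_mul (by omega) b) a
    unfold Zx
    nlinarith [Nat.zero_le (x.length ^ 4), Nat.zero_le (x.length ^ 3), Nat.zero_le (x.length ^ 2)]
  · rintro ⟨c, h1, h2⟩
    obtain ⟨c', k1, k2⟩ := h2.hop hp.ok.iv (w' := w1 x) (a := 2 * num x 0 + 2) (b := 1)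
      (fun _ _ _ => le_rfl) (Mp.nd_spec ht).1
    refine ⟨c', k2.trans ?_, k1⟩
    have := Nat.mul_le_mul_left (2 * num x 0 + 2) h1
    have e : (inp x).n = num x 0 := rfl
    unfold th1
    omega
  · rintro ⟨c', h1, h2⟩
    obtain ⟨c, k1, k2⟩ := h2.wle (w := wt x) (a := 2 * num x 0 + 2)
      fun _ _ _ => Nat.le_succ _
    have := hp.M
    exact ⟨c, SubL.ar (n := num x 0) (by positivity) (k2.trans h1), k1⟩

end Pool.Agent.MP_1a6d78_lc.DS.DD
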