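import Pool.Agent.MP_1a6d78_lc.DD.Basic

/-! PROJECT DD: two inequalities between sums of layers. -/

namespace Pool.Agent.MP_1a6d78_lc.DS.DD

open Classical ED PR

namespace SumL

theorem one {Δ η c fx fy : ℕ} {a b : ℕ → ℕ} (h : fx ≤ c + fy) (m : ℕ)
    (k : ∀ j < m, a j ≤ c + b j ∧ a j ≤ Δ - η ∧ a j ≤ fx - j * Δ ∧
      min (Δ - η) (fy - j * Δ - η) ≤ b j) :
    ∑ j ∈ Finset.range m, a j ≤ c + ∑ j ∈ Finset.range m, b j ∧
      (∑ j ∈ Finset.range m, a j + fy ≤ ∑ j ∈ Finset.range m, b j + m * Δ ∨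
        ∑ j ∈ Finset.range m, a j ≤ ∑ j ∈ Finset.range m, b j) := by
  induction m with
  | zero => simp
  | succ m ih =>
    have i := ih fun j hj => k j (Nat.lt_succ_of_lt hj)
    have l := k m (Nat.lt_succ_self m)
    rw [Finset.sum_range_succ, Finset.sum_range_succ, Nat.succ_mul]
    omega

theorem two {Δ η f : ℕ} {b : ℕ → ℕ} (m : ℕ)
    (k : ∀ j < m, min (Δ - η) (f - j * Δ - η) ≤ b j) :
    min f (m * Δ) ≤ ∑ j ∈ Finset.range m, b j + m * η := by
  induction m with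
  | zero => simp
  | succ m ih =>
    have i := ih fun j hj => k j (Nat.lt_succ_of_lt hj)
    have l := k m (Nat.lt_succ_self m)
    rw [Finset.sum_range_succ, Nat.succ_mul, Nat.succ_mul]
    omega

end SumL

theorem sumS : SumS :=
  ⟨fun m _ _ _ _ _ _ _ h k => (SumL.one h m k).1,
    fun m _ _ _ _ h k => (min_eq_left h).symm.trans_le (SumL.two m k)⟩

end Pool.Agent.MP_1a6d78_lc.DS.DD
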