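import Pool.Agent.MP_1a6d78_lc.DD.Basic

/-! PROJECT DD: the tables. -/

namespace Pool.Agent.MP_1a6d78_lc.DS.DD

open Classical ED PR

namespace TabL

theorem pair {a b m n : ℕ} (ha : a < m) (hb : b < n) :
    a * n + b < m * n ∧ (a * n + b) / n = a ∧ (a * n + b) % n = b := by
  refine ⟨?_, ?_, ?_⟩
  · have := Nat.mul_le_mul_right n (Nat.succ_le_of_lt ha)
    rw [Nat.succ_mul] at this
    omega
  · rw [Nat.add_comm, Nat.add_mul_div_right _ _ (by omega), Nat.div_eq_of_lt hb, Nat.zero_add]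
  · rw [Nat.add_comm, Nat.add_mul_mod_self_right, Nat.mod_eq_of_lt hb]

variable {A : Ab} {L : ℕ} {D : ℕ → ℕ → ℕ}

theorem qpos (A : Ab) : 0 < A.Qn := Nat.succ_pos _

theorem htlt (h : A.Ok L D) {y : ℕ} (hy : A.K y) : A.ht y < L * A.W :=
  (Nat.div_lt_iff_lt_mul h.W).1 (h.lev y hy)

theorem idx {a l q : ℕ} (ha : a < A.mu) (hl : l < L) (hq : q < A.Qn) :
    (a * L + l) * A.Qn + q < A.sz L := (pair (pair ha hl).1 hq).1

theorem entry {a l q : ℕ} (ha : a < A.mu) (hl : l < L) (hq : q < A.Qn) (δ τ : ℕ) (nw : ℕ → ℕ) :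
    gt (A.mkT L δ τ nw) ((a * L + l) * A.Qn + q) = mn A.n
      (fun b => A.bel b (sel A.n A.X a) ∧ A.lv b = l ∧ nw b ≤ A.th δ τ b q) A.ht (L * A.W) := by
  rw [Ab.mkT, gt_tb _ (idx ha hl hq), (pair (pair ha hl).1 hq).2.1, (pair (pair ha hl).1 hq).2.2,
    (pair ha hl).2.1, (pair ha hl).2.2]

theorem sound (h : A.Ok L D) {δ y0 τ : ℕ} {T : List ℕ} (h0 : A.K y0)
    (k : ∀ z a q, A.K z → a < A.mu → q < A.Qn → A.bel z (sel A.n A.X a) →
      gt T ((a * L + A.lv z) * A.Qn + q) ≤ A.ht z → A.W + D z y0 ≤ A.th δ τ z q) :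
    A.Sd D y0 (A.G L δ y0 τ T) := by
  intro z hz
  unfold Ab.G
  split_ifs with e
  · rw [e, h.refl y0 h0]
    exact le_rfl
  · refine le_mn (by have := h.big z y0 hz h0; omega) fun i hi p => ?_
    exact k z _ _ hz ((Nat.div_lt_iff_lt_mul (qpos A)).2 hi) (Nat.mod_lt _ (qpos A)) p.1 p.2

end TabL

open TabL in
theorem tabS : TabS := by
  intro A L D h
  refine ⟨fun δ y0 τ h0 => sound h h0 fun z a q hz ha hq _ p => ?_,
    fun δ y0 τ nw h0 hn => sound h h0 fun z a q hz ha hq b p => ?_,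
    fun δ y0 τ nw y v hy h1 h2 h3 h4 => ?_⟩
  · rw [gt_tb _ (idx ha (h.lev z hz) hq)] at p
    exact absurd (htlt h hz) (not_lt.2 p)
  · rw [entry ha (h.lev z hz) hq] at p
    have k := htlt h hz
    rcases mn_eq A.n (fun b => A.bel b (sel A.n A.X a) ∧ A.lv b = A.lv z ∧ nw b ≤ A.th δ τ b q)
      A.ht (L * A.W) with e | ⟨u, -, ⟨u1, u2, u3⟩, e⟩
    · omega
    · rw [e] at p
      have ku : A.K u := ⟨_, u1⟩
      have s1 := h.sld _ u z u1 b u2 p
      have s2 := h.tri z u y0 hz ku h0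
      have s3 := hn u ku
      simp only [Ab.th, Ab.lo, u2] at u3 ⊢
      omega
  · unfold Ab.G
    split_ifs with e
    · exact h2.trans (Nat.le_add_right _ _)
    obtain ⟨x, hx⟩ := id hy
    have hb : A.bel y x := hx
    obtain ⟨c1, c2⟩ := sel_cnt hb.1 hb.2.1
    have ha : cnt x A.X < A.mu := c2.trans_le h.mu
    obtain ⟨q, q1, q2, q3⟩ : ∃ q, q < A.Qn ∧ v ≤ A.th δ τ y q ∧ A.th δ τ y q ≤ v + δ / A.Q := by
      unfold Ab.th Ab.Qn
      generalize δ / A.Q = r at h4 ⊢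
      generalize A.lo τ y = l at h3 h4 ⊢
      have d1 := Nat.div_add_mod (v - l + r) (r + 1)
      have r0 : 0 < r + 1 := Nat.succ_pos r
      have d2 := Nat.mod_lt (v - l + r) r0
      rw [Nat.mul_comm] at d1
      refine ⟨(v - l + r) / (r + 1), (Nat.div_lt_iff_lt_mul r0).2 ?_, by omega, by omega⟩
      rw [Nat.add_mul (2 * A.Q)]
      omega
    obtain ⟨p1, p2, p3⟩ := pair ha q1
    refine (mn_le p1 ?_).trans ?_
    · rw [p2, p3, c1, entry ha (h.lev y hy) q1, c1]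
      exact ⟨hb, mn_le (h.lt y hy) ⟨hb, rfl, h1.trans q2⟩⟩
    · rw [p3]
      exact q3

end Pool.Agent.MP_1a6d78_lc.DS.DD
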