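import Pool.Agent.MP_1a6d78_lc.DD.Basic

/-! PROJECT DD, row TOP: a directed instance is an instance with asymmetric weights. -/

namespace Pool.Agent.MP_1a6d78_lc.DS.DD

open Classical ED PR

namespace TopL

variable {x : List Bool}

noncomputable def wu (x : List Bool) (d : ℕ) : ℕ := if us x d then wt x d else num x 3 + 1

theorem nd_rho (hO : (inp x).Ok) {a : ℕ} (ha : a < num x 0) :
    (inp x).nd ((inp x).ρ a) = (inp x).nd a :=
  ((Mp.nd_iff hO.pm ha (hO.pm.1 a ha)).2 (Sc.step hO.pm.1 ha)).symm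

theorem fwd (hO : (inp x).Ok) {a c : ℕ} (h : Dw (inp x) (us x) (wt x) (num x 1) a c) :
    a < num x 0 ∧
      ∃ c' ≤ c, Wk (inp x) (wu x) U ((inp x).nd (num x 1)) ((inp x).nd a) c' := by
  induction h with
  | nil => exact ⟨hO.s, 0, le_rfl, .nil trivial⟩
  | @rot a c _ ih =>
    rw [nd_rho hO ih.1]
    exact ⟨hO.pm.1 a ih.1, ih.2⟩
  | @edge a c _ k ih =>
    obtain ⟨i1, c', i2, i3⟩ := ih
    refine ⟨(hO.iv a i1).1, ?_⟩
    by_cases q : (inp x).β a = a
    · rw [q]; exact ⟨c', by omega, i3⟩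
    · refine ⟨c' + wu x a, ?_, i3.step (d := a) i1 q rfl rfl trivial⟩
      rw [wu, if_pos k]
      omega

theorem rot_all (hO : (inp x).Ok) {a b c : ℕ} (ha : a < num x 0) (hb : b < num x 0)
    (e : (inp x).nd b = (inp x).nd a) (h : Dw (inp x) (us x) (wt x) (num x 1) a c) :
    Dw (inp x) (us x) (wt x) (num x 1) b c :=
  Sc.ind hO.pm.1 (Q := fun d => Dw (inp x) (us x) (wt x) (num x 1) d c) ha h
    (fun _ _ k => k.rot) ((Mp.nd_iff hO.pm ha hb).1 e.symm)

theorem bwd (hO : (inp x).Ok) {v c : ℕ}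
    (h : Wk (inp x) (wu x) U ((inp x).nd (num x 1)) v c) (hc : c ≤ num x 3) :
    ∀ a < num x 0, (inp x).nd a = v → Dw (inp x) (us x) (wt x) (num x 1) a c := by
  induction h with
  | nil _ => exact fun a ha e => rot_all hO hO.s ha e .nil
  | @step v v' c d _ hd hb e1 e2 _ ih =>
    intro a ha ea
    unfold wu at hc ⊢
    by_cases k : us x d
    · rw [if_pos k] at hc ⊢
      exact rot_all hO (hO.iv d hd).1 ha (ea.trans e2.symm) ((ih (by omega) d hd e1).edge k)
    · rw [if_neg k] at hc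
      omega

end TopL

open TopL in
theorem topS2 : TopS := by
  intro hV hR r φ x hr hC hO ht
  obtain ⟨-, r1, -, r2⟩ := hR r (x.length + 2) hr
  change _ < Mt r x ^ r at r1
  change Mt r x ≤ _ at r2
  have hZ := le_Z x
  have h0 := nle x 0
  have h3 := nle x 3
  have hm : 2 ≤ Mt r x := by
    by_contra q
    have := Nat.pow_le_pow_left (show Mt r x ≤ 1 by omega) r
    rw [one_pow] at this
    omega
  have hs : csz (alt (inp x) (inp x).β (num x 2) (num x 1)) (wu x) U ((inp x).nd (num x 2)) ≤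
      mm r (Mt r x) := by
    refine (cnt_le _ _).trans (le_trans ?_ (Nat.le_mul_of_pos_left _ (by positivity)))
    change num x 0 ≤ _
    omega
  obtain ⟨k1, k2, k3, k4⟩ := hV (mm r) r x (inp x).β (wu x) (num x 2) (num x 1) (num x 3) (Mt r x)
    (ok_alt hO ht _) hO.s (by omega) (by omega) (fun d _ => by
      have : wt x d ≤ x.length := nle x _
      unfold wu
      split_ifs <;> omega) hm r1.le hs
  have key := hC _ k1 (by
    rw [k2, k3]
    have := Nat.pow_le_pow_right (show 0 < Mt r x by omega) (show r ≤ 9 * r by omega)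
    omega)
  rw [k3, k4] at key
  refine Iff.trans key ⟨fun ⟨c, hc, hw⟩ => ⟨c, hc, bwd hO (wk_alt.1 hw) hc _ ht rfl⟩,
    fun ⟨c, hc, hw⟩ => ?_⟩
  obtain ⟨-, c', a, b⟩ := fwd hO hw
  exact ⟨c', a.trans hc, wk_alt.2 b⟩

end Pool.Agent.MP_1a6d78_lc.DS.DD
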