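import Pool.Agent.MP_1a6d78_lc.DD.Basic

/-! PROJECT DD, row VZ: the virtual instance. -/

namespace Pool.Agent.MP_1a6d78_lc.DS.DD

open Classical ED PR ED.RowKk ED.Code

namespace VzL

/-- Two maps that agree on the darts. -/
structure Ag (M M' : Mp) : Prop where
  n : M'.n = M.n
  ρ : ∀ d < M.n, M'.ρ d = M.ρ d
  β : ∀ d < M.n, M'.β d = M.β d

variable {M M' : Mp} {w w' : ℕ → ℕ}

theorem Ag.symm (h : Ag M M') : Ag M' M :=
  ⟨h.n.symm, fun d k => (h.ρ d (h.n ▸ k)).symm, fun d k => (h.β d (h.n ▸ k)).symm⟩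

theorem Ag.pm (h : Ag M M') (p : Pm M.n M.ρ) : Pm M'.n M'.ρ := by
  rw [h.n]
  exact ⟨fun d k => h.ρ d k ▸ p.1 d k, fun a ha b hb e =>
    p.2 a ha b hb (by rw [← h.ρ a ha, e, h.ρ b hb])⟩

theorem Ag.iv (h : Ag M M') (p : Iv M.n M.β) : Iv M'.n M'.β := by
  rw [h.n]
  intro d k
  rw [h.β d k, h.β _ (p d k).1]
  exact p d k

theorem Ag.pl (h : Ag M M') (p : Pm M.n M.ρ) (q : Pl M.n M.ρ M.β) : Pl M'.n M'.ρ M'.β := by
  rw [h.n]
  intro γ h1 h2 a ha e k
  rw [h.β a ha] at k ⊢
  refine Sc.congr (p.comp h1.pm).1 (fun d hd => (h.ρ _ (h1 d hd).1).symm) ha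
    (q γ h1 (fun d hd => h.β d hd ▸ h2 d hd) a ha e ?_)
  exact Conn.ind ⟨Conn.refl _ _ _, Conn.symm, Conn.trans⟩
    (fun d hd => by rw [h.ρ d hd]; exact Conn.rho _ _ hd) (fun d hd => Conn.gam _ _ hd) k

theorem Ag.nd (h : Ag M M') (p : Pm M.n M.ρ) {d : ℕ} (hd : d < M.n) : M'.nd d = M.nd d := by
  unfold Mp.nd
  rw [h.n]
  exact lst_congr fun m _ => ⟨Sc.congr (fun a k => h.ρ a k ▸ p.1 a k) h.ρ hd,
    Sc.congr p.1 (fun a k => (h.ρ a k).symm) hd⟩

theorem Ag.wk (h : Ag M M') (p : Pm M.n M.ρ) (q : Iv M.n M.β) (hw : ∀ d < M.n, w' d = w d)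
    {A : ℕ → Prop} {u v c : ℕ} (k : Wk M w A u v c) : Wk M' w' A u v c := by
  induction k with
  | nil k => exact .nil k
  | @step v v' c d _ a b e e' k ih =>
    rw [← hw d a]
    exact ih.step (h.n ▸ a) (by rw [h.β d a]; exact b) (by rw [h.nd p a, e])
      (by rw [h.β d a, h.nd p (q d a).1, e']) k

theorem Ag.wk_iff (h : Ag M M') (p : Pm M.n M.ρ) (q : Iv M.n M.β) (hw : ∀ d < M.n, w' d = w d)
    {A : ℕ → Prop} {u v c : ℕ} : Wk M' w' A u v c ↔ Wk M w A u v c :=
  ⟨h.symm.wk (h.pm p) (h.iv q) fun d k => (hw d (h.n ▸ k)).symm, h.wk p q hw⟩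

theorem Ag.csz (h : Ag M M') (p : Pm M.n M.ρ) (q : Iv M.n M.β) (hw : ∀ d < M.n, w' d = w d)
    (A : ℕ → Prop) (u : ℕ) : csz M' w' A u = csz M w A u := by
  unfold DS.csz
  rw [h.n]
  exact cnt_congr fun a k => by
    rw [h.nd p k]
    exact and_congr_right fun _ => exists_congr fun c => h.wk_iff p q hw

theorem num_vz (x : List Bool) (β w : ℕ → ℕ) (u v θ m : ℕ) {i : ℕ}
    (h : i < 4 + num x 0 + num x 0 + num x 0) :
    num (vz x β w u v θ m) i = ent x β w u v θ i := by
  rw [vz, num_unary]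
  exact (gt_tb _ (by omega)).trans (if_neg h.ne)

theorem le_Zx (x : List Bool) : x.length ≤ Zx x :=
  (Nat.le_add_right _ 2).trans (Nat.le_self_pow (by omega) _)

theorem un_len {e : ℕ → ℕ} {N : ℕ} (h : ∀ i, e i ≤ N) :
    ∀ M, (unary (tab M e)).length ≤ M * (N + 1)
  | 0 => by simp [unary, tab]
  | M + 1 => by
    have k : unary (tab (M + 1) e) = unary (tab M e) ++ (List.replicate (e M) true ++ [false]) := by
      simp [unary, tab, List.range_succ]
    have a := un_len h M
    have b := h M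
    rw [k, List.length_append, List.length_append, List.length_replicate, List.length_singleton,
      Nat.succ_mul]
    omega

theorem len_vz (x : List Bool) (β w : ℕ → ℕ) (u v θ m : ℕ) :
    (vz x β w u v θ m).length + 2 ≤ (x.length + 2) ^ 9 := by
  have a : (vz x β w u v θ m).length ≤ _ := un_len (N := Zx x) (fun i => by
    unfold en2
    split_ifs <;> exact min_le_left _ _) _
  have b := num_le x 0
  have c : 2 ^ 4 ≤ Zx x := Nat.pow_le_pow_left (by omega) 4
  have d := a.trans (Nat.mul_le_mul (show _ ≤ 3 * (x.length + 2) by omega)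
    (show _ ≤ 2 * Zx x by omega))
  have e : (x.length + 2) ^ 9 = Zx x * ((x.length + 2) * Zx x) := by rw [Zx]; ring
  have f : 2 * 2 ^ 4 ≤ (x.length + 2) * Zx x := Nat.mul_le_mul (by omega) c
  rw [e]
  nlinarith [Nat.mul_le_mul_right ((x.length + 2) * Zx x) c]

end VzL

open VzL in
theorem vzS : VzS := by
  intro mf e x β w u v θ m ok hv hθ hm hz m2 hl hs
  have hu : u < num x 0 := ok.s
  have hn : ∀ i, num x i ≤ Zx x := fun i => (num_le x i).trans (le_Zx x)
  have h00 := hn 0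
  have n0 : num (vz x β w u v θ m) 0 = num x 0 := by
    rw [num_vz _ _ _ _ _ _ _ (by omega), ent, if_pos rfl, min_eq_right h00]
  have n1 : num (vz x β w u v θ m) 1 = u := by
    rw [num_vz _ _ _ _ _ _ _ (by omega), ent, if_neg (by omega), if_pos rfl,
      min_eq_right (by omega)]
  have n2 : num (vz x β w u v θ m) 2 = v := by
    rw [num_vz _ _ _ _ _ _ _ (by omega), ent, if_neg (by omega), if_neg (by omega), if_pos rfl,
      min_eq_right (by omega)]
  have n3 : num (vz x β w u v θ m) 3 = θ := by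
    rw [num_vz _ _ _ _ _ _ _ (by omega), ent, if_neg (by omega), if_neg (by omega),
      if_neg (by omega), if_pos rfl, min_eq_right hθ]
  have nm : Mx (vz x β w u v θ m) = m := by
    rw [Mx, n0, vz, num_unary]
    exact (gt_tb _ (by omega)).trans ((if_pos rfl).trans (min_eq_right hm))
  have ag : Ag (alt (inp x) β u v) (inp (vz x β w u v θ m)) := by
    refine ⟨n0, fun d k => ?_, fun d k => ?_⟩
    · change d < num x 0 at k
      change num _ (4 + d) = num x (4 + d)
      rw [num_vz _ _ _ _ _ _ _ (by omega), ent, if_neg (by omega), if_neg (by omega),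
        if_neg (by omega), if_neg (by omega), if_pos (by omega), min_eq_right (hn _)]
    · have b : β d < num x 0 := (ok.iv d k).1
      change d < num x 0 at k
      change num _ (4 + num _ 0 + d) = β d
      rw [n0, num_vz _ _ _ _ _ _ _ (by omega), ent, if_neg (by omega), if_neg (by omega),
        if_neg (by omega), if_neg (by omega), if_neg (by omega), if_pos (by omega),
        Nat.add_sub_cancel_left, min_eq_right (by omega)]
  have aw : ∀ d < (alt (inp x) β u v).n, wt (vz x β w u v θ m) d = w d := fun d k => by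
    change d < num x 0 at k
    rw [wt, n0, num_vz _ _ _ _ _ _ _ (by omega), ent, if_neg (by omega), if_neg (by omega),
      if_neg (by omega), if_neg (by omega), if_neg (by omega), if_neg (by omega),
      Nat.add_sub_cancel_left, min_eq_right (hz d k)]
  have e1 : (inp (vz x β w u v θ m)).nd (inp (vz x β w u v θ m)).s = (inp x).nd u := by
    change (inp _).nd (num _ 1) = _
    rw [n1]
    exact ag.nd ok.pm hu
  have e2 : (inp (vz x β w u v θ m)).nd (inp (vz x β w u v θ m)).t = (inp x).nd v := by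
    change (inp _).nd (num _ 2) = _
    rw [n2]
    exact ag.nd ok.pm hv
  refine ⟨⟨⟨⟨ag.pm ok.pm, ag.iv ok.iv, ag.pl ok.pm ok.pl,
    show num _ 1 < num _ 0 by rw [n0, n1]; exact hu⟩, nm.symm ▸ m2, ?_⟩,
    show num _ 2 < num _ 0 by rw [n0, n2]; exact hv, ?_⟩, nm, n3, fun θ' => ?_⟩
  · rw [nm, mul_comm, pow_mul]
    exact (len_vz ..).trans (Nat.pow_le_pow_left hl 9)
  · rw [e1, nm, ag.csz ok.pm ok.iv aw]
    exact hs
  · rw [Rw, e1, e2]
    exact exists_congr fun c => and_congr_right fun _ => ag.wk_iff ok.pm ok.iv aw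

end Pool.Agent.MP_1a6d78_lc.DS.DD
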